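import Pool.Agent.Lib.helper82.Arith

/-! More closure properties of polynomial time: unary numbers, indexing, sums, powers. -/

namespace Pool.Agent.Lib.MP_9bdb70_lc

open Pool.Agent.Lib.helper82 PT

attribute [fun_prop] PT PT.id PT.const PT.comp PT.pair PT.fst PT.snd PT.cons PT.append PT.tail
  PT.headD PT.isEmpty PT.cond PT.and PT.or PT.not PT.flatMap PT.map PT.filter PT.any PT.all
  PT.add PT.mul PT.length PT.eq PT.mem PT.iteEq PT.le PT.lt

variable {α β σ : Type} [Enc α] [Enc β] [Enc σ]

omit [Enc β] in
lemma scan_count : ∀ (l : List β) (n : ℕ),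
    scan (fun (k : ℕ) (_ : β) => k + 1) n l = (l.zipIdx n).map fun p => (p.2, p.1)
  | [], _ => rfl
  | b :: l, n => by simp [scan, scan_count l]

lemma enum_pt [Inhabited β] {f : α → List β} (hf : PT f) :
    PT fun a => (f a).zipIdx.map fun p => (p.2, p.1) :=
  (scan_pt (h := fun (k : ℕ) (_ : β) => k + 1) hf (const 0) (succ fst') 2 fun s _ => by
    have := sz_add_le s 1
    have := sz_nat_le_self 1
    omega).congr fun _ => scan_count _ _

@[fun_prop] lemma range_pt [Inhabited β] {f : α → List β} (hf : PT f) :
    PT fun a => List.range (f a).length :=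
  (map (F := fun _ (p : ℕ × β) => p.1) (enum_pt hf) (fst snd')).congr fun a => by
    rw [List.map_map, List.range_eq_range', ← List.zipIdx_map_snd]
    rfl

@[fun_prop] lemma getD_pt [Inhabited β] {f : α → List β} {i : α → ℕ} (hf : PT f) (hi : PT i)
    (d : β) : PT fun a => (f a).getD (i a) d := by
  have key : ∀ (l : List β) (i n : ℕ), ((((l.zipIdx n).map fun p => (p.2, p.1)).filter
      fun p => decide (p.1 = i + n)).headD (0, d)).2 = l.getD i d := fun l => by
    induction l with
    | nil => simp
    | cons b l ih =>
      intro i n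
      cases i with
      | zero => simp
      | succ i =>
        rw [List.zipIdx_cons, List.map_cons, List.filter_cons_of_neg (by simp),
          show i + 1 + n = i + (n + 1) by omega, ih, List.getD_cons_succ]
  have := enum_pt hf
  exact (snd (headD (filter (P := fun a p => decide (p.1 = i a)) this (by fun_prop)) (0, d))).congr
    fun a => key _ _ 0

@[fun_prop] lemma sum_pt {f : α → List ℕ} (hf : PT f) : PT fun a => (f a).sum :=
  (foldl_add (h := fun _ (s b : ℕ) => s + b) hf (const 0) (by fun_prop) (fun a => sz (f a) + 1)
    (hf.sz_bd.add (Bd.const 1)) fun a s b hb => by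
      have := sz_add_le s b
      have := sz_le_of_mem hb
      omega).congr fun a => List.sum_eq_foldl.symm

lemma sz_filter_le (P : β → Bool) (l : List β) : sz (l.filter P) ≤ sz l := by
  induction l with
  | nil => rfl
  | cons b l ih =>
    rw [List.filter_cons]
    split_ifs <;> simp only [sz_cons] <;> omega

lemma sz_mul_le (a b : ℕ) : sz (a * b) ≤ sz a + sz b := by
  rw [sz_nat_le, pow_add]
  exact Nat.mul_lt_mul'' (lt_two_pow_sz a) (lt_two_pow_sz b)

/-- computable in unary -/
def UN (k : α → ℕ) : Prop := PT fun a => List.replicate (k a) true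

namespace UN
variable {k k' : α → ℕ}

lemma len [Inhabited β] {l : α → List β} (h : PT l) : UN fun a => (l a).length :=
  (map (F := fun _ _ => true) h (const true)).congr fun a => by simp

lemma cst (c : ℕ) : UN fun _ : α => c := const _

lemma comp (h : UN k) {g : β → α} (hg : PT g) : UN fun b => k (g b) := PT.comp h hg

lemma add (h : UN k) (h' : UN k') : UN fun a => k a + k' a :=
  (append h h').congr fun a => by simp

lemma sum [Inhabited β] {l : α → List β} {F : α → β → ℕ} (h : PT l)
    (h' : UN fun p : α × β => F p.1 p.2) : UN fun a => ((l a).map (F a)).sum :=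
  (flatMap (F := fun a b => List.replicate (F a b) true) h h').congr fun a => by
    beta_reduce
    induction l a with
    | nil => rfl
    | cons b l ih => simp [ih]

lemma mul (h : UN k) (h' : UN k') : UN fun a => k a * k' a :=
  (sum (F := fun a _ => k' a) h (h'.comp fst')).congr fun a => by simp

lemma bd (h : UN k) : Bd sz k := (sz_bd h).of_le fun a => by rw [sz_listBool]; simp; omega

lemma pt (h : UN k) : PT k := (length h).congr fun a => by simp

lemma range (h : UN k) : PT fun a => List.range (k a) := (range_pt h).congr fun a => by simp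

lemma length_lt (x s : ℕ) : ((List.range s).filter fun i => decide (i < x)).length = min x s := by
  induction s with
  | zero => simp
  | succ s ih =>
    rw [List.range_succ, List.filter_append, List.length_append, ih, List.filter_singleton]
    by_cases h : s < x <;> simp [h] <;> omega

lemma min (h : PT k) (h' : UN k') : UN fun a => min (k a) (k' a) :=
  (len (filter (P := fun a i => decide (i < k a)) h'.range (by fun_prop))).congr fun a => by
    simp only [length_lt]

lemma inv {t : α → ℕ} (ht : UN t) {g : α → σ} {h : α → σ → σ} (hg : PT g)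
    (hh : PT fun p : α × σ => h p.1 p.2) {B : α → ℕ} (hB : Bd sz B) (I : α → ℕ → σ → Prop)
    (h0 : ∀ a, I a 0 (g a)) (h1 : ∀ a i s, I a i s → I a (i + 1) (h a s))
    (hb : ∀ a i s, i ≤ t a → I a i s → sz s ≤ B a) : PT fun a => (h a)^[t a] (g a) :=
  (foldl (h := fun a s (_ : Bool) => h a s) ht hg (PT.comp hh (pair fst' (fst snd'))) B hB
    fun a i => by
      rw [List.foldl_const]
      refine hb a (List.take i (List.replicate (t a) true)).length _ (by simp) ?_
      generalize (List.take i _).length = j
      induction j with
      | zero => exact h0 a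
      | succ j ih => rw [Function.iterate_succ_apply']; exact h1 a j _ ih).congr fun a => by
    rw [List.foldl_const, List.length_replicate]

lemma grow {t : α → ℕ} (ht : UN t) {g : α → σ} {h : α → σ → σ} (hg : PT g)
    (hh : PT fun p : α × σ => h p.1 p.2) {B : α → ℕ} (hB : Bd sz B)
    (hb : ∀ a s, sz (h a s) ≤ sz s + B a) : PT fun a => (h a)^[t a] (g a) :=
  (foldl_add (h := fun a s (_ : Bool) => h a s) ht hg (PT.comp hh (pair fst' (fst snd'))) B hB
    fun a s _ _ => hb a s).congr fun a => by rw [List.foldl_const, List.length_replicate]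

lemma pow (h : UN k) (h' : PT k') : PT fun a => k' a ^ k a :=
  (h.grow (g := fun _ => 1) (h := fun a s => s * k' a) (const 1) (by fun_prop) h'.sz_bd
    fun _ _ => sz_mul_le _ _).congr fun a => by simp

end UN

end Pool.Agent.Lib.MP_9bdb70_lc
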