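import Pool.Agent.Lib.MP_9bdb70_lc.Graph
import Pool.Agent.Lib.MP_9bdb70_lc.PTx

/-! The iteration on lists, and its running time. -/

namespace Pool.Agent.Lib.MP_9bdb70_lc

open Pool.Agent.Lib.helper82 PT

abbrev EL := List (ℕ × ℕ)
abbrev Inp := List (List ℕ) × EL
abbrev Tb := List ((List ℕ × ℕ) × ℕ)

/-- contract the second edge -/
def cstep (L : EL) : EL :=
  (L.headD (0, 0) :: L.tail.tail).map (rl (L.tail.headD (0, 0)).1 (L.tail.headD (0, 0)).2)

/-- connectivity test -/
def cn (p : ℕ × ℕ) (E : EL) : Bool :=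
  decide (((cstep^[E.length] (p :: E)).headD (0, 0)).1 = ((cstep^[E.length] (p :: E)).headD (0, 0)).2)

def inc (p : ℕ × ℕ) (v : ℕ) : Bool := decide (p.1 = v) || decide (p.2 = v)
def ed (z : Inp) (i : ℕ) : ℕ × ℕ := z.2.getD i (0, 0)
def par (z : Inp) (i : ℕ) : List ℕ := z.1.getD i []
def num (z : Inp) (i : ℕ) : ℕ := (par z 0).getD i 0
def idx (z : Inp) : List ℕ := List.range z.2.length

def nearb (z : Inp) (i j : ℕ) : Bool := decide (i = j) || [(ed z i).1, (ed z i).2].any fun v =>
  decide ((z.2.filter fun p => inc p v).length ≤ num z 0) && inc (ed z j) v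

def bstep (z : Inp) (S : List ℕ) : List ℕ := (idx z).filter fun j => S.any fun i => nearb z i j
def bl (z : Inp) (k e : ℕ) : List ℕ := (bstep z)^[(par z k).length] [e]

def fresh (z : Inp) (st : List ℕ) : ℕ := ((par z 3).filter fun k =>
  (bl z 2 st.length).all fun j => decide (st.length ≤ j) || !decide (st.getD j 0 = k)).headD 0

def cols (z : Inp) : List ℕ := (fun st => st ++ [fresh z st])^[z.2.length] []
def col (z : Inp) (i : ℕ) : ℕ := (cols z).getD i 0
def pall (z : Inp) (e : ℕ) : List ℕ := ((bl z 1 e).filter fun i => decide (i ≤ e)).map (col z)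

def mixl (z : Inp) (P η η' : List ℕ) : List ℕ :=
  (par z 3).map fun j => bif decide (j ∈ P) then η.getD j 0 else η'.getD j 0

def lk (T : Tb) (k : List ℕ × ℕ) : ℕ :=
  ((T.filter fun p => decide (p.1 = k)).headD (([], 0), 0)).2

def prel (z : Inp) (T : Tb) (η : List ℕ) (e : ℕ) : EL := ((idx z).filter fun i =>
  decide (lk T (η, e) < lk T (η, i)) ||
    (decide (lk T (η, i) = lk T (η, e)) && decide (i < e))).map (ed z)

def mpl (z : Inp) (T : Tb) (η : List ℕ) (e : ℕ) : ℕ :=
  (par z 6).getD (η.getD (col z e) 0) 0 + bif cn (ed z e) (prel z T η e) then num z 2 else 0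

def etas (z : Inp) : List (List ℕ) := z.1.tail.tail.tail.tail.tail.tail.tail
def keys (z : Inp) : List (List ℕ × ℕ) := (etas z).flatMap fun η => (idx z).map fun e => (η, e)

def upd (z : Inp) (T : Tb) (k : List ℕ × ℕ) : ℕ := ((par z 4).filter fun i =>
  decide (i + (etas z).length * num z 1 <
    lk T k + ((etas z).map fun η => mpl z T (mixl z (pall z k.2) k.1 η) k.2).sum)).length

def tbl (z : Inp) (t : ℕ) : Tb := (fun T => (keys z).map fun k => (k, upd z T k))^[min t
  (par z 4).length] ((keys z).map fun k => (k, 0))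

def outp (z : Inp) : ℕ := ((par z 4).map fun t => ((keys z).map fun k =>
  min (lk (tbl z t) k) (par z 4).length * min (mpl z (tbl z t) k.1 k.2) (par z 5).length).sum).sum

def outm (z : Inp) : ℕ := ((par z 4).map fun t => ((keys z).map fun k =>
  min (lk (tbl z t) k) (par z 4).length * min (num z 1) (par z 5).length).sum).sum

/-- the approximation of the partition function, without the factor for the vertices -/
def apx (z : Inp) : ℕ × ℕ :=
  (num z 3 ^ outp z * num z 4 ^ outm z, num z 4 ^ outp z * num z 3 ^ outm z)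

/-- all ends are short -/
def Bnd (c : ℕ) (L : EL) : Prop := ∀ e ∈ L, sz e.1 ≤ c ∧ sz e.2 ≤ c

lemma Bnd.self (L : EL) : Bnd (sz L) L := fun e h => by
  have := sz_le_of_mem h
  rw [← Prod.mk.eta (p := e), sz_prod] at this
  omega

lemma Bnd.headD {c : ℕ} {L : EL} (h : Bnd c L) :
    sz (L.headD (0, 0)).1 ≤ c ∧ sz (L.headD (0, 0)).2 ≤ c := by
  cases L with
  | nil => exact ⟨Nat.zero_le c, Nat.zero_le c⟩
  | cons e L => exact h e List.mem_cons_self

lemma Bnd.tail {c : ℕ} {L : EL} (h : Bnd c L) : Bnd c L.tail := fun e he =>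
  h e (List.mem_of_mem_tail he)

lemma Bnd.rl {c u : ℕ} {L : EL} (h : Bnd c L) (hu : sz u ≤ c) (v : ℕ) : Bnd c (L.map (rl u v)) := by
  intro e he
  obtain ⟨p, hp, rfl⟩ := List.mem_map.1 he
  have := h p hp
  simp only [MP_9bdb70_lc.rl, rel]
  constructor <;> split_ifs <;> omega

lemma Bnd.sz {c : ℕ} {L : EL} (h : Bnd c L) : sz L ≤ L.length * (6 * c + 3) := by
  induction L with
  | nil => simp [sz_nil]
  | cons e L ih =>
    obtain ⟨a, b⟩ := List.forall_mem_cons.1 h
    have := ih b
    rw [← Prod.mk.eta (p := e), sz_cons, sz_prod, List.length_cons, add_mul]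
    omega

variable {α : Type} [Enc α] {z : α → Inp} {E : α → EL} {p : α → ℕ × ℕ} {i j : α → ℕ}
  {S η η' : α → List ℕ} {T : α → Tb} {k : α → List ℕ × ℕ}

@[fun_prop] lemma rl_pt (hi : PT i) (hj : PT j) (hp : PT p) : PT fun a => rl (i a) (j a) (p a) := by
  unfold rl rel; fun_prop

@[fun_prop] lemma cn_pt (hp : PT p) (hE : PT E) : PT fun a => cn (p a) (E a) := by
  have h0 : PT fun a => p a :: E a := by fun_prop
  have h := (UN.len hE).inv (h := fun _ => cstep) h0 (by unfold cstep; fun_prop)
    ((UN.len h0).bd.mul (((Bd.const 6).mul h0.sz_bd).add (Bd.const 3)))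
    (fun a _ L => Bnd (sz (p a :: E a)) L ∧ L.length ≤ (p a :: E a).length)
    (fun a => ⟨.self _, le_rfl⟩) (fun a _ L h => ⟨Bnd.rl (List.forall_mem_cons.2
      ⟨h.1.headD, h.1.tail.tail⟩) h.1.tail.headD.1 _, by
        have := h.2
        simp only [cstep, List.length_map, List.length_cons, List.length_tail] at this ⊢
        omega⟩) fun a _ L _ h => h.1.sz.trans (Nat.mul_le_mul_right _ h.2)
  exact eq (fst (headD h _)) (snd (headD h _))

@[fun_prop] lemma inc_pt (hp : PT p) (hi : PT i) : PT fun a => inc (p a) (i a) := by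
  unfold inc; fun_prop
@[fun_prop] lemma ed_pt (hz : PT z) (hi : PT i) : PT fun a => ed (z a) (i a) := by
  unfold ed; fun_prop
@[fun_prop] lemma par_pt (hz : PT z) (c : ℕ) : PT fun a => par (z a) c := by
  unfold par; fun_prop
@[fun_prop] lemma num_pt (hz : PT z) (c : ℕ) : PT fun a => num (z a) c := by
  unfold num; fun_prop
@[fun_prop] lemma idx_pt (hz : PT z) : PT fun a => idx (z a) := range_pt (snd hz)
@[fun_prop] lemma nearb_pt (hz : PT z) (hi : PT i) (hj : PT j) :
    PT fun a => nearb (z a) (i a) (j a) := by unfold nearb; fun_prop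

@[fun_prop] lemma bl_pt (hz : PT z) (c : ℕ) (hi : PT i) : PT fun a => bl (z a) c (i a) :=
  have h0 : PT fun a => [i a] := by fun_prop
  (UN.len (par_pt hz c)).inv (h := fun a => bstep (z a)) h0 (by unfold bstep; fun_prop)
    (h0.sz_bd.add (idx_pt hz).sz_bd) (fun a _ S => sz S ≤ sz [i a] + sz (idx (z a)))
    (fun _ => Nat.le_add_right _ _) (fun _ _ _ _ => (sz_filter_le _ _).trans (Nat.le_add_left _ _))
    fun _ _ _ _ h => h

@[fun_prop] lemma col_pt (hz : PT z) (hi : PT i) : PT fun a => col (z a) (i a) :=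
  getD_pt ((UN.len (snd hz)).grow (h := fun a st => st ++ [fresh (z a) st]) (const _)
    (by unfold fresh; fun_prop) (((Bd.const 2).mul (par_pt hz 3).sz_bd).add (Bd.const 1))
    fun a st => by
      have : sz (fresh (z a) st) ≤ sz (par (z a) 3) := by
        refine le_trans ?_ (sz_filter_le (fun k => (bl (z a) 2 st.length).all fun j =>
          decide (st.length ≤ j) || !decide (st.getD j 0 = k)) _)
        unfold fresh
        generalize List.filter _ _ = l
        cases l with
        | nil => rfl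
        | cons b l => exact sz_le_of_mem List.mem_cons_self
      rw [sz_append, sz_cons, sz_nil]
      omega) hi 0

@[fun_prop] lemma pall_pt (hz : PT z) (hi : PT i) : PT fun a => pall (z a) (i a) := by
  unfold pall; fun_prop
@[fun_prop] lemma mixl_pt (hz : PT z) (hS : PT S) (h : PT η) (h' : PT η') :
    PT fun a => mixl (z a) (S a) (η a) (η' a) := by unfold mixl; fun_prop
@[fun_prop] lemma lk_pt (hT : PT T) (hk : PT k) : PT fun a => lk (T a) (k a) := by
  unfold lk; fun_prop
@[fun_prop] lemma mpl_pt (hz : PT z) (hT : PT T) (h : PT η) (hi : PT i) :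
    PT fun a => mpl (z a) (T a) (η a) (i a) := by unfold mpl prel; fun_prop
@[fun_prop] lemma etas_pt (hz : PT z) : PT fun a => etas (z a) := by unfold etas; fun_prop
@[fun_prop] lemma keys_pt (hz : PT z) : PT fun a => keys (z a) := by unfold keys; fun_prop

lemma sz_tab {c : ℕ} (l : List (List ℕ × ℕ)) (f : List ℕ × ℕ → ℕ) (h : ∀ k, f k ≤ c) :
    sz (l.map fun k => (k, f k)) ≤ 2 * sz l + l.length * (2 * c + 1) := by
  induction l with
  | nil => simp [sz_nil]
  | cons b l ih =>
    have := (sz_nat_le_self _).trans (h b)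
    rw [List.map_cons, sz_cons, sz_cons, sz_prod, List.length_cons, add_mul]
    omega

@[fun_prop] lemma tbl_pt (hz : PT z) (hi : PT i) : PT fun a => tbl (z a) (i a) :=
  (UN.min hi (UN.len (par_pt hz 4))).inv
    (h := fun a T => (keys (z a)).map fun k => (k, upd (z a) T k)) (by fun_prop)
    (by unfold upd; fun_prop) (((Bd.const 2).mul (keys_pt hz).sz_bd).add ((UN.len (keys_pt hz)).bd.mul
      (((Bd.const 2).mul (UN.len (par_pt hz 4)).bd).add (Bd.const 1))))
    (fun a _ T => sz T ≤ 2 * sz (keys (z a)) + (keys (z a)).length * (2 * (par (z a) 4).length + 1))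
    (fun _ => sz_tab _ _ fun _ => Nat.zero_le _)
    (fun _ _ _ _ => sz_tab _ _ fun _ => List.length_filter_le _ _) fun _ _ _ _ h => h

@[fun_prop] lemma apx_pt (hz : PT z) : PT fun a => apx (z a) := by
  have h1 : UN fun a => outp (z a) := UN.sum (par_pt hz 4) (UN.sum (by fun_prop)
    ((UN.min (by fun_prop) (UN.len (by fun_prop))).mul (UN.min (by fun_prop) (UN.len (by fun_prop)))))
  have h2 : UN fun a => outm (z a) := UN.sum (par_pt hz 4) (UN.sum (by fun_prop)
    ((UN.min (by fun_prop) (UN.len (by fun_prop))).mul (UN.min (by fun_prop) (UN.len (by fun_prop)))))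
  exact pair (mul (h1.pow (num_pt hz 3)) (h2.pow (num_pt hz 4)))
    (mul (h1.pow (num_pt hz 4)) (h2.pow (num_pt hz 3)))

end Pool.Agent.Lib.MP_9bdb70_lc
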