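import Mathlib

/-! Averages over product spaces: resampling, hybrids, colourings. -/

namespace Pool.Agent.Lib.MP_9bdb70_lc

open Finset
open scoped BigOperators

lemma expect_invol {α β : Type} [Fintype α] [Fintype β] (Θ : α × β → α × β)
    (h : Function.Involutive Θ) (g : α → β → ℝ) :
    𝔼 a, 𝔼 b, g (Θ (a, b)).1 (Θ (a, b)).2 = 𝔼 a, 𝔼 b, g a b := by
  rw [← expect_product' univ univ fun a b => g (Θ (a, b)).1 (Θ (a, b)).2, ← expect_product',
    univ_product_univ]
  exact Fintype.expect_equiv h.toPerm _ _ fun _ => rfl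

lemma expect_ge {α : Type} [Fintype α] {f g : α → ℝ} (h : ∀ a, f a ≤ g a) :
    𝔼 a, f a ≤ 𝔼 a, g a := expect_le_expect fun a _ => h a

variable {ι X : Type} [Fintype ι] [DecidableEq ι] [Fintype X] [Nonempty X]

/-- `u` on `S` and `u'` off `S` -/
def mix (S : Finset ι) (u u' : ι → X) : ι → X := fun i => if i ∈ S then u i else u' i

omit [Fintype ι] [Fintype X] [Nonempty X] in
lemma mix_mem {S : Finset ι} {i : ι} (h : i ∈ S) (u u' : ι → X) : mix S u u' i = u i := if_pos h

omit [Nonempty X] in
lemma expect_mix2 (S : Finset ι) (g : (ι → X) → (ι → X) → ℝ) :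
    𝔼 u, 𝔼 u', g (mix S u u') (mix S u' u) = 𝔼 u, 𝔼 u', g u u' :=
  expect_invol (fun p => (mix S p.1 p.2, mix S p.2 p.1)) (fun p => by
    ext i <;> simp only [mix] <;> split_ifs <;> rfl) g

lemma expect_mix (S : Finset ι) (g : (ι → X) → ℝ) : 𝔼 u, 𝔼 u', g (mix S u u') = 𝔼 u, g u := by
  rw [expect_mix2 S fun u _ => g u]
  simp only [Fintype.expect_const]

lemma expect_update (e : ι) (g : (ι → X) → ℝ) :
    𝔼 u, 𝔼 j, g (Function.update u e j) = 𝔼 u, g u := by
  rw [expect_invol (fun p : (ι → X) × X => (Function.update p.1 e p.2, p.1 e)) (fun p => by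
    simp) fun u _ => g u]
  simp only [Fintype.expect_const]

lemma expect_comp_inj {U : Type} [Fintype U] [DecidableEq U] {φ : U → ι} (hφ : Function.Injective φ)
    (ψ : (U → X) → ℝ) : 𝔼 η : ι → X, ψ (η ∘ φ) = 𝔼 a, ψ a := by
  have h := expect_invol (fun p : (ι → X) × (U → X) => (Function.extend φ p.2 p.1, p.1 ∘ φ))
    (fun p => by
      refine Prod.ext (funext fun i => ?_) (funext fun a => hφ.extend_apply _ _ _)
      by_cases hi : ∃ a, φ a = i
      · obtain ⟨a, rfl⟩ := hi
        exact hφ.extend_apply _ _ _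
      · simp only [Function.extend_apply' _ _ _ hi]) fun _ a => ψ a
  simpa only [Fintype.expect_const] using h

/-- a function of the coordinates in `U` has the same average under a colouring that is
injective on `U` -/
lemma expect_colour {κ : Type} [Fintype κ] [DecidableEq κ] (c : ι → κ) (U : Finset ι) (hc : Set.InjOn c U)
    (g : (ι → X) → ℝ) (hg : ∀ u u', (∀ i ∈ U, u i = u' i) → g u = g u') :
    𝔼 η : κ → X, g (η ∘ c) = 𝔼 u, g u := by
  let ψ : (U → X) → ℝ := fun a => g fun i => if h : i ∈ U then a ⟨i, h⟩ else Classical.arbitrary X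
  have h1 := expect_comp_inj (φ := fun i : U => c i) (fun a b h => Subtype.ext (hc a.2 b.2 h)) ψ
  have h2 := expect_comp_inj (φ := fun i : U => (i : ι)) Subtype.val_injective ψ
  rw [← h2] at h1
  convert h1 using 2
  · exact hg _ _ fun i hi => by simp [hi]
  · exact hg _ _ fun i hi => by simp [hi]

/-- the influence of the coordinate `w` -/
noncomputable def infl (β : (ι → X) → ℝ) (w : ι) : ℝ :=
  𝔼 u : ι → X, 𝔼 u' : ι → X, |β (Function.update u w (u' w)) - β u|

omit [Nonempty X] in
lemma infl_nonneg (β : (ι → X) → ℝ) (w : ι) : 0 ≤ infl β w :=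
  expect_nonneg fun _ _ => expect_nonneg fun _ _ => abs_nonneg _

omit [Nonempty X] in
lemma hybrid (β : (ι → X) → ℝ) (S D : Finset ι) (h : Disjoint S D) :
    𝔼 u, 𝔼 u', |β (mix (S ∪ D) u u') - β (mix S u u')| ≤ ∑ w ∈ D, infl β w := by
  induction D using Finset.induction_on with
  | empty => simp
  | insert w D hw ih =>
    rw [disjoint_insert_right] at h
    rw [sum_insert hw, infl,
      ← expect_mix2 (S ∪ D) fun u u' => |β (Function.update u w (u' w)) - β u|]
    refine le_trans ?_ (add_le_add le_rfl (ih h.2))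
    rw [← expect_add_distrib]
    refine expect_ge fun u => ?_
    rw [← expect_add_distrib]
    refine expect_ge fun u' => ?_
    have e : mix (S ∪ insert w D) u u' =
        Function.update (mix (S ∪ D) u u') w (mix (S ∪ D) u' u w) := funext fun i => by
      by_cases hi : i = w
      · subst hi
        simp [mix, h.1, hw]
      · simp [mix, hi]
    rw [e]
    exact abs_sub_le _ _ _

lemma infl_le {β z : (ι → X) → ℝ} {w : ι} (h : ∀ u j, β (Function.update u w j) ≤ z u) :
    infl β w ≤ 2 * (𝔼 u, z u - 𝔼 u, β u) := by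
  have h0 : ∀ u, β u ≤ z u := fun u => by simpa using h u (u w)
  have h1 : 𝔼 u : ι → X, 𝔼 u' : ι → X, β (Function.update u w (u' w)) = 𝔼 u, β u := by
    rw [← expect_mix {w} β, expect_comm]
    refine expect_congr rfl fun u _ => expect_congr rfl fun u' _ => congrArg β (funext fun i => ?_)
    by_cases hi : i = w
    · subst hi
      simp [mix]
    · simp [mix, hi]
  calc infl β w ≤ 𝔼 u : ι → X, 𝔼 u' : ι → X,
        ((z u - β (Function.update u w (u' w))) + (z u - β u)) :=
        expect_ge fun u => expect_ge fun u' => by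
          have := h u (u' w)
          have := h0 u
          rw [abs_le]
          constructor <;> linarith
    _ = _ := by
        simp only [expect_add_distrib, expect_sub_distrib, Fintype.expect_const, h1]
        ring

end Pool.Agent.Lib.MP_9bdb70_lc
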