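import Pool.Agent.Lib.MP_9bdb70_lc.Graph

/-! The number of components is close to a sum of local terms. -/

namespace Pool.Agent.Lib.MP_9bdb70_lc

open Finset Real
open scoped BigOperators Classical

variable {m n D K : ℕ} {en : Fin m → ℕ × ℕ} {b : ℝ}

/-- `v` is an end of `p` -/
def Inc (p : ℕ × ℕ) (v : ℕ) : Prop := p.1 = v ∨ p.2 = v

/-- the number of edges at `v` -/
noncomputable def deg (en : Fin m → ℕ × ℕ) (v : ℕ) : ℕ := (univ.filter fun e => Inc (en e) v).card

/-- equal, or sharing an end of small degree -/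
def Near (en : Fin m → ℕ × ℕ) (D : ℕ) (i e : Fin m) : Prop :=
  i = e ∨ ∃ v, deg en v ≤ D ∧ Inc (en i) v ∧ Inc (en e) v

/-- balls of edges -/
noncomputable def ball (en : Fin m → ℕ × ℕ) (D : ℕ) : ℕ → Fin m → Finset (Fin m)
  | 0, e => {e}
  | t + 1, e => univ.filter fun j => ∃ i ∈ ball en D t e, Near en D i j

lemma ball_step {t : ℕ} {e i j : Fin m} (h : i ∈ ball en D t e) (h' : Near en D i j) :
    j ∈ ball en D (t + 1) e := mem_filter.2 ⟨mem_univ _, i, h, h'⟩

lemma ball_mono {s t : ℕ} (h : s ≤ t) (e : Fin m) : ball en D s e ⊆ ball en D t e := by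
  induction h with
  | refl => rfl
  | step _ ih => exact fun i hi => ball_step (ih hi) (.inl rfl)

lemma ball_self (t : ℕ) (e : Fin m) : e ∈ ball en D t e :=
  ball_mono (Nat.zero_le t) e (mem_singleton_self e)

lemma ball_tri {s : ℕ} {e i : Fin m} (h : i ∈ ball en D s e) :
    ∀ t, ball en D t i ⊆ ball en D (s + t) e
  | 0 => singleton_subset_iff.2 h
  | t + 1 => fun _ hj =>
    let ⟨_, a, b⟩ := (mem_filter.1 hj).2
    ball_step (ball_tri h t a) b

lemma ball_symm : ∀ {t : ℕ} {e i : Fin m}, i ∈ ball en D t e → e ∈ ball en D t i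
  | 0, _, _ => fun h => mem_singleton.2 (mem_singleton.1 h).symm
  | t + 1, _, i => fun h => by
    obtain ⟨j, a, b⟩ := (mem_filter.1 h).2
    rw [add_comm]
    exact ball_tri (ball_step (ball_self 0 i) (b.imp Eq.symm fun ⟨v, x, y, z⟩ => ⟨v, x, z, y⟩)) t
      (ball_symm a)

lemma ball_card (e : Fin m) : ∀ t, (ball en D t e).card ≤ (2 * D + 1) ^ t
  | 0 => by simp [ball]
  | t + 1 => by
    have h : ∀ v, (univ.filter fun j => deg en v ≤ D ∧ Inc (en j) v).card ≤ D := fun v => by
      by_cases q : deg en v ≤ D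
      · exact (card_le_card fun j hj => by simpa using (mem_filter.1 hj).2.2).trans q
      · simp [q]
    refine (card_le_card (t := (ball en D t e).biUnion fun i => insert i
      ((univ.filter fun j => deg en (en i).1 ≤ D ∧ Inc (en j) (en i).1) ∪
        univ.filter fun j => deg en (en i).2 ≤ D ∧ Inc (en j) (en i).2)) fun j hj => ?_).trans
      ((card_biUnion_le_card_mul _ _ (2 * D + 1) fun i _ => ?_).trans ?_)
    · obtain ⟨i, a, rfl | ⟨v, x, rfl | rfl, z⟩⟩ := (mem_filter.1 hj).2 <;>
        exact mem_biUnion.2 ⟨i, a, by simp [*]⟩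
    · refine (card_insert_le _ _).trans (Nat.succ_le_succ ((card_union_le _ _).trans ?_))
      have := h (en i).1
      have := h (en i).2
      omega
    · rw [pow_succ]
      exact Nat.mul_le_mul_right _ (ball_card e t)

/-- the cluster of `v` is small and has no vertex of large degree -/
def Small (n : ℕ) (en : Fin m → ℕ × ℕ) (D K : ℕ) (v : ℕ) (A : Finset (Fin m)) : Prop :=
  (cl n (en '' A) v).card ≤ K ∧ ∀ x ∈ cl n (en '' A) v, deg en x ≤ D

lemma Small.ball {v : ℕ} {A : Finset (Fin m)} (h : Small n en D K v A) (hn : Ends n en) {e : Fin m}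
    (he : Inc (en e) v) : ∀ x ∈ cl n (en '' A) v, ∀ i, Inc (en i) x → i ∈ ball en D (K + 1) e := by
  set P : ℕ → Finset ℕ := fun t => (cl n (en '' A) v).filter fun x =>
    ∀ i, Inc (en i) x → i ∈ MP_9bdb70_lc.ball en D (t + 1) e with hP
  have hv : v ∈ cl n (en '' A) v := mem_cl.2 ⟨he.elim (· ▸ (hn e).1) (· ▸ (hn e).2), .refl _ _⟩
  have h0 : ∀ t, v ∈ P t := fun t => mem_filter.2 ⟨hv, fun i hi => ball_mono (Nat.le_add_left 1 t)
    e (ball_step (ball_self 0 e) (.inr ⟨v, h.2 v hv, he, hi⟩))⟩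
  have h1 : ∀ t, P t ⊆ P (t + 1) := fun t x hx => mem_filter.2 ⟨(mem_filter.1 hx).1,
    fun i hi => ball_mono (Nat.le_succ _) e ((mem_filter.1 hx).2 i hi)⟩
  have h2 : ∀ t, cl n (en '' A) v ⊆ P t ∨ t + 1 ≤ (P t).card := fun t => by
    induction t with
    | zero => exact .inr (card_pos.2 ⟨v, h0 0⟩)
    | succ t ih =>
      by_cases q : P (t + 1) ⊆ P t
      · have k : ∀ i ∈ A, ∀ x y, Inc (en i) x → Inc (en i) y → x ∈ P t → y ∈ P t := by
          intro i hi x y hx hy a
          have c := Conn.of_mem (Set.mem_image_of_mem en (mem_coe.2 hi))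
          have b : y ∈ cl n (en '' A) v := mem_cl.2 ⟨hy.elim (· ▸ (hn i).1) (· ▸ (hn i).2),
            (mem_cl.1 (mem_filter.1 a).1).2.trans (by
              rcases hx with rfl | rfl <;> rcases hy with rfl | rfl
              exacts [.refl _ _, c, c.symm, .refl _ _])⟩
          exact q (mem_filter.2 ⟨b, fun j hj =>
            ball_step ((mem_filter.1 a).2 i hx) (.inr ⟨y, h.2 y b, hy, hj⟩)⟩)
        refine .inl fun x hx => h1 t (((mem_cl.1 hx).2 (· ∈ P t) ?_).1 (h0 t))
        rintro _ ⟨i, hi, rfl⟩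
        exact ⟨k i hi _ _ (.inl rfl) (.inr rfl), k i hi _ _ (.inr rfl) (.inl rfl)⟩
      · exact ih.imp (·.trans (h1 t)) fun a =>
          Nat.succ_le_of_lt (a.trans_lt (card_lt_card ⟨h1 t, q⟩))
  have h3 : (P K).card ≤ _ := card_le_card (filter_subset _ _)
  have h4 := h.1
  exact fun x hx => (mem_filter.1 ((h2 K).resolve_right (by omega) hx)).2

lemma cl_congr {v : ℕ} {A A' : Finset (Fin m)} (hn : Ends n en) (hv : v < n)
    (h : ∀ x ∈ cl n (en '' A) v, ∀ i, Inc (en i) x → (i ∈ A ↔ i ∈ A')) :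
    cl n (en '' A') v = cl n (en '' A) v := by
  have k : ∀ {B : Finset (Fin m)} {i}, i ∈ B →
      ((en i).1 ∈ cl n (en '' B) v ↔ (en i).2 ∈ cl n (en '' B) v) := fun {B i} hi => by
    simp only [mem_cl, hn i, (Conn.of_mem (Set.mem_image_of_mem en (mem_coe.2 hi))).congr]
  have k0 : ∀ B : Finset (Fin m), v ∈ cl n (en '' B) v := fun B => mem_cl.2 ⟨hv, .refl _ _⟩
  refine Subset.antisymm (fun x hx => ((mem_cl.1 hx).2 (· ∈ cl n (en '' A) v) ?_).1 (k0 A))
    fun x hx => (((mem_cl.1 hx).2 (fun y => y ∈ cl n (en '' A) v ∧ y ∈ cl n (en '' A') v) ?_).1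
      ⟨k0 A, k0 A'⟩).2
  · rintro _ ⟨i, hi, rfl⟩
    exact ⟨fun a => (k ((h _ a i (.inl rfl)).2 hi)).1 a, fun a => (k ((h _ a i (.inr rfl)).2 hi)).2 a⟩
  · rintro _ ⟨i, hi, rfl⟩
    exact ⟨fun a => ⟨(k hi).1 a.1, (k ((h _ a.1 i (.inl rfl)).1 hi)).1 a.2⟩,
      fun a => ⟨(k hi).2 a.1, (k ((h _ a.1 i (.inr rfl)).1 hi)).2 a.2⟩⟩

lemma cl_lonely {v : ℕ} (h : ∀ e, ¬Inc (en e) v) (A : Finset (Fin m)) :
    cl n (en '' A) v = (range n).filter (· = v) := filter_congr fun x _ =>
  ⟨fun q => q.iso (by
    rintro _ ⟨i, -, rfl⟩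
    exact iff_of_false (fun a => h i (.inl a)) fun a => h i (.inr a)), fun q => q ▸ .refl _ _⟩

lemma card_inc (p : ℕ × ℕ) (s : Finset ℕ) : (s.filter (Inc p)).card ≤ 2 :=
  (card_le_card (t := {p.1, p.2}) fun v hv => by
    rcases (mem_filter.1 hv).2 with rfl | rfl <;> simp).trans card_le_two

lemma small_gap (hK : 0 < K) (A : Finset (Fin m)) :
    ∑ v ∈ (range n).filter fun v => ¬Small n en D K v A, ((cl n (en '' A) v).card : ℝ)⁻¹ ≤
      2 * m / K + 2 * m / (D + 1) := by
  set U := (range n).filter fun v => ∃ e, Inc (en e) v with hU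
  set H := (range n).filter fun v => D < deg en v with hH
  have h1 : (U.card : ℝ) ≤ 2 * m := by
    have := (card_le_card (s := U) (t := univ.biUnion fun e => (range n).filter (Inc (en e)))
      fun v hv => by simpa [hU, and_comm] using hv).trans
      (card_biUnion_le_card_mul _ _ 2 fun e _ => card_inc _ _)
    rw [card_univ, Fintype.card_fin, mul_comm] at this
    exact_mod_cast this
  have h2 : (H.card : ℝ) * (D + 1) ≤ 2 * m := by
    have a1 := card_nsmul_le_sum H (deg en) (D + 1) fun v hv => (mem_filter.1 hv).2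
    have a2 : ∑ v ∈ H, deg en v ≤ m * 2 := by
      simp only [deg, card_filter]
      rw [sum_comm]
      refine (sum_le_card_nsmul _ _ 2 fun e _ => ?_).trans (by simp)
      rw [← card_filter]
      exact card_inc _ _
    exact_mod_cast (show H.card * (D + 1) ≤ 2 * m from (a1.trans a2).trans_eq (mul_comm _ _))
  calc _ ≤ ∑ v ∈ range n, ((if v ∈ U then (K : ℝ)⁻¹ else 0) + ∑ h ∈ H,
        if v ∈ cl n (en '' A) h then ((cl n (en '' A) v).card : ℝ)⁻¹ else 0) := by
        rw [sum_filter]
        refine sum_le_sum fun v hv => ?_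
        have a1 : 0 ≤ if v ∈ U then (K : ℝ)⁻¹ else 0 := by split_ifs <;> positivity
        have a2 : ∀ h ∈ H, 0 ≤ if v ∈ cl n (en '' A) h then ((cl n (en '' A) v).card : ℝ)⁻¹
            else 0 := fun _ _ => by split_ifs <;> positivity
        by_cases q : Small n en D K v A
        swap
        · rw [if_pos q]
          rcases not_and_or.1 q with q | q
          · rw [if_pos]
            · exact le_add_of_le_of_nonneg (inv_anti₀ (Nat.cast_pos.2 hK)
                (Nat.cast_le.2 (not_le.1 q).le)) (sum_nonneg a2)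
            · refine mem_filter.2 ⟨hv, by_contra fun z => q ?_⟩
              rw [cl_lonely (not_exists.1 z), filter_eq', if_pos hv, card_singleton]
              exact hK
          · push Not at q
            obtain ⟨h, q1, q2⟩ := q
            refine le_add_of_nonneg_of_le a1 (le_trans ?_ (single_le_sum a2
              (mem_filter.2 ⟨mem_range.2 (mem_cl.1 q1).1, q2⟩)))
            rw [if_pos (mem_cl.2 ⟨mem_range.1 hv, (mem_cl.1 q1).2.symm⟩)]
        · rw [if_neg (not_not.2 q)]
          exact add_nonneg a1 (sum_nonneg a2)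
    _ = U.card * (K : ℝ)⁻¹ + H.card := by
        rw [sum_add_distrib, sum_comm, sum_ite_mem, inter_eq_right.2 (filter_subset _ _), sum_const,
          nsmul_eq_mul, sum_congr rfl (g := fun _ => 1), sum_const, nsmul_eq_mul, mul_one]
        intro h hh
        rw [sum_ite_mem, inter_eq_right.2 (show cl n _ h ⊆ _ from filter_subset _ _),
          sum_cl (mem_range.1 (mem_filter.1 hh).1)]
    _ ≤ _ := add_le_add (mul_le_mul_of_nonneg_right h1 (by positivity))
        ((le_div_iff₀ (by positivity)).2 h2)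

theorem loc_kk (hn : Ends n en) (hK : 0 < K) (hb : 0 ≤ b) : ∃ φ W,
    Loc (range n) (fun A => b * kk n (en '' A)) φ W (fun r => ball en D (r * (2 * (K + 1))))
      (b * (2 * m / K + 2 * m / (D + 1))) b (2 * (2 * D + 1) ^ (K + 1)) := by
  let W : ℕ → Finset (Fin m) := fun v =>
    if h : ∃ e, Inc (en e) v then ball en D (K + 1) h.choose else ∅
  have h0 : ∀ v (A : Finset (Fin m)), 0 ≤ ((cl n (en '' A) v).card : ℝ)⁻¹ ∧
      ((cl n (en '' A) v).card : ℝ)⁻¹ ≤ 1 := fun v A => ⟨by positivity, Nat.cast_inv_le_one _⟩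
  refine ⟨fun v A => b * if Small n en D K v A then ((cl n (en '' A) v).card : ℝ)⁻¹ else 0, W,
    fun A => ?_, fun v A A' => ?_, fun v A A' h => ?_, fun r e => ball_self _ e,
    fun r e => ball_mono (by nlinarith) e, fun v r => ?_, fun e => ?_⟩
  · rw [← mul_sum, ← mul_sub, abs_mul, abs_of_nonneg hb, ← sum_filter, kk,
      ← sum_filter_add_sum_filter_not (range n) fun v => Small n en D K v A, add_sub_cancel_left,
      abs_of_nonneg (sum_nonneg fun v _ => (h0 v A).1)]
    exact mul_le_mul_of_nonneg_left (small_gap hK A) hb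
  · rw [← mul_sub, abs_mul, abs_of_nonneg hb]
    refine mul_le_of_le_one_right hb (abs_le.2 ?_)
    have := h0 v A
    have := h0 v A'
    split_ifs <;> constructor <;> linarith
  · by_cases q : ∃ e, Inc (en e) v
    · have hv : v < n := q.elim fun e he => he.elim (· ▸ (hn e).1) (· ▸ (hn e).2)
      simp only [W, dif_pos q] at h
      by_cases a : Small n en D K v A
      · have := cl_congr hn hv fun x hx i hi => h i (a.ball hn q.choose_spec x hx i hi)
        rw [if_pos a, if_pos (by simpa only [Small, this] using a), this]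
      · by_cases a' : Small n en D K v A'
        · have := cl_congr hn hv fun x hx i hi => (h i (a'.ball hn q.choose_spec x hx i hi)).symm
          exact absurd (by simpa only [Small, this] using a') a
        · rw [if_neg a, if_neg a']
    · have := cl_lonely (n := n) (not_exists.1 q)
      rw [if_congr (Q := Small n en D K v A') (by simp only [Small, this]) rfl rfl, this, this]
  · by_cases q : ∃ e, Inc (en e) v
    · refine ⟨ball en D (r * (2 * (K + 1)) + (K + 1)) q.choose, fun e he => ?_⟩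
      simp only [W, dif_pos q] at he
      exact ⟨(ball_tri he _).trans (ball_mono (by omega) _),
        (ball_tri (ball_symm he) _).trans (ball_mono (by nlinarith) _)⟩
    · exact ⟨∅, by simp [W, q]⟩
  · have := (card_le_card (s := (range n).filter fun v => e ∈ W v)
      (t := (ball en D (K + 1) e).biUnion fun i => (range n).filter (Inc (en i)))
      fun v hv => ?_).trans ((card_biUnion_le_card_mul _ _ 2 fun e _ => card_inc _ _).trans
        (Nat.mul_le_mul_right 2 (ball_card e _)))
    · rw [mul_comm] at this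
      exact_mod_cast this
    · obtain ⟨a, c⟩ := mem_filter.1 hv
      by_cases q : ∃ e, Inc (en e) v
      · simp only [W, dif_pos q] at c
        exact mem_biUnion.2 ⟨_, ball_symm c, mem_filter.2 ⟨a, q.choose_spec⟩⟩
      · simp [W, q] at c

end Pool.Agent.Lib.MP_9bdb70_lc
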