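import Pool.Agent.Lib.MP_9bdb70_lc.Ept
import Pool.Agent.Lib.MP_b67cc8_lc.Prob

/-! A branching estimator on the deletion-contraction tree, steered by a rough approximation. -/

namespace Pool.Agent.Lib.MP_9bdb70_lc

open Real Pool.Agent.Lib.MP_b67cc8_lc

abbrev St := List (EL × ℕ) × ℕ

/-- deletion and contraction of the first edge -/
def kids (q₁ q₂ w₁ w₂ : ℕ) (E : EL) (W : ℕ) : List (EL × ℕ) :=
  [(E.tail, W * (w₂ * q₁)), (E.tail.map (rl (E.headD (0, 0)).1 (E.headD (0, 0)).2),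
    W * if (E.headD (0, 0)).1 = (E.headD (0, 0)).2 then w₁ * q₁ else w₁ * q₂)]

/-- one step: light particles survive with probability one quarter -/
def bst (q₁ q₂ w₁ w₂ : ℕ) (sub : EL × ℕ → Bool) (s : St) (x : List Bool) : St :=
  bif s.1.isEmpty then s else bif (s.1.headD ([], 0)).1.isEmpty then
    (s.1.tail, s.2 + (s.1.headD ([], 0)).2) else
    ((bif sub (s.1.headD ([], 0)) then bif x.headD false && x.tail.headD false then
      kids q₁ q₂ w₁ w₂ (s.1.headD ([], 0)).1 (4 * (s.1.headD ([], 0)).2) else []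
      else kids q₁ q₂ w₁ w₂ (s.1.headD ([], 0)).1 (s.1.headD ([], 0)).2) ++ s.1.tail, s.2)

lemma Kop_le {σ : Type} {k : ℕ} {h : σ → List Bool → σ} {I : σ → Prop}
    (hI : ∀ s x, I s → I (h s x)) {f : σ → ℝ} {G : ℕ → σ → ℝ} (h0 : ∀ s, I s → f s ≤ G 0 s)
    (h1 : ∀ t s, I s → Kop k h (G t) s ≤ G (t + 1) s) : ∀ t s, I s → (Kop k h)^[t] f s ≤ G t s
  | 0, s, hs => h0 s hs
  | t + 1, s, hs => by
    rw [Function.iterate_succ_apply']
    exact (Ex_mono fun x _ => Kop_le hI h0 h1 t _ (hI s x hs)).trans (h1 t s hs)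

variable {q₁ q₂ w₁ w₂ n : ℕ}

/-- the mass of a particle -/
noncomputable def mass (q₁ q₂ w₁ w₂ n : ℕ) (p : EL × ℕ) : ℝ :=
  p.2 * ((w₂ * q₁ : ℕ) ^ p.1.length * ZL (log (w₁ / w₂)) (log (q₁ / q₂)) n p.1)

lemma mass_nonneg (p : EL × ℕ) : 0 ≤ mass q₁ q₂ w₁ w₂ n p :=
  mul_nonneg (Nat.cast_nonneg _) (mul_nonneg (by positivity) Zf_pos.le)

lemma sum_kids (g1 : 0 < q₁) (g2 : 0 < q₂) (h1 : 0 < w₁) (h2 : 0 < w₂) {e : ℕ × ℕ}
    (he : e.1 < n ∧ e.2 < n) (E : EL) (W : ℕ) (α β : ℝ) (f : ℕ → ℝ) :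
    ((kids q₁ q₂ w₁ w₂ (e :: E) W).map fun p => α + β * (mass q₁ q₂ w₁ w₂ n p * f p.1.length)).sum =
      2 * α + β * (mass q₁ q₂ w₁ w₂ n (e :: E, W) * f E.length) := by
  simp only [kids, mass, List.map_cons, List.map_nil, List.sum_cons, List.sum_nil, List.tail_cons,
    List.headD_cons, List.length_map, List.length_cons]
  rw [← Prod.mk.eta (p := e), ZL_cons he.1 he.2, exp_sub, exp_log (by positivity)]
  split_ifs
  · push_cast
    rw [exp_zero]
    field_simp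
    ring
  · push_cast
    rw [exp_log (by positivity)]
    field_simp
    ring

theorem boost (g1 : 0 < q₁) (g2 : 0 < q₂) (h1 : 0 < w₁) (h2 : 0 < w₂) (E₀ : EL)
    (h0 : ∀ e ∈ E₀, e.1 < n ∧ e.2 < n) {sub : EL × ℕ → Bool} {κ C k Z : ℝ}
    (hZ : Z = mass q₁ q₂ w₁ w₂ n (E₀, 1)) (hκ : 0 ≤ κ) (hC : 0 ≤ C) (hk : 0 < k)
    (hs : ∀ p : EL × ℕ, (∀ e ∈ p.1, e.1 < n ∧ e.2 < n) → (sub p = true →
      4 * mass q₁ q₂ w₁ w₂ n p ≤ κ) ∧ (sub p = false → 3 ≤ C * mass q₁ q₂ w₁ w₂ n p))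
    (hk' : 8 * (k ^ 2 * (κ * E₀.length)) ≤ Z) {S l : ℕ} (hS : 8 * (2 + C * (Z * E₀.length)) ≤ S)
    (hl : 2 * S ≤ l) : 3 / 4 ≤ Ex l fun r => if |(rit 2 (bst q₁ q₂ w₁ w₂ sub) S ([(E₀, 1)], 0) r).2 *
      (q₁ / q₂ : ℝ) ^ n - Z| ≤ Z / k then 1 else 0 := by
  set z : ℝ := (q₁ / q₂) ^ n with hz
  set v := mass q₁ q₂ w₁ w₂ n with hv
  have Z0 : 0 < Z := by
    rw [hZ, hv, mass]
    exact mul_pos (by simp) (mul_pos (by positivity) Zf_pos)
  have v0 : ∀ p, 0 ≤ v p := mass_nonneg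
  have v1 : ∀ W, v ([], W) = W * z := fun W => by
    simp only [hv, mass, ZL_nil, List.length_nil, pow_zero, one_mul]
    rw [mul_comm (log _), exp_nat_mul, exp_log (by positivity)]
  have v2 : ∀ E W, v (E, 4 * W) = 4 * v (E, W) := fun E W => by
    simp only [hv, mass]
    push_cast
    ring
  set I : St → Prop := fun s => ∀ p ∈ s.1, ∀ e ∈ p.1, e.1 < n ∧ e.2 < n with hI
  have i1 : ∀ s x, I s → I (bst q₁ q₂ w₁ w₂ sub s x) := by
    rintro ⟨_ | ⟨⟨_ | ⟨e, E⟩, W⟩, L⟩, c⟩ x h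
    · exact h
    · exact (List.forall_mem_cons.1 h).2
    · obtain ⟨a1, a2⟩ := List.forall_mem_cons.1 h
      obtain ⟨a3, a4⟩ := List.forall_mem_cons.1 a1
      have : ∀ W, ∀ p ∈ kids q₁ q₂ w₁ w₂ (e :: E) W, ∀ e ∈ p.1, e.1 < n ∧ e.2 < n := fun W =>
        List.forall_mem_cons.2 ⟨a4, List.forall_mem_singleton.2 (List.forall_mem_map.2
          fun p hp => rl_lt a3.1 (a4 p hp))⟩
      refine List.forall_mem_append.2 ⟨?_, a2⟩
      simp only [List.headD_cons]
      cases sub (e :: E, W)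
      · exact this _
      · cases x.headD false && x.tail.headD false
        · simp
        · exact this _
  set M : St → ℝ := fun s => (s.1.map fun p => 0 + 1 * (v p * 1)).sum + s.2 * z - Z with hM
  set Φ : St → ℝ := fun s => (s.1.map fun p => 0 + κ * (v p * p.1.length)).sum with hΦ
  set Ψ : St → ℝ := fun s => (s.1.map fun p => 2 + C * (v p * p.1.length)).sum with hΨ
  have k1 := fun e he E W => sum_kids g1 g2 h1 h2 (n := n) (e := e) he E W 0 1 fun _ => 1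
  have k2 := fun e he E W α β => sum_kids g1 g2 h1 h2 (n := n) (e := e) he E W α β fun i => i
  rw [← hv] at k1 k2
  have i0 : I ([(E₀, 1)], 0) := List.forall_mem_singleton.2 h0
  have a1 := Kop_le (k := 2) i1 (f := fun s => M s ^ 2) (G := fun _ s => M s ^ 2 + Φ s)
    (fun s _ => le_add_of_nonneg_right (List.sum_nonneg (List.forall_mem_map.2 fun p _ => by
      have := v0 p
      positivity))) (by
    rintro - ⟨_ | ⟨⟨_ | ⟨e, E⟩, W⟩, L⟩, c⟩ h
    · exact (Ex_const 2 (M ([], c) ^ 2 + Φ ([], c))).le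
    · simp [Kop, Ex, bst, hM, hΦ, v1]
      exact le_of_eq (by ring)
    · have b1 := (List.forall_mem_cons.1 h).1
      have b2 := hs _ b1
      have b3 := v0 (e :: E, W)
      have b4 := (List.forall_mem_cons.1 b1).1
      cases q : sub (e :: E, W) <;>
        simp only [Kop, Ex, bst, hM, hΦ, q, List.isEmpty_cons, List.headD_cons, List.tail_cons,
          cond_false, cond_true, Bool.and_false, Bool.and_true, List.map_append, List.sum_append,
          k1 e b4, k2 e b4, List.map_cons, List.sum_cons, v2, List.map_nil, List.sum_nil,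
          List.length_cons, Nat.cast_succ]
      · nlinarith [mul_nonneg hκ b3]
      · nlinarith [mul_le_mul_of_nonneg_right (b2.1 q) b3, sq_nonneg (v (e :: E, W))]) S _ i0
  have Ψ0 : ∀ s, 0 ≤ Ψ s := fun s => List.sum_nonneg (List.forall_mem_map.2 fun p _ => by
    have := v0 p
    positivity)
  have a2 := Kop_le (k := 2) i1 (f := fun s => S * if s.1 = [] then 0 else 1)
    (G := fun t s => Ψ s + if s.1 = [] then 0 else ((S - t : ℕ) : ℝ))
    (fun s _ => by split_ifs <;> simp [Ψ0]) (by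
    rintro t ⟨_ | ⟨⟨E, W⟩, L⟩, c⟩ h
    · exact (Ex_const 2 (Ψ ([], c) + 0)).le
    refine (Ex_mono (g := fun x => Ψ (bst q₁ q₂ w₁ w₂ sub ((E, W) :: L, c) x) + ((S - t : ℕ) : ℝ))
      fun x _ => by beta_reduce; split_ifs <;> simp).trans ?_
    have b0 : ((S - t : ℕ) : ℝ) ≤ (S - (t + 1) : ℕ) + 1 := by exact_mod_cast (by omega)
    rw [if_neg (List.cons_ne_nil _ _)]
    rcases E with _ | ⟨e, E⟩
    · simp [Ex, bst, hΨ]
      linarith
    · have b1 := (List.forall_mem_cons.1 h).1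
      have b2 := hs _ b1
      have b3 := v0 (e :: E, W)
      have b4 := (List.forall_mem_cons.1 b1).1
      cases q : sub (e :: E, W) <;>
        simp only [Ex, bst, hΨ, q, List.isEmpty_cons, List.headD_cons, List.tail_cons,
          cond_false, cond_true, Bool.and_false, Bool.and_true, List.map_append, List.sum_append,
          k2 e b4, List.map_cons, List.sum_cons, v2, List.map_nil, List.sum_nil,
          List.length_cons, Nat.cast_succ]
      · linarith [b2.2 q]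
      · linarith [mul_nonneg hC b3]) S _ i0
  rw [← Ex_rit 2 _ _ S l _ hl] at a1 a2
  have S0 : (0 : ℝ) < S := lt_of_lt_of_le (by positivity) hS
  refine le_trans ?_ (Ex_mono (f := fun r => 1 + (-(S : ℝ)⁻¹ * (S * if
    (rit 2 (bst q₁ q₂ w₁ w₂ sub) S ([(E₀, 1)], 0) r).1 = [] then 0 else 1) +
    -(k / Z) ^ 2 * M (rit 2 (bst q₁ q₂ w₁ w₂ sub) S ([(E₀, 1)], 0) r) ^ 2)) fun r _ => ?_)
  · rw [Ex_add, Ex_add, Ex_const, Ex_mul, Ex_mul l (-(k / Z) ^ 2)]
    simp only [hM, hΦ, hΨ, List.map_cons, List.map_nil, List.sum_cons, List.sum_nil, ← hZ,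
      Nat.sub_self, Nat.cast_zero, ite_self] at a1 a2 ⊢
    have c1 := mul_le_mul_of_nonneg_left a1 (sq_nonneg (k / Z))
    have c2 := mul_le_mul_of_nonneg_left a2 (inv_pos.2 S0).le
    have c3 : (S : ℝ)⁻¹ * (2 + C * (Z * E₀.length)) ≤ 1 / 8 := by
      rw [inv_mul_le_iff₀ S0]
      linarith
    have c4 : (k / Z) ^ 2 * (κ * (Z * E₀.length)) ≤ 1 / 8 := by
      rw [show (k / Z) ^ 2 * (κ * (Z * E₀.length)) = k ^ 2 * (κ * E₀.length) / Z by field_simp,
        div_le_iff₀ Z0]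
      linarith
    linarith
  · generalize rit 2 (bst q₁ q₂ w₁ w₂ sub) S ([(E₀, 1)], 0) r = s
    have c1 := mul_nonneg (sq_nonneg (k / Z)) (sq_nonneg (M s))
    rw [← mul_assoc, neg_mul, inv_mul_cancel₀ S0.ne']
    split_ifs with p q q
    · linarith
    · have c2 : M s = s.2 * z - Z := by simp [hM, p]
      have c3 := one_le_sq_iff_one_le_abs (k / Z * M s) |>.2 (by
        rw [abs_mul, abs_of_pos (div_pos hk Z0), c2, ← div_le_iff₀' (div_pos hk Z0), one_div_div]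
        exact (not_le.1 q).le)
      rw [mul_pow] at c3
      linarith
    · linarith
    · linarith

end Pool.Agent.Lib.MP_9bdb70_lc
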