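import Pool.Agent.Lib.MP_9bdb70_lc.Loc

/-! A constant number of projected subgradient steps nearly maximizes a supermodular function. -/

namespace Pool.Agent.Lib.MP_9bdb70_lc

open Finset
open scoped BigOperators

/-- the elements that come before `e` -/
def pre {ι L : Type} [Fintype ι] [LinearOrder L] (key : ι → L) (e : ι) : Finset ι :=
  univ.filter fun i => key i < key e

lemma greedy {ι L : Type} [Fintype ι] [DecidableEq ι] [LinearOrder L] {f : Finset ι → ℝ} {B : ℝ}
    (h : Sup f B) {key : ι → L} (hk : Function.Injective key) (S : Finset ι) :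
    f S - f ∅ ≤ ∑ e ∈ S, (f (insert e (pre key e)) - f (pre key e)) ∧
      ((∀ e ∈ S, ∀ i, key i < key e → i ∈ S) →
        ∑ e ∈ S, (f (insert e (pre key e)) - f (pre key e)) = f S - f ∅) := by
  induction S using Finset.induction_on_max_value key with
  | empty => simp
  | insert a S ha hm ih =>
    have h1 : S ⊆ pre key a := fun i hi => mem_filter.2 ⟨mem_univ _,
      (hm i hi).lt_of_ne fun q => ha (hk q ▸ hi)⟩
    rw [sum_insert ha]
    refine ⟨by linarith [ih.1, h.mono S _ a h1 (by simp [pre])], fun q => ?_⟩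
    have h2 : pre key a = S := Subset.antisymm (fun i hi => by
      have := (mem_filter.1 hi).2
      exact (mem_insert.1 (q a (mem_insert_self _ _) i this)).resolve_left
        fun z => lt_irrefl _ (z ▸ this)) h1
    rw [ih.2 fun e he i hi => (mem_insert.1 (q e (mem_insert_of_mem he) i hi)).resolve_left
      fun z => (hm e he).not_gt (z ▸ hi), h2]
    ring

variable {m : ℕ} {κ X : Type} [Fintype κ] [DecidableEq κ] [Fintype X] [Nonempty X]

lemma sum_mix (S : Finset κ) (g : (κ → X) → ℝ) :
    ∑ η, ∑ η', g (mix S η η') = Fintype.card (κ → X) * ∑ η, g η := by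
  have h := expect_mix S g
  have h0 : (Fintype.card (κ → X) : ℝ) ≠ 0 := Nat.cast_ne_zero.2 Fintype.card_ne_zero
  simp only [Fintype.expect_eq_sum_div_card, ← sum_div] at h
  field_simp at h
  rw [h, mul_comm]

/-- larger values first, ties broken by the index -/
def okey (x : Fin m → ℕ) (e : Fin m) : ℕᵒᵈ ×ₗ Fin m := toLex (OrderDual.toDual (x e), e)

lemma okey_inj (x : Fin m → ℕ) : Function.Injective (okey x) := fun _ _ h =>
  congrArg (fun p => (ofLex p).2) h

lemma okey_lt {x : Fin m → ℕ} {i e : Fin m} :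
    okey x i < okey x e ↔ x e < x i ∨ (x i = x e ∧ i < e) := by
  simp [okey, Prod.Lex.toLex_lt_toLex]

/-- the greedy increment -/
def marg (f : Finset (Fin m) → ℝ) (x : Fin m → ℕ) (e : Fin m) : ℝ :=
  f (insert e (pre (okey x) e)) - f (pre (okey x) e)

variable {P : Fin m → Finset κ} {f : (κ → X) → Finset (Fin m) → ℝ} {g : ℝ} {s : ℕ}

omit [Nonempty X] in
lemma ogd_le {U : ℝ} (hf : ∀ η, Sup (f η) g) (h0 : ∀ η, f η ∅ = 0)
    (hU : ∀ S, Dep P S → ∑ η, f η (S η) ≤ U) {x : (κ → X) → Fin m → ℕ} (hs : ∀ η e, x η e ≤ s)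
    (hx : ∀ e η η', (∀ i ∈ P e, η i = η' i) → x η e = x η' e) :
    ∑ η, ∑ e, x η e * marg (f η) (x η) e ≤ s * U := by
  have h1 : ∀ η, ∑ e, x η e * marg (f η) (x η) e =
      ∑ j ∈ range s, f η (univ.filter fun e => j < x η e) := fun η => by
    have h2 : ∀ j, f η (univ.filter fun e => j < x η e) =
        ∑ e, if j < x η e then marg (f η) (x η) e else 0 := fun j => by
      have := (greedy (hf η) (okey_inj (x η)) (univ.filter fun e => j < x η e)).2 fun e he i hi => by
        have := okey_lt.1 hi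
        simp only [mem_filter, mem_univ, true_and] at he ⊢
        omega
      rw [h0, sub_zero] at this
      rw [← this, sum_filter]
      rfl
    simp only [h2]
    rw [sum_comm]
    refine sum_congr rfl fun e _ => ?_
    rw [← sum_filter, sum_const, nsmul_eq_mul]
    have : (range s).filter (fun j => j < x η e) = range (x η e) := by
      ext j
      have := hs η e
      simp only [mem_range, mem_filter]
      omega
    rw [this, card_range]
  simp only [h1]
  rw [sum_comm]
  refine (sum_le_card_nsmul _ _ U fun j _ => hU _ fun e η η' h => ?_).trans (by simp)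
  simp only [mem_filter, hx e η η' h]

theorem ogd (hf : ∀ η, Sup (f η) g) (h0 : ∀ η, f η ∅ = 0) {x : ℕ → (κ → X) → Fin m → ℕ}
    (x0 : ∀ η e, x 0 η e = 0) (x1 : ∀ t η e, (x (t + 1) η e : ℝ) = max 0 (min (s : ℝ)
      (x t η e + ∑ η', marg (f (mix (P e) η η')) (x t (mix (P e) η η')) e))) (T : ℕ) :
    (∀ U, (∀ S, Dep P S → ∑ η, f η (S η) ≤ U) →
      ∑ t ∈ range T, ∑ η, ∑ e, x t η e * marg (f η) (x t η) e ≤ T * s * U) ∧
    ∀ S, Dep P S → T * s * ∑ η, f η (S η) - m * s ^ 2 / 2 -
      T * (m * (Fintype.card (κ → X) * g) ^ 2 / 2) ≤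
      ∑ t ∈ range T, ∑ η, ∑ e, x t η e * marg (f η) (x t η) e := by
  have hx : ∀ t e η η', (∀ i ∈ P e, η i = η' i) → x t η e = x t η' e := fun t => by
    induction t with
    | zero => simp [x0]
    | succ t ih =>
      intro e η η' h
      have : ∀ ζ, mix (P e) η ζ = mix (P e) η' ζ := fun ζ => funext fun i => by
        unfold mix
        split_ifs with q
        exacts [h i q, rfl]
      rw [← Nat.cast_inj (R := ℝ), x1, x1, ih e η η' h]
      simp only [this]
  have hs : ∀ t η e, x t η e ≤ s := fun t η e => by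
    cases t with
    | zero => simp [x0]
    | succ t =>
      rw [← Nat.cast_le (α := ℝ), x1]
      exact max_le (Nat.cast_nonneg _) (min_le_left _ _)
  refine ⟨fun U hU => (sum_le_card_nsmul _ _ _ fun t _ => ogd_le hf h0 hU (hs t) (hx t)).trans
    (by simp [mul_assoc]), fun S hS => ?_⟩
  set Q : ℝ := (Fintype.card (κ → X) : ℝ) with hQ
  have hQ0 : 0 < Q := Nat.cast_pos.2 Fintype.card_pos
  set y : (κ → X) → Fin m → ℝ := fun η e => if e ∈ S η then s else 0 with hy
  set D : ℕ → ℝ := fun t => ∑ η, ∑ e, (x t η e - y η e) ^ 2 with hD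
  have h1 : ∀ t, 2 * Q * (s * ∑ η, f η (S η) - ∑ η, ∑ e, x t η e * marg (f η) (x t η) e) -
      Q * (m * (Q * g) ^ 2) ≤ D t - D (t + 1) := fun t => by
    set G : (κ → X) → Fin m → ℝ := fun η e =>
      ∑ η', marg (f (mix (P e) η η')) (x t (mix (P e) η η')) e with hG
    have a1 : D (t + 1) ≤ ∑ η, ∑ e, ((x t η e - y η e) ^ 2 + 2 * (G η e * (x t η e - y η e)) +
        (Q * g) ^ 2) := sum_le_sum fun η _ => sum_le_sum fun e _ => by
      have b1 : |G η e| ≤ Q * g := (abs_sum_le_sum_abs _ _).trans
        ((sum_le_card_nsmul _ _ g fun η' _ => (hf _).bd _ _ (by simp [pre])).trans (by simp [hQ]))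
      have b2 := sq_le_sq' (abs_le.1 b1).1 (abs_le.1 b1).2
      have b3 : 0 ≤ y η e ∧ y η e ≤ s := by
        simp only [hy]
        split_ifs <;> simp
      have b4 : ((x (t + 1) η e : ℝ) - y η e) ^ 2 ≤ (x t η e + G η e - y η e) ^ 2 := by
        rw [x1]
        change (max 0 (min (s : ℝ) (x t η e + G η e)) - _) ^ 2 ≤ _
        generalize x t η e + G η e = z
        rcases le_total (s : ℝ) z with c | c
        · rw [min_eq_left c, max_eq_right (Nat.cast_nonneg _)]
          nlinarith
        · rw [min_eq_right c]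
          rcases le_total 0 z with d | d
          · rw [max_eq_right d]
          · rw [max_eq_left d]
            nlinarith
      nlinarith
    have a2 : ∑ η, ∑ e, G η e * (x t η e - y η e) =
        Q * ∑ η, ∑ e, marg (f η) (x t η) e * (x t η e - y η e) := by
      rw [sum_comm, sum_comm (s := univ (α := κ → X)), mul_sum]
      refine sum_congr rfl fun e _ => ?_
      rw [← sum_mix (P e)]
      refine sum_congr rfl fun η _ => ?_
      rw [hG, sum_mul]
      refine sum_congr rfl fun η' _ => ?_
      have c : ∀ i ∈ P e, η i = mix (P e) η η' i := fun i hi => (mix_mem hi _ _).symm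
      simp only [hy, hx t e _ _ c, hS e _ _ c]
    have a3 : s * ∑ η, f η (S η) ≤ ∑ η, ∑ e, marg (f η) (x t η) e * y η e := by
      rw [mul_sum]
      refine sum_le_sum fun η _ => ?_
      have := (greedy (hf η) (okey_inj (x t η)) (S η)).1
      rw [h0, sub_zero] at this
      simp only [hy, mul_ite, mul_zero, sum_ite_mem, univ_inter, ← sum_mul]
      rw [mul_comm]
      exact mul_le_mul_of_nonneg_right this (Nat.cast_nonneg _)
    simp only [sum_add_distrib, ← mul_sum, a2, sum_const, card_univ, Fintype.card_fin,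
      nsmul_eq_mul] at a1
    simp only [mul_sub, sum_sub_distrib, mul_comm (marg _ _ _) (x t _ _ : ℝ)] at a1
    have a4 := mul_le_mul_of_nonneg_left a3 hQ0.le
    rw [← hQ] at a1
    change _ ≤ D t + _ + _ at a1
    linarith
  have h2 := sum_le_sum fun t (_ : t ∈ range T) => h1 t
  have h3 : 0 ≤ D T := sum_nonneg fun _ _ => sum_nonneg fun _ _ => sq_nonneg _
  have h4 : D 0 ≤ Q * (m * s ^ 2) := (sum_le_card_nsmul _ _ ((m : ℝ) * s ^ 2) fun η _ =>
    (sum_le_card_nsmul _ _ ((s : ℝ) ^ 2) fun e _ => by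
      simp only [hy, x0]
      split_ifs <;> simp).trans_eq (by simp)).trans_eq (by simp [hQ])
  rw [sum_range_sub', sum_sub_distrib, ← mul_sum, sum_sub_distrib] at h2
  simp only [sum_const, card_range, nsmul_eq_mul] at h2
  refine le_of_mul_le_mul_left ?_ (by positivity : 0 < 2 * Q)
  nlinarith

end Pool.Agent.Lib.MP_9bdb70_lc
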