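import Pool.Agent.Lib.MP_9bdb70_lc.Seq

/-! A finite approximation of logistic noise. -/

namespace Pool.Agent.Lib.MP_9bdb70_lc

open Finset Real
open scoped BigOperators

lemma gibbs {p : ℝ} (h0 : 0 ≤ p) (h1 : p ≤ 1) (d : ℝ) : p * d + binEntropy p ≤ sp d := by
  have hS : 0 < 1 + exp d := by positivity
  have key : ∀ {r c : ℝ}, 0 ≤ r → 0 < c →
      r * log c + r * log r⁻¹ ≤ r * sp d + c / (1 + exp d) - r := fun {r c} hr hc => by
    rcases hr.eq_or_lt with rfl | hr
    · simp only [zero_mul, zero_add, sub_zero]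
      positivity
    · have := mul_le_mul_of_nonneg_left
        (log_le_sub_one_of_pos (show 0 < c / (1 + exp d) / r by positivity)) hr.le
      rw [log_div (by positivity) hr.ne', log_div hc.ne' hS.ne', mul_sub r _ 1,
        mul_div_cancel₀ _ hr.ne'] at this
      rw [log_inv, sp]
      linarith
  have a := key h0 (exp_pos d)
  have b := key (sub_nonneg.2 h1) one_pos
  have c : exp d / (1 + exp d) + 1 / (1 + exp d) = 1 := by field_simp; ring
  rw [log_exp] at a
  rw [log_one] at b
  rw [binEntropy]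
  linarith

lemma gibbs_eq (d : ℝ) : exp d / (1 + exp d) * d + binEntropy (exp d / (1 + exp d)) = sp d := by
  have hS : 0 < 1 + exp d := by positivity
  have c : 1 - exp d / (1 + exp d) = (1 + exp d)⁻¹ := by field_simp; ring
  rw [binEntropy, c, inv_inv, inv_div, log_div hS.ne' (exp_pos d).ne', log_exp, ← c, sp]
  ring

theorem exists_soft {B δ : ℝ} (hB : 0 ≤ B) (hδ : 0 < δ) :
    ∃ (L : ℕ) (lam : Fin (L + 1) → ℝ), Soft lam B δ := by
  obtain ⟨η, h0, hη⟩ := Metric.uniformContinuousOn_iff.1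
    (isCompact_Icc.uniformContinuousOn_of_continuous
      (binEntropy_continuous.continuousOn (s := Set.Icc 0 1))) (δ / 2) (half_pos hδ)
  obtain ⟨L, hL⟩ := exists_nat_gt (1 / η + 2 * B / δ)
  set M : ℝ := ((L + 1 : ℕ) : ℝ) with hM
  have hM0 : 0 < M := Nat.cast_pos.2 L.succ_pos
  have hM1 : 1 / η + 2 * B / δ < M := hL.trans (Nat.cast_lt.2 L.lt_succ_self)
  set l : ℕ → ℝ := fun j => M * binEntropy ((j + 1 : ℕ) / M) - M * binEntropy (j / M) with hl
  have hI : ∀ {j : ℕ}, j ≤ L + 1 → (j / M : ℝ) ∈ Set.Icc (0 : ℝ) 1 := fun h =>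
    ⟨by positivity, (div_le_one hM0).2 (Nat.cast_le.2 h)⟩
  have h1 : ∀ j k, j ≤ k → k ≤ L → l k ≤ l j := fun j k h => by
    induction h with
    | refl => exact fun _ => le_rfl
    | @step k _ ih =>
      refine fun hk => le_trans ?_ (ih (by omega))
      have e : ∀ i : ℕ, ((i + 1 : ℕ) : ℝ) / M - i / M = M⁻¹ := fun i => by push_cast; ring
      have p : ∀ i : ℕ, (i : ℝ) / M < ((i + 1 : ℕ) : ℝ) / M := fun i =>
        sub_pos.1 (e i ▸ inv_pos.2 hM0)
      have := strictConcave_binEntropy.concaveOn.slope_anti_adjacent (hI (j := k) (by omega))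
        (hI (j := k + 1 + 1) (by omega)) (p k) (p (k + 1))
      rw [e, e, div_inv_eq_mul, div_inv_eq_mul] at this
      simp only [hl]
      linarith
  refine ⟨L, fun j => l j, fun d hd => ?_⟩
  have h2 : ∀ i : ℕ, ∑ j ∈ range i, (d + l j) = M * (i / M * d + binEntropy (i / M)) := fun i => by
    rw [sum_add_distrib, hl, sum_range_sub fun j : ℕ => M * binEntropy (j / M)]
    simp only [sum_const, card_range, nsmul_eq_mul, Nat.cast_zero, zero_div, binEntropy_zero]
    field_simp
    ring
  have h3 : ∀ k ≤ L + 1, ∃ i ≤ k, ∑ j ∈ range k, max 0 (d + l j) = ∑ j ∈ range i, (d + l j) := by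
    intro k hk
    induction k with
    | zero => exact ⟨0, le_rfl, rfl⟩
    | succ k ih =>
      rcases le_total (d + l k) 0 with q | q
      · obtain ⟨i, a, b⟩ := ih (by omega)
        exact ⟨i, by omega, by rw [sum_range_succ, max_eq_left q, add_zero, b]⟩
      · refine ⟨k + 1, le_rfl, sum_congr rfl fun j hj => max_eq_right ?_⟩
        linarith [h1 j k (Nat.le_of_lt_succ (mem_range.1 hj)) (by omega)]
  rw [Fintype.expect_eq_sum_div_card, Fin.sum_univ_eq_sum_range fun j => max 0 (d + l j),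
    Fintype.card_fin, ← hM, abs_le, le_sub_iff_add_le, sub_le_iff_le_add, le_div_iff₀ hM0,
    div_le_iff₀ hM0]
  constructor
  · set p := exp d / (1 + exp d) with hp
    have p0 : 0 ≤ p := by positivity
    have p1 : p ≤ 1 := (div_le_one (by positivity)).2 (by linarith)
    set i := ⌊p * M⌋₊ with hi
    have i0 : (i : ℝ) ≤ p * M := Nat.floor_le (by positivity)
    have i1 : p * M < i + 1 := Nat.lt_floor_add_one _
    have i2 : i ≤ L + 1 := Nat.cast_le.1 (i0.trans (mul_le_of_le_one_left hM0.le p1))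
    have i3 : |i / M - p| ≤ 1 / M := by
      rw [show i / M - p = (i - p * M) / M by field_simp, abs_div, abs_of_pos hM0]
      exact div_le_div_of_nonneg_right (abs_le.2 ⟨by linarith, by linarith⟩) hM0.le
    have a0 : 0 ≤ 2 * B / δ := by positivity
    have a1 : 0 < 1 / η := by positivity
    have a2 := hη _ (hI i2) p ⟨p0, p1⟩ (i3.trans_lt ((one_div_lt hM0 h0).2 (by linarith)))
    have a3 : |(i / M - p) * d| ≤ δ / 2 := by
      rw [abs_mul]
      refine (mul_le_mul i3 hd (abs_nonneg _) (by positivity)).trans ?_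
      have := (div_lt_iff₀ hδ).1 (show 2 * B / δ < M by linarith)
      rw [one_div, inv_mul_le_iff₀ hM0]
      linarith
    refine le_trans ?_ ((sum_le_sum fun j _ => le_max_right 0 (d + l j)).trans
      (sum_le_sum_of_subset_of_nonneg (range_mono i2) fun _ _ _ => le_max_left _ _))
    rw [h2, mul_comm M, ← gibbs_eq d, ← hp]
    refine mul_le_mul_of_nonneg_right ?_ hM0.le
    linarith [(abs_le.1 a3).1, (abs_lt.1 a2).1]
  · obtain ⟨i, a, b⟩ := h3 (L + 1) le_rfl
    rw [b, h2, mul_comm M]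
    exact mul_le_mul_of_nonneg_right (by linarith [gibbs (hI a).1 (hI a).2 d]) hM0.le

end Pool.Agent.Lib.MP_9bdb70_lc
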