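import Pool.Agent.Lib.MP_9bdb70_lc.Ball
import Pool.Agent.Lib.MP_9bdb70_lc.Ogd
import Pool.Agent.Lib.MP_9bdb70_lc.Soft

/-! The choice of the constants: the iteration approximates the free energy. -/

namespace Pool.Agent.Lib.MP_9bdb70_lc

open Finset Real
open scoped BigOperators Classical

variable {m n : ℕ}

/-- the shifted greedy increment -/
noncomputable def mp (en : Fin m → ℕ × ℕ) (bz t : ℕ) (x : Fin m → ℕ) (e : Fin m) : ℕ :=
  t + if Conn (en '' pre (okey x) e) (en e).1 (en e).2 then bz else 0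

lemma cast_sub_eq (y z : ℕ) : ((y - z : ℕ) : ℝ) = max 0 (y - z : ℝ) := by
  rcases le_total z y with h | h
  · rw [Nat.cast_sub h, max_eq_right (sub_nonneg.2 (Nat.cast_le.2 h))]
  · rw [Nat.sub_eq_zero_of_le h, max_eq_left (sub_nonpos.2 (Nat.cast_le.2 h)), Nat.cast_zero]

lemma local_approx (a : ℝ) {b ε : ℝ} (hb : 0 ≤ b) (hε : 0 < ε) :
    ∃ (D r r' L : ℕ) (θ : Fin (L + 1) → ℝ), ∀ (m n : ℕ) (en : Fin m → ℕ × ℕ), Ends n en →
      ∀ (k : ℕ) (c : Fin m → Fin k), (∀ e, Set.InjOn c (ball en D r' e)) →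
      (∀ S, Dep (pal c (ball en D r)) S →
        rval c (fun A => b * kk n (en '' A)) θ S ≤ log (Zf a b n en) + ε * m) ∧
      ∃ S, Dep (pal c (ball en D r)) S ∧
        log (Zf a b n en) - ε * m ≤ rval c (fun A => b * kk n (en '' A)) θ S := by
  have hB : 0 ≤ |a| + b := by positivity
  obtain ⟨L, lam, hl⟩ := exists_soft hB (show 0 < ε / 4 by positivity)
  set Λ := ∑ j, |lam j| with hΛ
  have h0 : 0 ≤ Λ := sum_nonneg fun _ _ => abs_nonneg _
  set N₀ := 4 * (2 * (|a| + b) + Λ + 1) / ε with hN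
  have h1 : 0 < N₀ := by positivity
  obtain ⟨D, hD⟩ := exists_nat_ge (32 * b / ε)
  obtain ⟨R, hR⟩ := exists_nat_gt (b * (2 * (2 * D + 1) ^ (D + 1 + 1)) * (2 * N₀) * 4 / ε)
  have h2 : (0 : ℝ) < R := lt_of_le_of_lt (by positivity) hR
  refine ⟨D, R * (2 * (D + 1 + 1)), (R + 1) * (2 * (D + 1 + 1)), L, fun j => a + lam j,
    fun m n en hn k c hc => ?_⟩
  obtain ⟨φ, W, H⟩ := loc_kk (D := D) hn D.succ_pos hb
  have hS : Sup (fun A : Finset (Fin m) => a * A.card + b * kk n (en '' A)) (|a| + b) := by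
    simpa [mul_comm a] using sup_kk hn hb (θ := fun _ => a) (g := |a| + b) (c := 0) fun _ =>
      ⟨by linarith [le_abs_self a], by linarith [neg_abs_le a]⟩
  have hm : (0 : ℝ) ≤ m := Nat.cast_nonneg m
  have g1 : 2 * (b * (2 * m / (D.succ : ℕ) + 2 * m / (D + 1))) ≤ ε / 4 * m := by
    have e : 2 * (b * (2 * m / (D.succ : ℕ) + 2 * m / (D + 1))) = 8 * b / (D + 1) * m := by
      push_cast
      ring
    rw [e]
    refine mul_le_mul_of_nonneg_right ((div_le_iff₀ (by positivity)).2 ?_) hm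
    have := (div_le_iff₀ hε).1 hD
    nlinarith
  refine ⟨fun S h => ?_, ?_⟩
  · have := H.upper hS hl hc h
    rw [Zf]
    nlinarith
  · obtain ⟨S, h3, h4⟩ := H.lower hS hl hc (fun j => single_le_sum (f := fun j => |lam j|)
      (fun _ _ => abs_nonneg _) (mem_univ j)) (by positivity) hB hb h1 (Nat.cast_pos.1 h2)
    refine ⟨S, h3, le_trans ?_ h4⟩
    have g2 : m / N₀ * (2 * (|a| + b) + Λ + 1) = ε / 4 * m := by
      rw [hN]
      field_simp
    have g3 : b * (2 * (2 * D + 1) ^ (D.succ + 1)) * (m * (2 * N₀)) / R ≤ ε / 4 * m := by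
      have := mul_le_mul_of_nonneg_right ((div_lt_iff₀ hε).1 hR).le hm
      rw [div_le_iff₀ h2, Nat.succ_eq_add_one]
      linarith
    rw [Zf]
    linarith

theorem core (a : ℝ) {b ε : ℝ} (hb : 0 ≤ b) (hε : 0 < ε) :
    ∃ (D r r' L s g bz P₁ P₂ : ℕ) (th : Fin (L + 1) → ℕ), 0 < P₁ ∧ 0 < P₂ ∧
      (∀ j, th j + bz ≤ 2 * g) ∧ ∀ (m n : ℕ) (en : Fin m → ℕ × ℕ), Ends n en →
      ∀ c : Fin m → Fin ((2 * D + 1) ^ r'), (∀ e, ∀ i ∈ ball en D r' e, c i = c e → i = e) →
      ∀ x : ℕ → (Fin ((2 * D + 1) ^ r') → Fin (L + 1)) → Fin m → ℕ, (∀ η e, x 0 η e = 0) →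
      (∀ t η e, x (t + 1) η e = min s (x t η e + ∑ η',
        mp en bz (th (mix (pal c (ball en D r) e) η η' (c e)))
          (x t (mix (pal c (ball en D r) e) η η')) e -
        Fintype.card (Fin ((2 * D + 1) ^ r') → Fin (L + 1)) * g)) →
      |(∑ t ∈ range s, ∑ η, ∑ e, (x t η e : ℝ) * (mp en bz (th (η (c e))) (x t η) e - g)) *
        log (P₁ / P₂) + b * n - log (Zf a b n en)| ≤ ε * m := by
  obtain ⟨D, r, r', L, θ, H⟩ := local_approx a hb (show 0 < ε / 3 by positivity)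
  set Λ := ∑ j, |θ j| with hΛ
  have hθ : ∀ j, |θ j| ≤ Λ := fun j =>
    single_le_sum (f := fun j => |θ j|) (fun _ _ => abs_nonneg _) (mem_univ j)
  have h0 : 0 ≤ Λ := sum_nonneg fun _ _ => abs_nonneg _
  obtain ⟨g, hg⟩ := exists_nat_gt ((Λ + b) / (ε / 6))
  have g0 : 0 < g := Nat.cast_pos.1 (lt_of_le_of_lt (by positivity) hg)
  set Q := Fintype.card (Fin ((2 * D + 1) ^ (r' + r')) → Fin (L + 1)) with hQ
  have Q0 : 0 < Q := Fintype.card_pos
  set s := Q * g ^ 2 with hs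
  have s0 : 0 < s := by positivity
  set J : ℝ := s * s * Q with hJ
  have J0 : 0 < J := by positivity
  obtain ⟨ρ, r1, r2⟩ := exists_rat_btwn (exp_lt_exp.2 (show ε / 6 / J < ε / 3 / J by
    gcongr; norm_num))
  have r0 : 0 < ρ := Rat.cast_pos.1 ((exp_pos _).trans r1)
  set τ := log ρ * J with hτ
  have t1 : ε / 6 < τ := (div_lt_iff₀ J0).1 ((lt_log_iff_exp_lt (Rat.cast_pos.2 r0)).2 r1)
  have t2 : τ < ε / 3 := (lt_div_iff₀ J0).1 ((log_lt_iff_lt_exp (Rat.cast_pos.2 r0)).2 r2)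
  have t0 : 0 < τ := lt_trans (by positivity) t1
  have g1 : Λ / τ + b / τ ≤ g := by
    rw [← add_div]
    exact le_trans (by gcongr) hg.le
  set bz := ⌊b / τ⌋₊ with hbz
  have b1 : (bz : ℝ) ≤ b / τ := Nat.floor_le (by positivity)
  have b2 : b / τ < bz + 1 := Nat.lt_floor_add_one _
  have b3 : 0 ≤ b / τ := by positivity
  set th : Fin (L + 1) → ℕ := fun j => ⌊θ j / τ + g - bz⌋₊ with hth
  have a0 : ∀ j, -(Λ / τ) ≤ θ j / τ ∧ θ j / τ ≤ Λ / τ := fun j => abs_le.1 (by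
    rw [abs_div, abs_of_pos t0]
    exact div_le_div_of_nonneg_right (hθ j) t0.le)
  have a1 : ∀ j, (th j : ℝ) ≤ θ j / τ + g - bz := fun j => Nat.floor_le (by linarith [a0 j])
  have a2 : ∀ j, θ j / τ + g - bz < th j + 1 := fun j => Nat.lt_floor_add_one _
  refine ⟨D, r, r' + r', L, s, g, bz, ρ.num.toNat, ρ.den, th, by simpa using r0, ρ.den_pos,
    fun j => Nat.cast_le.1 (show ((th j + bz : ℕ) : ℝ) ≤ (2 * g : ℕ) by
      push_cast; linarith [a0 j, a1 j]), fun m n en hn c hc x x0 x1 => ?_⟩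
  obtain ⟨H1, S, H2, H3⟩ := H m n en hn _ c fun e i hi j hj h =>
    hc j i (ball_tri (ball_symm hj) r' hi) h
  set f : (Fin ((2 * D + 1) ^ (r' + r')) → Fin (L + 1)) → Finset (Fin m) → ℝ := fun η A =>
    ∑ e ∈ A, ((th (η (c e)) : ℝ) - g + bz) + bz * (kk n (en '' A) - n) with hf
  have f1 : ∀ η y e, marg (f η) y e = mp en bz (th (η (c e))) y e - g := fun η y e => by
    simp only [marg, hf, mp]
    rw [sum_insert (by simp [pre]), kk_ins hn]
    split_ifs <;> push_cast <;> ring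
  have f2 : ∀ S, |τ * ∑ η, f η (S η) - Q * (rval c (fun A => b * kk n (en '' A)) θ S - b * n)| ≤
      Q * (τ * m) := fun S => by
    have e : Q * (rval c (fun A => b * kk n (en '' A)) θ S - b * n) =
        ∑ η, (b * kk n (en '' S η) + ∑ e ∈ S η, θ (η (c e)) - b * n) := by
      rw [sum_sub_distrib, rval, mul_sub, hQ, Fintype.card_mul_expect]
      simp
    rw [e, mul_sum, ← sum_sub_distrib]
    refine (abs_sum_le_sum_abs _ _).trans ((sum_le_card_nsmul _ _ (τ * m) fun η _ => ?_).trans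
      (by simp [hQ]))
    have k1 := kk_bd hn ∅ (S η)
    have k2 := kk_anti (n := n) (R := ∅) (R' := en '' S η) (by simp)
    have k3 : ((S η).card : ℝ) ≤ m := by exact_mod_cast card_finset_fin_le _
    rw [coe_empty, Set.image_empty, empty_union] at k1
    rw [kk_empty] at k1 k2
    have k4 : ∀ e ∈ S η, τ * ((th (η (c e)) : ℝ) - g + bz) - θ (η (c e)) ≤ 0 := fun e _ => by
      have := (le_div_iff₀ t0).1 (show (th (η (c e)) : ℝ) - g + bz ≤ θ (η (c e)) / τ by
        linarith [a1 (η (c e))])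
      linarith
    have k5 : ∀ e ∈ S η, -τ ≤ τ * ((th (η (c e)) : ℝ) - g + bz) - θ (η (c e)) := fun e _ => by
      have := (div_le_iff₀ t0).1 (show θ (η (c e)) / τ ≤ (th (η (c e)) : ℝ) - g + bz + 1 by
        linarith [a2 (η (c e))])
      linarith
    have k6 := sum_nonpos k4
    have k7 := card_nsmul_le_sum _ _ _ k5
    have k8 := (le_div_iff₀ t0).1 b1
    have k9 := (div_lt_iff₀ t0).1 b2
    rw [sum_sub_distrib, ← mul_sum] at k6 k7
    rw [nsmul_eq_mul] at k7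
    simp only [hf]
    rw [abs_le]
    constructor <;> nlinarith
  obtain ⟨o1, o2⟩ := ogd (P := pal c (ball en D r)) (f := f) (g := g) (s := s) (fun η =>
    sup_kk hn (Nat.cast_nonneg _) fun e => ⟨by linarith [a0 (η (c e)), a1 (η (c e))],
      by linarith [Nat.cast_nonneg (α := ℝ) (th (η (c e)))]⟩) (fun η => by simp [hf, kk_empty]) x0
    (fun t η e => by
      simp only [f1, sum_sub_distrib, sum_const, card_univ, nsmul_eq_mul]
      rw [x1, Nat.cast_min, ← add_sub_assoc, max_min_distrib_left,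
        max_eq_right (Nat.cast_nonneg s), cast_sub_eq]
      push_cast
      rfl) s
  have o3 := o1 (Q * (log (Zf a b n en) + ε / 3 * m - b * n + τ * m) / τ) fun S hS => by
    have := (abs_le.1 (f2 S)).2
    have := mul_le_mul_of_nonneg_left (H1 S hS) (Nat.cast_nonneg (α := ℝ) Q)
    rw [le_div_iff₀ t0]
    linarith
  have o4 := o2 S H2
  have e1 : ((ρ.num.toNat : ℕ) : ℝ) / ρ.den = ρ := by
    rw [Rat.cast_def, ← Int.cast_natCast, Int.toNat_of_nonneg (Rat.num_pos.2 r0).le]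
  simp only [f1] at o3 o4
  rw [e1, show log ρ = τ / J by rw [hτ, mul_div_cancel_right₀ _ J0.ne'], ← mul_div_assoc]
  generalize ∑ t ∈ range s, ∑ η, ∑ e, (x t η e : ℝ) * (mp en bz (th (η (c e))) (x t η) e - g) = O
    at o3 o4 ⊢
  have hm : (0 : ℝ) ≤ m := Nat.cast_nonneg m
  have t3 := mul_le_mul_of_nonneg_right t2.le hm
  rw [abs_le]
  constructor
  · have c1 := (abs_le.1 (f2 S)).1
    have c2 := mul_le_mul_of_nonneg_left H3 (Nat.cast_nonneg (α := ℝ) Q)
    have c3 : (m : ℝ) * s ^ 2 / 2 + s * (m * (Q * g) ^ 2 / 2) ≤ m * J := by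
      have : (1 : ℝ) ≤ Q := Nat.one_le_cast.2 Q0
      have e : (s : ℝ) * (m * (Q * g) ^ 2 / 2) = m * J / 2 := by rw [hJ, hs]; push_cast; ring
      have := mul_le_mul_of_nonneg_left this (show (0 : ℝ) ≤ m * s ^ 2 by positivity)
      rw [e, hJ]
      nlinarith
    have c4 : log (Zf a b n en) - ε / 3 * m - b * n - τ * m - τ * m ≤ O * τ / J := by
      have c5 := mul_le_mul_of_nonneg_left (show Q * (log (Zf a b n en) - ε / 3 * m - b * n -
        τ * m) ≤ τ * ∑ η, f η (S η) by linarith) (show (0 : ℝ) ≤ s * s by positivity)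
      have c6 := mul_le_mul_of_nonneg_right (show s * s * ∑ η, f η (S η) - m * J ≤ O by
        rw [← hQ] at o4; linarith) t0.le
      rw [le_div_iff₀ J0]
      rw [hJ] at c6 ⊢
      linarith
    linarith
  · have c4 : O * τ / J ≤ log (Zf a b n en) + ε / 3 * m - b * n + τ * m := by
      rw [← mul_div_assoc, le_div_iff₀ t0] at o3
      rw [div_le_iff₀ J0, hJ]
      linarith
    linarith [mul_nonneg hε.le hm]

end Pool.Agent.Lib.MP_9bdb70_lc
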