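import Pool.Agent.Lib.MP_9bdb70_lc.Graph

/-! Merging vertices with many neighbours and capping multiplicities changes the free energy
only a little. -/

namespace Pool.Agent.Lib.MP_9bdb70_lc

open Finset Real
open scoped BigOperators Classical

variable {m n : ℕ} {a b B : ℝ} {en : Fin m → ℕ × ℕ}

/-- the decay rate -/
noncomputable def rate (B : ℝ) : ℝ := 1 - exp (-B) / (2 * (1 + exp (-B)))

lemma rate_bd (B : ℝ) : 0 ≤ rate B ∧ rate B < 1 := by
  have h := exp_pos (-B)
  refine ⟨sub_nonneg.2 ((div_le_one (by positivity)).2 (by linarith)), sub_lt_self _ (by positivity)⟩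

lemma half {F : Finset (Fin m) → ℝ} (h : ∀ A e, e ∉ A → F A - B ≤ F (insert e A))
    (S : Finset (Fin m)) :
    ∑ A, exp (F A) * 2⁻¹ ^ (A ∩ S).card ≤ rate B ^ S.card * ∑ A, exp (F A) := by
  induction S using Finset.induction_on with
  | empty => simp
  | insert e S he ih =>
    rw [card_insert_of_notMem he, pow_succ', mul_assoc]
    refine le_trans ?_ (mul_le_mul_of_nonneg_left ih (rate_bd B).1)
    rw [← powerset_univ, ← insert_erase (mem_univ e), sum_powerset_insert (notMem_erase _ _),
      sum_powerset_insert (notMem_erase _ _), ← sum_add_distrib, ← sum_add_distrib, mul_sum]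
    refine sum_le_sum fun A hA => ?_
    have h1 : e ∉ A := fun q => notMem_erase _ _ (mem_powerset.1 hA q)
    rw [inter_insert_of_notMem h1, insert_inter_of_notMem he, ← insert_inter_distrib,
      card_insert_of_notMem (fun q => h1 (mem_inter.1 q).1), pow_succ]
    have h2 := exp_le_exp.2 (h A e h1)
    have h3 := exp_pos (-B)
    rw [sub_eq_add_neg, exp_add] at h2
    have h4 : exp (-B) / (2 * (1 + exp (-B))) * (exp (F A) + exp (F (insert e A))) ≤
        exp (F (insert e A)) / 2 := by
      rw [div_mul_eq_mul_div, div_le_div_iff₀ (by positivity) two_pos]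
      linarith
    have := mul_le_mul_of_nonneg_right h4 (show 0 ≤ (2⁻¹ : ℝ) ^ (A ∩ S).card by positivity)
    rw [rate]
    linarith

lemma cmp {F G : Finset (Fin m) → ℝ} (h : ∀ A e, e ∉ A → F A - B ≤ F (insert e A)) {ι : Type}
    (I : Finset ι) (S : ι → Finset (Fin m)) {J : ℕ} (hJ : ∀ i ∈ I, J ≤ (S i).card) {c d : ℝ}
    (hd : 0 ≤ d) (hF : ∀ A, F A ≤ G A + c + d * ∑ i ∈ I, 2⁻¹ ^ (A ∩ S i).card) :
    log (∑ A, exp (F A)) ≤ log (∑ A, exp (G A)) + c + d * (I.card * rate B ^ J) := by
  have p1 : 0 < ∑ A, exp (F A) := sum_pos (fun _ _ => exp_pos _) univ_nonempty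
  have p2 : 0 < ∑ A, exp (G A) := sum_pos (fun _ _ => exp_pos _) univ_nonempty
  have h1 : ∑ A, exp (F A) * ∑ i ∈ I, 2⁻¹ ^ (A ∩ S i).card ≤
      I.card * rate B ^ J * ∑ A, exp (F A) := by
    simp only [mul_sum _ _ (exp _)]
    rw [sum_comm, mul_assoc, ← nsmul_eq_mul]
    exact sum_le_card_nsmul _ _ _ fun i hi => (half h _).trans (mul_le_mul_of_nonneg_right
      (pow_le_pow_of_le_one (rate_bd B).1 (rate_bd B).2.le (hJ i hi)) p1.le)
  rw [add_assoc, ← log_exp (c + _), ← log_mul p2.ne' (exp_pos _).ne', sum_mul]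
  refine log_le_log p1 (le_trans ?_ (sum_le_sum (f := fun A => exp (F A) * (1 +
    d * (I.card * rate B ^ J)) - d * (exp (F A) * ∑ i ∈ I, 2⁻¹ ^ (A ∩ S i).card)) fun A _ => ?_))
  · rw [sum_sub_distrib, ← sum_mul, ← mul_sum]
    nlinarith [mul_le_mul_of_nonneg_left h1 hd]
  · have h2 := mul_le_mul_of_nonneg_left (add_one_le_exp (d * (I.card * rate B ^ J) -
      d * ∑ i ∈ I, 2⁻¹ ^ (A ∩ S i).card)) (exp_pos (F A)).le
    have h3 := exp_le_exp.2 (show F A + (d * (I.card * rate B ^ J) - d * ∑ i ∈ I,
      2⁻¹ ^ (A ∩ S i).card) ≤ G A + (c + d * (I.card * rate B ^ J)) by linarith [hF A])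
    rw [exp_add, exp_add] at h3
    linarith

lemma Zf_cmp (hn : Ends n en) (hb : 0 ≤ b) (en' : Fin m → ℕ × ℕ) {ι : Type}
    (I : Finset ι) (S : ι → Finset (Fin m)) {J : ℕ} (hJ : ∀ i ∈ I, J ≤ (S i).card) {c d : ℝ}
    (hd : 0 ≤ d) (hF : ∀ A : Finset (Fin m), kk n (en '' A) ≤ kk n (en' '' A) + c +
      d * ∑ i ∈ I, 2⁻¹ ^ (A ∩ S i).card) :
    log (Zf a b n en) ≤ log (Zf a b n en') + b * (c + d * (I.card * rate (|a| + b) ^ J)) := by
  have := cmp (B := |a| + b) (F := fun A => a * A.card + b * kk n (en '' A))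
    (G := fun A => a * A.card + b * kk n (en' '' A)) (fun A e he => by
      rw [kk_ins hn, card_insert_of_notMem he, Nat.cast_succ]
      have := neg_abs_le a
      split_ifs <;> linarith) I S hJ (c := b * c) (mul_nonneg hb hd) fun A => by
    linarith [mul_le_mul_of_nonneg_left (hF A) hb]
  unfold Zf
  linarith

lemma Zf_le (hn : Ends n en) (hb : 0 ≤ b) (en' : Fin m → ℕ × ℕ) {c : ℝ}
    (hF : ∀ A : Finset (Fin m), kk n (en '' A) ≤ kk n (en' '' A) + c) :
    log (Zf a b n en) ≤ log (Zf a b n en') + b * c := by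
  simpa using Zf_cmp (a := a) hn hb en' (∅ : Finset ℕ) (fun _ => ∅) (J := 0) (by simp) le_rfl
    (c := c) (by simpa using hF)

/-- rename the vertices of `H` to `u` -/
def gh (u : ℕ) (H : Finset ℕ) (p : ℕ × ℕ) : ℕ × ℕ :=
  (if p.1 ∈ H then u else p.1, if p.2 ∈ H then u else p.2)

lemma kk_gh {u : ℕ} (H : Finset ℕ) (hu : u ∉ H) (hH : ∀ v ∈ H, u < n ∧ v < n) :
    ∀ R, kk n (gh u H '' R) = kk n (R ∪ (fun v => (u, v)) '' H) + H.card := by
  induction H using Finset.induction_on with
  | empty => simp [gh]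
  | insert v H hv ih =>
    intro R
    obtain ⟨h1, h2⟩ := not_or.1 (mt mem_insert.2 hu)
    obtain ⟨h3, h4⟩ := forall_mem_insert _ _ _ |>.1 hH
    have e : gh u (insert v H) = rl u v ∘ gh u H := funext fun p => by
      simp only [gh, rl, rel, Function.comp, mem_insert]
      congr 1 <;> split_ifs <;> simp_all
    have h5 := ih h2 h4 (insert (u, v) R)
    rw [Set.image_insert_eq, show gh u H (u, v) = (u, v) by simp [gh, hv], kk_rel h3.1 h3.2,
      if_neg h1] at h5
    rw [e, Set.image_comp, card_insert_of_notMem hv, coe_insert, Set.image_insert_eq,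
      Set.union_insert, ← Set.insert_union, Nat.cast_succ]
    linarith

/-- the neighbours of `v` -/
noncomputable def nb (n : ℕ) (en : Fin m → ℕ × ℕ) (v : ℕ) : Finset ℕ :=
  (range n).filter fun x => ∃ e, en e = (v, x) ∨ en e = (x, v)

theorem ghost (hn : Ends n en) (hb : 0 ≤ b) {u D K : ℕ} (hK : 0 < K) (H : Finset ℕ) (hu : u ∉ H)
    (hH : ∀ v ∈ H, u < n ∧ v < n ∧ D ≤ (nb n en u).card ∧ D ≤ (nb n en v).card) :
    |log (Zf a b n (gh u H ∘ en)) - b * H.card - log (Zf a b n en)| ≤
      b * (n / K + 2 ^ K * (n * rate (|a| + b) ^ D)) := by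
  have k := kk_gh H hu fun v hv => ⟨(hH v hv).1, (hH v hv).2.1⟩
  have r0 := pow_nonneg (rate_bd (|a| + b)).1 D
  have h1 := Zf_le (a := a) (en := gh u H ∘ en) (fun e => by
    have := hn e
    simp only [gh, Function.comp]
    constructor <;> split_ifs with q <;> first | exact (hH _ q).1 | omega) hb en (c := H.card)
    fun A => by
      rw [Set.image_comp, k]
      exact add_le_add (kk_anti fun p hp => .of_mem (.inl hp)) le_rfl
  set I := (range n).filter fun v => D ≤ (nb n en v).card with hI
  have ex : ∀ v, ∃ S : Finset (Fin m), (nb n en v).card ≤ S.card ∧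
      ∀ A : Finset (Fin m), (A ∩ S).card ≤ (cl n (en '' A) v).card := fun v => by
    choose f hf using fun x : nb n en v => (mem_filter.1 x.2).2
    refine ⟨univ.image f, ?_, fun A => ?_⟩
    · rw [card_image_of_injective, card_univ, Fintype.card_coe]
      intro x y h
      have := hf x
      have := hf y
      apply Subtype.ext
      grind
    · refine (card_le_card (t := (univ.filter fun x : nb n en v => x.1 ∈ cl n (en '' A) v).image f)
        fun e he => ?_).trans (card_image_le.trans (card_le_card_of_injOn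
          Subtype.val (fun x hx => (mem_filter.1 hx).2) Subtype.val_injective.injOn))
      obtain ⟨x, hx, rfl⟩ := mem_image.1 (mem_inter.1 he).2
      have c := Conn.of_mem (Set.mem_image_of_mem en (mem_coe.2 (mem_inter.1 he).1))
      refine mem_image_of_mem f (mem_filter.2 ⟨hx, mem_cl.2 ⟨mem_range.1 (mem_filter.1 x.2).1, ?_⟩⟩)
      rcases hf x with q | q <;> rw [q] at c
      exacts [c, c.symm]
  choose S s1 s2 using ex
  have h2 := Zf_cmp (a := a) hn hb (gh u H ∘ en) I S (J := D)
    (fun v hv => (mem_filter.1 hv).2.trans (s1 v)) (c := n / K - H.card) (d := 2 ^ K)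
    (by positivity) fun A => by
      have : kk n (en '' A) ≤ ∑ v ∈ range n,
          (((cl n (en '' A ∪ (fun v => (u, v)) '' H) v).card : ℝ)⁻¹ + (K : ℝ)⁻¹ + ∑ h ∈ I,
            2 ^ K * 2⁻¹ ^ (A ∩ S h).card * if v ∈ cl n (en '' A) h then
              ((cl n (en '' A) v).card : ℝ)⁻¹ else 0) := sum_le_sum fun v hv => by
        have a1 : ∀ h ∈ I, 0 ≤ 2 ^ K * 2⁻¹ ^ (A ∩ S h).card * if v ∈ cl n (en '' A) h then
            ((cl n (en '' A) v).card : ℝ)⁻¹ else 0 := fun _ _ => by split_ifs <;> positivity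
        have a2 := sum_nonneg a1
        have a3 : 0 ≤ ((cl n (en '' A ∪ (fun v => (u, v)) '' H) v).card : ℝ)⁻¹ := by positivity
        have a4 : 0 ≤ (K : ℝ)⁻¹ := by positivity
        by_cases q : K ≤ (cl n (en '' A) v).card
        · linarith [inv_anti₀ (Nat.cast_pos.2 hK) (Nat.cast_le (α := ℝ).2 q)]
        by_cases q' : ∃ h ∈ I, Conn (en '' A) v h
        · obtain ⟨h, b1, b2⟩ := q'
          have b3 := single_le_sum a1 b1
          have b4 := pow_le_pow_of_le_one (show (0 : ℝ) ≤ 2⁻¹ by norm_num) (by norm_num)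
            ((s2 h A).trans (cl_eq b2 ▸ (not_le.1 q).le))
          rw [inv_pow, inv_le_iff_one_le_mul₀' (by positivity)] at b4
          rw [if_pos (mem_cl.2 ⟨mem_range.1 hv, b2.symm⟩)] at b3
          have := mul_le_mul_of_nonneg_right b4
            (show 0 ≤ ((cl n (en '' A) v).card : ℝ)⁻¹ by positivity)
          linarith
        · have := inv_anti₀ (Nat.cast_pos.2 (cl_pos (mem_range.1 hv))) (Nat.cast_le (α := ℝ).2
            (card_le_card (s := cl n (en '' A ∪ (fun v => (u, v)) '' H) v) (t := cl n (en '' A) v)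
              fun x hx => mem_cl.2 ⟨(mem_cl.1 hx).1, ((mem_cl.1 hx).2 (Conn (en '' A) v) (by
                rintro p (hp | ⟨h, hh, rfl⟩)
                · exact (Conn.of_mem hp).congr
                · obtain ⟨c1, c2, c3, c4⟩ := hH h hh
                  exact iff_of_false (fun z => q' ⟨_, mem_filter.2 ⟨mem_range.2 c1, c3⟩, z⟩)
                    fun z => q' ⟨_, mem_filter.2 ⟨mem_range.2 c2, c4⟩, z⟩)).1 (.refl _ _)⟩))
          linarith
      rw [sum_add_distrib, sum_add_distrib, sum_comm, sum_congr rfl (s₁ := I) (g := fun h =>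
        2 ^ K * 2⁻¹ ^ (A ∩ S h).card) fun h hh => by
          rw [← mul_sum, sum_ite_mem, inter_eq_right.2 (show cl n _ h ⊆ _ from filter_subset _ _),
            sum_cl (mem_range.1 (mem_filter.1 hh).1), mul_one], ← mul_sum, sum_const, card_range,
        nsmul_eq_mul, ← kk] at this
      rw [Set.image_comp, k, div_eq_mul_inv]
      linarith
  have h3 : (I.card : ℝ) ≤ n := by exact_mod_cast (card_filter_le _ _).trans_eq (card_range n)
  have h4 : b * (2 ^ K * (I.card * rate (|a| + b) ^ D)) ≤ b * (2 ^ K * (n * rate (|a| + b) ^ D)) := by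
    gcongr
  have h5 : 0 ≤ b * (n / K + 2 ^ K * (n * rate (|a| + b) ^ D)) := by positivity
  rw [abs_le]
  constructor <;> linarith

lemma card_rank (J : ℕ) (T : Finset (Fin m)) :
    (T.filter fun i => (T.filter fun j => j < i).card ≤ J).card = min T.card (J + 1) := by
  induction T using Finset.induction_on_max with
  | empty => simp
  | insert e T he ih =>
    have h0 : e ∉ T := fun q => lt_irrefl _ (he e q)
    rw [filter_insert, filter_insert, if_neg (lt_irrefl e), filter_true_of_mem he,
      filter_congr (q := fun i => (T.filter fun j => j < i).card ≤ J) fun i hi => by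
        rw [filter_insert, if_neg (he i hi).not_gt], card_insert_of_notMem h0]
    split_ifs
    · rw [card_insert_of_notMem fun q => h0 (mem_filter.1 q).1]
      omega
    · omega

/-- not a loop, and at most `J` earlier copies -/
def Keep (en : Fin m → ℕ × ℕ) (J : ℕ) (e : Fin m) : Prop :=
  (en e).1 ≠ (en e).2 ∧ (univ.filter fun i => i < e ∧ en i = en e).card ≤ J

lemma card_keep (J : ℕ) {p : ℕ × ℕ} (hp : p.1 ≠ p.2) :
    (univ.filter fun e => Keep en J e ∧ en e = p).card =
      min (univ.filter fun e => en e = p).card (J + 1) := by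
  rw [← card_rank, filter_filter]
  congr 1
  refine filter_congr fun e _ => and_comm.trans (and_congr_right fun h => ?_)
  simp only [Keep, h, filter_filter, and_comm (a := en _ = p)]
  exact and_iff_right hp

theorem cap (hn : Ends n en) (hb : 0 ≤ b) (J : ℕ) {P : Finset (ℕ × ℕ)}
    (hP : ∀ e, (en e).1 ≠ (en e).2 → en e ∈ P) :
    (univ.filter (Keep en J)).card ≤ P.card * (J + 1) ∧
    |log (Zf a b n fun e => if Keep en J e then en e else ((en e).1, (en e).1)) -
      log (Zf a b n en)| ≤ b * (P.card * rate (|a| + b) ^ J) := by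
  refine ⟨(card_le_card (t := P.biUnion fun p => univ.filter fun e => Keep en J e ∧ en e = p)
    fun e he => mem_biUnion.2 ⟨_, hP e (mem_filter.1 he).2.1, by simpa using he⟩).trans
      (card_biUnion_le_card_mul _ _ _ fun p _ => ?_), ?_⟩
  · by_cases q : p.1 = p.2
    · rw [filter_false_of_mem fun e _ h => h.1.1 (h.2 ▸ q)]
      simp
    · rw [card_keep J q]
      exact min_le_right _ _
  set en' : Fin m → ℕ × ℕ := fun e => if Keep en J e then en e else ((en e).1, (en e).1) with he
  have h1 := Zf_le (a := a) hn hb en' (c := 0) fun A => by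
    rw [add_zero]
    refine kk_anti ?_
    rintro _ ⟨e, h, rfl⟩
    simp only [he]
    split_ifs
    exacts [.of_mem ⟨e, h, rfl⟩, .refl _ _]
  set I := (univ.image en).filter fun p => p.1 ≠ p.2 ∧ J < (univ.filter fun e => en e = p).card
  have ku : ∀ (R : Set (ℕ × ℕ)) (C : Finset (ℕ × ℕ)), (∀ p ∈ C, p.1 < n ∧ p.2 < n) →
      kk n R ≤ kk n (R ∪ C) + C.card := fun R C => by
    induction C using Finset.induction_on with
    | empty => simp
    | insert p C hp ih =>
      intro h
      obtain ⟨h2, h3⟩ := forall_mem_insert _ _ _ |>.1 h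
      have := ih h3
      rw [coe_insert, Set.union_insert, kk_insert h2.1 h2.2, card_insert_of_notMem hp, Nat.cast_succ]
      split_ifs <;> linarith
  have h2 := Zf_cmp (a := a) (en := en') (fun e => by
    have := hn e
    simp only [he]
    split_ifs
    exacts [this, ⟨this.1, this.1⟩]) hb en I (fun p => univ.filter fun e => Keep en J e ∧ en e = p)
    (J := J) (fun p hp => by
      have := (mem_filter.1 hp).2
      rw [card_keep J this.1]
      omega) (c := 0) zero_le_one fun A => by
      set C := I.filter fun p => A ∩ (univ.filter fun e => Keep en J e ∧ en e = p) = ∅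
      refine (ku _ C fun p hp => ?_).trans (add_le_add ((kk_anti ?_).trans_eq (add_zero _).symm) ?_)
      · obtain ⟨e, -, rfl⟩ := mem_image.1 (mem_filter.1 (mem_filter.1 hp).1).1
        exact hn e
      · rintro _ ⟨e, h, rfl⟩
        by_cases q : (en e).1 = (en e).2
        · exact q ▸ .refl _ _
        by_cases q' : (A ∩ univ.filter fun i => Keep en J i ∧ en i = en e) = ∅
        · refine .of_mem (.inr (mem_filter.2 ⟨mem_filter.2 ⟨mem_image_of_mem _ (mem_univ _), q,
            not_le.1 fun z => ?_⟩, q'⟩))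
          exact notMem_empty e (q' ▸ mem_inter.2 ⟨h, mem_filter.2 ⟨mem_univ _, ⟨q, le_trans
            (card_le_card fun i hi => by simpa using (mem_filter.1 hi).2.2) z⟩, rfl⟩⟩)
        · obtain ⟨i, hi⟩ := nonempty_iff_ne_empty.2 q'
          obtain ⟨c1, -, c2, c3⟩ := (and_congr_right' mem_filter).1 (mem_inter.1 hi)
          exact .of_mem (.inl ⟨i, c1, by simp only [he, if_pos c2, c3]⟩)
      · rw [one_mul, card_filter]
        push_cast
        refine sum_le_sum fun p _ => ?_
        split_ifs with q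
        · simp [q]
        · positivity
  have h3 : (I.card : ℝ) ≤ P.card := Nat.cast_le.2 (card_le_card fun p hp => by
    obtain ⟨c1, c2, -⟩ := mem_filter.1 hp
    obtain ⟨e, -, rfl⟩ := mem_image.1 c1
    exact hP e c2)
  have r0 := pow_nonneg (rate_bd (|a| + b)).1 J
  have h4 : b * (I.card * rate (|a| + b) ^ J) ≤ b * (P.card * rate (|a| + b) ^ J) := by gcongr
  have h5 : 0 ≤ b * (P.card * rate (|a| + b) ^ J) := by positivity
  rw [abs_le]
  constructor <;> linarith

lemma rl_lt {u v : ℕ} (hu : u < n) {p : ℕ × ℕ} (h : p.1 < n ∧ p.2 < n) :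
    (rl u v p).1 < n ∧ (rl u v p).2 < n := by
  simp only [rl, rel]
  constructor <;> split_ifs <;> omega

lemma ZL_loops {β : Type} (P : β → Bool) (l : List β) : ∀ f : β → ℕ × ℕ,
    (∀ x ∈ l, ((f x).1 < n ∧ (f x).2 < n) ∧ (P x = false → (f x).1 = (f x).2)) →
    ZL a b n (l.map f) = (1 + exp a) ^ (l.filter fun x => !P x).length *
      ZL a b n ((l.filter P).map f) := by
  induction l with
  | nil => simp
  | cons x l ih =>
    intro f h
    obtain ⟨⟨h1, h2⟩, h3⟩ := List.forall_mem_cons.1 h
    have h4 := ih (rl (f x).1 (f x).2 ∘ f) fun y hy => ⟨rl_lt h1.1 (h3 y hy).1, fun q => by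
      simp only [Function.comp, rl, (h3 y hy).2 q]⟩
    rw [List.map_cons, ← Prod.mk.eta (p := f x), ZL_cons h1.1 h1.2, List.map_map, h4, ih f h3]
    cases q : P x
    · have : rl (f x).1 (f x).2 ∘ f = f := funext fun y => by
        simp only [Function.comp, rl, rel, h2 q]
        ext <;> simp only <;> split_ifs with z <;> simp [z]
      rw [this]
      simp only [List.filter_cons, q, h2 q, if_true, sub_zero]
      simp
      ring
    · simp only [List.filter_cons, q, if_true, List.map_cons]
      rw [← Prod.mk.eta (p := f x), ZL_cons h1.1 h1.2, List.map_map]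
      simp
      ring

end Pool.Agent.Lib.MP_9bdb70_lc
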