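import Pool.Agent.Lib.MP_9bdb70_lc.Spec
import Pool.Agent.Lib.MP_9bdb70_lc.Sparse

/-! The free energy within an error proportional to the number of vertices. -/

namespace Pool.Agent.Lib.MP_9bdb70_lc

open Finset Real Pool.Agent.Lib.helper82
open scoped BigOperators

/-- the vertices with many neighbours -/
def high (D : ℕ) (u : List Bool) (E : EL) : List ℕ := (List.range u.length).filter fun v => decide
  (D ≤ ((List.range u.length).filter fun x =>
    E.any fun p => decide (p = (v, x)) || decide (p = (x, v))).length)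

def ghl (H : List ℕ) (E : EL) : EL := E.map fun p =>
  (bif decide (p.1 ∈ H.tail) then H.headD 0 else p.1,
    bif decide (p.2 ∈ H.tail) then H.headD 0 else p.2)

def keepb (J : ℕ) (E : EL) (i : ℕ) : Bool :=
  !decide ((E.getD i (0, 0)).1 = (E.getD i (0, 0)).2) && decide (((List.range E.length).filter
    fun j => decide (j < i) && decide (E.getD j (0, 0) = E.getD i (0, 0))).length ≤ J)

def ept₂ (w₁ w₂ J : ℕ) (ad : List (List ℕ)) (E : EL) : ℕ × ℕ :=
  ((apx (ad, ((List.range E.length).filter (keepb J E)).map fun i => E.getD i (0, 0))).1 *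
    (w₁ + w₂) ^ ((List.range E.length).filter fun i => !keepb J E i).length,
  (apx (ad, ((List.range E.length).filter (keepb J E)).map fun i => E.getD i (0, 0))).2 *
    w₂ ^ ((List.range E.length).filter fun i => !keepb J E i).length)

def ept₁ (q₁ q₂ w₁ w₂ : ℕ) (ad : List (List ℕ)) (u : List Bool) (H : List ℕ) (E : EL) : ℕ × ℕ :=
  ((ept₂ w₁ w₂ ((ad.headD []).getD 1 0) ad.tail (ghl H E)).1 * (q₁ ^ u.length * q₂ ^ H.tail.length),
    (ept₂ w₁ w₂ ((ad.headD []).getD 1 0) ad.tail (ghl H E)).2 * (q₂ ^ u.length * q₁ ^ H.tail.length))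

/-- the approximation of the partition function -/
def ept (q₁ q₂ w₁ w₂ : ℕ) (ad : List (List ℕ)) (u : List Bool) (E : EL) : ℕ × ℕ :=
  ept₁ q₁ q₂ w₁ w₂ ad u (high ((ad.headD []).getD 0 0) u E) E

section
variable {α : Type} [Enc α] {ad : α → List (List ℕ)} {u : α → List Bool} {E : α → EL} {i j : α → ℕ}
  {H : α → List ℕ}

lemma pow_pt {β : Type} [Enc β] [Inhabited β] (c : ℕ) {l : α → List β}
    (h : PT l) : PT fun a => c ^ (l a).length := (UN.len h).pow (PT.const c)

@[fun_prop] lemma keepb_pt (h1 : PT j) (h2 : PT E) (h3 : PT i) :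
    PT fun a => keepb (j a) (E a) (i a) := by unfold keepb; fun_prop

@[fun_prop] lemma high_pt (h1 : PT j) (h2 : PT u) (h3 : PT E) :
    PT fun a => high (j a) (u a) (E a) := by unfold high; fun_prop

@[fun_prop] lemma ghl_pt (h1 : PT H) (h3 : PT E) : PT fun a => ghl (H a) (E a) := by
  unfold ghl; fun_prop

lemma ept₂_pt (w₁ w₂ : ℕ) (h1 : PT j) (h2 : PT ad) (h3 : PT E) :
    PT fun a => ept₂ w₁ w₂ (j a) (ad a) (E a) :=
  have k := apx_pt (z := fun a => (ad a, ((List.range (E a).length).filter (keepb (j a) (E a))).map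
    fun i => (E a).getD i (0, 0))) (by fun_prop)
  PT.pair (PT.mul (PT.fst k) (pow_pt _ (by fun_prop))) (PT.mul (PT.snd k) (pow_pt _ (by fun_prop)))

lemma ept_pt (q₁ q₂ w₁ w₂ : ℕ) (h1 : PT ad) (h2 : PT u) (h3 : PT E) :
    PT fun a => ept q₁ q₂ w₁ w₂ (ad a) (u a) (E a) :=
  have k := ept₂_pt w₁ w₂ (j := fun a => ((ad a).headD []).getD 1 0) (ad := fun a => (ad a).tail)
    (E := fun a => ghl (high (((ad a).headD []).getD 0 0) (u a) (E a)) (E a))
    (by fun_prop) (by fun_prop) (by fun_prop)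
  PT.pair (PT.mul (PT.fst k) (PT.mul (pow_pt _ h2) (pow_pt _ (by fun_prop))))
    (PT.mul (PT.snd k) (PT.mul (pow_pt _ h2) (pow_pt _ (by fun_prop))))

end

lemma range_eq (m : ℕ) : List.range m = List.ofFn (Fin.val : Fin m → ℕ) :=
  List.ext_getElem (by simp) (by simp)

lemma len_range {m : ℕ} (P : ℕ → Bool) :
    ((List.range m).filter P).length = (univ.filter fun i : Fin m => P i = true).card := by
  rw [← len_filter, range_eq]

open Classical in
lemma ept₂_spec {w₁ w₂ : ℕ} (h1 : 0 < w₁) (h2 : 0 < w₂) {b ε : ℝ} (hb : 0 ≤ b) (hε : 0 < ε)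
    (J : ℕ) : ∃ ad, ∀ (n m : ℕ) (en : Fin m → ℕ × ℕ), Ends n en → ∀ P : Finset (ℕ × ℕ),
      (∀ e, (en e).1 ≠ (en e).2 → en e ∈ P) → ∀ r, r = ept₂ w₁ w₂ J ad (List.ofFn en) →
      0 < r.1 ∧ 0 < r.2 ∧ |log (r.1 / r.2) + b * n - log (Zf (log (w₁ / w₂)) b n en)| ≤
        P.card * (ε * (J + 1) + b * rate (|log (w₁ / w₂)| + b) ^ J) := by
  obtain ⟨ad, H⟩ := apx_spec (log (w₁ / w₂)) hb hε
  refine ⟨ad, fun n m en hn P hP r hr => ?_⟩
  have e1 : ∀ i : Fin m, (List.ofFn en).getD i (0, 0) = en i := fun i => by simp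
  have e2 : ∀ i : Fin m, keepb J (List.ofFn en) i = true ↔ Keep en J i := fun i => by
    simp only [keepb, Keep, List.length_ofFn, len_range, e1]
    simp
  obtain ⟨c1, c2⟩ := cap (a := log (w₁ / w₂)) hn hb J hP
  set f : ℕ → ℕ × ℕ := fun i => if keepb J (List.ofFn en) i then (List.ofFn en).getD i (0, 0) else
    (((List.ofFn en).getD i (0, 0)).1, ((List.ofFn en).getD i (0, 0)).1) with hf
  have e3 := ZL_loops (a := log (w₁ / w₂)) (b := b) (n := n) (keepb J (List.ofFn en))
    (List.range m) f fun i hi => by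
      have := hn ⟨i, List.mem_range.1 hi⟩
      have e := e1 ⟨i, List.mem_range.1 hi⟩
      simp only [hf]
      rw [e]
      split_ifs with q <;> simp [this, q]
  have e4 : (List.range m).map f =
      List.ofFn fun e => if Keep en J e then en e else ((en e).1, (en e).1) := by
    rw [range_eq, List.map_ofFn]
    congr 1
    funext i
    simp only [hf, Function.comp, e1, e2]
  have e5 : ((List.range m).filter (keepb J (List.ofFn en))).map f =
      ((List.range m).filter (keepb J (List.ofFn en))).map fun i =>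
        (List.ofFn en).getD i (0, 0) := List.map_congr_left fun i hi => if_pos (List.mem_filter.1 hi).2
  rw [e4, ZL_ofFn, e5, exp_log (by positivity)] at e3
  rw [ept₂, List.length_ofFn] at hr
  obtain ⟨p1, p2, p3⟩ := H n (((List.range m).filter (keepb J (List.ofFn en))).map fun i =>
    (List.ofFn en).getD i (0, 0)) fun p hp => by
      obtain ⟨i, hi, rfl⟩ := List.mem_map.1 hp
      have := List.mem_range.1 (List.mem_filter.1 hi).1
      exact e1 ⟨i, this⟩ ▸ hn ⟨i, this⟩
  rw [List.length_map, len_range] at p3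
  simp only [e2] at p3
  have c3 := mul_le_mul_of_nonneg_left (Nat.cast_le (α := ℝ).2 c1) hε.le
  have z : 0 < ZL (log (w₁ / w₂)) b n (((List.range m).filter
    (keepb J (List.ofFn en))).map fun i => (List.ofFn en).getD i (0, 0)) := Zf_pos
  rw [e3, log_mul (by positivity) z.ne', show (1 + w₁ / w₂ : ℝ) = (w₁ + w₂) / w₂ by
    field_simp; ring] at c2
  subst hr
  refine ⟨by positivity, by positivity, ?_⟩
  push_cast at c3 ⊢
  rw [mul_div_mul_comm, log_mul (by positivity) (by positivity), ← div_pow]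
  rw [abs_le] at *
  constructor <;> linarith [p3.1, p3.2, c2.1, c2.2]

open Classical in
theorem ept_spec {q₁ q₂ w₁ w₂ : ℕ} (g1 : q₂ ≤ q₁) (g2 : 0 < q₂) (h1 : 0 < w₁) (h2 : 0 < w₂) {ε : ℝ}
    (hε : 0 < ε) : ∃ ad, ∀ (u : List Bool) (E : EL), (∀ e ∈ E, e.1 < u.length ∧ e.2 < u.length) →
      ∀ r, r = ept q₁ q₂ w₁ w₂ ad u E → 0 < r.1 ∧ 0 < r.2 ∧
      |log (r.1 / r.2) - log (ZL (log (w₁ / w₂)) (log (q₁ / q₂)) u.length E)| ≤ ε * u.length := by
  have g0 : 0 < q₁ := g2.trans_le g1
  set b := log (q₁ / q₂) with hb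
  have b0 : 0 ≤ b := log_nonneg ((one_le_div (by positivity)).2 (Nat.cast_le.2 g1))
  set ρ := rate (|log (w₁ / w₂)| + b) with hρ
  obtain ⟨r0, r1⟩ : 0 ≤ ρ ∧ ρ < 1 := rate_bd _
  obtain ⟨K, hK⟩ := exists_nat_gt (4 * b / ε)
  have K0 : (0 : ℝ) < K := lt_of_le_of_lt (by positivity) hK
  obtain ⟨D, hD⟩ := exists_pow_lt_of_lt_one (show 0 < ε / 4 / (b * 2 ^ K + 1) by positivity) r1
  obtain ⟨J, hJ⟩ := exists_pow_lt_of_lt_one (show 0 < ε / 4 / (D * 2 * b + 1) by positivity) r1
  obtain ⟨ad, H⟩ := ept₂_spec h1 h2 b0 (show 0 < ε / 4 / (D * 2 + 1) / (J + 1) by positivity) J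
  refine ⟨[D, J] :: ad, fun u E hE r hr => ?_⟩
  obtain ⟨m, en, rfl⟩ : ∃ (m : ℕ) (en : Fin m → ℕ × ℕ), E = List.ofFn en := ⟨_, _, E.ofFn_get.symm⟩
  have hn : Ends u.length en := fun e => hE _ (List.mem_ofFn.2 ⟨e, rfl⟩)
  have e1 : ∀ v, v ∈ high D u (List.ofFn en) ↔ v < u.length ∧ D ≤ (nb u.length en v).card := by
    intro v
    have : ((List.range u.length).filter fun x => (List.ofFn en).any fun p => decide (p = (v, x)) ||
        decide (p = (x, v))).length = (nb u.length en v).card := by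
      rw [← List.toFinset_card_of_nodup (List.nodup_range.filter _)]
      congr 1
      ext x
      simp [nb, List.mem_ofFn, exists_or]
    simp only [high, List.mem_filter, List.mem_range, decide_eq_true_iff, this]
  have e2 : (high D u (List.ofFn en)).Nodup := List.nodup_range.filter _
  change r = ept₁ q₁ q₂ w₁ w₂ ([D, J] :: ad) u (high D u (List.ofFn en)) (List.ofFn en) at hr
  generalize high D u (List.ofFn en) = L at e1 e2 hr
  have e3 : ghl L (List.ofFn en) = List.ofFn (gh (L.headD 0) L.tail.toFinset ∘ en) := by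
    rw [← List.map_ofFn, ghl]
    simp only [cond_eq_ite, decide_eq_true_iff, ← List.mem_toFinset (l := L.tail)]
    rfl
  have e4 : L.headD 0 ∉ L.tail.toFinset ∧ (∀ v ∈ L.tail, L.headD 0 ∈ L) ∧
      ∀ v ∈ L, (if v ∈ L.tail.toFinset then L.headD 0 else v) = L.headD 0 := by
    cases L with
    | nil => simp
    | cons x L => simpa +contextual [or_imp, forall_and] using (List.nodup_cons.1 e2).1
  have e5 : ∀ v ∈ L.tail.toFinset, L.headD 0 < u.length ∧ v < u.length ∧
      D ≤ (nb u.length en (L.headD 0)).card ∧ D ≤ (nb u.length en v).card := fun v hv => by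
    have a := (e1 _).1 (e4.2.1 v (List.mem_toFinset.1 hv))
    have b := (e1 _).1 (List.mem_of_mem_tail (List.mem_toFinset.1 hv))
    exact ⟨a.1, b.1, a.2, b.2⟩
  have c1 := ghost (a := log (w₁ / w₂)) hn b0 (Nat.cast_pos.1 K0) _ e4.1 e5
  set P := ((range u.length).filter fun v => (nb u.length en v).card < D).biUnion fun v =>
    (nb u.length en v).biUnion fun x => {gh (L.headD 0) L.tail.toFinset (v, x),
      gh (L.headD 0) L.tail.toFinset (x, v)} with hP
  have c2 : (P.card : ℝ) ≤ u.length * (D * 2) := by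
    exact_mod_cast (card_biUnion_le_card_mul _ _ (D * 2) fun v hv =>
      (card_biUnion_le_card_mul _ _ 2 fun _ _ => card_le_two).trans
        (Nat.mul_le_mul_right 2 (le_of_lt (mem_filter.1 hv).2))).trans
      (Nat.mul_le_mul_right _ ((card_filter_le _ _).trans_eq (card_range _)))
  obtain ⟨p1, p2, p3⟩ := H u.length m (gh (L.headD 0) L.tail.toFinset ∘ en) (fun e => by
    have := hn e
    simp only [gh, Function.comp]
    constructor <;> split_ifs with q <;> first | exact (e5 _ q).1 | omega) P (fun e he => by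
      have a := hn e
      simp only [hP, mem_biUnion, mem_filter, mem_range, mem_insert, mem_singleton]
      by_cases q : (en e).1 ∈ L
      · refine ⟨(en e).2, ⟨a.2, not_le.1 fun z => he ?_⟩, (en e).1,
          mem_filter.2 ⟨mem_range.2 a.1, e, .inr rfl⟩, .inr rfl⟩
        exact (e4.2.2 _ q).trans (e4.2.2 _ ((e1 _).2 ⟨a.2, z⟩)).symm
      · exact ⟨(en e).1, ⟨a.1, not_le.1 fun z => q ((e1 _).2 ⟨a.1, z⟩)⟩, (en e).2,
          mem_filter.2 ⟨mem_range.2 a.2, e, .inl rfl⟩, .inl rfl⟩) _ rfl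
  rw [ept₁, e3] at hr
  change r = ((ept₂ w₁ w₂ J ad _).1 * _, (ept₂ w₁ w₂ J ad _).2 * _) at hr
  subst hr
  refine ⟨by positivity, by positivity, ?_⟩
  rw [List.toFinset_card_of_nodup e2.tail] at c1
  push_cast
  rw [ZL_ofFn, mul_div_mul_comm, mul_div_mul_comm, log_mul (by positivity) (by positivity),
    log_mul (by positivity) (by positivity), ← div_pow, ← div_pow, log_pow, log_pow,
    ← inv_div (q₁ : ℝ), log_inv, ← hb]
  have n0 : (0 : ℝ) ≤ u.length := Nat.cast_nonneg _
  have d0 := pow_nonneg r0 D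
  have d1 := pow_nonneg r0 J
  have d2 : b * (u.length / K + 2 ^ K * (u.length * ρ ^ D)) ≤ ε / 2 * u.length := by
    have a1 : b / K ≤ ε / 4 := by
      have := (div_lt_iff₀ hε).1 hK
      rw [div_le_iff₀ K0]
      linarith
    have a2 := (lt_div_iff₀ (by positivity)).1 hD
    have a3 := mul_le_mul_of_nonneg_right (show b / K + b * 2 ^ K * ρ ^ D ≤ ε / 2 by linarith) n0
    calc _ = (b / K + b * 2 ^ K * ρ ^ D) * u.length := by ring
      _ ≤ _ := a3
  have d3 : P.card * (ε / 4 / (D * 2 + 1) / (J + 1) * (J + 1) + b * ρ ^ J) ≤ ε / 2 * u.length := by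
    have a1 := (lt_div_iff₀ (by positivity)).1 hJ
    have a2 : D * 2 * (ε / 4 / (D * 2 + 1)) ≤ ε / 4 := by
      rw [← mul_div_assoc, div_le_iff₀ (by positivity)]
      linarith
    rw [div_mul_cancel₀ _ (by positivity)]
    refine (mul_le_mul_of_nonneg_right c2 (by positivity)).trans ?_
    rw [mul_assoc, mul_comm]
    exact mul_le_mul_of_nonneg_right (by linarith) n0
  rw [abs_le] at *
  constructor <;> linarith [p3.1, p3.2, c1.1, c1.2]

end Pool.Agent.Lib.MP_9bdb70_lc
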