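import Pool.Agent.Lib.MP_9bdb70_lc.Ras

/-! The random string serves as the clock. -/

namespace Pool.Agent.Lib.MP_9bdb70_lc

open Real Pool.Agent.Lib.MP_b67cc8_lc Pool.Agent.Lib.helper82 PT

/-- the largest budget that the random string allows -/
def clk (m k : ℕ) (r : List Bool) : ℕ :=
  ((List.range r.length).filter fun j => decide (2 * steps m k (j + 1) ≤ r.length)).length

lemma clk_spec {m k N : ℕ} {r : List Bool} (h0 : 0 < N) (h1 : N ≤ r.length)
    (h2 : 2 * steps m k N ≤ r.length) :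
    N ≤ clk m k r ∧ 2 * steps m k (clk m k r) ≤ r.length := by
  have mono : ∀ {i j}, i ≤ j → 2 * steps m k i ≤ 2 * steps m k j := fun h => by
    unfold steps
    gcongr
  have e : clk m k r = ((Finset.range r.length).filter fun j =>
      2 * steps m k (j + 1) ≤ r.length).card := by
    rw [clk, ← List.toFinset_card_of_nodup (List.nodup_range.filter _)]
    congr 1
    ext j
    simp
  have a : N ≤ clk m k r := by
    rw [e, ← Finset.card_range N]
    exact Finset.card_le_card fun j hj => Finset.mem_filter.2 ⟨Finset.range_mono h1 hj,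
      (mono (Finset.mem_range.1 hj)).trans h2⟩
  refine ⟨a, by_contra fun q => ?_⟩
  have := Finset.card_le_card (t := Finset.range (clk m k r - 1)) (s := (Finset.range
    r.length).filter fun j => 2 * steps m k (j + 1) ≤ r.length) fun j hj => Finset.mem_range.2
      (by_contra fun z => q ((mono (by omega)).trans (Finset.mem_filter.1 hj).2))
  rw [← e, Finset.card_range] at this
  omega

abbrev Arg := List (List ℕ) × (List Bool × EL) × List Bool

theorem subexp {q₁ q₂ w₁ w₂ : ℕ} (g1 : q₂ ≤ q₁) (g2 : 0 < q₂) (h1 : 0 < w₁) (h2 : 0 < w₂) :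
    ∃ (M : Arg × List Bool → ℕ × ℕ) (p : Polynomial ℕ), PT M ∧ (∀ x, 0 < (M x).2) ∧
      ∀ ε : ℝ, 0 < ε → ∃ a, ∀ (u : List Bool) (E : EL) (k : List Bool) (l : ℕ),
      (∀ e ∈ E, e.1 < u.length ∧ e.2 < u.length) → 0 < k.length →
      (p.eval (sz (a, (u, E), k)) : ℕ) * (2 : ℝ) ^ (ε * u.length) ≤ l →
      3 / 4 ≤ Ex l fun r => if |((M ((a, (u, E), k), r)).1 : ℝ) / (M ((a, (u, E), k), r)).2 -
        ZL (log (w₁ / w₂)) (log (q₁ / q₂)) u.length E| ≤
        ZL (log (w₁ / w₂)) (log (q₁ / q₂)) u.length E / k.length then 1 else 0 := by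
  have g0 : 0 < q₁ := g2.trans_le g1
  obtain ⟨p, hp⟩ := ((UN.cst 2).mul (steps_un (α := Arg) (UN.len (snd (fst snd')))
    (UN.len (snd snd')) (UN.cst 2))).bd
  refine ⟨fun x => ras q₁ q₂ w₁ w₂ x.1.1 x.1.2.1.1 x.1.2.1.2 x.1.2.2.length
    (clk x.1.2.1.2.length x.1.2.2.length x.2) x.2, p, ras_pt _ _ _ _ (by fun_prop) (by fun_prop)
      (by fun_prop) (UN.len (by fun_prop)) (UN.len (by unfold steps; fun_prop)) snd',
    fun x => by simp only [ras]; positivity, fun ε hε => ?_⟩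
  obtain ⟨a, H⟩ := ras_spec g1 g2 h1 h2 (half_pos hε)
  refine ⟨a, fun u E k l hE hk hl => ?_⟩
  set t : ℝ := 2 ^ (ε / 2 * u.length) with ht
  have t1 : 1 ≤ t := one_le_rpow one_le_two (by positivity)
  have t2 : (2 : ℝ) ^ (ε * u.length) = t * t := by rw [ht, ← rpow_add two_pos]; ring_nf
  have t3 : (⌈t⌉₊ : ℝ) ≤ 2 * t := by linarith [Nat.ceil_lt_add_one (zero_le_one.trans t1)]
  have t4 : ((2 * steps E.length k.length 2 : ℕ) : ℝ) * (t * t) ≤ l :=
    le_trans (mul_le_mul_of_nonneg_right (Nat.cast_le.2 (hp (a, (u, E), k))) (by positivity))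
      (t2 ▸ hl)
  have t5 : (⌈t⌉₊ : ℝ) * ⌈t⌉₊ ≤ 2 * t * (2 * t) := by gcongr
  have t6 : 1 ≤ t * t := by nlinarith
  simp only [steps] at t4
  push_cast at t4
  have t7 := mul_le_mul_of_nonneg_left t5 (show (0 : ℝ) ≤ 2 * 96 * 8 * (E.length + 1) *
    (k.length * k.length) * E.length by positivity)
  have t8 : (0 : ℝ) ≤ (E.length + 1) * (k.length * k.length) * E.length * (t * t) := by positivity
  obtain ⟨c1, c2⟩ := clk_spec (m := E.length) (k := k.length) (N := ⌈t⌉₊)
    (r := List.replicate l true) (Nat.ceil_pos.2 (one_pos.trans_le t1))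
    (by rw [List.length_replicate, ← Nat.cast_le (α := ℝ)]; nlinarith) (by
      rw [List.length_replicate, ← Nat.cast_le (α := ℝ), steps]
      push_cast
      linarith)
  rw [List.length_replicate] at c2
  refine (H u E hE _ _ l hk (Nat.ceil_le.1 c1) c2).trans_eq (Ex_congr fun r hr => ?_)
  simp only [clk, hr, List.length_replicate]

/-- a rational number larger than one -/
lemma rat_split {y : ℚ} (hy : 1 < y) : ∃ w₁ w₂ : ℕ, 0 < w₁ ∧ 0 < w₂ ∧ (y : ℝ) = 1 + w₁ / w₂ := by
  have h := Rat.num_pos.2 (sub_pos.2 hy)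
  refine ⟨(y - 1).num.toNat, (y - 1).den, by omega, (y - 1).den_pos, ?_⟩
  rw [← Int.cast_natCast, Int.toNat_of_nonneg h.le, ← Rat.cast_def]
  simp

end Pool.Agent.Lib.MP_9bdb70_lc
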