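import Pool.Agent.Lib.MP_9bdb70_lc.Loc

/-! Clusters, the number of components, and the random cluster partition function. -/

namespace Pool.Agent.Lib.MP_9bdb70_lc

open Finset Real
open scoped BigOperators Classical

/-- `u` and `v` lie in the same component of the graph with edge set `R` -/
def Conn (R : Set (ℕ × ℕ)) (u v : ℕ) : Prop :=
  ∀ φ : ℕ → Prop, (∀ p ∈ R, φ p.1 ↔ φ p.2) → (φ u ↔ φ v)

variable {R R' : Set (ℕ × ℕ)} {u v x y n : ℕ}

lemma Conn.refl (R : Set (ℕ × ℕ)) (u : ℕ) : Conn R u u := fun _ _ => Iff.rfl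
lemma Conn.symm (h : Conn R u v) : Conn R v u := fun φ H => (h φ H).symm
lemma Conn.trans (h : Conn R u v) (h' : Conn R v x) : Conn R u x :=
  fun φ H => (h φ H).trans (h' φ H)
lemma Conn.of_mem {p : ℕ × ℕ} (h : p ∈ R) : Conn R p.1 p.2 := fun _ H => H p h
lemma Conn.imp (H : ∀ p ∈ R, Conn R' p.1 p.2) (h : Conn R u v) : Conn R' u v :=
  fun φ K => h φ fun p hp => H p hp φ K
lemma Conn.mono (H : R ⊆ R') (h : Conn R u v) : Conn R' u v := h.imp fun _ hp => .of_mem (H hp)
lemma Conn.congr (h : Conn R u v) : Conn R x u ↔ Conn R x v := ⟨(·.trans h), (·.trans h.symm)⟩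

lemma Conn.iso (H : ∀ p ∈ R, p.1 = u ↔ p.2 = u) (h : Conn R u v) : v = u := (h (· = u) H).1 rfl

lemma conn_insert : Conn (insert (u, v) R) x y ↔
    Conn R x y ∨ (Conn R x u ∧ Conn R v y) ∨ (Conn R x v ∧ Conn R u y) := by
  have k : Conn (insert (u, v) R) u v := .of_mem (Set.mem_insert (u, v) R)
  have k' : ∀ {a b}, Conn R a b → Conn (insert (u, v) R) a b := .mono (Set.subset_insert _ _)
  refine ⟨fun h => (h (fun y => Conn R x y ∨ (Conn R x u ∧ Conn R v y) ∨
    (Conn R x v ∧ Conn R u y)) ?_).1 (.inl (.refl _ _)), ?_⟩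
  · rintro p (rfl | hp)
    · have := Conn.refl R
      tauto
    · simp only [(Conn.of_mem hp).congr]
  · rintro (h | ⟨h, h'⟩ | ⟨h, h'⟩)
    exacts [k' h, ((k' h).trans k).trans (k' h'), ((k' h).trans k.symm).trans (k' h')]

/-- rename `v` to `u` -/
def rel (u v w : ℕ) : ℕ := if w = v then u else w

/-- rename `v` to `u` in an edge -/
def rl (u v : ℕ) (p : ℕ × ℕ) : ℕ × ℕ := (rel u v p.1, rel u v p.2)

lemma conn_self_rel : Conn (insert (u, v) R) x (rel u v x) := by
  unfold rel
  split_ifs with h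
  · exact h ▸ (Conn.of_mem (Set.mem_insert (u, v) R)).symm
  · exact .refl _ _

lemma conn_rel : Conn (insert (u, v) R) x y ↔ Conn (rl u v '' R) (rel u v x) (rel u v y) := by
  refine ⟨fun h φ H => h (fun w => φ (rel u v w)) ?_, fun h => conn_self_rel.trans
    ((h.imp ?_).trans conn_self_rel.symm)⟩
  · rintro p (rfl | hp)
    · simp [rel]
    · exact H _ ⟨p, hp, rfl⟩
  · rintro _ ⟨p, hp, rfl⟩
    exact conn_self_rel.symm.trans ((Conn.of_mem (Set.mem_insert_of_mem _ hp)).trans conn_self_rel)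

/-- the cluster of `v` -/
noncomputable def cl (n : ℕ) (R : Set (ℕ × ℕ)) (v : ℕ) : Finset ℕ := (range n).filter (Conn R v)

/-- the number of components -/
noncomputable def kk (n : ℕ) (R : Set (ℕ × ℕ)) : ℝ := ∑ v ∈ range n, ((cl n R v).card : ℝ)⁻¹

lemma mem_cl : x ∈ cl n R v ↔ x < n ∧ Conn R v x := by simp [cl]

lemma cl_eq (h : Conn R u v) : cl n R u = cl n R v :=
  filter_congr fun _ _ => ⟨h.symm.trans, h.trans⟩

lemma cl_pos (h : v < n) : 0 < (cl n R v).card := card_pos.2 ⟨v, mem_cl.2 ⟨h, .refl _ _⟩⟩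

lemma sum_cl (h : v < n) : ∑ x ∈ cl n R v, ((cl n R x).card : ℝ)⁻¹ = 1 := by
  rw [sum_congr rfl fun x hx => by rw [← cl_eq (mem_cl.1 hx).2], sum_const, nsmul_eq_mul,
    mul_inv_cancel₀ (Nat.cast_pos.2 (cl_pos h)).ne']

lemma kk_anti (H : ∀ p ∈ R, Conn R' p.1 p.2) : kk n R' ≤ kk n R :=
  sum_le_sum fun _ hv => inv_anti₀ (Nat.cast_pos.2 (cl_pos (mem_range.1 hv))) (Nat.cast_le.2
    (card_le_card fun _ h => mem_cl.2 ⟨(mem_cl.1 h).1, (mem_cl.1 h).2.imp H⟩))

lemma cl_iso (H : ∀ p ∈ R, p.1 = u ↔ p.2 = u) (h : u < n) : cl n R u = {u} :=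
  eq_singleton_iff_unique_mem.2 ⟨mem_cl.2 ⟨h, .refl _ _⟩, fun _ h => (mem_cl.1 h).2.iso H⟩

lemma kk_empty : kk n ∅ = n := by
  rw [kk, sum_congr rfl fun v hv => by rw [cl_iso (by simp) (mem_range.1 hv)]]
  simp

lemma kk_insert (hu : u < n) (hv : v < n) :
    kk n (insert (u, v) R) = kk n R - if Conn R u v then 0 else 1 := by
  split_ifs with h
  · rw [sub_zero]
    refine le_antisymm (kk_anti fun p hp => .of_mem (Set.mem_insert_of_mem _ hp)) (kk_anti ?_)
    rintro p (rfl | hp)
    exacts [h, .of_mem hp]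
  · have h1 : cl n (insert (u, v) R) u = cl n R u ∪ cl n R v := by
      ext x
      have := Conn.refl R u
      simp only [mem_cl, mem_union, conn_insert]
      tauto
    have h2 : cl n R u ∪ cl n R v ⊆ range n := union_subset (filter_subset _ _) (filter_subset _ _)
    have h3 := sum_cl (R := insert (u, v) R) hu
    rw [kk, kk, ← sum_sdiff h2, ← sum_sdiff h2, sum_union (disjoint_left.2 fun x a b =>
      h ((mem_cl.1 a).2.trans (mem_cl.1 b).2.symm)) (f := fun x => ((cl n R x).card : ℝ)⁻¹),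
      sum_cl hu, sum_cl hv, ← h1, h3, h1, sum_congr rfl (g := fun x => ((cl n R x).card : ℝ)⁻¹)]
    · ring
    · intro x hx
      simp only [mem_sdiff, mem_range, mem_union, mem_cl, not_or, not_and] at hx
      congr 3
      ext y
      have a : ¬Conn R x u := fun q => hx.2.1 hx.1 q.symm
      have b : ¬Conn R x v := fun q => hx.2.2 hx.1 q.symm
      simp only [mem_cl, conn_insert, a, b, false_and, or_false]

lemma kk_rel (hu : u < n) (hv : v < n) :
    kk n (insert (u, v) R) = kk n (rl u v '' R) - if u = v then 0 else 1 := by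
  have h1 : kk n (insert (u, v) R) = kk n (insert (u, v) (rl u v '' R)) := by
    refine le_antisymm (kk_anti ?_) (kk_anti ?_)
    · rintro _ (rfl | ⟨p, hp, rfl⟩)
      · exact .of_mem (Set.mem_insert _ _)
      · exact conn_self_rel.symm.trans
          ((Conn.of_mem (Set.mem_insert_of_mem _ hp)).trans conn_self_rel)
    · rintro p (rfl | hp)
      · exact .of_mem (Set.mem_insert _ _)
      · exact conn_self_rel.trans ((Conn.of_mem (p := rl u v p)
          (Set.mem_insert_of_mem _ (Set.mem_image_of_mem _ hp))).trans conn_self_rel.symm)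
  rw [h1, kk_insert hu hv]
  refine congrArg _ (if_congr (Iff.intro (fun h => by_contra fun q => q (h.symm.iso ?_)) fun h =>
    h ▸ .refl _ _) rfl rfl)
  rintro _ ⟨p, -, rfl⟩
  simp only [rl, rel]
  split_ifs <;> simp [*]

variable {m : ℕ} {a b : ℝ} {en : Fin m → ℕ × ℕ}

/-- all ends are vertices -/
def Ends (n : ℕ) (en : Fin m → ℕ × ℕ) : Prop := ∀ e, (en e).1 < n ∧ (en e).2 < n

lemma kk_ins (h : Ends n en) (e : Fin m) (A : Finset (Fin m)) :
    kk n (en '' (insert e A : Finset (Fin m))) =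
      kk n (en '' A) - if Conn (en '' A) (en e).1 (en e).2 then 0 else 1 := by
  rw [coe_insert, Set.image_insert_eq, ← kk_insert (h e).1 (h e).2]

lemma kk_bd (h : Ends n en) (A : Finset (Fin m)) (C : Finset (Fin m)) :
    kk n (en '' A) ≤ kk n (en '' (A ∪ C : Finset (Fin m))) + C.card := by
  induction C using Finset.induction_on with
  | empty => simp
  | insert e C he ih =>
    rw [union_insert, kk_ins h, card_insert_of_notMem he, Nat.cast_succ]
    split_ifs <;> linarith

lemma sup_kk (h : Ends n en) (hb : 0 ≤ b) {θ : Fin m → ℝ} {g c : ℝ}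
    (hg : ∀ e, θ e ≤ g ∧ -g ≤ θ e - b) : Sup (fun A => ∑ e ∈ A, θ e + b * (kk n (en '' A) - c)) g := by
  refine ⟨fun A A' e hA he => ?_, fun A e he => ?_⟩
  · rw [sum_insert he, sum_insert fun q => he (hA q), kk_ins h, kk_ins h]
    have : Conn (en '' A) (en e).1 (en e).2 → Conn (en '' A') (en e).1 (en e).2 :=
      .mono (Set.image_mono (coe_subset.2 hA))
    split_ifs with p q
    · linarith
    · exact absurd (this p) q
    · linarith
    · linarith
  · rw [sum_insert he, kk_ins h, abs_le]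
    have := hg e
    split_ifs <;> constructor <;> linarith

/-- the random cluster partition function with edge weight `exp a` and cluster weight `exp b` -/
noncomputable def Zf (a b : ℝ) (n : ℕ) (en : Fin m → ℕ × ℕ) : ℝ :=
  ∑ A : Finset (Fin m), exp (a * A.card + b * kk n (en '' A))

lemma Zf_pos : 0 < Zf a b n en := sum_pos (fun _ _ => exp_pos _) univ_nonempty

/-- the partition function of an edge list -/
noncomputable def ZL (a b : ℝ) (n : ℕ) (E : List (ℕ × ℕ)) : ℝ := Zf a b n E.get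

lemma ZL_ofFn (en : Fin m → ℕ × ℕ) : ZL a b n (List.ofFn en) = Zf a b n en := by
  have : ∀ {k} (h : k = m) (f : Fin k → ℕ × ℕ), (∀ i, f i = en (i.cast h)) →
      Zf a b n f = Zf a b n en := by
    rintro k rfl f hf
    rw [show f = en from funext hf]
  exact this (by simp) _ fun i => List.get_ofFn _ _

lemma ZL_nil : ZL a b n [] = exp (b * n) := by
  have : (univ : Finset (Finset (Fin 0))) = {∅} := rfl
  rw [← List.ofFn_zero (f := Fin.elim0), ZL_ofFn, Zf, this]
  simp [kk_empty]

lemma ZL_cons (hu : u < n) (hv : v < n) (E : List (ℕ × ℕ)) : ZL a b n ((u, v) :: E) =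
    ZL a b n E + exp (a - if u = v then 0 else b) * ZL a b n (E.map (rl u v)) := by
  obtain ⟨m, en, rfl⟩ : ∃ (m : ℕ) (en : Fin m → ℕ × ℕ), E = List.ofFn en := ⟨_, _, E.ofFn_get.symm⟩
  rw [List.map_ofFn, ← List.ofFn_cons, ZL_ofFn, ZL_ofFn, ZL_ofFn, Zf, ← powerset_univ,
    Fin.univ_succ, cons_eq_insert, sum_powerset_insert (by simp), map_eq_image, Function.Embedding.coeFn_mk, powerset_image,
    sum_image, sum_image, powerset_univ, Zf, Zf, mul_sum]
  · congr 1
    · refine sum_congr rfl fun A _ => ?_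
      rw [card_image_of_injective _ (Fin.succ_injective m), coe_image, Set.image_image]
      rfl
    · refine sum_congr rfl fun A _ => ?_
      rw [card_insert_of_notMem (by simp), card_image_of_injective _ (Fin.succ_injective m),
        coe_insert, Set.image_insert_eq, coe_image, Set.image_image, ← exp_add, Set.image_comp]
      simp only [Fin.cons_zero, Fin.cons_succ, kk_rel hu hv]
      congr 1
      push_cast
      split_ifs <;> ring
  · exact (image_injective (Fin.succ_injective m)).injOn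
  · exact (image_injective (Fin.succ_injective m)).injOn

end Pool.Agent.Lib.MP_9bdb70_lc
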