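import Pool.Agent.Lib.MP_9bdb70_lc.Seq

/-! Nearly optimal local strategies, and noise that is shared along a colouring. -/

namespace Pool.Agent.Lib.MP_9bdb70_lc

open Finset Real
open scoped BigOperators

variable {m : ℕ} {X : Type} [Fintype X] [Nonempty X] {F F₀ : Finset (Fin m) → ℝ} {B δ : ℝ}
  {lam θ : X → ℝ}

/-- the indicator of a proposition -/
noncomputable def ind (p : Prop) [Decidable p] : ℝ := if p then 1 else 0

/-- a few forced elements make the total influence of every coordinate bounded -/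
lemma exists_T (h : Sup F B) (lam : X → ℝ) (N₀ : ℝ) (h0 : 0 ≤ N₀) :
    ∃ T : Finset (Fin m), T.card * N₀ ≤ m ∧
      ∀ w, ∑ e, infl (fun u => ind (e ∈ gr F lam T u m)) w ≤ 2 * N₀ := by
  set M : Finset (Fin m) → ℝ := fun T => ∑ e, 𝔼 u : Fin m → X, ind (e ∈ gr F lam T u m) with hM
  obtain ⟨T, -, hT⟩ := exists_max_image univ (fun T => M T - T.card * N₀) univ_nonempty
  refine ⟨T, ?_, fun w => ?_⟩
  · have h1 := hT ∅ (mem_univ _)
    have h2 : 0 ≤ M ∅ := sum_nonneg fun e _ => expect_nonneg fun u _ => by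
      unfold ind; split_ifs <;> norm_num
    have h3 : M T ≤ m := (sum_le_card_nsmul _ _ 1 fun e _ => expect_le univ_nonempty fun u _ => by
      unfold ind; split_ifs <;> norm_num).trans (by simp)
    simp only [card_empty, Nat.cast_zero, zero_mul] at h1
    linarith
  · have h1 := hT (insert w T) (mem_univ _)
    have h2 : ((insert w T).card : ℝ) ≤ T.card + 1 := by exact_mod_cast card_insert_le w T
    have h3 : ∑ e, infl (fun u => ind (e ∈ gr F lam T u m)) w ≤ 2 * (M (insert w T) - M T) := by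
      rw [hM, ← sum_sub_distrib, mul_sum]
      refine sum_le_sum fun e _ => infl_le fun u j => ?_
      have := gr_mono (lam := lam) (T := T) (T' := insert w T) (u := Function.update u w j)
        (u' := u) h m fun i _ => by
          by_cases a : i = w
          · exact .inl (a ▸ mem_insert_self _ _)
          · exact (em (i ∈ T)).imp mem_insert_of_mem fun q => ⟨q, Function.update_of_ne a _ _⟩
      unfold ind
      split_ifs with a b
      · rfl
      · exact absurd (this a) b
      · norm_num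
      · rfl
    nlinarith

/-- `F₀` is close to a sum of local terms -/
structure Loc {V : Type} (s : Finset V) (F₀ : Finset (Fin m) → ℝ) (φ : V → Finset (Fin m) → ℝ)
    (W : V → Finset (Fin m)) (N : ℕ → Fin m → Finset (Fin m)) (γ b μ : ℝ) : Prop where
  gap : ∀ A, |F₀ A - ∑ v ∈ s, φ v A| ≤ γ
  osc : ∀ v A A', |φ v A - φ v A'| ≤ b
  dep : ∀ v A A', (∀ e ∈ W v, e ∈ A ↔ e ∈ A') → φ v A = φ v A'
  self : ∀ r e, e ∈ N r e
  mono : ∀ r e, N r e ⊆ N (r + 1) e
  hub : ∀ v r, ∃ H, ∀ e ∈ W v, N r e ⊆ H ∧ H ⊆ N (r + 1) e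
  mult : ∀ e, ((s.filter fun v => e ∈ W v).card : ℝ) ≤ μ

/-- the decision on `e` depends only on the coordinates in `P e` -/
def Dep {κ : Type} (P : Fin m → Finset κ) (S : (κ → X) → Finset (Fin m)) : Prop :=
  ∀ e u u', (∀ i ∈ P e, u i = u' i) → (e ∈ S u ↔ e ∈ S u')

/-- the value of a strategy when the element `e` reads the noise coordinate `c e` -/
noncomputable def rval {κ : Type} [Fintype κ] [DecidableEq κ] (c : Fin m → κ)
    (G : Finset (Fin m) → ℝ) (θ : X → ℝ) (S : (κ → X) → Finset (Fin m)) : ℝ :=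
  𝔼 η, (G (S η) + ∑ e ∈ S η, θ (η (c e)))

variable {V : Type} {s : Finset V} {φ : V → Finset (Fin m) → ℝ} {W : V → Finset (Fin m)}
  {N : ℕ → Fin m → Finset (Fin m)} {γ b μ : ℝ} {κ : Type} [Fintype κ] [DecidableEq κ]

lemma rval_gap (c : Fin m → κ) {G G' : Finset (Fin m) → ℝ} (h : ∀ A, G A ≤ G' A + γ)
    (S : (κ → X) → Finset (Fin m)) : rval c G θ S ≤ rval c G' θ S + γ := by
  rw [rval, rval, ← Fintype.expect_const (ι := κ → X) γ, ← expect_add_distrib]
  exact expect_ge fun η => by linarith [h (S η)]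

omit [Nonempty X] in
lemma rval_eq (c : Fin m → κ) (S : (κ → X) → Finset (Fin m)) :
    rval c (fun A => ∑ v ∈ s, φ v A) θ S = ∑ v ∈ s, 𝔼 η, φ v (S η) +
      ∑ e, 𝔼 η, ind (e ∈ S η) * θ (η (c e)) := by
  rw [rval, expect_add_distrib, expect_sum_comm, ← expect_sum_comm univ univ]
  congr 1
  refine expect_congr rfl fun η _ => ?_
  simp [ind]

lemma Loc.le (L : Loc s F₀ φ W N γ b μ) {r R : ℕ} (h : r ≤ R) (e : Fin m) : N r e ⊆ N R e := by
  induction h with
  | refl => rfl
  | step _ ih => exact ih.trans (L.mono _ e)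

/-- local strategies do not see the difference between independent and shared noise -/
lemma Loc.transfer (L : Loc s F₀ φ W N γ b μ) {R : ℕ} {c : Fin m → κ}
    (hc : ∀ e, Set.InjOn c (N (R + 1) e)) {S : (Fin m → X) → Finset (Fin m)} (hS : Dep (N R) S) :
    rval c (fun A => ∑ v ∈ s, φ v A) θ (fun η => S (η ∘ c)) =
      rval id (fun A => ∑ v ∈ s, φ v A) θ S := by
  rw [rval_eq, rval_eq]
  congr 1
  · refine sum_congr rfl fun v _ => ?_
    obtain ⟨H, hH⟩ := L.hub v R
    rcases (W v).eq_empty_or_nonempty with h | ⟨e, he⟩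
    · have : ∀ A, φ v A = φ v ∅ := fun A => L.dep v _ _ (by simp [h])
      simp only [this, Fintype.expect_const]
    · exact expect_colour c H ((hc e).mono (hH e he).2) (fun u => φ v (S u)) fun u u' hu =>
        L.dep v _ _ fun i hi => hS i u u' fun j hj => hu j ((hH i hi).1 hj)
  · refine sum_congr rfl fun e _ => expect_colour c (N R e) ((hc e).mono (L.mono R e))
      (fun u => ind (e ∈ S u) * θ (u e)) fun u u' hu => ?_
    simp only [ind, hS e u u' hu, hu e (L.self R e)]

/-- a strategy with bounded influences can be localized -/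
lemma Loc.localize (L : Loc s F₀ φ W N γ b μ) (hb : 0 ≤ b) (S : (Fin m → X) → Finset (Fin m))
    {I : ℝ} (hI : ∀ w, ∑ e, infl (fun u => ind (e ∈ S u)) w ≤ I) {R : ℕ} (hR : 0 < R) :
    ∃ r < R, ∃ u', rval id (fun A => ∑ v ∈ s, φ v A) θ S - b * μ * (m * I) / R ≤
      rval id (fun A => ∑ v ∈ s, φ v A) θ
        fun u => univ.filter fun e => e ∈ S (mix (N r e) u u') := by
  set J : ℕ → ℝ := fun r => ∑ e, ∑ w ∈ N (r + 1) e \ N r e, infl (fun u => ind (e ∈ S u)) w with hJ
  have h1 : ∑ r ∈ range R, J r ≤ m * I := by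
    calc _ ≤ ∑ e, ∑ w, infl (fun u => ind (e ∈ S u)) w := by
          rw [hJ, sum_comm]
          refine sum_le_sum fun e _ => ?_
          rw [← sum_biUnion]
          · exact sum_le_sum_of_subset_of_nonneg (subset_univ _) fun _ _ _ => infl_nonneg _ _
          · intro a _ a' _ h
            wlog hlt : a < a' generalizing a a'
            · exact (this ‹_› ‹_› h.symm (by omega)).symm
            exact disjoint_left.2 fun w h1 h2 => (mem_sdiff.1 h2).2 (L.le hlt e (mem_sdiff.1 h1).1)
      _ ≤ m * I := by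
          rw [sum_comm]
          exact (sum_le_card_nsmul _ _ I fun w _ => hI w).trans (by simp)
  obtain ⟨r, hr, h2⟩ := exists_le_of_sum_le (nonempty_range_iff.2 hR.ne')
    (f := J) (g := fun _ => m * I / R) (h1.trans (by simp; field_simp; rfl))
  refine ⟨r, mem_range.1 hr, ?_⟩
  have hμ : ∀ e, 0 ≤ ∑ w ∈ N (r + 1) e \ N r e, infl (fun u => ind (e ∈ S u)) w := fun e =>
    sum_nonneg fun _ _ => infl_nonneg _ _
  obtain ⟨u', -, h3⟩ := exists_le_of_le_expect univ_nonempty (a := rval id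
    (fun A => ∑ v ∈ s, φ v A) θ S - b * μ * J r) (f := fun u' => rval id (fun A => ∑ v ∈ s, φ v A)
      θ fun u => univ.filter fun e => e ∈ S (mix (N r e) u u')) (by
    simp only [rval_eq, expect_add_distrib, expect_sum_comm, mem_filter, mem_univ, true_and, id]
    have k1 : ∀ e, 𝔼 u', 𝔼 u, ind (e ∈ S (mix (N r e) u u')) * θ (u e) =
        𝔼 u, ind (e ∈ S u) * θ (u e) := fun e => by
      rw [expect_comm, ← expect_mix (N r e) fun u => ind (e ∈ S u) * θ (u e)]
      simp only [mix_mem (L.self r e)]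
    have k2 : ∀ v, 𝔼 u, φ v (S u) - b * ∑ e ∈ W v, ∑ w ∈ N (r + 1) e \ N r e,
        infl (fun u => ind (e ∈ S u)) w ≤
        𝔼 u', 𝔼 u, φ v (univ.filter fun e => e ∈ S (mix (N r e) u u')) := fun v => by
      obtain ⟨H, hH⟩ := L.hub v r
      have k3 : ∀ e ∈ W v, 𝔼 u, 𝔼 u', |ind (e ∈ S (mix H u u')) - ind (e ∈ S (mix (N r e) u u'))| ≤
          ∑ w ∈ N (r + 1) e \ N r e, infl (fun u => ind (e ∈ S u)) w := fun e he => by
        have := hybrid (fun u => ind (e ∈ S u)) (N r e) (H \ N r e) disjoint_sdiff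
        rw [union_sdiff_of_subset (hH e he).1] at this
        exact this.trans (sum_le_sum_of_subset_of_nonneg
          (sdiff_subset_sdiff (hH e he).2 Subset.rfl) fun _ _ _ => infl_nonneg _ _)
      refine le_trans (sub_le_sub_left (mul_le_mul_of_nonneg_left (sum_le_sum k3) hb) _) ?_
      rw [expect_comm, ← expect_mix H fun u => φ v (S u), ← expect_sum_comm, mul_expect,
        ← expect_sub_distrib]
      refine expect_ge fun u => ?_
      rw [← expect_sum_comm, mul_expect, ← expect_sub_distrib]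
      refine expect_ge fun u' => ?_
      have k4 : ∀ e ∈ W v, 0 ≤ |ind (e ∈ S (mix H u u')) - ind (e ∈ S (mix (N r e) u u'))| :=
        fun _ _ => abs_nonneg _
      by_cases q : ∀ e ∈ W v, e ∈ S (mix H u u') ↔ e ∈ S (mix (N r e) u u')
      · rw [L.dep v _ (univ.filter fun e => e ∈ S (mix (N r e) u u')) (by simpa using q)]
        exact sub_le_self _ (mul_nonneg hb (sum_nonneg k4))
      · push Not at q
        obtain ⟨e, he, q⟩ := q
        have k5 := single_le_sum k4 he
        have k6 : |ind (e ∈ S (mix H u u')) - ind (e ∈ S (mix (N r e) u u'))| = 1 := by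
          rcases q with ⟨a, b⟩ | ⟨a, b⟩ <;> simp [ind, a, b]
        have k7 := (abs_le.1 (L.osc v (S (mix H u u'))
          (univ.filter fun e => e ∈ S (mix (N r e) u u')))).2
        nlinarith
    have k8 : ∑ v ∈ s, ∑ e ∈ W v, ∑ w ∈ N (r + 1) e \ N r e, infl (fun u => ind (e ∈ S u)) w ≤
        μ * J r := by
      rw [sum_comm' (t' := univ) (s' := fun e => s.filter fun v => e ∈ W v) (by simp), hJ, mul_sum]
      refine sum_le_sum fun e _ => ?_
      rw [sum_const, nsmul_eq_mul]
      exact mul_le_mul_of_nonneg_right (L.mult e) (hμ e)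
    have k9 := sum_le_sum fun v (_ : v ∈ s) => k2 v
    rw [sum_sub_distrib, ← mul_sum] at k9
    simp only [k1]
    nlinarith)
  refine ⟨u', le_trans (sub_le_sub_left ?_ _) h3⟩
  rcases Nat.eq_zero_or_pos m with rfl | hm
  · simp [hJ]
  rw [mul_div_assoc]
  exact mul_le_mul_of_nonneg_left h2 (mul_nonneg hb ((Nat.cast_nonneg _).trans (L.mult ⟨0, hm⟩)))

omit [Nonempty X] in
lemma val_eq (a : ℝ) (S : (Fin m → X) → Finset (Fin m)) :
    val (fun A => a * A.card + F₀ A) lam S = rval id F₀ (fun j => a + lam j) S :=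
  expect_congr rfl fun u _ => by simp only [sum_add_distrib, sum_const, nsmul_eq_mul, id]; ring

/-- the colours that the decision on `e` may read -/
def pal (c : Fin m → κ) (N : Fin m → Finset (Fin m)) (e : Fin m) : Finset κ :=
  ((N e).filter fun i => i ≤ e).image c

theorem Loc.upper (L : Loc s F₀ φ W N γ b μ) {a : ℝ} (h : Sup (fun A => a * A.card + F₀ A) B)
    (hl : Soft lam B δ) {R : ℕ} {c : Fin m → κ} (hc : ∀ e, Set.InjOn c (N (R + 1) e))
    {S : (κ → X) → Finset (Fin m)} (hS : Dep (pal c (N R)) S) :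
    rval c F₀ (fun j => a + lam j) S ≤ log (∑ A, exp (a * A.card + F₀ A)) + m * δ + 2 * γ := by
  classical
  let x : Fin m → (Fin m → X) → κ → X := fun e u j =>
    if h : ∃ i ∈ (N R e).filter fun i => i ≤ e, c i = j then u h.choose else Classical.arbitrary X
  let S' : (Fin m → X) → Finset (Fin m) := fun u => univ.filter fun e => e ∈ S (x e u)
  have h1 : ∀ e u u', (∀ i ∈ N R e, i ≤ e → u i = u' i) → (e ∈ S' u ↔ e ∈ S' u') := by
    intro e u u' hu
    have : x e u = x e u' := funext fun j => by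
      simp only [x]
      split_ifs with h
      · exact hu _ (mem_filter.1 h.choose_spec.1).1 (mem_filter.1 h.choose_spec.1).2
      · rfl
    simp only [S', mem_filter, this]
  have h2 : (fun η => S' (η ∘ c)) = S := funext fun η => Finset.ext fun e => by
    simp only [S', mem_filter, mem_univ, true_and]
    refine hS e _ _ fun j hj => ?_
    have h := mem_image.1 hj
    simp only [x, dif_pos h, Function.comp, h.choose_spec.2]
  have h3 := L.transfer (θ := fun j => a + lam j) hc (S := S') fun e u u' hu =>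
    h1 e u u' fun i hi _ => hu i hi
  have h4 := val_le h hl (S := S') fun e u u' hu => h1 e u u' fun i _ hi => hu i hi
  have h5 := rval_gap (θ := fun j => a + lam j) c (fun A => by
    linarith [(abs_le.1 (L.gap A)).2] : ∀ A, F₀ A ≤ ∑ v ∈ s, φ v A + γ) S
  have h6 := rval_gap (θ := fun j => a + lam j) id (fun A => by
    linarith [(abs_le.1 (L.gap A)).1] : ∀ A, ∑ v ∈ s, φ v A ≤ F₀ A + γ) S'
  rw [h2] at h3
  rw [val_eq] at h4
  linarith

theorem Loc.lower (L : Loc s F₀ φ W N γ b μ) {a : ℝ} (h : Sup (fun A => a * A.card + F₀ A) B)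
    (hl : Soft lam B δ) {R : ℕ} {c : Fin m → κ} (hc : ∀ e, Set.InjOn c (N (R + 1) e)) {Λ N₀ : ℝ}
    (hΛ : ∀ j, |lam j| ≤ Λ) (hδ : 0 ≤ δ) (hB : 0 ≤ B) (hb : 0 ≤ b) (h0 : 0 < N₀) (hR : 0 < R) :
    ∃ S, Dep (pal c (N R)) S ∧ log (∑ A, exp (a * A.card + F₀ A)) - m * δ -
      m / N₀ * (2 * B + Λ + 1) - 2 * γ - b * μ * (m * (2 * N₀)) / R ≤
        rval c F₀ (fun j => a + lam j) S := by
  obtain ⟨T, h1, h2⟩ := exists_T h lam N₀ h0.le
  obtain ⟨r, hr, u', h3⟩ := L.localize (θ := fun j => a + lam j) hb _ h2 hR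
  set S' : (Fin m → X) → Finset (Fin m) := fun u => univ.filter fun e =>
    e ∈ gr (fun A => a * A.card + F₀ A) lam T (mix (N r e) u u') m
  have h4 : ∀ e u v, (∀ i ∈ N R e, i ≤ e → u i = v i) → (e ∈ S' u ↔ e ∈ S' v) := by
    intro e u v hu
    simp only [S', mem_filter, mem_univ, true_and]
    refine gr_adapted h T e _ _ fun i hi => ?_
    unfold mix
    split_ifs with q
    exacts [hu i (L.le hr.le e q) hi, rfl]
  refine ⟨fun η => S' (η ∘ c), fun e η η' hη => h4 e _ _ fun i hi hi' =>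
    hη _ (mem_image_of_mem c (mem_filter.2 ⟨hi, hi'⟩)), ?_⟩
  have h5 := L.transfer (θ := fun j => a + lam j) hc (S := S') fun e u u' hu =>
    h4 e u u' fun i hi _ => hu i hi
  have h6 := le_val h hl hΛ hδ T
  have h7 := rval_gap (θ := fun j => a + lam j) id (fun A => by
    linarith [(abs_le.1 (L.gap A)).2] : ∀ A, F₀ A ≤ ∑ v ∈ s, φ v A + γ)
    fun u => gr (fun A => a * A.card + F₀ A) lam T u m
  have h8 := rval_gap (θ := fun j => a + lam j) c (fun A => by
    linarith [(abs_le.1 (L.gap A)).1] : ∀ A, ∑ v ∈ s, φ v A ≤ F₀ A + γ) fun η => S' (η ∘ c)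
  have h9 : T.card * (2 * B + Λ + 1) ≤ m / N₀ * (2 * B + Λ + 1) :=
    mul_le_mul_of_nonneg_right ((le_div_iff₀ h0).2 h1)
      (by linarith [(abs_nonneg _).trans (hΛ (Classical.arbitrary X))])
  rw [val_eq] at h6
  linarith

end Pool.Agent.Lib.MP_9bdb70_lc
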