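import Pool.Agent.Lib.MP_9bdb70_lc.Boost

/-! The randomized approximation scheme, its running time, and the Potts model. -/

namespace Pool.Agent.Lib.MP_9bdb70_lc

open Real Pool.Agent.Lib.MP_b67cc8_lc Pool.Agent.Lib.helper82 PT

/-- the test for a light particle -/
def subb (q₁ q₂ w₁ w₂ : ℕ) (ad : List (List ℕ)) (u : List Bool) (E : EL) (N : ℕ) (p : EL × ℕ) :
    Bool :=
  decide (4 * p.2 * N * ((w₂ * q₁) ^ p.1.length * (ept q₁ q₂ w₁ w₂ ad u p.1).1) *
    (ept q₁ q₂ w₁ w₂ ad u E).2 ≤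
    (w₂ * q₁) ^ E.length * (ept q₁ q₂ w₁ w₂ ad u E).1 * (ept q₁ q₂ w₁ w₂ ad u p.1).2)

/-- the number of steps -/
def steps (m k N : ℕ) : ℕ := 16 + 96 * (8 * (m + 1) * (k * k) * N) * N * m

/-- the approximation scheme -/
def ras (q₁ q₂ w₁ w₂ : ℕ) (ad : List (List ℕ)) (u : List Bool) (E : EL) (k N : ℕ) (r : List Bool) :
    ℕ × ℕ :=
  ((rit 2 (bst q₁ q₂ w₁ w₂ (subb q₁ q₂ w₁ w₂ ad u E (8 * (E.length + 1) * (k * k) * N)))
    (steps E.length k N) ([(E, 1)], 0) r).2 * q₁ ^ u.length, q₂ ^ u.length * (w₂ * q₁) ^ E.length)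

theorem ras_spec {q₁ q₂ w₁ w₂ : ℕ} (g1 : q₂ ≤ q₁) (g2 : 0 < q₂) (h1 : 0 < w₁) (h2 : 0 < w₂) {ε : ℝ}
    (hε : 0 < ε) : ∃ ad, ∀ (u : List Bool) (E : EL), (∀ e ∈ E, e.1 < u.length ∧ e.2 < u.length) →
      ∀ k N l : ℕ, 0 < k → (2 : ℝ) ^ (ε * u.length) ≤ N → 2 * steps E.length k N ≤ l →
      3 / 4 ≤ Ex l fun r => if |((ras q₁ q₂ w₁ w₂ ad u E k N r).1 : ℝ) /
        (ras q₁ q₂ w₁ w₂ ad u E k N r).2 - ZL (log (w₁ / w₂)) (log (q₁ / q₂)) u.length E| ≤
        ZL (log (w₁ / w₂)) (log (q₁ / q₂)) u.length E / k then 1 else 0 := by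
  have g0 : 0 < q₁ := g2.trans_le g1
  obtain ⟨ad, H⟩ := ept_spec g1 g2 h1 h2 (show 0 < log 2 * ε / 2 by positivity)
  refine ⟨ad, fun u E hE k N l hk hN hl => ?_⟩
  set ρ := exp (log 2 * ε / 2 * u.length) with hρ
  have r0 : 0 < ρ := exp_pos _
  have r1 : ρ * ρ ≤ N := by
    rw [hρ, ← exp_add]
    rw [rpow_def_of_pos two_pos] at hN
    convert hN using 2
    ring
  have N0 : (0 : ℝ) < N := lt_of_lt_of_le (by positivity) r1
  set Y := ZL (log (w₁ / w₂)) (log (q₁ / q₂)) u.length with hY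
  have H1 : ∀ D : EL, (∀ e ∈ D, e.1 < u.length ∧ e.2 < u.length) → ∃ A : ℝ,
      ((ept q₁ q₂ w₁ w₂ ad u D).1 : ℝ) = A * (ept q₁ q₂ w₁ w₂ ad u D).2 ∧
      0 < ((ept q₁ q₂ w₁ w₂ ad u D).2 : ℝ) ∧ A ≤ ρ * Y D ∧ Y D ≤ ρ * A := fun D hD => by
    obtain ⟨a1, a2, a3⟩ := H u D hD _ rfl
    have a4 : 0 < Y D := Zf_pos
    refine ⟨_, (div_mul_cancel₀ _ (by positivity)).symm, by positivity, ?_, ?_⟩
    · rw [← log_le_log_iff (by positivity) (by positivity), log_mul r0.ne' a4.ne', log_exp]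
      linarith [(abs_le.1 a3).2]
    · rw [← log_le_log_iff a4 (by positivity), log_mul r0.ne' (by positivity), log_exp]
      linarith [(abs_le.1 a3).1]
  obtain ⟨A, a1, a2, a3, a4⟩ := H1 E hE
  set c : ℝ := ((w₂ * q₁ : ℕ) : ℝ) with hc
  have c0 : 0 < c := by positivity
  have Y0 : 0 < Y E := Zf_pos
  set N' := 8 * (E.length + 1) * (k * k) * N with hN'
  have e0 : (N' : ℝ) = 8 * (E.length + 1) * (k * k) * N := by rw [hN']; push_cast; rfl
  have N1 : (0 : ℝ) < N' := by rw [e0]; positivity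
  have hb := boost g0 g2 h1 h2 E hE (sub := subb q₁ q₂ w₁ w₂ ad u E N') (Z := c ^ E.length * Y E)
    (κ := N * (c ^ E.length * Y E) / N') (C := 12 * N' * N / (c ^ E.length * Y E)) (k := k)
    (by simp [mass, hc, hY]) (by positivity) (by positivity) (Nat.cast_pos.2 hk) (fun p hp => by
      obtain ⟨B, b1, b2, b3, b4⟩ := H1 p.1 hp
      have : subb q₁ q₂ w₁ w₂ ad u E N' p = true ↔
          4 * p.2 * N' * (c ^ p.1.length * B) ≤ c ^ E.length * A := by
        rw [subb, decide_eq_true_iff, ← Nat.cast_le (α := ℝ),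
          ← mul_le_mul_iff_left₀ (mul_pos a2 b2) (c := c ^ E.length * A)]
        simp only [Nat.cast_mul _ (ept q₁ q₂ w₁ w₂ ad u _).2, Nat.cast_mul _ (_ * _),
          Nat.cast_mul _ (ept q₁ q₂ w₁ w₂ ad u _).1, Nat.cast_pow, a1, b1, ← hc]
        push_cast
        constructor <;> intro h <;> linarith
      have d1 := mul_le_mul_of_nonneg_left a3 (show 0 ≤ ρ * c ^ E.length by positivity)
      have d2 := mul_le_mul_of_nonneg_left a4 (show 0 ≤ c ^ E.length by positivity)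
      have d3 := mul_le_mul_of_nonneg_left b3
        (show 0 ≤ ρ * (4 * p.2 * N' * c ^ p.1.length) by positivity)
      have d4 := mul_le_mul_of_nonneg_left b4
        (show 0 ≤ (4 * p.2 * N' * c ^ p.1.length : ℝ) by positivity)
      have d5 := mul_le_mul_of_nonneg_right r1 (show 0 ≤ c ^ E.length * Y E by positivity)
      have y1 : 0 < Y p.1 := Zf_pos
      have d6 := mul_le_mul_of_nonneg_right r1
        (show 0 ≤ (4 * p.2 * N' * c ^ p.1.length : ℝ) * Y p.1 by positivity)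
      rw [mass, ← hc, ← hY, le_div_iff₀ N1, div_mul_eq_mul_div, le_div_iff₀ (by positivity)]
      refine ⟨fun h => ?_, fun h => ?_⟩
      · linarith [mul_le_mul_of_nonneg_left (this.1 h) r0.le]
      · linarith [mul_le_mul_of_nonneg_left (not_le.1 (mt this.2 (by simp [h]))).le r0.le])
    (by
      rw [div_mul_eq_mul_div, ← mul_div_assoc, ← mul_div_assoc, div_le_iff₀ N1, e0]
      nlinarith [show 0 ≤ (k : ℝ) ^ 2 * (N * (c ^ E.length * Y E)) by positivity])
    (S := steps E.length k N) (le_of_eq (by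
      rw [steps, ← hN', ← mul_assoc (_ / _), div_mul_cancel₀ _ (by positivity)]
      push_cast
      ring)) hl
  refine hb.trans_eq (Ex_congr fun r _ => if_congr ?_ rfl rfl)
  simp only [ras, ← hN']
  generalize (rit 2 _ _ _ r : St).2 = x
  rw [show ((x * q₁ ^ u.length : ℕ) : ℝ) / (q₂ ^ u.length * (w₂ * q₁) ^ E.length : ℕ) - Y E =
    (x * (q₁ / q₂) ^ u.length - c ^ E.length * Y E) / c ^ E.length by
      rw [hc, div_pow]; push_cast; field_simp, abs_div, abs_of_pos (pow_pos c0 _),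
    div_le_iff₀ (pow_pos c0 _), mul_div_assoc, mul_comm (Y E / k)]

variable {α σ : Type} [Enc α] [Enc σ]

lemma rit_pt {t : α → ℕ} (ht : UN t) {g : α → σ} {h : α → σ → List Bool → σ}
    {r : α → List Bool} (hg : PT g) (hr : PT r)
    (hh : PT fun p : α × σ × List Bool => h p.1 p.2.1 p.2.2) {B : α → ℕ} (hB : Bd sz B)
    (I : α → ℕ → σ → Prop) (h0 : ∀ a, I a 0 (g a)) (h1 : ∀ a i s x, I a i s → I a (i + 1) (h a s x))
    (hb : ∀ a i s, i ≤ t a → I a i s → sz s ≤ B a) :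
    PT fun a => rit 2 (h a) (t a) (g a) (r a) := by
  have h2 : PT fun p : α × σ × List Bool => p.2.2.take 2 :=
    (show PT fun p : α × σ × List Bool => bif p.2.2.tail.isEmpty then p.2.2 else
      [p.2.2.headD false, p.2.2.tail.headD false] by fun_prop).congr fun p => by
        rcases p.2.2 with _ | ⟨a, _ | ⟨b, l⟩⟩ <;> rfl
  refine fst (ht.inv (h := fun a => rst 2 (h a)) (pair hg hr)
    (pair (PT.comp hh (pair fst' (pair (fst snd') h2))) ((tail (tail (snd snd'))).congr fun p => by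
      rcases p.2.2 with _ | ⟨a, _ | ⟨b, l⟩⟩ <;> rfl))
    ((((Bd.const 2).mul hB).add (Bd.const 1)).add hr.sz_bd)
    (fun a i s => I a i s.1 ∧ sz s.2 ≤ sz (r a)) (fun a => ⟨h0 a, le_rfl⟩)
    (fun a i s hs => ⟨h1 a i _ _ hs.1, (sz_drop_le _ _).trans hs.2⟩) fun a i s hi hs => ?_)
  have := hb a i _ hi hs.1
  have := hs.2
  rw [← Prod.mk.eta (p := s), sz_prod]
  omega

lemma sz_list_le {c : ℕ} {l : List σ} (h : ∀ x ∈ l, sz x ≤ c) : sz l ≤ l.length * (2 * c + 1) := by
  induction l with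
  | nil => simp [sz_nil]
  | cons b l ih =>
    obtain ⟨a, b⟩ := List.forall_mem_cons.1 h
    have := ih b
    rw [sz_cons, List.length_cons, add_mul]
    omega

lemma steps_un {m k N : α → ℕ} (hm : UN m) (hk : UN k) (hN : UN N) :
    UN fun a => steps (m a) (k a) (N a) :=
  (UN.cst 16).add ((((UN.cst 96).mul ((((UN.cst 8).mul (hm.add (UN.cst 1))).mul (hk.mul hk)).mul
    hN)).mul hN).mul hm)

lemma ras_pt (q₁ q₂ w₁ w₂ : ℕ) {ad : α → List (List ℕ)} {u r : α → List Bool} {E : α → EL}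
    {k N : α → ℕ} (h1 : PT ad) (h2 : PT u) (h3 : PT E) (hk : UN k) (hN : UN N) (hr : PT r) :
    PT fun a => ras q₁ q₂ w₁ w₂ (ad a) (u a) (E a) (k a) (N a) (r a) := by
  refine pair (mul (snd ?_) (pow_pt _ h2)) (mul (pow_pt _ h2) (pow_pt _ h3))
  have hS := steps_un (UN.len h3) hk hN
  have k1 : PT fun p : α × EL × ℕ => subb q₁ q₂ w₁ w₂ (ad p.1) (u p.1) (E p.1)
      (8 * ((E p.1).length + 1) * (k p.1 * k p.1) * N p.1) p.2 := by
    have a1 := ept_pt (α := α × EL × ℕ) q₁ q₂ w₁ w₂ (h1.comp fst') (h2.comp fst') (fst snd')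
    have a2 := ept_pt (α := α × EL × ℕ) q₁ q₂ w₁ w₂ (h1.comp fst') (h2.comp fst') (h3.comp fst')
    have a3 := hk.pt
    have a4 := hN.pt
    exact le (mul (mul (by fun_prop) (mul (pow_pt _ (fst snd')) (fst a1))) (snd a2))
      (mul (mul (pow_pt _ (h3.comp fst')) (fst a2)) (snd a1))
  set d := 4 + w₂ * q₁ + w₁ * q₁ + w₁ * q₂ with hd
  have hW := (hS.add (UN.cst 1)).mul (UN.cst d)
  refine rit_pt hS (by fun_prop) hr (cond (by fun_prop) (by fun_prop) (cond (by fun_prop)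
    (by fun_prop) (pair (append (cond (k1.comp (F := fun p : α × St × List Bool =>
      (p.1, p.2.1.1.headD ([], 0))) (by fun_prop)) (by unfold kids; fun_prop)
      (by unfold kids; fun_prop)) (by fun_prop)) (by fun_prop))))
    ((((Bd.const 2).mul ((hS.add (UN.cst 1)).bd.mul (((Bd.const 2).mul ((((Bd.const 2).mul
      ((UN.len h3).bd.mul (((Bd.const 6).mul h3.sz_bd).add (Bd.const 3)))).add (Bd.const 1)).add
      hW.bd)).add (Bd.const 1)))).add (Bd.const 1)).add (hS.mul (hW.add (UN.cst 1))).bd)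
    (fun a i s => s.1.length ≤ i + 1 ∧ sz s.2 ≤ i * ((i + 1) * d + 1) ∧ ∀ p ∈ s.1,
      Bnd (sz (E a)) p.1 ∧ p.1.length ≤ (E a).length ∧ sz p.2 ≤ (i + 1) * d)
    (fun a => ⟨le_rfl, by simp [sz_nat], List.forall_mem_singleton.2
      ⟨.self _, le_rfl, (sz_nat_le_self 1).trans (by omega)⟩⟩) ?_ ?_
  · rintro a i ⟨_ | ⟨⟨D, W⟩, L⟩, c⟩ x ⟨a1, a2, a3⟩
    · exact ⟨by simp [bst], a2.trans (by gcongr <;> omega), by simp [bst]⟩
    obtain ⟨⟨b1, b2, b3⟩, b4⟩ := List.forall_mem_cons.1 a3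
    have b5 : ∀ p ∈ L, Bnd (sz (E a)) p.1 ∧ p.1.length ≤ (E a).length ∧ sz p.2 ≤ (i + 1 + 1) * d :=
      fun p hp => ⟨(b4 p hp).1, (b4 p hp).2.1, (b4 p hp).2.2.trans (by gcongr; omega)⟩
    simp only [List.length_cons] at a1 a2 b2 b3
    cases D with
    | nil =>
      refine ⟨by simp [bst]; omega, (sz_add_le c W).trans ?_, b5⟩
      nlinarith
    | cons e D =>
      have b6 : ∀ V, sz V ≤ sz W + 4 → (kids q₁ q₂ w₁ w₂ (e :: D) V).length ≤ 2 ∧
          ∀ p ∈ kids q₁ q₂ w₁ w₂ (e :: D) V, Bnd (sz (E a)) p.1 ∧ p.1.length ≤ (E a).length ∧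
            sz p.2 ≤ (i + 1 + 1) * d := fun V hV => by
        have c1 : ∀ y, y + 4 ≤ d → sz (V * y) ≤ (i + 1 + 1) * d := fun y hy => by
          have := sz_mul_le V y
          have := sz_nat_le_self y
          rw [add_mul _ 1]
          omega
        rw [List.length_cons] at b2
        refine ⟨le_rfl, List.forall_mem_cons.2 ⟨⟨b1.tail, by simp; omega, c1 _ (by omega)⟩,
          List.forall_mem_singleton.2 ⟨b1.tail.rl b1.headD.1 _, by simp; omega, c1 _ ?_⟩⟩⟩
        split_ifs <;> omega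
      have b7 := b6 W (by omega)
      have b8 := b6 (4 * W) (by have := sz_mul_le 4 W; have := sz_nat_le_self 4; omega)
      simp only [bst, List.isEmpty_cons, List.headD_cons, List.tail_cons, cond_false,
        List.length_append, List.forall_mem_append]
      refine and_left_comm.1 ⟨a2.trans (by gcongr <;> omega), ?_⟩
      cases subb q₁ q₂ w₁ w₂ _ _ _ _ (e :: D, W)
      · exact ⟨by have := b7.1; simp only [cond_false]; omega, b7.2, b5⟩
      · cases x.headD false && x.tail.headD false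
        · exact ⟨by simp; omega, by simp, b5⟩
        · exact ⟨by have := b8.1; simp only [cond_true]; omega, b8.2, b5⟩
  · rintro a i ⟨L, c⟩ hi ⟨a1, a2, a3⟩
    rw [sz_prod]
    refine Nat.add_le_add (Nat.add_le_add_right (Nat.mul_le_mul_left 2 ((sz_list_le fun p hp =>
      ?_).trans (Nat.mul_le_mul_right _ (a1.trans (Nat.succ_le_succ hi))))) 1)
      (a2.trans (by gcongr))
    obtain ⟨b1, b2, b3⟩ := a3 p hp
    rw [← Prod.mk.eta (p := p), sz_prod]
    exact Nat.add_le_add (Nat.add_le_add_right (Nat.mul_le_mul_left 2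
      (b1.sz.trans (Nat.mul_le_mul_right _ b2))) 1) (b3.trans (by gcongr))

open Finset in
theorem potts_eq {q n : ℕ} (hq : 0 < q) {w : ℝ} (hw : 0 < w) (E : List (Fin n × Fin n)) :
    ∀ f : Fin n → Fin n,
      ∑ σ : Fin n → Fin q, (1 + w) ^ (E.countP fun e => decide (σ (f e.1) = σ (f e.2))) =
        ZL (log w) (log q) n (E.map fun e => ((f e.1).val, (f e.2).val)) := by
  have : Nonempty (Fin q) := ⟨⟨0, hq⟩⟩
  have q0 : (0 : ℝ) < q := Nat.cast_pos.2 hq
  induction E with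
  | nil =>
    intro f
    rw [List.map_nil, ZL_nil, mul_comm, exp_nat_mul, exp_log q0]
    simp
  | cons e E ih =>
    intro f
    have h1 := ih fun x => if f x = f e.2 then f e.1 else f x
    rw [List.map_cons, ZL_cons (f e.1).2 (f e.2).2, List.map_map, ← ih f,
      show rl (f e.1) (f e.2) ∘ (fun e : Fin n × Fin n => ((f e.1).val, (f e.2).val)) = fun p =>
        ((if f p.1 = f e.2 then f e.1 else f p.1).val, (if f p.2 = f e.2 then f e.1 else f p.2).val)
        from funext fun p => by simp only [Function.comp, rl, rel, Fin.val_inj, apply_ite Fin.val],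
      ← h1, exp_sub, exp_log hw]
    have h2 : ∑ σ : Fin n → Fin q, (1 + w) ^ ((e :: E).countP fun e => decide (σ (f e.1) = σ (f e.2))) =
        ∑ σ : Fin n → Fin q, (1 + w) ^ (E.countP fun e => decide (σ (f e.1) = σ (f e.2))) +
        w * ∑ σ : Fin n → Fin q, if σ (f e.2) = σ (f e.1) then
          (1 + w) ^ (E.countP fun e => decide (σ (f e.1) = σ (f e.2))) else 0 := by
      rw [mul_sum, ← sum_add_distrib]
      refine sum_congr rfl fun σ _ => ?_
      rw [List.countP_cons]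
      by_cases h : σ (f e.1) = σ (f e.2)
      · simp [h]
        ring
      · simp [h, Ne.symm h]
    rw [h2, div_mul_eq_mul_div, mul_div_assoc]
    congr 2
    by_cases h : f e.1 = f e.2
    · have : ∀ x, (if f x = f e.2 then f e.1 else f x) = f x := fun x => by
        split_ifs with a
        exacts [h.trans a.symm, rfl]
      simp only [this]
      simp [h]
    · have h3 := expect_update (f e.2) fun σ : Fin n → Fin q => if σ (f e.2) = σ (f e.1) then
        (1 + w) ^ (E.countP fun e => decide (σ (f e.1) = σ (f e.2))) else 0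
      simp only [Fintype.expect_eq_sum_div_card, ← sum_div, Function.update_self,
        Function.update_of_ne h, sum_ite_eq', mem_univ, if_true, Fintype.card_fin] at h3
      rw [if_neg (mt Fin.val_inj.1 h), exp_log q0, ← div_left_inj' (Nat.cast_ne_zero.2
        (Fintype.card_ne_zero (α := Fin n → Fin q))), ← h3]
      simp only [Function.update_apply, apply_ite (_ : Fin n → Fin q)]

end Pool.Agent.Lib.MP_9bdb70_lc
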