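import Pool.Agent.Lib.MP_9bdb70_lc.S2Smooth

/-! One step of a stochastic primal-dual iteration on adapted strategies. -/

namespace Pool.Agent.Lib.MP_9bdb70_lc

open Finset
open scoped BigOperators

lemma batch {Y : Type} [Fintype Y] [Nonempty Y] {k : ℕ} {ζ : Y → ℝ} (h0 : 𝔼 y, ζ y = 0) (a : ℝ)
    (s : Finset (Fin k)) : 𝔼 ω : Fin k → Y, (∑ i ∈ s, ζ (ω i) + a) ^ 2 =
      s.card * 𝔼 y, ζ y ^ 2 + a ^ 2 := by
  induction s using Finset.induction_on with
  | empty => simp
  | insert j s hj ih =>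
    rw [← expect_update j, card_insert_of_notMem hj, Nat.cast_succ, add_mul, one_mul, add_right_comm,
      ← ih, ← Fintype.expect_const (ι := Fin k → Y) (𝔼 y, ζ y ^ 2), ← expect_add_distrib]
    refine expect_congr rfl fun ω _ => ?_
    have : ∀ y, (∑ i ∈ insert j s, ζ (Function.update ω j y i) + a) ^ 2 =
        (∑ i ∈ s, ζ (ω i) + a) ^ 2 + (ζ y ^ 2 + 2 * (∑ i ∈ s, ζ (ω i) + a) * ζ y) := fun y => by
      rw [sum_insert hj, Function.update_self, sum_congr rfl fun i hi => by
        rw [Function.update_of_ne (ne_of_mem_of_not_mem hi hj)]]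
      ring
    simp only [this, expect_add_distrib, ← mul_expect, h0, Fintype.expect_const, mul_zero, add_zero]

variable {m N : ℕ} [NeZero N]

/-- the entry `e` depends only on the noise up to `e` -/
def Ad (x : (Fin m → Fin N) → Fin m → ℕ) : Prop :=
  ∀ e u u', (∀ i ≤ e, u i = u' i) → x u e = x u' e

lemma Ad.expect {x : (Fin m → Fin N) → Fin m → ℕ} (h : Ad x) (c : (Fin m → Fin N) → Fin m → ℝ) :
    𝔼 u, ∑ e, x u e * 𝔼 u', c (mix (Iic e) u u') e = 𝔼 u, ∑ e, x u e * c u e := by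
  rw [expect_sum_comm, expect_sum_comm]
  refine sum_congr rfl fun e _ => ?_
  rw [← expect_mix (Iic e) fun u => x u e * c u e]
  refine expect_congr rfl fun u _ => ?_
  rw [mul_expect]
  exact expect_congr rfl fun u' _ => by
    rw [h e u (mix (Iic e) u u') fun i hi => (mix_mem (mem_Iic.2 hi) _ _).symm]

/-- the potential -/
noncomputable def pot (f : Finset (Fin m) → ℝ) (θ : Fin N → ℝ) (k : ℕ)
    (y z W : (Fin m → Fin N) → Fin m → ℕ) : ℝ :=
  𝔼 u, (k * (∑ e, W u e * θ (u e) + ph f N (W u)) - (∑ e, ((z u e : ℝ) - y u e) ^ 2) / 2)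

theorem acc {f : Finset (Fin m) → ℝ} {β : ℝ} (hf : Sup f β) (h1 : ∀ A e, f (insert e A) ≤ f A)
    (hβ : 0 ≤ β) (θ : Fin N → ℝ) {k s : ℕ} (hk : 8 * k * β ≤ N)
    {S : (Fin m → Fin N) → Finset (Fin m)} (hS : Adapted S) (z W : (Fin m → Fin N) → Fin m → ℕ)
    {z' : (Fin k → (Fin m → Fin N) × (Fin m → Fin N)) → (Fin m → Fin N) → Fin m → ℕ}
    (h2 : ∀ ω, Ad (z' ω)) (h3 : ∀ ω u e, (z' ω u e : ℝ) = max 0 (min (s : ℝ) (z u e + ∑ i, (θ (u e) +
      marg f (fun j => W (mix (Iic e) u (ω i).1) j + z (mix (Iic e) u (ω i).1) j + (ω i).2 j) e)))) :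
    pot f θ k (fun u e => if e ∈ S u then s else 0) z W +
      k * (s * 𝔼 u, (∑ e ∈ S u, θ (u e) + (f (S u) - f ∅)) - β * (f ∅ - f univ)) ≤
      𝔼 ω, pot f θ k (fun u e => if e ∈ S u then s else 0) (z' ω) fun u e => W u e + z' ω u e := by
  have N0 : (0 : ℝ) < N := Nat.cast_pos.2 (NeZero.pos N)
  have k0 : (0 : ℝ) ≤ k := Nat.cast_nonneg k
  set y : (Fin m → Fin N) → Fin m → ℕ := fun u e => if e ∈ S u then s else 0 with hy
  set c : (Fin m → Fin N) → Fin m → ℝ := fun u e => θ (u e) + hz f N (fun j => W u j + z u j) e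
    with hc
  set μ : (Fin m → Fin N) → Fin m → (Fin m → Fin N) × (Fin m → Fin N) → ℝ := fun u e p =>
    marg f (fun j => W (mix (Iic e) u p.1) j + z (mix (Iic e) u p.1) j + p.2 j) e with hμ
  set G : (Fin m → Fin N) → Fin m → ℝ := fun u e => 𝔼 u', c (mix (Iic e) u u') e with hG
  have g1 : ∀ u e, G u e = θ (u e) + 𝔼 p, μ u e p := fun u e => by
    simp only [hG, hc, hμ, expect_add_distrib, mix_mem (mem_Iic.2 le_rfl), Fintype.expect_const, hz]
    rw [← expect_product', univ_product_univ]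
  have g2 : ∀ ω u e, k * (y u e * G u e) - ((z u e : ℝ) - y u e) ^ 2 / 2 -
      ((∑ i, (μ u e (ω i) - 𝔼 p, μ u e p) + (z u e - y u e) / 2) ^ 2 - ((z u e - y u e) / 2) ^ 2) ≤
      k * (z' ω u e * G u e - 2 * (β / N) * ((z' ω u e : ℝ) - z u e) ^ 2) -
        ((z' ω u e : ℝ) - y u e) ^ 2 / 2 := fun ω u e => by
    have a1 : (z' ω u e : ℝ) = max 0 (min (s : ℝ) (z u e + (k * G u e +
        ∑ i, (μ u e (ω i) - 𝔼 p, μ u e p)))) := by
      rw [h3, g1, sum_add_distrib, sum_sub_distrib]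
      simp only [sum_const, card_univ, Fintype.card_fin, nsmul_eq_mul, hμ]
      ring_nf
    have a2 : (0 : ℝ) ≤ y u e ∧ (y u e : ℝ) ≤ s := by
      simp only [hy]
      split_ifs <;> simp
    have a3 : k * (2 * (β / N)) ≤ 1 / 4 := by
      rw [← mul_div_assoc, ← mul_div_assoc, div_le_iff₀ N0]
      linarith
    generalize ∑ i, (μ u e (ω i) - 𝔼 p, μ u e p) = ξ at a1 ⊢
    generalize (z' ω u e : ℝ) = x' at a1 ⊢
    generalize (z u e : ℝ) = x at a1 ⊢
    generalize (y u e : ℝ) = v at a2 ⊢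
    have a4 : 0 ≤ (x + (k * G u e + ξ) - x') * (x' - v) := by
      rw [a1]
      generalize x + (k * G u e + ξ) = w
      rcases le_total (s : ℝ) w with p | p
      · rw [min_eq_left p, max_eq_right (Nat.cast_nonneg _)]
        exact mul_nonneg (by linarith) (by linarith)
      · rw [min_eq_right p]
        rcases le_total 0 w with q | q
        · simp [max_eq_right q]
        · rw [max_eq_left q]
          exact mul_nonneg_of_nonpos_of_nonpos (by linarith) (by linarith)
    nlinarith [mul_le_mul_of_nonneg_right a3 (sq_nonneg (x' - x)), sq_nonneg (ξ - (x' - x) / 2)]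
  have g3 : ∀ u e, k * (y u e * G u e) - ((z u e : ℝ) - y u e) ^ 2 / 2 - k * (β * -𝔼 p, μ u e p) ≤
      𝔼 ω, (k * (z' ω u e * G u e - 2 * (β / N) * ((z' ω u e : ℝ) - z u e) ^ 2) -
        ((z' ω u e : ℝ) - y u e) ^ 2 / 2) := fun u e => by
    refine le_trans ?_ (expect_ge fun ω => g2 ω u e)
    rw [expect_sub_distrib, expect_sub_distrib _ (fun _ => _ ^ 2), batch (ζ := fun p =>
      μ u e p - 𝔼 p, μ u e p) (by simp [expect_sub_distrib])]
    simp only [Fintype.expect_const, card_univ, Fintype.card_fin, add_sub_cancel_right]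
    refine sub_le_sub_left (mul_le_mul_of_nonneg_left ?_ k0) _
    refine (expect_ge (g := fun p => (𝔼 p, μ u e p) ^ 2 - (β + 2 * 𝔼 p, μ u e p) * μ u e p)
      fun p => ?_).trans ?_
    · have := marg_bd hf h1 (fun j => W (mix (Iic e) u p.1) j + z (mix (Iic e) u p.1) j + p.2 j) e
      change _ ≤ μ u e p ∧ μ u e p ≤ 0 at this
      nlinarith
    · rw [expect_sub_distrib, ← mul_expect, Fintype.expect_const]
      nlinarith [sq_nonneg (𝔼 p, μ u e p)]
  have g4 : 𝔼 u, ∑ e, 𝔼 p, μ u e p = f univ - f ∅ := by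
    have := Ad.expect (x := fun _ _ => 1) (fun _ _ _ _ => rfl) fun u e =>
      hz f N (fun j => W u j + z u j) e
    simp only [Nat.cast_one, one_mul, hz] at this
    simp only [← expect_product', univ_product_univ] at this
    rw [this]
    simp only [← expect_sum_comm, sum_marg hf, Fintype.expect_const]
  have g5 : s * 𝔼 u, (∑ e ∈ S u, θ (u e) + (f (S u) - f ∅)) ≤ 𝔼 u, ∑ e, y u e * G u e := by
    rw [Ad.expect (fun e u u' h => by simp only [hy, hS e u u' h]), mul_expect]
    refine expect_ge fun u => ?_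
    simp only [hy, hc, Nat.cast_ite, Nat.cast_zero, ite_mul, zero_mul, sum_ite_mem, univ_inter,
      ← mul_sum, sum_add_distrib, hz, ← expect_sum_comm]
    exact mul_le_mul_of_nonneg_left (add_le_add le_rfl (le_expect univ_nonempty fun Z _ =>
      le_marg hf _ _)) (Nat.cast_nonneg s)
  have g6 := expect_ge fun u => sum_le_sum fun e (_ : e ∈ univ) => g3 u e
  simp only [← expect_sum_comm] at g6
  rw [expect_comm] at g6
  refine le_trans ?_ ((add_le_add (le_refl (k * 𝔼 u, (∑ e, W u e * θ (u e) + ph f N (W u))))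
    g6).trans ?_)
  · simp only [pot, expect_sub_distrib, sum_sub_distrib, ← mul_sum, ← mul_expect, ← sum_div,
      sum_neg_distrib, expect_neg_distrib, g4]
    linarith [mul_le_mul_of_nonneg_left g5 k0]
  · rw [← Fintype.expect_const (ι := Fin k → (Fin m → Fin N) × (Fin m → Fin N)) (k * _ : ℝ),
      ← expect_add_distrib]
    refine expect_ge fun ω => ?_
    simp only [pot, expect_sub_distrib, sum_sub_distrib, ← mul_sum, ← mul_expect, ← sum_div, hG,
      (h2 ω).expect]
    rw [← add_sub_assoc, ← mul_add, mul_expect, ← expect_sub_distrib, ← expect_add_distrib]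
    refine sub_le_sub_right (mul_le_mul_of_nonneg_left (expect_ge fun u => ?_) k0) _
    have := ph_step (N := N) hf h1 hβ (W u) (z u) (z' ω u)
    simp only [hc, Nat.cast_add, mul_add, add_mul, sum_add_distrib]
    linarith

end Pool.Agent.Lib.MP_9bdb70_lc
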