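import Pool.Agent.Lib.MP_9bdb70_lc.S2Core

/-! One run on lists: only the noise vectors that the output depends on are tabulated. -/

namespace Pool.Agent.Lib.MP_9bdb70_lc

open Pool.Agent.Lib.helper82 PT

def vecl (z : Inp) (y : List Bool) : List ℕ :=
  (idx z).map fun e => ofB ((blk (num z 0) y e).take (num z 0))

def smp (z : Inp) (x : List Bool) (i : ℕ) : List Bool := blk (num z 1 + num z 1) x i

def mixv (z : Inp) (x : List Bool) (i : ℕ) (v : List ℕ) (e : ℕ) : List ℕ :=
  v.take (e + 1) ++ (vecl z ((smp z x i).take (num z 1))).drop (e + 1)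

def wsum (H : List Tb) (k : List ℕ × ℕ) : ℕ := (H.map fun T => lk T k).sum

def mpv (z : Inp) (v w : List ℕ) (e : ℕ) : ℕ :=
  (par z 3).getD (v.getD e 0) 0 + bif cn (ed z e) (((idx z).filter fun i =>
    decide (w.getD e 0 < w.getD i 0) ||
      (decide (w.getD i 0 = w.getD e 0) && decide (i < e))).map (ed z)) then num z 3 else 0

def keyl (z : Inp) (s : Tb × List Tb) (v Z : List ℕ) : List ℕ :=
  (idx z).map fun j => wsum s.2 (v, j) + lk s.1 (v, j) + Z.getD j 0

def nzl (z : Inp) (s : Tb × List Tb) (x : List Bool) (k : List ℕ × ℕ) : ℕ :=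
  ((par z 2).filter fun t => decide (t + (par z 1).length * (num z 2 + num z 3) < lk s.1 k +
    ((par z 1).map fun i => mpv z k.1 (keyl z s (mixv z x i k.1 k.2)
      (vecl z ((smp z x i).drop (num z 1)))) k.2).sum)).length

def lstep (z : Inp) (K : List (List ℕ × ℕ)) (s : Tb × List Tb) (x : List Bool) : Tb × List Tb :=
  (K.map fun k => (k, nzl z s x k), (K.map fun k => (k, nzl z s x k)) :: s.2)

def expand (z : Inp) (U : List (List ℕ)) (x : List Bool) : List (List ℕ) :=
  U ++ U.flatMap fun v => (idx z).flatMap fun e => (par z 1).map fun i => mixv z x i v e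

def keys₂ (z : Inp) (xs : List (List Bool)) (u : List ℕ) : List (List ℕ × ℕ) :=
  (xs.reverse.foldl (expand z) [u]).flatMap fun v => (idx z).map fun e => (v, e)

def tab₀ (z : Inp) (K : List (List ℕ × ℕ)) : Tb := K.map fun k =>
  (k, bif decide (num z 2 ≤ (par z 3).getD (k.1.getD k.2 0) 0) then (par z 2).length else 0)

def wfin (z : Inp) (xs : List (List Bool)) (u : List ℕ) : List ℕ := (idx z).map fun e =>
  wsum (xs.foldl (lstep z (keys₂ z xs u)) (tab₀ z (keys₂ z xs u), [])).2 (u, e)

def outl (z : Inp) (w u : List ℕ) : ℕ × ℕ :=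
  (((idx z).map fun e => w.getD e 0 * mpv z u w e).sum,
    ((idx z).map fun e => w.getD e 0 * (num z 2 + num z 3)).sum)

/-- one run -/
def runl (z : Inp) (c T : ℕ) (y : List Bool) : ℕ × ℕ :=
  outl z (wfin z (blocks c T (y.take (c * T))) (vecl z (y.drop (c * T)))) (vecl z (y.drop (c * T)))

section
variable {α : Type} [Enc α] {z : α → Inp} {x : α → List Bool} {i e : α → ℕ} {v w : α → List ℕ}
  {H : α → List Tb} {k : α → List ℕ × ℕ} {s : α → Tb × List Tb} {xs : α → List (List Bool)}

attribute [fun_prop] PT.ofB_pt PT.reverse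

@[fun_prop] lemma vecl_pt (hz : PT z) (hx : PT x) : PT fun a => vecl (z a) (x a) := by
  unfold vecl; fun_prop
@[fun_prop] lemma smp_pt (hz : PT z) (hx : PT x) (hi : PT i) : PT fun a => smp (z a) (x a) (i a) := by
  unfold smp; fun_prop
@[fun_prop] lemma mixv_pt (hz : PT z) (hx : PT x) (hi : PT i) (hv : PT v) (he : PT e) :
    PT fun a => mixv (z a) (x a) (i a) (v a) (e a) := by unfold mixv; fun_prop
@[fun_prop] lemma wsum_pt (hH : PT H) (hk : PT k) : PT fun a => wsum (H a) (k a) := by
  unfold wsum; fun_prop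
@[fun_prop] lemma mpv_pt (hz : PT z) (hv : PT v) (hw : PT w) (he : PT e) :
    PT fun a => mpv (z a) (v a) (w a) (e a) := by unfold mpv; fun_prop
@[fun_prop] lemma keyl_pt (hz : PT z) (hs : PT s) (hv : PT v) (hw : PT w) :
    PT fun a => keyl (z a) (s a) (v a) (w a) := by unfold keyl; fun_prop
@[fun_prop] lemma nzl_pt (hz : PT z) (hs : PT s) (hx : PT x) (hk : PT k) :
    PT fun a => nzl (z a) (s a) (x a) (k a) := by unfold nzl; fun_prop
@[fun_prop] lemma outl_pt (hz : PT z) (hw : PT w) (hv : PT v) :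
    PT fun a => outl (z a) (w a) (v a) := by unfold outl; fun_prop

lemma sz_take_le {β : Type} [Enc β] (l : List β) (n : ℕ) : sz (l.take n) ≤ sz l := by
  conv_rhs => rw [← l.take_append_drop n, sz_append]
  omega

lemma keys_pt₂ (hz : PT z) (hx : PT xs) (hv : PT v) (hB : Bd sz fun a =>
    (1 + (idx (z a)).length * (par (z a) 1).length) ^ (xs a).length) :
    PT fun a => keys₂ (z a) (xs a) (v a) := by
  have h0 : PT fun a => ((xs a).map fun x => (par (z a) 1).map fun i =>
    vecl (z a) ((smp (z a) x i).take (num (z a) 1))) := by fun_prop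
  refine PT.flatMap (foldl_inv (h := fun a => expand (z a)) (by fun_prop) (by fun_prop)
    (by unfold expand; fun_prop) (hB.mul (((Bd.const 2).mul (hv.sz_bd.add
      ((UN.len hx).bd.mul h0.sz_bd))).add (Bd.const 1))) (fun a t U => U.length ≤
      (1 + (idx (z a)).length * (par (z a) 1).length) ^ t ∧ ∀ u ∈ U, sz u ≤ sz (v a) + t *
        sz ((xs a).map fun x => (par (z a) 1).map fun i =>
          vecl (z a) ((smp (z a) x i).take (num (z a) 1)))) (fun a => ⟨le_rfl, by simp⟩)
    (fun a t U y hy h => ⟨?_, List.forall_mem_append.2 ⟨fun u hu => (h.2 u hu).trans (by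
      gcongr; omega), fun u hu => ?_⟩⟩) fun a t U ht h => ?_) (by fun_prop)
  · simp only [expand, List.length_append, List.length_flatMap, List.length_map, List.map_const',
      List.sum_replicate, smul_eq_mul]
    rw [pow_succ, ← mul_one_add]
    exact Nat.mul_le_mul_right _ h.1
  · simp only [List.mem_flatMap, List.mem_map] at hu
    obtain ⟨u', a1, e, -, i, a2, rfl⟩ := hu
    have b1 := (sz_take_le u' (e + 1)).trans (h.2 u' a1)
    have b2 := ((sz_drop_le _ (e + 1)).trans (sz_le_of_mem (List.mem_map_of_mem (f := fun i =>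
      vecl (z a) ((smp (z a) y i).take (num (z a) 1))) a2))).trans (sz_le_of_mem
        (List.mem_map_of_mem (f := fun x => (par (z a) 1).map fun i =>
          vecl (z a) ((smp (z a) x i).take (num (z a) 1))) (List.mem_reverse.1 hy)))
    rw [mixv, sz_append, add_mul]
    omega
  · rw [List.length_reverse] at ht
    refine (sz_list_le h.2).trans (Nat.mul_le_mul (h.1.trans (Nat.pow_le_pow_right (by omega) ht)) ?_)
    gcongr

lemma runl_pt {c T : α → ℕ} (hz : PT z) (hc : PT c) (hT : UN T) (hx : PT x) (hB : Bd sz fun a =>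
    (1 + (idx (z a)).length * (par (z a) 1).length) ^ T a) :
    PT fun a => runl (z a) (c a) (T a) (x a) := by
  have h0 := hT.pt
  have h1 : PT fun a => blocks (c a) (T a) ((x a).take (c a * T a)) := blocks_pt hc hT (by fun_prop)
  have h2 : PT fun a => vecl (z a) ((x a).drop (c a * T a)) := by fun_prop
  have h3 := keys_pt₂ hz h1 h2 (by simpa [blocks] using hB)
  have h4 := PT.foldl_add (h := fun a => lstep (z a) (keys₂ (z a) (blocks (c a) (T a)
    ((x a).take (c a * T a))) (vecl (z a) ((x a).drop (c a * T a))))) h1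
    (pair (show PT fun a => tab₀ (z a) (keys₂ (z a) (blocks (c a) (T a) ((x a).take (c a * T a)))
      (vecl (z a) ((x a).drop (c a * T a)))) from PT.map h3 (by fun_prop)) (const []))
    (pair (PT.map (h3.comp fst') (by fun_prop))
      (cons (PT.map (h3.comp fst') (by fun_prop)) (by fun_prop))) _
    (((Bd.const 4).mul (((Bd.const 2).mul h3.sz_bd).add ((UN.len h3).bd.mul
      (((Bd.const 2).mul (UN.len (par_pt hz 2)).bd).add (Bd.const 1))))).add (Bd.const 1))
    fun a s y _ => by
      have := sz_tab (keys₂ (z a) (blocks (c a) (T a) ((x a).take (c a * T a))) (vecl (z a)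
        ((x a).drop (c a * T a)))) (nzl (z a) s y) fun _ => List.length_filter_le _ _
      have : sz s = _ := sz_prod s.1 s.2
      rw [lstep, sz_prod, sz_cons]
      omega
  exact outl_pt hz (PT.map (idx_pt hz) (wsum_pt (snd (h4.comp fst'))
    (pair (h2.comp fst') snd'))) h2

end

open Finset
open scoped Classical

variable {m r k c g bz : ℕ} {en : Fin m → ℕ × ℕ} {th : ℕ → ℕ}

/-- a vector as a list -/
def ec {m N : ℕ} (u : Fin m → Fin N) : List ℕ := List.ofFn fun i => (u i).val

theorem runl_spec {z : Inp} (hz : z = ([[r, c, g, bz], List.range k, List.range (2 ^ r),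
    (List.range (2 ^ r)).map th], List.ofFn en)) (T : ℕ) (y : List Bool) :
    ((runl z (k * (c + c)) T y).1 : ℝ) - (runl z (k * (c + c)) T y).2 = runX en r k c g bz th T y := by
  have n0 : num z 0 = r := hz ▸ rfl
  have n1 : num z 1 = c := hz ▸ rfl
  have n2 : num z 2 = g := hz ▸ rfl
  have n3 : num z 3 = bz := hz ▸ rfl
  have p1 : par z 1 = List.range k := hz ▸ rfl
  have p2 : par z 2 = List.range (2 ^ r) := hz ▸ rfl
  have p3 : ∀ j : Fin (2 ^ r), (par z 3).getD j 0 = th j := fun j => by simp [hz, par]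
  have e1 : idx z = List.range m := hz ▸ idx_eq
  have e2 : ∀ e : Fin m, ed z e = en e := fun e => hz ▸ ed_eq e
  have e0 : ∀ f : ℕ → ℕ, (idx z).map f = List.ofFn fun i : Fin m => f i := fun f => by
    rw [e1, range_eq, List.map_ofFn]
    rfl
  have e3 : ∀ y, vecl z y = ec (dvec r m y) := fun y => by rw [vecl, e0, n0]; rfl
  have e4 : ∀ (u : Fin m → Fin (2 ^ r)) (e : Fin m), (ec u).getD e 0 = u e := fun u e => by simp [ec]
  have e5 : ∀ x (i : Fin k) u (e : Fin m), mixv z x i (ec u) e =
      ec (mix (Iic e) u (dbat r m c k x i).1) := fun x i u e => by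
    rw [mixv, e3, smp, n1]
    refine List.ext_getElem (by simp [ec]) fun j h1 h2 => ?_
    simp only [ec, List.getElem_append, List.getElem_take, List.getElem_drop, List.getElem_ofFn,
      mix, mem_Iic, List.length_take, List.length_ofFn, Fin.le_def, dbat,
      min_eq_left (Nat.succ_le_of_lt e.2), Nat.lt_succ_iff]
    split_ifs with q
    · rfl
    · congr 3
      omega
  have e6 : ∀ (u : Fin m → Fin (2 ^ r)) (w : Fin m → ℕ) (e : Fin m),
      mpv z (ec u) (List.ofFn w) e = mp en bz (th (u e)) w e := fun u w e => by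
    have a : ∀ i : Fin m, (List.ofFn w).getD i 0 = w i := fun i => by simp
    rw [mpv, mp, e4, p3, n3, e2, cond_eq_ite]
    congr 2
    rw [cn_iff]
    congr 1
    ext x
    simp only [e1, Set.mem_ofPred_eq, List.mem_map, List.mem_filter, List.mem_range, pre,
      Set.mem_image, mem_coe, mem_filter, mem_univ, true_and, okey_lt, Bool.or_eq_true,
      Bool.and_eq_true, decide_eq_true_iff]
    exact ⟨fun ⟨i, ⟨b, d⟩, q⟩ => ⟨⟨i, b⟩, a ⟨i, b⟩ ▸ a e ▸ d, e2 ⟨i, b⟩ ▸ q⟩,
      fun ⟨i, b, q⟩ => ⟨i, ⟨i.2, by rw [a, a]; exact b⟩, e2 i ▸ q⟩⟩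
  have e7 : ∀ (K : List (List ℕ × ℕ)) (u₀ : List ℕ) (xs : List (List Bool)) (s : Tb × List Tb)
      (t : Tab m r × Tab m r), (∀ v ∈ xs.reverse.foldl (expand z) [u₀], ∀ e : Fin m,
        (v, e.val) ∈ K) → (∀ u, ec u ∈ xs.reverse.foldl (expand z) [u₀] → ∀ e : Fin m,
        lk s.1 (ec u, e) = t.1 u e ∧ wsum s.2 (ec u, e) = t.2 u e) → ∀ u, ec u = u₀ → ∀ e : Fin m,
        wsum (xs.foldl (lstep z K) s).2 (ec u, e) = (xs.foldl (astep en r k c g bz th) t).2 u e := by
    intro K u₀ xs
    induction xs with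
    | nil => exact fun s t _ h u q e => (h u (by simp [q]) e).2
    | cons x xs ih =>
      intro s t h1 h2
      rw [List.reverse_cons, List.foldl_concat] at h1 h2
      refine ih _ _ (fun v hv => h1 v (List.mem_append_left _ hv)) fun u hu e => ?_
      have a1 : lk (K.map fun k => (k, nzl z s x k)) (ec u, e) = nz en r k c g bz th t x u e := by
        rw [lk_map _ (h1 _ (List.mem_append_left _ hu) e), nzl, nz, p2, min_comm, ← UN.length_lt, p1,
          n2, n3, sum_range_fin, (h2 u (List.mem_append_left _ hu) e).1, List.length_range]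
        simp only [Nat.lt_sub_iff_add_lt]
        rw [sum_congr rfl fun i _ => ?_]
        rw [← e6, e5, keyl, e0]
        congr 2
        funext j
        have := h2 (mix (Iic e) u (dbat r m c k x i).1) (List.mem_append_right _ (List.mem_flatMap.2
          ⟨_, hu, List.mem_flatMap.2 ⟨e, e1 ▸ List.mem_range.2 e.2, List.mem_map.2
            ⟨i, p1 ▸ List.mem_range.2 i.2, e5 x i u e⟩⟩⟩)) j
        rw [this.1, this.2, e3, e4, smp, n1]
        rfl
      refine ⟨a1, ?_⟩
      rw [lstep, wsum, List.map_cons, List.sum_cons, a1, ← wsum,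
        (h2 u (List.mem_append_left _ hu) e).2, add_comm]
      rfl
  have e8 : ∀ xs u, wfin z xs (ec u) = List.ofFn (asum en r k c g bz th xs u) := fun xs u => by
    have a : ∀ v ∈ xs.reverse.foldl (expand z) [ec u], ∀ e : Fin m,
        (v, e.val) ∈ keys₂ z xs (ec u) := fun v hv e => List.mem_flatMap.2
      ⟨v, hv, List.mem_map.2 ⟨e, e1 ▸ List.mem_range.2 e.2, rfl⟩⟩
    rw [wfin, e0]
    congr 1
    funext e
    refine e7 _ _ xs _ _ a (fun v hv e => ⟨?_, rfl⟩) u rfl e
    rw [tab₀, lk_map _ (a _ hv e), e4, p3, n2, p2, List.length_range, cond_eq_ite]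
    simp
  rw [runl, e3, e8, outl, e1, sum_range_fin, sum_range_fin, runX, outX, n2, n3]
  simp only [e6, mul_sub, sum_sub_distrib]
  simp

end Pool.Agent.Lib.MP_9bdb70_lc
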