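import Pool.Agent.Lib.MP_9bdb70_lc.Graph

/-! An explicit approximation of logistic noise, and the optimal strategy is close to the
strategy that ignores the interaction. -/

namespace Pool.Agent.Lib.MP_9bdb70_lc

open Finset Real
open scoped BigOperators

/-- quantiles of logistic noise -/
noncomputable def lg (N : ℕ) (j : Fin N) : ℝ := log ((N - j) / (j + 1))

variable {N : ℕ} [NeZero N]

lemma soft_lg (B : ℝ) : Soft (lg N) B (log (N + 1) / N) := by
  intro d _
  have N0 : (0 : ℝ) < N := Nat.cast_pos.2 (NeZero.pos N)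
  set l : ℕ → ℝ := fun j => log ((N - j) / (j + 1)) with hl
  have h2 : ∀ i ≤ N, exp (∑ j ∈ range i, (d + l j)) = exp d ^ i * 1 ^ (N - i) * N.choose i := by
    intro i hi
    induction i with
    | zero => simp
    | succ i ih =>
      have a : (i : ℝ) < N := Nat.cast_lt.2 hi
      have b := congrArg (Nat.cast : ℕ → ℝ) (Nat.choose_succ_right_eq N i)
      rw [Nat.cast_mul, Nat.cast_mul, Nat.cast_sub (le_of_lt hi), Nat.cast_succ,
        ← eq_div_iff (by positivity)] at b
      rw [sum_range_succ, exp_add, ih (by omega), exp_add, hl,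
        exp_log (div_pos (sub_pos.2 a) (by positivity)), b]
      simp only [one_pow]
      ring
  have h3 : ∀ k ≤ N, ∃ i ≤ k, ∑ j ∈ range k, max 0 (d + l j) = ∑ j ∈ range i, (d + l j) := by
    intro k hk
    induction k with
    | zero => exact ⟨0, le_rfl, rfl⟩
    | succ k ih =>
      rcases le_total (d + l k) 0 with q | q
      · obtain ⟨i, a, b⟩ := ih (by omega)
        exact ⟨i, by omega, by rw [sum_range_succ, max_eq_left q, add_zero, b]⟩
      · refine ⟨k + 1, le_rfl, sum_congr rfl fun j hj => max_eq_right ?_⟩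
        have a : (k : ℝ) < N := Nat.cast_lt.2 hk
        have b : (j : ℝ) ≤ k := Nat.cast_le.2 (Nat.le_of_lt_succ (mem_range.1 hj))
        have : l k ≤ l j := log_le_log (div_pos (sub_pos.2 a) (by positivity))
          (by gcongr; linarith)
        linarith
  have h4 : N * sp d = log (∑ i ∈ range (N + 1), exp d ^ i * 1 ^ (N - i) * N.choose i) := by
    rw [← add_pow, log_pow, sp, add_comm]
  have h5 : 0 ≤ log (N + 1) := log_nonneg (by linarith)
  have h6 : 0 < ∑ i ∈ range (N + 1), exp d ^ i * 1 ^ (N - i) * N.choose i := by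
    rw [← add_pow]; positivity
  rw [Fintype.expect_eq_sum_div_card]
  simp only [lg]
  rw [Fin.sum_univ_eq_sum_range fun j => max 0 (d + l j), Fintype.card_fin, abs_le,
    le_sub_iff_add_le, sub_le_iff_le_add, le_div_iff₀ N0, div_le_iff₀ N0, add_mul, add_mul,
    neg_mul, div_mul_cancel₀ _ N0.ne', mul_comm (sp d), h4]
  constructor
  · rw [neg_add_le_iff_le_add, log_le_iff_le_exp h6, exp_add, exp_log (by positivity)]
    refine (sum_le_card_nsmul _ _ (exp (∑ j ∈ range N, max 0 (d + l j))) fun i hi => ?_).trans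
      (by simp)
    have a := Nat.le_of_lt_succ (mem_range.1 hi)
    rw [← h2 i a, exp_le_exp]
    exact (sum_le_sum fun j _ => le_max_right 0 (d + l j)).trans
      (sum_le_sum_of_subset_of_nonneg (range_mono a) fun _ _ _ => le_max_left _ _)
  · obtain ⟨i, a, b⟩ := h3 N le_rfl
    rw [b]
    refine le_add_of_nonneg_of_le h5 ((le_log_iff_exp_le h6).2 ?_)
    rw [h2 i a]
    exact single_le_sum (f := fun i => exp d ^ i * 1 ^ (N - i) * N.choose i)
      (fun _ _ => by positivity) (mem_range.2 (by omega))

omit [NeZero N] in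
lemma lg_bd (j : Fin N) : |lg N j| ≤ log N := by
  have a : (j : ℝ) + 1 ≤ N := by exact_mod_cast j.2
  have b : (0 : ℝ) ≤ j := Nat.cast_nonneg _
  rw [lg, log_div (by linarith) (by linarith), abs_le]
  have := log_le_log (show (0 : ℝ) < j + 1 by linarith) a
  have := log_le_log (show (0 : ℝ) < N - j by linarith) (show (N : ℝ) - j ≤ N by linarith)
  have := log_nonneg (show (1 : ℝ) ≤ j + 1 by linarith)
  have := log_nonneg (show (1 : ℝ) ≤ N - j by linarith)
  constructor <;> linarith

lemma lg_prob (a : ℝ) : 𝔼 j, ind (0 ≤ a + lg N j) ≤ exp a / (1 + exp a) + 1 / N := by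
  have N0 : (0 : ℝ) < N := Nat.cast_pos.2 (NeZero.pos N)
  have e0 := exp_pos a
  rw [Fintype.expect_eq_sum_div_card, Fintype.card_fin, div_le_iff₀ N0, add_mul,
    one_div_mul_cancel N0.ne']
  simp only [ind, sum_boole]
  refine le_trans (Nat.cast_le.2 (card_le_card_of_injOn (t := range (⌊exp a / (1 + exp a) * N⌋₊ + 1))
    Fin.val (fun j hj => ?_) Fin.val_injective.injOn)) ?_
  · have b : (j : ℝ) + 1 ≤ N := by exact_mod_cast j.2
    have c := (mem_filter.1 hj).2
    rw [lg, ← neg_le_iff_add_nonneg', le_log_iff_exp_le (div_pos (by linarith) (by positivity)),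
      exp_neg, le_div_iff₀ (by positivity), inv_mul_le_iff₀ e0] at c
    refine mem_coe.2 (mem_range.2 (Nat.lt_succ_of_le (Nat.le_floor ?_)))
    rw [div_mul_eq_mul_div, le_div_iff₀ (by positivity)]
    linarith
  · rw [card_range, Nat.cast_succ]
    exact add_le_add (Nat.floor_le (by positivity)) le_rfl

variable {m : ℕ} {G : Finset (Fin m) → ℝ} {a b ν : ℝ}

lemma top_marg (hG : Sup G b) (A : Finset (Fin m)) : ∀ C ⊆ A,
    G C - G ∅ ≤ ∑ e ∈ C, (G A - G (A.erase e)) := by
  intro C
  induction C using Finset.induction_on with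
  | empty => simp
  | insert e C he ih =>
    intro h
    have h1 := hG.mono C (A.erase e) e (subset_erase.2 ⟨(subset_insert _ _).trans h, he⟩)
      (notMem_erase _ _)
    rw [insert_erase (h (mem_insert_self _ _))] at h1
    rw [sum_insert he]
    linarith [ih ((subset_insert _ _).trans h)]

/-- the expected number of chosen elements -/
lemma mean_card (hG : Sup G b) (h1 : ∀ A e, G (insert e A) ≤ G A) (h2 : ∀ A, G ∅ - ν ≤ G A) :
    (m * (exp a / (1 + exp a)) - exp b * ν) * ∑ A, exp (a * A.card + G A) ≤
      ∑ A, exp (a * A.card + G A) * A.card := by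
  have e0 := exp_pos a
  have key : ∀ e : Fin m, exp a / (1 + exp a) * ∑ A, exp (a * A.card + G A) ≤
      ∑ A, exp (a * A.card + G A) * if e ∈ A then 1 + exp b * (G (A.erase e) - G A) else 0 := by
    intro e
    rw [← powerset_univ, ← insert_erase (mem_univ e), sum_powerset_insert (notMem_erase _ _),
      sum_powerset_insert (notMem_erase _ _), ← sum_add_distrib, ← sum_add_distrib, mul_sum]
    refine sum_le_sum fun A hA => ?_
    have h3 : e ∉ A := fun q => notMem_erase _ _ (mem_powerset.1 hA q)
    rw [if_neg h3, if_pos (mem_insert_self _ _), erase_insert h3, card_insert_of_notMem h3]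
    have h4 := (abs_le.1 (hG.bd A e h3)).1
    have h5 := h1 A e
    obtain ⟨x, hx⟩ : ∃ x, G A = G (insert e A) + x := ⟨G A - G (insert e A), by ring⟩
    have h6 := mul_le_mul_of_nonneg_left (add_one_le_exp (-x)) (exp_pos x).le
    have h7 := mul_le_mul_of_nonneg_right (exp_le_exp.2 (show x ≤ b by linarith))
      (show 0 ≤ x by linarith)
    rw [← exp_add, add_neg_cancel, exp_zero] at h6
    have h8 : 0 ≤ exp b * x := mul_nonneg (exp_pos _).le (by linarith)
    rw [hx, Nat.cast_succ, mul_add a, mul_one, add_right_comm, ← add_assoc, exp_add _ x, exp_add _ a,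
      div_mul_eq_mul_div, div_le_iff₀ (by positivity), add_sub_cancel_left]
    have h9 := exp_pos (a * A.card + G (insert e A))
    generalize exp (a * A.card + G (insert e A)) = y at h9 ⊢
    nlinarith [mul_le_mul_of_nonneg_left (show exp x ≤ 1 + exp b * x by linarith)
      (mul_pos h9 e0).le, mul_nonneg (mul_pos (mul_pos h9 e0) e0).le h8]
  have h3 := sum_le_sum fun e (_ : e ∈ univ) => key e
  rw [sum_const, card_univ, Fintype.card_fin, nsmul_eq_mul, sum_comm] at h3
  rw [sub_mul, mul_assoc, sub_le_iff_le_add, mul_sum _ _ (exp b * ν), ← sum_add_distrib]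
  refine h3.trans (sum_le_sum fun A _ => ?_)
  rw [← mul_sum, sum_ite_mem, univ_inter, sum_add_distrib, ← mul_sum, mul_comm (exp b * ν), ← mul_add]
  have h4 := top_marg hG A A Subset.rfl
  have h5 : ∑ e ∈ A, (G (A.erase e) - G A) ≤ ν := by
    rw [← neg_le_neg_iff, ← sum_neg_distrib]
    simp only [neg_sub]
    linarith [h2 A]
  have := mul_le_mul_of_nonneg_left h5 (exp_pos b).le
  simp only [sum_const, nsmul_eq_mul, mul_one]
  gcongr

theorem near {X : Type} [Fintype X] [Nonempty X] {lam : X → ℝ} {δ h : ℝ} (hG : Sup G b)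
    (h1 : ∀ A e, G (insert e A) ≤ G A) (h2 : ∀ A, G ∅ - ν ≤ G A) (hl : ∀ B, Soft lam B δ)
    (hδ : 0 ≤ δ) (h0 : 0 < h) : ∃ S : (Fin m → X) → Finset (Fin m), Adapted S ∧
      (∀ u, ∀ e ∈ S u, 0 ≤ a + lam (u e)) ∧
      log (∑ A, exp (a * A.card + G A)) - m * δ ≤ val (fun A => a * A.card + G A) lam S ∧
      m * (exp a / (1 + exp a) - h) - exp b * ν - 2 * m * δ / h ≤ 𝔼 u, ((S u).card : ℝ) := by
  have hS : ∀ a : ℝ, Sup (fun A : Finset (Fin m) => a * A.card + G A) (|a| + b) := fun a =>
    ⟨fun A A' e p q => by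
      rw [card_insert_of_notMem q, card_insert_of_notMem fun z => q (p z)]
      push_cast
      linarith [hG.mono A A' e p q], fun A e q => by
      rw [card_insert_of_notMem q, Nat.cast_succ,
        show ∀ x y z : ℝ, a * (x + 1) + y - (a * x + z) = a + (y - z) by intros; ring]
      exact (abs_add_le _ _).trans (add_le_add le_rfl (hG.bd A e q))⟩
  set F := fun A : Finset (Fin m) => a * A.card + G A with hF
  have k1 := le_val (hS a) (hl _) (fun j => single_le_sum (f := fun j => |lam j|)
    (fun _ _ => abs_nonneg _) (mem_univ j)) hδ ∅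
  rw [card_empty, Nat.cast_zero, zero_mul, sub_zero] at k1
  refine ⟨fun u => gr F lam ∅ u m, gr_adapted (hS a) ∅, fun u e he => ?_, k1, ?_⟩
  · have c1 := ((mem_gr ∅ u e).1 he).resolve_left (notMem_empty e)
    have c2 := gr_lt (F := F) (lam := lam) ∅ u e
    generalize gr F lam ∅ u e = A at c1 c2
    have c3 : Zs F (e + 1) (insert e A) ≤ Zs F (e + 1) A * exp a := by
      rw [Zs, Zs, sum_mul]
      refine sum_le_sum fun C hC => ?_
      rw [← exp_add, exp_le_exp, insert_union, hF]
      have := h1 (A ∪ C) e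
      have q : e ∉ A ∪ C := fun q => (mem_union.1 q).elim (fun q => lt_irrefl _ (c2 e q)) fun q => by
        simpa [up] using mem_powerset.1 hC q
      simp only [card_insert_of_notMem q, Nat.cast_succ]
      linarith
    have c4 := log_le_log (Zs_pos _ _) c3
    rw [log_mul (Zs_pos _ _).ne' (exp_pos _).ne', log_exp] at c4
    rw [dd] at c1
    linarith
  · have k2 := val_le (hS (a - h)) (hl _) (gr_adapted (lam := lam) (hS a) ∅)
    have k3 : val (fun A : Finset (Fin m) => (a - h) * A.card + G A) lam (fun u => gr F lam ∅ u m) =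
        val F lam (fun u => gr F lam ∅ u m) - h * 𝔼 u, ((gr F lam ∅ u m).card : ℝ) := by
      rw [val, val, mul_expect, ← expect_sub_distrib]
      exact expect_congr rfl fun u _ => by simp only [hF]; ring
    have k4 := mean_card (a := a - h) hG h1 h2
    have z : 0 < ∑ A : Finset (Fin m), exp ((a - h) * A.card + G A) :=
      sum_pos (fun _ _ => exp_pos _) univ_nonempty
    set μ := m * (exp (a - h) / (1 + exp (a - h))) - exp b * ν with hμ
    have k5 : log (∑ A : Finset (Fin m), exp ((a - h) * A.card + G A)) + h * μ ≤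
        log (∑ A, exp (F A)) := by
      rw [← le_sub_iff_add_le, sub_eq_add_neg _ (h * μ), ← log_exp (-(h * μ)),
        ← log_mul (sum_pos (fun _ _ => exp_pos _) univ_nonempty).ne' (exp_pos _).ne', sum_mul]
      refine log_le_log z (le_trans ?_ (sum_le_sum (f := fun A : Finset (Fin m) =>
        exp ((a - h) * A.card + G A) * (1 - h * μ) + h * (exp ((a - h) * A.card + G A) * A.card))
        fun A _ => ?_))
      · rw [sum_add_distrib, ← sum_mul, ← mul_sum]
        linarith [mul_le_mul_of_nonneg_left k4 h0.le]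
      · rw [← exp_add, show F A + -(h * μ) = ((a - h) * A.card + G A) + (h * A.card - h * μ) by
          simp only [hF]; ring, exp_add _ (_ - _)]
        linarith [mul_le_mul_of_nonneg_left (add_one_le_exp (h * A.card - h * μ))
          (exp_pos ((a - h) * A.card + G A)).le]
    have k6 : exp a / (1 + exp a) - h ≤ exp (a - h) / (1 + exp (a - h)) := by
      have e0 := exp_pos a
      have e1 := add_one_le_exp (-h)
      have e2 : exp (-h) ≤ 1 := exp_le_one_iff.2 (by linarith)
      have e3 : exp a / (1 + exp a) ≤ 1 := (div_le_one (by positivity)).2 (by linarith)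
      rw [sub_eq_add_neg a, exp_add]
      refine le_trans ?_ (div_le_div_of_nonneg_left (b := 1 + exp a) (by positivity) (by positivity)
        (by nlinarith))
      rw [mul_div_right_comm]
      nlinarith [div_pos e0 (show 0 < 1 + exp a by positivity)]
    have k7 := mul_le_mul_of_nonneg_left k6 (Nat.cast_nonneg (α := ℝ) m)
    rw [k3] at k2
    rw [sub_le_iff_le_add, ← sub_le_iff_le_add', le_div_iff₀ h0]
    nlinarith

end Pool.Agent.Lib.MP_9bdb70_lc
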