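import Pool.Agent.Lib.MP_9bdb70_lc.Ras

/-! Reading blocks of random bits. -/

namespace Pool.Agent.Lib.MP_9bdb70_lc

open Finset Real Pool.Agent.Lib.MP_b67cc8_lc Pool.Agent.Lib.helper82 PT
open scoped BigOperators

/-- the block number `i` -/
def blk (c : ℕ) (y : List Bool) (i : ℕ) : List Bool := (y.drop (i * c)).take c

/-- the first `T` blocks -/
def blocks (c T : ℕ) (y : List Bool) : List (List Bool) := (List.range T).map (blk c y)

lemma blk_succ (c : ℕ) (y : List Bool) (i : ℕ) : blk c y (i + 1) = blk c (y.drop c) i := by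
  rw [blk, blk, List.drop_drop, add_mul, one_mul, add_comm]

lemma rit_eq {σ : Type} (c : ℕ) (h : σ → List Bool → σ) (T : ℕ) : ∀ s y,
    rit c h T s y = (blocks c T y).foldl h s := by
  induction T with
  | zero => exact fun _ _ => rfl
  | succ T ih =>
    intro s y
    rw [blocks, List.range_succ_eq_map, List.map_cons, List.map_map, List.foldl_cons,
      show blk c y ∘ Nat.succ = blk c (y.drop c) from funext (blk_succ c y), ← blocks, ← ih]
    simp [rit, rst, blk]

lemma Ex_split {a n : ℕ} (h : a ≤ n) (F : List Bool → List Bool → ℝ) :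
    Ex n (fun y => F (y.take a) (y.drop a)) = Ex a fun x => Ex (n - a) (F x) := by
  obtain ⟨b, rfl⟩ := Nat.exists_eq_add_of_le h
  rw [Ex_append, Nat.add_sub_cancel_left]
  exact Ex_congr fun x hx => by simp only [List.take_left' hx, List.drop_left' hx]

/-- `D` extracts a uniform sample from `c` bits -/
def Unif {Y : Type} [Fintype Y] (c : ℕ) (D : List Bool → Y) : Prop :=
  ∀ n, c ≤ n → ∀ F : Y → ℝ, Ex n (fun y => F (D y)) = 𝔼 a, F a

section
variable {Y Y' : Type} [Fintype Y] [Fintype Y'] {c c' : ℕ} {D : List Bool → Y} {D' : List Bool → Y'}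

lemma Unif.mono (h : Unif c D) (hc : c ≤ c') : Unif c' D := fun n hn => h n (hc.trans hn)

lemma Unif.pair (h : Unif c D) (h' : Unif c' D') :
    Unif (c + c') fun y => (D (y.take c), D' (y.drop c)) := fun n hn F => by
  rw [Ex_split (by omega : c ≤ n) fun x y => F (D x, D' y)]
  simp only [fun x => h' (n - c) (by omega) fun b => F (D x, b)]
  rw [h c le_rfl fun a => 𝔼 b, F (a, b), ← expect_product', univ_product_univ]

lemma Unif.vec (h : Unif c D) : ∀ I : ℕ, Unif (I * c) fun y (i : Fin I) => D (blk c y i)
  | 0 => fun n _ F => by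
    rw [Ex_congr (g := fun _ => F default) fun _ _ => congrArg F (Subsingleton.elim _ _), Ex_const]
    simp
  | I + 1 => fun n hn F => by
    rw [← Fintype.expect_equiv (Fin.consEquiv fun _ => Y) (fun p => F (Fin.consEquiv _ p)) F
      fun _ => rfl, ← (h.pair (h.vec I)) n (by rw [add_mul] at hn; omega)]
    refine Ex_congr fun y _ => congrArg F (funext fun i => ?_)
    refine Fin.cases ?_ (fun j => ?_) i
    · simp [blk]
    · simp [blk_succ]

end

lemma ofB_lt : ∀ l : List Bool, ofB l < 2 ^ l.length
  | [] => by simp [ofB]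
  | b :: l => by
    have := ofB_lt l
    have := Bool.toNat_le b
    simp only [ofB, List.foldr_cons, Nat.bit_val, List.length_cons, pow_succ] at *
    omega

/-- a number with `r` bits -/
def dnum (r : ℕ) (y : List Bool) : Fin (2 ^ r) :=
  ⟨ofB (y.take r), (ofB_lt _).trans_le (Nat.pow_le_pow_right two_pos (List.length_take_le _ _))⟩

lemma unif_num (r : ℕ) : Unif r (dnum r) := fun n hn F => by
  rw [Ex_congr (g := fun y => F (dnum r (y.take r))) fun y _ => by
    simp only [dnum, List.take_take, min_self], Ex_split hn fun x _ => F (dnum r x)]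
  simp only [Ex_const]
  rw [Ex_congr (g := fun x => (fun j => if h : j < 2 ^ r then F ⟨j, h⟩ else 0) (ofB x)) fun x hx => by
    simp only [dnum, List.take_of_length_le hx.le]
    rw [dif_pos], Ex_ofB r fun j => if h : j < 2 ^ r then F ⟨j, h⟩ else 0,
    Fintype.expect_eq_sum_div_card, sum_range]
  simp

/-- a vector of numbers -/
def dvec (r m : ℕ) (y : List Bool) : Fin m → Fin (2 ^ r) := fun e => dnum r (blk r y e)

/-- a batch of pairs of vectors -/
def dbat (r m c k : ℕ) (y : List Bool) : Fin k → (Fin m → Fin (2 ^ r)) × (Fin m → Fin (2 ^ r)) :=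
  fun i => (dvec r m ((blk (c + c) y i).take c), dvec r m ((blk (c + c) y i).drop c))

lemma unif_vec {r m c : ℕ} (h : m * r ≤ c) : Unif c (dvec r m) := ((unif_num r).vec m).mono h

lemma unif_bat {r m c : ℕ} (h : m * r ≤ c) (k : ℕ) : Unif (k * (c + c)) (dbat r m c k) :=
  ((unif_vec h).pair (unif_vec h)).vec k

lemma Ex_exp (c : ℕ) (X : List Bool → ℝ) (R : ℕ) {n : ℕ} (h : c * R ≤ n) :
    Ex n (fun y => exp ((blocks c R y).map X).sum) = Ex c (fun x => exp (X x)) ^ R := by
  have k := Ex_rit c (fun s x => s + X x) exp R n 0 h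
  have e : ∀ t, (Kop c fun s x => s + X x)^[t] exp =
      fun s => exp s * Ex c (fun x => exp (X x)) ^ t := fun t => by
    induction t with
    | zero => simp
    | succ t ih =>
      funext s
      rw [Function.iterate_succ_apply', ih, Kop, pow_succ, ← mul_assoc, ← Ex_mul]
      exact Ex_congr fun x _ => by rw [exp_add]; ring
  rw [e] at k
  simp only [exp_zero, one_mul, rit_eq] at k
  rw [← k]
  exact Ex_congr fun y _ => by rw [List.sum_eq_foldl, List.foldl_map]

/-- the moment generating function of an average of bounded independent variables -/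
lemma mgf {c R n : ℕ} (h : c * R ≤ n) {X : List Bool → ℝ} (hX : ∀ x, R * X x ^ 2 ≤ 1) (h0 : 0 < R) :
    Ex n (fun y => exp ((blocks c R y).map X).sum) ≤ exp (R * Ex c X + 1) := by
  have R0 : (1 : ℝ) ≤ R := Nat.one_le_cast.2 h0
  have k : Ex c (fun x => exp (X x)) ≤ exp (Ex c X + (R : ℝ)⁻¹) := by
    refine le_trans (Ex_mono (g := fun x => X x + ((R : ℝ)⁻¹ + 1)) fun x _ => ?_) ?_
    · have a := hX x
      have b := abs_exp_sub_one_sub_id_le (x := X x) ((sq_le_one_iff_abs_le_one _).1 (by
        nlinarith [sq_nonneg (X x)]))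
      rw [← le_inv_mul_iff₀ (by positivity), mul_one] at a
      linarith [(abs_le.1 b).2]
    · rw [Ex_add, Ex_const, ← add_assoc]
      exact add_one_le_exp _
  rw [Ex_exp c X R h, ← mul_inv_cancel₀ (show (R : ℝ) ≠ 0 by positivity), ← mul_add, exp_nat_mul]
  exact pow_le_pow_left₀ ((Ex_const c 0).ge.trans (Ex_mono fun _ _ => (exp_pos _).le)) k R

variable {α β σ : Type} [Enc α] [Enc β] [Enc σ]

@[fun_prop] lemma take_pt [Inhabited β] {f : α → List β} {i : α → ℕ} (hf : PT f) (hi : PT i) :
    PT fun a => (f a).take (i a) :=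
  (PT.map (F := fun a j => (f a).getD j default) (UN.min hi (UN.len hf)).range
    (by fun_prop)).congr fun a => List.ext_getElem (by simp) fun j h _ => by
      have : j < (f a).length := by simp at h; omega
      simp [this]

@[fun_prop] lemma drop_pt [Inhabited β] {f : α → List β} {i : α → ℕ} (hf : PT f) (hi : PT i) :
    PT fun a => (f a).drop (i a) :=
  ((UN.min hi (UN.len hf)).grow (h := fun _ => List.tail) hf (tail snd') (Bd.const 0)
    fun _ _ => sz_tail_le _).congr fun a => by
      have : ∀ (k : ℕ) (l : List β), List.tail^[k] l = l.drop k := fun k => by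
        induction k with
        | zero => exact fun _ => rfl
        | succ k ih => exact fun l => by rw [Function.iterate_succ_apply, ih, List.drop_tail]
      rw [this]
      rcases le_total (i a) (f a).length with q | q
      · rw [min_eq_left q]
      · rw [min_eq_right q, List.drop_length, List.drop_eq_nil_of_le q]

@[fun_prop] lemma blk_pt {c i : α → ℕ} {y : α → List Bool} (hc : PT c) (hy : PT y) (hi : PT i) :
    PT fun a => blk (c a) (y a) (i a) := by unfold blk; fun_prop

lemma blocks_pt {c T : α → ℕ} {y : α → List Bool} (hc : PT c) (hT : UN T) (hy : PT y) :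
    PT fun a => blocks (c a) (T a) (y a) := PT.map hT.range (by fun_prop)

lemma foldl_inv [Inhabited β] {l : α → List β} {g : α → σ} {h : α → σ → β → σ} (hl : PT l)
    (hg : PT g) (hh : PT fun p : α × σ × β => h p.1 p.2.1 p.2.2) {B : α → ℕ} (hB : Bd sz B)
    (I : α → ℕ → σ → Prop) (h0 : ∀ a, I a 0 (g a))
    (h1 : ∀ a i s, ∀ x ∈ l a, I a i s → I a (i + 1) (h a s x))
    (hb : ∀ a i s, i ≤ (l a).length → I a i s → sz s ≤ B a) :
    PT fun a => (l a).foldl (h a) (g a) :=
  PT.foldl hl hg hh B hB fun a k => by
    refine hb a _ _ (List.length_take_le' k _) ?_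
    have : ∀ x ∈ (l a).take k, x ∈ l a := fun x => List.mem_of_mem_take
    generalize (l a).take k = L at this
    induction L using List.reverseRecOn with
    | nil => exact h0 a
    | append_singleton L x ih =>
      rw [List.foldl_concat, List.length_append]
      exact h1 a _ _ x (this x (by simp)) (ih fun y hy => this y (by simp [hy]))

end Pool.Agent.Lib.MP_9bdb70_lc
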