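import Pool.Agent.Lib.MP_9bdb70_lc.S2Est

/-! The estimate is good on average, and the branching estimator with a randomized test. -/

namespace Pool.Agent.Lib.MP_9bdb70_lc

open Real Pool.Agent.Lib.MP_b67cc8_lc

open Finset Classical in
theorem est_spec {q₁ q₂ w₁ w₂ : ℕ} (g1 : q₂ ≤ q₁) (g2 : 0 < q₂) (h1 : 0 < w₁) (h2 : 0 < w₂) :
    ∃ c C : ℕ, ∀ (n T l : ℕ) (E : EL), 0 < T → pc c (n + c + 1) T * pR c (n + c + 1) ≤ l →
      (∀ e ∈ E, e.1 < n ∧ e.2 < n) → ∃ Y : List Bool → ℝ, (∀ y, 0 < Y y ∧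
        0 < ((est q₁ q₂ w₁ w₂ c n T E y).2 : ℝ) ∧ (est q₁ q₂ w₁ w₂ c n T E y).1 =
        Y y * ZL (log (w₁ / w₂)) (log (q₁ / q₂)) n E * (est q₁ q₂ w₁ w₂ c n T E y).2) ∧
        Ex l Y ≤ exp (C * (n / T + 1)) ∧ Ex l (fun y => (Y y)⁻¹) ≤ exp (C * (n / T + 1)) := by
  have g0 : 0 < q₁ := g2.trans_le g1
  set a := log (w₁ / w₂) with ha
  set b := log (q₁ / q₂) with hb
  have b0 : 0 ≤ b := log_nonneg ((one_le_div (by positivity)).2 (Nat.cast_le.2 g1))
  obtain ⟨c, hc⟩ := exists_nat_gt (|a| + 2 * b)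
  obtain ⟨r0, r1⟩ := rate_bd (|a| + b)
  obtain ⟨D, hD⟩ := (tendsto_pow_const_mul_const_pow_of_abs_lt_one 2
    (show |rate (|a| + b)| < 1 by rwa [abs_of_nonneg r0])).bddAbove_range
  obtain ⟨C, hC⟩ := exists_nat_ge (2 * b + 3 + 8 * c * (exp b * b + 6) + (1 + b * |D|))
  refine ⟨c, C, fun n T l E T0 hl hE => ?_⟩
  obtain ⟨m, en, rfl⟩ : ∃ (m : ℕ) (en : Fin m → ℕ × ℕ), E = List.ofFn en := ⟨_, _, E.ofFn_get.symm⟩
  have hn : Ends n en := fun e => hE _ (List.mem_ofFn.2 ⟨e, rfl⟩)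
  set J := n + c with hJ
  have e1 : ∀ i : Fin m, (List.ofFn en).getD i (0, 0) = en i := fun i => by simp
  have e2 : ∀ i : Fin m, keepb J (List.ofFn en) i = true ↔ Keep en J i := fun i => by
    simp only [keepb, Keep, List.length_ofFn, len_range, e1]
    simp
  obtain ⟨c1, c2⟩ := cap (a := a) hn b0 J (P := range n ×ˢ range n) fun e _ => by simpa using hn e
  set f : ℕ → ℕ × ℕ := fun i => if keepb J (List.ofFn en) i then (List.ofFn en).getD i (0, 0) else
    (((List.ofFn en).getD i (0, 0)).1, ((List.ofFn en).getD i (0, 0)).1) with hf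
  have e3 := ZL_loops (a := a) (b := b) (n := n) (keepb J (List.ofFn en))
    (List.range m) f fun i hi => by
      have := hn ⟨i, List.mem_range.1 hi⟩
      have e := e1 ⟨i, List.mem_range.1 hi⟩
      simp only [hf]
      rw [e]
      split_ifs with q <;> simp [this, q]
  have e4 : (List.range m).map f =
      List.ofFn fun e => if Keep en J e then en e else ((en e).1, (en e).1) := by
    rw [range_eq, List.map_ofFn]
    congr 1
    funext i
    simp only [hf, Function.comp, e1, e2]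
  have e5 : ((List.range m).filter (keepb J (List.ofFn en))).map f = kept J (List.ofFn en) := by
    rw [kept, List.length_ofFn]
    exact List.map_congr_left fun i hi => if_pos (List.mem_filter.1 hi).2
  have e6 : (kept J (List.ofFn en)).length ≤ pM (J + 1) := by
    rw [kept, List.length_map, List.length_ofFn, len_range]
    simp only [e2]
    refine c1.trans ?_
    rw [card_product, card_range, pM]
    gcongr <;> omega
  rw [e4, ZL_ofFn, e5, ha, exp_log (by positivity), ← ha] at e3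
  obtain ⟨Y, p1, p2⟩ := est₀_spec g1 g2 h1 h2 ha hb hc J.succ_pos (show n ≤ J + 1 by omega) T0 hl
    (kept J (List.ofFn en)) (fun p hp => by
      obtain ⟨i, hi, rfl⟩ := List.mem_map.1 hp
      have := (List.mem_range.1 (List.mem_filter.1 hi).1).trans_eq List.length_ofFn
      exact e1 ⟨i, this⟩ ▸ hn ⟨i, this⟩) e6
  have z : 0 < ZL a b n (kept J (List.ofFn en)) := Zf_pos
  have z' : 0 < Zf a b n en := Zf_pos
  rw [e3, log_mul (by positivity) z.ne', show (1 + w₁ / w₂ : ℝ) = (w₁ + w₂) / w₂ by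
    field_simp; ring, card_product, card_range] at c2
  have c3 : b * ((n * n : ℕ) * rate (|a| + b) ^ J) ≤ b * |D| := by
    refine mul_le_mul_of_nonneg_left (le_trans ?_ ((hD ⟨n, rfl⟩).trans (le_abs_self D))) b0
    rw [Nat.cast_mul, ← sq]
    exact mul_le_mul_of_nonneg_left (pow_le_pow_of_le_one r0 r1.le (by omega)) (sq_nonneg _)
  have c4 := mul_le_mul_of_nonneg_right hC (show (0 : ℝ) ≤ n / T + 1 by positivity)
  have c5 : (0 : ℝ) ≤ (1 + b * |D|) * (n / T) := by positivity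
  rw [abs_le] at c2
  simp only [est, ← hJ, List.take_of_length_le e6, List.length_ofFn]
  generalize ((List.range m).filter fun i => !keepb J (List.ofFn en) i).length = d at c2 ⊢
  refine ⟨fun y => exp (log (((w₁ + w₂) / w₂) ^ d) + b * n - log (Zf a b n en)) * exp (Y y),
    fun y => ?_, ?_, ?_⟩
  · obtain ⟨a1, a2, a3⟩ := p1 y
    generalize est₀ q₁ q₂ w₁ w₂ c (J + 1) T (kept J (List.ofFn en)) y = x at a1 a2 a3 ⊢
    refine ⟨by positivity, by positivity, ?_⟩
    beta_reduce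
    rw [← a3, exp_sub, exp_add, exp_log z', exp_log (by positivity), ZL_ofFn, mul_comm b,
      exp_nat_mul, show exp b = q₁ / q₂ from exp_log (by positivity)]
    push_cast
    rw [div_pow, div_pow]
    field_simp
  · have := p2 1 abs_one
    simp only [one_mul] at this
    rw [Ex_mul]
    refine (mul_le_mul_of_nonneg_left this (exp_pos _).le).trans ?_
    rw [← exp_add, exp_le_exp]
    linarith [c2.2]
  · have := p2 (-1) (by simp)
    simp only [neg_one_mul] at this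
    simp only [mul_inv, ← exp_neg]
    rw [Ex_mul]
    refine (mul_le_mul_of_nonneg_left this (exp_pos _).le).trans ?_
    rw [← exp_add, exp_le_exp]
    linarith [c2.1]

variable {q₁ q₂ w₁ w₂ n : ℕ}

/-- one step with a randomized test -/
def bst₂ (q₁ q₂ w₁ w₂ : ℕ) (sub : List Bool → EL × ℕ → Bool) (s : St) (x : List Bool) : St :=
  bst q₁ q₂ w₁ w₂ (sub (x.drop 2)) s (x.take 2)

lemma Kop_bst (sub : List Bool → EL × ℕ → Bool) (c : ℕ) (p : EL × ℕ) (L : List (EL × ℕ)) (t : ℕ)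
    (G : St → ℝ) : Kop (2 + c) (bst₂ q₁ q₂ w₁ w₂ sub) G (p :: L, t) =
      (1 - Ex c fun y => (sub y p).toNat) * Kop 2 (bst q₁ q₂ w₁ w₂ fun _ => false) G (p :: L, t) +
      (Ex c fun y => (sub y p).toNat) * Kop 2 (bst q₁ q₂ w₁ w₂ fun _ => true) G (p :: L, t) := by
  rw [Kop, Kop, Kop, ← Ex_mul, ← Ex_mul, ← Ex_add]
  simp only [bst₂]
  rw [Ex_split (Nat.le_add_right 2 c) fun x y => G (bst q₁ q₂ w₁ w₂ (sub y) (p :: L, t) x),
    Nat.add_sub_cancel_left]
  refine Ex_congr fun x _ => (Ex_bool c (sub · p)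
    fun b => G (bst q₁ q₂ w₁ w₂ (fun _ => b) (p :: L, t) x)).trans ?_
  ring

theorem boost₂ (g1 : 0 < q₁) (g2 : 0 < q₂) (h1 : 0 < w₁) (h2 : 0 < w₂) (E₀ : EL)
    (h0 : ∀ e ∈ E₀, e.1 < n ∧ e.2 < n) {sub : List Bool → EL × ℕ → Bool} {κ C k Z : ℝ} {c : ℕ}
    (hZ : Z = mass q₁ q₂ w₁ w₂ n (E₀, 1)) (hκ : 0 ≤ κ) (hC : 0 ≤ C) (hk : 0 < k)
    (hs : ∀ p : EL × ℕ, (∀ e ∈ p.1, e.1 < n ∧ e.2 < n) →
      3 * mass q₁ q₂ w₁ w₂ n p * Ex c (fun y => (sub y p).toNat) ≤ κ ∧
      3 * (1 - Ex c fun y => (sub y p).toNat) ≤ C * mass q₁ q₂ w₁ w₂ n p)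
    (hk' : 8 * (k ^ 2 * (κ * E₀.length)) ≤ Z) {S l : ℕ} (hS : 8 * (2 + C * (Z * E₀.length)) ≤ S)
    (hl : (2 + c) * S ≤ l) : 3 / 4 ≤ Ex l fun r => if |(rit (2 + c) (bst₂ q₁ q₂ w₁ w₂ sub) S
      ([(E₀, 1)], 0) r).2 * (q₁ / q₂ : ℝ) ^ n - Z| ≤ Z / k then 1 else 0 := by
  set z : ℝ := (q₁ / q₂) ^ n with hz
  set v := mass q₁ q₂ w₁ w₂ n with hv
  have Z0 : 0 < Z := by
    rw [hZ, hv, mass]
    exact mul_pos (by simp) (mul_pos (by positivity) Zf_pos)
  have v0 : ∀ p, 0 ≤ v p := mass_nonneg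
  have v1 : ∀ W, v ([], W) = W * z := fun W => by
    simp only [hv, mass, ZL_nil, List.length_nil, pow_zero, one_mul]
    rw [mul_comm (log _), exp_nat_mul, exp_log (by positivity)]
  have v2 : ∀ E W, v (E, 4 * W) = 4 * v (E, W) := fun E W => by
    simp only [hv, mass]
    push_cast
    ring
  set I : St → Prop := fun s => ∀ p ∈ s.1, ∀ e ∈ p.1, e.1 < n ∧ e.2 < n with hI
  have i1 : ∀ s x, I s → I (bst₂ q₁ q₂ w₁ w₂ sub s x) := by
    rintro ⟨_ | ⟨⟨_ | ⟨e, E⟩, W⟩, L⟩, c⟩ x h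
    · exact h
    · exact (List.forall_mem_cons.1 h).2
    · obtain ⟨a1, a2⟩ := List.forall_mem_cons.1 h
      obtain ⟨a3, a4⟩ := List.forall_mem_cons.1 a1
      have : ∀ W, ∀ p ∈ kids q₁ q₂ w₁ w₂ (e :: E) W, ∀ e ∈ p.1, e.1 < n ∧ e.2 < n := fun W =>
        List.forall_mem_cons.2 ⟨a4, List.forall_mem_singleton.2 (List.forall_mem_map.2
          fun p hp => rl_lt a3.1 (a4 p hp))⟩
      refine List.forall_mem_append.2 ⟨?_, a2⟩
      simp only [List.headD_cons]
      cases sub (x.drop 2) (e :: E, W)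
      · exact this _
      · cases (x.take 2).headD false && (x.take 2).tail.headD false
        · simp
        · exact this _
  set M : St → ℝ := fun s => (s.1.map fun p => 0 + 1 * (v p * 1)).sum + s.2 * z - Z with hM
  set Φ : St → ℝ := fun s => (s.1.map fun p => 0 + κ * (v p * p.1.length)).sum with hΦ
  set Ψ : St → ℝ := fun s => (s.1.map fun p => 2 + C * (v p * p.1.length)).sum with hΨ
  have k1 := fun e he E W => sum_kids g1 g2 h1 h2 (n := n) (e := e) he E W 0 1 fun _ => 1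
  have k2 := fun e he E W α β => sum_kids g1 g2 h1 h2 (n := n) (e := e) he E W α β fun i => i
  rw [← hv] at k1 k2
  have i0 : I ([(E₀, 1)], 0) := List.forall_mem_singleton.2 h0
  have a1 := Kop_le (k := 2 + c) i1 (f := fun s => M s ^ 2) (G := fun _ s => M s ^ 2 + Φ s)
    (fun s _ => le_add_of_nonneg_right (List.sum_nonneg (List.forall_mem_map.2 fun p _ => by
      have := v0 p
      positivity))) (by
    rintro - ⟨_ | ⟨⟨_ | ⟨e, E⟩, W⟩, L⟩, t⟩ h
    · exact (Ex_const _ (M ([], t) ^ 2 + Φ ([], t))).le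
    · refine (Ex_const _ (M (L, t + W) ^ 2 + Φ (L, t + W))).le.trans ?_
      simp [hM, hΦ, v1]
      exact le_of_eq (by ring)
    · have b1 := (List.forall_mem_cons.1 h).1
      have b2 := (hs _ b1).1
      have b3 := v0 (e :: E, W)
      have b4 := (List.forall_mem_cons.1 b1).1
      rw [Kop_bst]
      simp only [Kop, Ex, bst, hM, hΦ, List.isEmpty_cons, List.headD_cons, List.tail_cons,
        cond_false, cond_true, Bool.and_false, Bool.and_true, List.map_append, List.sum_append,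
        k1 e b4, k2 e b4, List.map_cons, List.sum_cons, v2, List.map_nil, List.sum_nil,
        List.length_cons, Nat.cast_succ]
      nlinarith [mul_le_mul_of_nonneg_right b2 b3]) S _ i0
  have Ψ0 : ∀ s, 0 ≤ Ψ s := fun s => List.sum_nonneg (List.forall_mem_map.2 fun p _ => by
    have := v0 p
    positivity)
  have a2 := Kop_le (k := 2 + c) i1 (f := fun s => S * if s.1 = [] then 0 else 1)
    (G := fun t s => Ψ s + if s.1 = [] then 0 else ((S - t : ℕ) : ℝ))
    (fun s _ => by split_ifs <;> simp [Ψ0]) (by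
    rintro t ⟨_ | ⟨⟨E, W⟩, L⟩, j⟩ h
    · exact (Ex_const _ (Ψ ([], j) + 0)).le
    refine (Ex_mono (g := fun x => Ψ (bst₂ q₁ q₂ w₁ w₂ sub ((E, W) :: L, j) x) + ((S - t : ℕ) : ℝ))
      fun x _ => by beta_reduce; split_ifs <;> simp).trans ?_
    have b0 : ((S - t : ℕ) : ℝ) ≤ (S - (t + 1) : ℕ) + 1 := by exact_mod_cast (by omega)
    rw [if_neg (List.cons_ne_nil _ _), Ex_add, Ex_const, ← Kop, Kop_bst]
    rcases E with _ | ⟨e, E⟩
    · simp [Kop, Ex, bst, hΨ]
      linarith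
    · have b1 := (List.forall_mem_cons.1 h).1
      have b2 := (hs _ b1).2
      have b4 := (List.forall_mem_cons.1 b1).1
      simp only [Kop, Ex, bst, hΨ, List.isEmpty_cons, List.headD_cons, List.tail_cons,
        cond_false, cond_true, Bool.and_false, Bool.and_true, List.map_append, List.sum_append,
        k2 e b4, List.map_cons, List.sum_cons, v2, List.map_nil, List.sum_nil,
        List.length_cons, Nat.cast_succ]
      linarith) S _ i0
  rw [← Ex_rit _ _ _ S l _ hl] at a1 a2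
  have S0 : (0 : ℝ) < S := lt_of_lt_of_le (by positivity) hS
  refine le_trans ?_ (Ex_mono (f := fun r => 1 + (-(S : ℝ)⁻¹ * (S * if
    (rit (2 + c) (bst₂ q₁ q₂ w₁ w₂ sub) S ([(E₀, 1)], 0) r).1 = [] then 0 else 1) +
    -(k / Z) ^ 2 * M (rit (2 + c) (bst₂ q₁ q₂ w₁ w₂ sub) S ([(E₀, 1)], 0) r) ^ 2)) fun r _ => ?_)
  · rw [Ex_add, Ex_add, Ex_const, Ex_mul, Ex_mul l (-(k / Z) ^ 2)]
    simp only [hM, hΦ, hΨ, List.map_cons, List.map_nil, List.sum_cons, List.sum_nil, ← hZ,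
      Nat.sub_self, Nat.cast_zero, ite_self] at a1 a2 ⊢
    have c1 := mul_le_mul_of_nonneg_left a1 (sq_nonneg (k / Z))
    have c2 := mul_le_mul_of_nonneg_left a2 (inv_pos.2 S0).le
    have c3 : (S : ℝ)⁻¹ * (2 + C * (Z * E₀.length)) ≤ 1 / 8 := by
      rw [inv_mul_le_iff₀ S0]
      linarith
    have c4 : (k / Z) ^ 2 * (κ * (Z * E₀.length)) ≤ 1 / 8 := by
      rw [show (k / Z) ^ 2 * (κ * (Z * E₀.length)) = k ^ 2 * (κ * E₀.length) / Z by field_simp,
        div_le_iff₀ Z0]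
      linarith
    linarith
  · generalize rit (2 + c) (bst₂ q₁ q₂ w₁ w₂ sub) S ([(E₀, 1)], 0) r = s
    have c1 := mul_nonneg (sq_nonneg (k / Z)) (sq_nonneg (M s))
    rw [← mul_assoc, neg_mul, inv_mul_cancel₀ S0.ne']
    split_ifs with p q q
    · linarith
    · have c2 : M s = s.2 * z - Z := by simp [hM, p]
      have c3 := one_le_sq_iff_one_le_abs (k / Z * M s) |>.2 (by
        rw [abs_mul, abs_of_pos (div_pos hk Z0), c2, ← div_le_iff₀' (div_pos hk Z0), one_div_div]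
        exact (not_le.1 q).le)
      rw [mul_pow] at c3
      linarith
    · linarith
    · linarith

end Pool.Agent.Lib.MP_9bdb70_lc
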