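import Pool.Agent.Lib.MP_9bdb70_lc.S2Acc
import Pool.Agent.Lib.MP_9bdb70_lc.S2Bin
import Pool.Agent.Lib.MP_9bdb70_lc.S2Bits

/-! The expected output of one run of the iteration is close to the free energy. -/

namespace Pool.Agent.Lib.MP_9bdb70_lc

open Finset Real Pool.Agent.Lib.MP_b67cc8_lc
open scoped BigOperators Classical

abbrev Tab (m r : ℕ) := (Fin m → Fin (2 ^ r)) → Fin m → ℕ

variable {m n : ℕ} (en : Fin m → ℕ × ℕ) (r k c g bz : ℕ) (th : ℕ → ℕ)

/-- the new strategy -/
noncomputable def nz (s : Tab m r × Tab m r) (x : List Bool) : Tab m r := fun u e =>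
  min (2 ^ r) (s.1 u e + ∑ i : Fin k, mp en bz (th (u e)) (fun j =>
    s.2 (mix (Iic e) u (dbat r m c k x i).1) j + s.1 (mix (Iic e) u (dbat r m c k x i).1) j +
      (dbat r m c k x i).2 j) e - k * (g + bz))

/-- one step -/
noncomputable def astep (s : Tab m r × Tab m r) (x : List Bool) : Tab m r × Tab m r :=
  (nz en r k c g bz th s x, fun u e => s.2 u e + nz en r k c g bz th s x u e)

/-- the sum of the strategies along a run -/
noncomputable def asum (xs : List (List Bool)) : Tab m r := (xs.foldl (astep en r k c g bz th)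
  (fun u e => if g ≤ th (u e) then 2 ^ r else 0, fun _ _ => 0)).2

/-- the output for the table `W` at the noise `u` -/
noncomputable def outX (W : Tab m r) (u : Fin m → Fin (2 ^ r)) : ℝ :=
  ∑ e, W u e * (mp en bz (th (u e)) (W u) e - (g + bz) : ℝ)

/-- the output of a run -/
noncomputable def runX (T : ℕ) (y : List Bool) : ℝ := outX en r g bz th (asum en r k c g bz th
  (blocks (k * (c + c)) T (y.take (k * (c + c) * T)))) (dvec r m (y.drop (k * (c + c) * T)))

variable {en r k c g bz th}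

lemma astep_ad {s : Tab m r × Tab m r} (h : Ad s.1 ∧ Ad s.2) (x : List Bool) :
    Ad (astep en r k c g bz th s x).1 ∧ Ad (astep en r k c g bz th s x).2 := by
  have : Ad (nz en r k c g bz th s x) := fun e u u' q => by
    have : ∀ ζ, mix (Iic e) u ζ = mix (Iic e) u' ζ := fun ζ => funext fun i => by
      unfold mix
      split_ifs with p
      exacts [q i (mem_Iic.1 p), rfl]
    simp only [nz, this, h.1 e u u' q, q e le_rfl]
  exact ⟨this, fun e u u' q => by simp only [astep, h.2 e u u' q, this e u u' q]⟩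

lemma asum_bd (xs : List (List Bool)) : Ad (asum en r k c g bz th xs) ∧
    ∀ u e, asum en r k c g bz th xs u e ≤ xs.length * 2 ^ r := by
  suffices h : ∀ s, s = xs.foldl (astep en r k c g bz th) (fun u e => if g ≤ th (u e) then 2 ^ r
      else 0, fun _ _ => 0) → (Ad s.1 ∧ Ad s.2) ∧ ∀ u e, s.2 u e ≤ xs.length * 2 ^ r from
    ⟨(h _ rfl).1.2, (h _ rfl).2⟩
  induction xs using List.reverseRecOn with
  | nil => exact fun s hs => hs ▸ ⟨⟨fun e u u' q => by simp [q e le_rfl], fun _ _ _ _ => rfl⟩, by simp⟩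
  | append_singleton L x ih =>
    rintro s rfl
    rw [List.foldl_concat, List.length_append, add_mul, List.length_singleton, one_mul]
    exact ⟨astep_ad (ih _ rfl).1 x, fun u e => add_le_add ((ih _ rfl).2 u e) (min_le_left _ _)⟩

lemma runX_bd (h1 : ∀ j, j < 2 ^ r → th j ≤ 2 * g) (h2 : bz ≤ g) (T : ℕ) (y : List Bool) :
    |runX en r k c g bz th T y| ≤ m * (T * 2 ^ r * (2 * g)) := by
  refine (abs_sum_le_sum_abs _ (univ : Finset (Fin m))).trans ((sum_le_card_nsmul _ _
    (T * 2 ^ r * (2 * g) : ℝ) fun e _ => ?_).trans_eq (by simp))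
  rw [abs_mul, Nat.abs_cast]
  refine mul_le_mul (by exact_mod_cast ((asum_bd _).2 _ e).trans_eq (by simp [blocks])) ?_
    (abs_nonneg _) (by positivity)
  generalize dvec r m _ e = j
  have a := Nat.cast_le (α := ℝ).2 (h1 j j.2)
  have b := Nat.cast_le (α := ℝ).2 h2
  have := Nat.cast_nonneg (α := ℝ) (th j)
  have := Nat.cast_nonneg (α := ℝ) bz
  rw [mp, abs_le]
  split_ifs <;> push_cast at a ⊢ <;> constructor <;> linarith

theorem run_int (hn : Ends n en) (hk : 8 * k * bz ≤ 2 ^ r) (k0 : 0 < k) (hc : m * r ≤ c) (T : ℕ)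
    {l : ℕ} (hl : k * (c + c) * T + c ≤ l) {F : (Fin m → Fin (2 ^ r)) → Finset (Fin m) → ℝ}
    (hF : F = fun u A => ∑ e ∈ A, (th (u e) - g : ℝ) + bz * (kk n (en '' A) - n)) :
    (∀ U, (∀ S, Adapted S → 𝔼 u, F u (S u) ≤ U) → Ex l (runX en r k c g bz th T) ≤ T * 2 ^ r * U) ∧
    ∀ S : (Fin m → Fin (2 ^ r)) → Finset (Fin m), Adapted S → (∀ u, ∀ e ∈ S u, g ≤ th (u e)) →
      T * 2 ^ r * 𝔼 u, F u (S u) - (T * bz + 2 ^ r) * (bz * n) - (2 ^ r) ^ 2 / (2 * k) *
        (𝔼 u : Fin m → Fin (2 ^ r), ∑ e, ind (g ≤ th (u e)) - 𝔼 u, ((S u).card : ℝ)) ≤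
        Ex l (runX en r k c g bz th T) := by
  set f : Finset (Fin m) → ℝ := fun A => bz * (kk n (en '' A) - n) with hf
  have b0 : (0 : ℝ) ≤ bz := Nat.cast_nonneg _
  have f1 : Sup f bz := by
    simpa using sup_kk hn b0 (θ := fun _ => 0) (g := bz) (c := n) fun _ => ⟨b0, by simp⟩
  have f2 : ∀ A e, f (insert e A) ≤ f A := fun A e => by
    simp only [hf, kk_ins hn]
    split_ifs <;> linarith
  have f3 : f ∅ = 0 := by simp [hf, kk_empty]
  have f4 : -(bz * n) ≤ f univ := by
    have : 0 ≤ kk n (en '' (univ : Finset (Fin m))) := sum_nonneg fun _ _ => by positivity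
    simp only [hf]
    nlinarith
  have f5 : ∀ t x e, (mp en bz t x e - (g + bz) : ℝ) = t - g + marg f x e := fun t x e => by
    simp only [marg, hf, mp, kk_ins hn]
    split_ifs <;> push_cast <;> ring
  have e0 : Ex l (runX en r k c g bz th T) = Ex (k * (c + c) * T) fun x => 𝔼 u,
      outX en r g bz th (asum en r k c g bz th (blocks (k * (c + c)) T x)) u := by
    rw [← Ex_congr fun x _ => unif_vec hc (l - k * (c + c) * T) (by omega) _,
      ← Ex_split (by omega : k * (c + c) * T ≤ l)]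
    rfl
  rw [e0]
  refine ⟨fun U hU => (Ex_mono fun x _ => ?_).trans (Ex_const _ _).le, fun S hS h0 => ?_⟩
  · obtain ⟨a1, a2⟩ := asum_bd (en := en) (r := r) (k := k) (c := c) (g := g) (bz := bz) (th := th)
      (blocks (k * (c + c)) T x)
    have Q0 : (0 : ℝ) < Fintype.card (Fin m → Fin (2 ^ r)) := Nat.cast_pos.2 Fintype.card_pos
    have := ogd_le (P := Iic) (f := F) (g := ∑ j : Fin (2 ^ r), |(th j - g : ℝ)| + bz)
      (U := U * Fintype.card (Fin m → Fin (2 ^ r))) (fun u => hF ▸ sup_kk hn b0 fun e => by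
        have := single_le_sum (f := fun j : Fin (2 ^ r) => |(th j - g : ℝ)|)
          (fun _ _ => abs_nonneg _) (mem_univ (u e))
        constructor <;> linarith [le_abs_self (th (u e) - g : ℝ), neg_abs_le (th (u e) - g : ℝ)])
      (fun u => by simp [hF, kk_empty]) (fun S h => by
        rw [← div_le_iff₀ Q0, ← Fintype.expect_eq_sum_div_card]
        exact hU S fun e u u' q => h e u u' fun i hi => q i (mem_Iic.1 hi)) a2
      fun e u u' q => a1 e u u' fun i hi => q i (mem_Iic.2 hi)
    rw [Fintype.expect_eq_sum_div_card, div_le_iff₀ Q0]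
    refine (sum_congr rfl fun u _ => sum_congr rfl fun e _ => ?_).trans_le
      (this.trans_eq (by simp [blocks, mul_assoc]))
    simp only [f5, hF, marg]
    rw [sum_insert (by simp [pre])]
    ring
  · set y : Tab m r := fun u e => if e ∈ S u then 2 ^ r else 0 with hy
    set θ : Fin (2 ^ r) → ℝ := fun j => th j - g with hθ
    have k1 := Kop_le (k := k * (c + c)) (h := astep en r k c g bz th) (I := fun s => Ad s.1 ∧ Ad s.2)
      (fun s x h => astep_ad h x) (f := fun s => -k * 𝔼 u, outX en r g bz th s.2 u)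
      (G := fun t s => -pot f θ k y s.1 s.2 - t * (k * (2 ^ r * 𝔼 u, F u (S u) - bz * (bz * n))))
      (fun s _ => by
        rw [Nat.cast_zero, zero_mul, sub_zero, neg_mul, neg_le_neg_iff, mul_expect]
        refine expect_ge fun u => (sub_le_self _ (by positivity)).trans
          (mul_le_mul_of_nonneg_left ?_ (Nat.cast_nonneg k))
        simp only [outX, f5, mul_add, sum_add_distrib]
        exact add_le_add le_rfl (ph_le f1 f2 _)) (fun t s hs => by
        have a1 := acc f1 f2 b0 θ (k := k) (s := 2 ^ r) (by exact_mod_cast hk) hS s.1 s.2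
          (z' := fun ω u e => min (2 ^ r) (s.1 u e + ∑ i : Fin k, mp en bz (th (u e)) (fun j =>
            s.2 (mix (Iic e) u (ω i).1) j + s.1 (mix (Iic e) u (ω i).1) j + (ω i).2 j) e -
              k * (g + bz))) (fun ω e u u' q => by
            have : ∀ ζ, mix (Iic e) u ζ = mix (Iic e) u' ζ := fun ζ => funext fun i => by
              unfold mix
              split_ifs with p
              exacts [q i (mem_Iic.1 p), rfl]
            simp only [this, hs.1 e u u' q, q e le_rfl]) fun ω u e => by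
            simp only [hθ, ← f5, sum_sub_distrib, sum_const, card_univ, nsmul_eq_mul,
              Fintype.card_fin]
            rw [Nat.cast_min, ← add_sub_assoc, max_min_distrib_left,
              max_eq_right (Nat.cast_nonneg _), cast_sub_eq]
            push_cast
            rfl
        rw [← unif_bat hc k _ le_rfl] at a1
        simp only [Kop, sub_eq_add_neg, Ex_add, Ex_const, neg_eq_neg_one_mul (pot ..), Ex_mul]
        change _ ≤ Ex _ fun x => pot f θ k y (astep en r k c g bz th s x).1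
          (astep en r k c g bz th s x).2 at a1
        have a2 := mul_le_mul_of_nonneg_left (mul_le_mul_of_nonneg_left f4 b0) (Nat.cast_nonneg k)
        simp only [f3, sub_zero] at a1
        simp only [hF]
        push_cast at a1 ⊢
        linarith) T (fun u e => if g ≤ th (u e) then 2 ^ r else 0, fun _ _ => 0)
      ⟨fun e u u' q => by simp [q e le_rfl], fun _ _ _ _ => rfl⟩
    rw [← Ex_rit _ _ _ T _ _ le_rfl, Ex_mul] at k1
    simp only [rit_eq] at k1
    have k2 : k * (2 ^ r * -(bz * n)) - (2 ^ r) ^ 2 / 2 * (𝔼 u : Fin m → Fin (2 ^ r),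
        ∑ e, ind (g ≤ th (u e)) - 𝔼 u, ((S u).card : ℝ)) ≤
        pot f θ k y (fun u e => if g ≤ th (u e) then 2 ^ r else 0) fun _ _ => 0 := by
      rw [← expect_sub_distrib, mul_expect, ← Fintype.expect_const (ι := Fin m → Fin (2 ^ r))
        (k * _ : ℝ), ← expect_sub_distrib]
      refine expect_ge fun u => sub_le_sub (mul_le_mul_of_nonneg_left ?_ (Nat.cast_nonneg k))
        (le_of_eq ?_)
      · have := ph_zero (N := 2 ^ r) f1 f2
        have := mul_le_mul_of_nonneg_left f4 (show (0 : ℝ) ≤ 2 ^ r by positivity)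
        simp only [f3, Nat.cast_zero, zero_mul, sum_const_zero] at *
        push_cast at *
        linarith
      · rw [card_eq_sum_ones, ← univ_inter (S u), ← sum_ite_mem, Nat.cast_sum, ← sum_sub_distrib,
          mul_sum, sum_div]
        refine sum_congr rfl fun e _ => ?_
        have := h0 u e
        simp only [hy, ind]
        split_ifs with p q q
        · simp
        · simp
        · exact absurd (this q) p
        · simp
    have K0 : (0 : ℝ) < k := Nat.cast_pos.2 k0
    refine le_of_mul_le_mul_left ?_ K0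
    rw [mul_sub, ← mul_assoc _ (_ / _), show (k : ℝ) * ((2 ^ r) ^ 2 / (2 * k)) = (2 ^ r) ^ 2 / 2 by
      field_simp]
    simp only [asum]
    linarith

theorem run_real {a b c₀ τ : ℝ} (hb : 0 ≤ b) (hn : Ends n en) (hk : 8 * k * bz ≤ 2 ^ r)
    (k0 : 0 < k) (k1 : n ≤ k) (hc : m * r ≤ c) {T l M : ℕ} (T0 : 0 < T)
    (hl : k * (c + c) * T + c ≤ l) (M0 : 0 < M) (M1 : m ≤ M) (M2 : M ^ 4 ≤ 2 ^ r) (t0 : 0 < τ)
    (t1 : τ * M ≤ 1) (t2 : τ * 2 ^ r ≤ 16 * c₀ * k) (b1 : τ * bz ≤ b) (b2 : b ≤ τ * (bz + 1))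
    (h1 : ∀ j : Fin (2 ^ r), τ * (th j - g) ≤ a + lg _ j ∧ a + lg _ j < τ * (th j - g + 1)) :
    |τ / (T * 2 ^ r) * Ex l (runX en r k c g bz th T) + b * n - log (Zf a b n en)| ≤
      (2 * b + 3 + 8 * c₀ * (exp b * b + 6)) * (n / T + 1) := by
  obtain ⟨r1, r2⟩ := run_int (g := g) (th := th) hn hk k0 hc T hl rfl
  set N : ℝ := 2 ^ r with hN
  have N0 : 0 < N := by positivity
  have N1 : ((2 ^ r : ℕ) : ℝ) = N := by rw [hN]; push_cast; rfl
  have K0 : (0 : ℝ) < k := Nat.cast_pos.2 k0
  have K1 : (n : ℝ) ≤ k := Nat.cast_le.2 k1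
  have n0 : (0 : ℝ) ≤ n := Nat.cast_nonneg _
  have T1 : (1 : ℝ) ≤ T := Nat.one_le_cast.2 T0
  have m0 : (0 : ℝ) ≤ m := Nat.cast_nonneg _
  have m1 : (m : ℝ) ≤ M := Nat.cast_le.2 M1
  have m2 : (1 : ℝ) ≤ M := Nat.one_le_cast.2 M0
  have m3 : (M : ℝ) ^ 4 ≤ N := by rw [← N1]; exact_mod_cast M2
  have c0 : 0 ≤ c₀ := by nlinarith [mul_pos t0 N0]
  set δ := log (N + 1) / N with hδ
  have d0 : 0 ≤ δ := div_nonneg (log_nonneg (by linarith)) N0.le
  have d1 : M * M * δ ≤ 2 := by
    have s1 := sq_sqrt (show 0 ≤ N + 1 by linarith)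
    have s2 : (M : ℝ) * M ≤ √(N + 1) := le_sqrt_of_sq_le (by linarith)
    have s3 := log_le_sub_one_of_pos (show 0 < √(N + 1) by positivity)
    rw [log_sqrt (by linarith)] at s3
    rw [hδ, ← mul_div_assoc, div_le_iff₀ N0]
    nlinarith [mul_le_mul s2 s3 (by linarith [log_nonneg (show 1 ≤ N + 1 by linarith)])
      (sqrt_nonneg _)]
  have d2 : m * δ ≤ 2 := by nlinarith [mul_le_mul_of_nonneg_right m1 d0, mul_nonneg m0 d0]
  have hl : ∀ B, Soft (lg (2 ^ r)) B δ := fun B => by simpa only [N1] using soft_lg (N := 2 ^ r) B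
  have g1 : Sup (fun A : Finset (Fin m) => b * kk n (en '' A)) b := by
    simpa using sup_kk hn hb (θ := fun _ => 0) (g := b) (c := 0) fun _ => ⟨hb, by simp⟩
  have g2 : Sup (fun A : Finset (Fin m) => a * A.card + b * kk n (en '' A)) (|a| + b) := by
    simpa [mul_comm a] using sup_kk hn hb (θ := fun _ => a) (g := |a| + b) (c := 0) fun _ =>
      ⟨by linarith [le_abs_self a], by linarith [neg_abs_le a]⟩
  have f2 : ∀ S : (Fin m → Fin (2 ^ r)) → Finset (Fin m), |τ * 𝔼 u, (∑ e ∈ S u,
      (th (u e) - g : ℝ) + bz * (kk n (en '' S u) - n)) + b * n -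
      val (fun A => a * A.card + b * kk n (en '' A)) (lg _) S| ≤ 1 := fun S => by
    rw [val, mul_expect, ← Fintype.expect_const (ι := Fin m → Fin (2 ^ r)) (b * n),
      ← expect_add_distrib, ← expect_sub_distrib]
    refine (abs_expect_le _ _).trans (expect_le univ_nonempty fun u _ => ?_)
    have k1 := kk_bd hn ∅ (S u)
    have k2 := kk_anti (n := n) (R := ∅) (R' := en '' S u) (by simp)
    have k3 : ((S u).card : ℝ) ≤ m := by exact_mod_cast card_finset_fin_le _
    rw [coe_empty, Set.image_empty, empty_union] at k1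
    rw [kk_empty] at k1 k2
    have k6 := sum_le_sum fun e (_ : e ∈ S u) => (h1 (u e)).1
    have k7 := sum_le_sum fun e (_ : e ∈ S u) => (h1 (u e)).2.le
    simp only [sum_add_distrib, ← mul_sum, sum_const, nsmul_eq_mul] at k6 k7
    have k8 := mul_le_mul_of_nonneg_left (k3.trans m1) t0.le
    rw [abs_le]
    constructor <;> nlinarith
  have p0 : 0 < T * N := by positivity
  have q0 : (0 : ℝ) ≤ n / T := by positivity
  have q1 : 0 ≤ c₀ * (exp b * b) := by positivity
  rw [div_mul_eq_mul_div, abs_le]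
  constructor
  · obtain ⟨S, s1, s2, s3, s4⟩ := near (a := a) (ν := b * n) g1 (fun A e => by
      rw [kk_ins hn]
      split_ifs <;> linarith) (fun A => by
      have : 0 ≤ kk n (en '' A) := sum_nonneg fun _ _ => by positivity
      simpa [kk_empty] using mul_nonneg hb this) hl d0 (show (0 : ℝ) < 1 / M by positivity)
    have s5 := r2 S s1 fun u e he => by
      have := (mul_pos_iff_of_pos_left t0).1 ((s2 u e he).trans_lt (h1 (u e)).2)
      exact Nat.le_of_lt_succ (Nat.cast_lt (α := ℝ).1 (by push_cast; linarith))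
    have s6 : 𝔼 u : Fin m → Fin (2 ^ r), ∑ e, ind (g ≤ th (u e)) ≤
        m * (exp a / (1 + exp a) + 1 / N) := by
      rw [expect_sum_comm]
      refine (sum_le_card_nsmul _ _ (exp a / (1 + exp a) + 1 / N) fun e _ => ?_).trans_eq
        (by simp [mul_add])
      rw [← expect_update e, ← N1]
      simp only [Function.update_self, Fintype.expect_const]
      refine le_trans (expect_ge fun j => ?_) (lg_prob a)
      unfold ind
      split_ifs with p q
      · rfl
      · exact absurd ((mul_nonneg t0.le (sub_nonneg.2 (Nat.cast_le.2 p))).trans (h1 j).1) q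
      · norm_num
      · rfl
    have s7 : m * (1 / N) ≤ 1 := by
      rw [mul_one_div, div_le_one N0]
      nlinarith [pow_le_pow_right₀ m2 (show 1 ≤ 4 by norm_num)]
    have s8 : m * (1 / M : ℝ) ≤ 1 := by rw [mul_one_div, div_le_one (by positivity)]; exact m1
    have s9 : 2 * m * δ / (1 / M) ≤ 4 := by
      rw [div_div_eq_mul_div, div_one]
      nlinarith [mul_le_mul_of_nonneg_right m1 (show 0 ≤ δ * M by positivity)]
    have u1 := mul_le_mul_of_nonneg_left (show 𝔼 u : Fin m → Fin (2 ^ r), ∑ e, ind (g ≤ th (u e)) -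
      𝔼 u, ((S u).card : ℝ) ≤ exp b * (b * n) + 6 by linarith)
      (show 0 ≤ N ^ 2 / (2 * k) by positivity)
    have u2 := (abs_le.1 (f2 S)).1
    rw [Zf]
    generalize 𝔼 u, (∑ e ∈ S u, (th (u e) - g : ℝ) + bz * (kk n (en '' S u) - n)) = V at s5 u2
    have u3 : τ * V - (τ * bz * n * (bz / N) + τ * bz * (n / T) + τ * N / (2 * k) *
        (exp b * b * (n / T) + 6 / T)) ≤ τ * Ex l (runX en r k c g bz th T) / (T * N) := by
      rw [le_div_iff₀ p0]
      refine le_trans (le_of_eq ?_) (mul_le_mul_of_nonneg_left (show T * N * V - (T * bz + N) *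
        (bz * n) - N ^ 2 / (2 * k) * (exp b * (b * n) + 6) ≤ _ by linarith) t0.le)
      field_simp
      ring
    have u4 : τ * bz * n * (bz / N) ≤ b := by
      have : (8 * k * bz : ℝ) ≤ N := by rw [← N1]; exact_mod_cast hk
      have : n * (bz / N) ≤ 1 := by
        rw [← mul_div_assoc, div_le_one N0]
        nlinarith [Nat.cast_nonneg (α := ℝ) bz]
      rw [mul_assoc]
      exact (mul_le_of_le_one_right (by positivity) this).trans b1
    have u5 := mul_le_mul ((div_le_iff₀ (show (0 : ℝ) < 2 * k by positivity)).2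
      (show τ * N ≤ 8 * c₀ * (2 * k) by linarith)) (show exp b * b * (n / T) + 6 / T ≤
        exp b * b * (n / T) + 6 by gcongr; exact div_le_self (by norm_num) T1) (by positivity)
      (by positivity)
    nlinarith [mul_nonneg hb q0, mul_nonneg c0 q0, mul_le_mul_of_nonneg_right b1 q0]
  · have := r1 ((log (Zf a b n en) - b * n + 3) / τ) fun S hS => by
      have := val_le g2 (hl _) hS
      rw [le_div_iff₀ t0, Zf]
      linarith [(abs_le.1 (f2 S)).2]
    rw [← mul_div_assoc, le_div_iff₀ t0, mul_comm _ τ, mul_comm (T * N), ← div_le_iff₀ p0] at this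
    nlinarith [mul_nonneg hb q0, mul_nonneg q1 q0, mul_nonneg c0 q0]

end Pool.Agent.Lib.MP_9bdb70_lc
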