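import Pool.Agent.Lib.MP_9bdb70_lc.S2Alg

/-! The choice of the parameters and the randomized estimate of the partition function. -/

namespace Pool.Agent.Lib.MP_9bdb70_lc

open Finset Real Pool.Agent.Lib.MP_b67cc8_lc Pool.Agent.Lib.helper82 PT

def pM (n : ℕ) : ℕ := n * n * n
def pL (n : ℕ) : ℕ := pM n * pM n * (pM n * pM n)
def pr (c n : ℕ) : ℕ := (8 * n * (c * pL n)).size
def pg (c n : ℕ) : ℕ := 2 * pL n * (c + pr c n)
def pR (c n : ℕ) : ℕ := 4 * pM n * (c + pr c n) * (4 * pM n * (c + pr c n))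
def pJ (c n T : ℕ) : ℕ := pR c n * (T * 2 ^ pr c n)
def pQ (c n T : ℕ) : ℕ := pJ c n T * pL n
def pb (c n : ℕ) : ℕ := n * (pM n * pr c n + pM n * pr c n)
def pc (c n T : ℕ) : ℕ := pb c n * T + pM n * pr c n
def pU (c n T : ℕ) : ℕ := pJ c n T * (pM n * (2 * pg c n))

/-- the integer part of a quotient of logarithms -/
def flr (ρ₁ ρ₂ x₁ x₂ G : ℕ) : ℕ := ((List.range G).filter fun i =>
  decide (ρ₁ ^ min (i + 1) G * x₂ ≤ x₁ * ρ₂ ^ min (i + 1) G)).length

def pth (w₁ w₂ c n T j : ℕ) : ℕ := flr ((pQ c n T + 1) ^ pJ c n T) (pQ c n T ^ pJ c n T)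
  (w₁ * min (2 ^ pr c n - j) (2 ^ pr c n) * ((pQ c n T + 1) ^ pJ c n T) ^ pg c n)
  (w₂ * (j + 1) * (pQ c n T ^ pJ c n T) ^ pg c n) (2 * pg c n)

def pz (q₁ q₂ w₁ w₂ c n T : ℕ) : List (List ℕ) := [[pr c n, pM n * pr c n, pg c n,
  flr ((pQ c n T + 1) ^ pJ c n T) (pQ c n T ^ pJ c n T) q₁ q₂ (pg c n)], List.range n,
  List.range (2 ^ pr c n), (List.range (2 ^ pr c n)).map (pth w₁ w₂ c n T)]

def rat (Q U x y : ℕ) : ℕ × ℕ :=
  ((Q + 1) ^ min (x - y) U * Q ^ min (y - x) U, Q ^ min (x - y) U * (Q + 1) ^ min (y - x) U)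

/-- the estimate without the factors for vertices and loops -/
def est₀ (q₁ q₂ w₁ w₂ c n T : ℕ) (E : EL) (y : List Bool) : ℕ × ℕ := rat (pQ c n T) (pU c n T)
  ((blocks (pc c n T) (pR c n) y).map fun x =>
    (runl (pz q₁ q₂ w₁ w₂ c n T, E) (pb c n) T x).1).sum
  ((blocks (pc c n T) (pR c n) y).map fun x =>
    (runl (pz q₁ q₂ w₁ w₂ c n T, E) (pb c n) T x).2).sum

/-- the edges that are kept -/
def kept (J : ℕ) (E : EL) : EL := ((List.range E.length).filter (keepb J E)).map fun i => E.getD i (0, 0)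

/-- the estimate -/
def est (q₁ q₂ w₁ w₂ c n T : ℕ) (E : EL) (y : List Bool) : ℕ × ℕ :=
  ((est₀ q₁ q₂ w₁ w₂ c (n + c + 1) T ((kept (n + c) E).take (pM (n + c + 1))) y).1 *
    ((w₁ + w₂) ^ ((List.range E.length).filter fun i => !keepb (n + c) E i).length * q₁ ^ n),
  (est₀ q₁ q₂ w₁ w₂ c (n + c + 1) T ((kept (n + c) E).take (pM (n + c + 1))) y).2 *
    (w₂ ^ ((List.range E.length).filter fun i => !keepb (n + c) E i).length * q₂ ^ n))

lemma two_pow_size (x : ℕ) : 2 ^ x.size ≤ 2 * x + 1 := by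
  cases h : x.size with
  | zero => omega
  | succ k =>
    have := Nat.lt_size.1 (show k < x.size by omega)
    omega

section
variable {α : Type} [Enc α] {n T x₁ x₂ ρ₁ ρ₂ G : α → ℕ} {E : α → EL} {y : α → List Bool}

lemma UN.dif (h1 : PT x₁) (h2 : PT x₂) (h : UN G) : UN fun a => Min.min (x₁ a - x₂ a) (G a) :=
  (UN.len (PT.filter (P := fun a i => decide (i + x₂ a < x₁ a)) h.range (by fun_prop))).congr
    fun a => by simp only [← Nat.lt_sub_iff_add_lt, UN.length_lt]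

lemma pM_un (h : UN n) : UN fun a => pM (n a) := (h.mul h).mul h
lemma pL_un (h : UN n) : UN fun a => pL (n a) :=
  ((pM_un h).mul (pM_un h)).mul ((pM_un h).mul (pM_un h))
lemma pr_un (c : ℕ) (h : UN n) : UN fun a => pr c (n a) :=
  (UN.len (bits (((UN.cst 8).mul h).mul ((UN.cst c).mul (pL_un h))).pt)).congr fun a => by
    simp only [pr, Nat.size_eq_bits_len]
lemma pN_un (c : ℕ) (h : UN n) : UN fun a => 2 ^ pr c (n a) :=
  (UN.min ((pr_un c h).pow (const 2)) (((UN.cst 2).mul (((UN.cst 8).mul h).mul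
    ((UN.cst c).mul (pL_un h)))).add (UN.cst 1))).congr fun a => by
      simp only [pr, min_eq_left (two_pow_size _)]
lemma pg_un (c : ℕ) (h : UN n) : UN fun a => pg c (n a) :=
  ((UN.cst 2).mul (pL_un h)).mul ((UN.cst c).add (pr_un c h))
lemma pR_un (c : ℕ) (h : UN n) : UN fun a => pR c (n a) :=
  have := ((UN.cst 4).mul (pM_un h)).mul ((UN.cst c).add (pr_un c h))
  this.mul this
lemma pJ_un (c : ℕ) (h : UN n) (h' : UN T) : UN fun a => pJ c (n a) (T a) :=
  (pR_un c h).mul (h'.mul (pN_un c h))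
lemma pb_un (c : ℕ) (h : UN n) : UN fun a => pb c (n a) :=
  h.mul (((pM_un h).mul (pr_un c h)).add ((pM_un h).mul (pr_un c h)))
lemma pc_un (c : ℕ) (h : UN n) (h' : UN T) : UN fun a => pc c (n a) (T a) :=
  ((pb_un c h).mul h').add ((pM_un h).mul (pr_un c h))

lemma flr_pt (h1 : PT ρ₁) (h2 : PT ρ₂) (h3 : PT x₁) (h4 : PT x₂) (h : UN G) :
    PT fun a => flr (ρ₁ a) (ρ₂ a) (x₁ a) (x₂ a) (G a) :=
  have k := UN.min (succ (snd' (α := α))) (h.comp fst')
  length (PT.filter h.range (le (mul (k.pow (h1.comp fst')) (h4.comp fst'))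
    (mul (h3.comp fst') (k.pow (h2.comp fst')))))

lemma pQ_pt (c : ℕ) (h : UN n) (h' : UN T) : PT fun a => pQ c (n a) (T a) :=
  ((pJ_un c h h').mul (pL_un h)).pt

lemma pth_pt (w₁ w₂ c : ℕ) (h : UN n) (h' : UN T) (hj : PT x₁) :
    PT fun a => pth w₁ w₂ c (n a) (T a) (x₁ a) :=
  have a3 := (pJ_un c h h').pow (succ (pQ_pt c h h'))
  have a4 := (pJ_un c h h').pow (pQ_pt c h h')
  flr_pt a3 a4 (mul (mul (const _) (UN.dif (pN_un c h).pt hj (pN_un c h)).pt) ((pg_un c h).pow a3))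
    (mul (mul (const _) (succ hj)) ((pg_un c h).pow a4)) ((UN.cst 2).mul (pg_un c h))

lemma pz_pt (q₁ q₂ w₁ w₂ c : ℕ) (h : UN n) (h' : UN T) : PT fun a => pz q₁ q₂ w₁ w₂ c (n a) (T a) :=
  cons (cons (pr_un c h).pt (cons ((pM_un h).mul (pr_un c h)).pt (cons (pg_un c h).pt
    (cons (flr_pt ((pJ_un c h h').pow (succ (pQ_pt c h h'))) ((pJ_un c h h').pow (pQ_pt c h h'))
      (const _) (const _) (pg_un c h)) (const []))))) (cons h.range (cons (pN_un c h).range
    (cons (PT.map (F := fun a => pth w₁ w₂ c (n a) (T a)) (pN_un c h).range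
      (pth_pt w₁ w₂ c (h.comp fst') (h'.comp fst') snd')) (const []))))

lemma rat_pt (h1 : PT ρ₁) (h : UN G) (h2 : PT x₁) (h3 : PT x₂) :
    PT fun a => rat (ρ₁ a) (G a) (x₁ a) (x₂ a) :=
  pair (mul ((UN.dif h2 h3 h).pow (succ h1)) ((UN.dif h3 h2 h).pow h1))
    (mul ((UN.dif h2 h3 h).pow h1) ((UN.dif h3 h2 h).pow (succ h1)))

lemma est₀_pt (q₁ q₂ w₁ w₂ c : ℕ) (h : UN n) (h' : UN T) (hE : PT E) (hy : PT y)
    (hB : Bd sz fun a => (1 + (E a).length * n a) ^ T a) :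
    PT fun a => est₀ q₁ q₂ w₁ w₂ c (n a) (T a) (E a) (y a) :=
  have a9 : PT fun p : α × List Bool => runl (pz q₁ q₂ w₁ w₂ c (n p.1) (T p.1), E p.1)
      (pb c (n p.1)) (T p.1) p.2 := runl_pt ((pair (pz_pt q₁ q₂ w₁ w₂ c h h') hE).comp fst')
    ((pb_un c h).pt.comp fst') (h'.comp fst') snd' ((hB.comp Prod.fst fst'.sz_bd).of_le fun a => by
      simp [idx, par, pz])
  have b1 := blocks_pt (pc_un c h h').pt (pR_un c h) hy
  rat_pt (pQ_pt c h h') ((pJ_un c h h').mul ((pM_un h).mul ((UN.cst 2).mul (pg_un c h))))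
    (sum_pt (PT.map b1 (fst a9))) (sum_pt (PT.map b1 (snd a9)))

lemma est_pt (q₁ q₂ w₁ w₂ c : ℕ) (hn : UN n) (hT : UN T) (hE : PT E) (hy : PT y)
    (hB : Bd sz fun a => (1 + pM (n a + c + 1) * (n a + c + 1)) ^ T a) :
    PT fun a => est q₁ q₂ w₁ w₂ c (n a) (T a) (E a) (y a) := by
  have n0 := hn.pt
  have n1 := (hn.add (UN.cst c)).add (UN.cst 1)
  have a8 : PT fun a => (kept (n a + c) (E a)).take (pM (n a + c + 1)) :=
    take_pt (by unfold kept; fun_prop) (pM_un n1).pt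
  have a9 := est₀_pt q₁ q₂ w₁ w₂ c n1 hT a8 hy (hB.of_le fun a => by
    gcongr
    exact List.length_take_le _ _)
  have b1 : PT fun a => (List.range (E a).length).filter fun i => !keepb (n a + c) (E a) i := by
    fun_prop
  exact pair (mul (fst a9) (mul (pow_pt _ b1) (hn.pow (const _))))
    (mul (snd a9) (mul (pow_pt _ b1) (hn.pow (const _))))

end

lemma flr_spec {ρ₁ ρ₂ x₁ x₂ G : ℕ} (h1 : 0 < ρ₁) (h2 : 0 < ρ₂) (h3 : 0 < x₁) (h4 : 0 < x₂) {τ θ : ℝ}
    (e1 : τ = log (ρ₁ / ρ₂)) (e2 : θ = log (x₁ / x₂)) (t0 : 0 < τ) (t1 : 0 ≤ θ) (t2 : θ ≤ τ * G) :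
    τ * flr ρ₁ ρ₂ x₁ x₂ G ≤ θ ∧ θ < τ * (flr ρ₁ ρ₂ x₁ x₂ G + 1) := by
  have : flr ρ₁ ρ₂ x₁ x₂ G = ⌊θ / τ⌋₊ := by
    rw [← min_eq_left (Nat.floor_le_of_le ((div_le_iff₀' t0).2 t2)), ← UN.length_lt, flr]
    refine congrArg _ (List.filter_congr fun i hi => decide_eq_decide.2 ?_)
    rw [min_eq_left (List.mem_range.1 hi), ← Nat.cast_le (α := ℝ), Nat.lt_iff_add_one_le,
      Nat.le_floor_iff (by positivity), le_div_iff₀ t0, e1, e2, ← log_pow,
      log_le_log_iff (by positivity) (by positivity), div_pow,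
      div_le_div_iff₀ (by positivity) (by positivity)]
    push_cast
    rfl
  rw [this, ← le_div_iff₀' t0, ← div_lt_iff₀' t0]
  exact ⟨Nat.floor_le (by positivity), Nat.lt_floor_add_one _⟩

lemma rat_spec {Q U x y : ℕ} (h : 0 < Q) (h' : |(x : ℝ) - y| ≤ U) : 0 < (rat Q U x y).1 ∧
    0 < (rat Q U x y).2 ∧
    ((rat Q U x y).1 : ℝ) / (rat Q U x y).2 = exp (log ((Q + 1) / Q) * (x - y)) := by
  refine ⟨by unfold rat; positivity, by unfold rat; positivity, ?_⟩
  rw [abs_le] at h'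
  have a : x ≤ U + y := by exact_mod_cast (show (x : ℝ) ≤ U + y by linarith)
  have b : y ≤ U + x := by exact_mod_cast (show (y : ℝ) ≤ U + x by linarith)
  rw [rat, min_eq_left (by omega), min_eq_left (by omega)]
  rcases le_total x y with q | q
  · rw [← neg_sub, ← Nat.cast_sub q, mul_neg, exp_neg, mul_comm (log _), exp_nat_mul,
      exp_log (by positivity), Nat.sub_eq_zero_of_le q]
    simp [div_pow]
  · rw [← Nat.cast_sub q, mul_comm (log _), exp_nat_mul, exp_log (by positivity),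
      Nat.sub_eq_zero_of_le q]
    simp [div_pow]

theorem est₀_spec {q₁ q₂ w₁ w₂ c : ℕ} (g1 : q₂ ≤ q₁) (g2 : 0 < q₂) (h1 : 0 < w₁) (h2 : 0 < w₂)
    {a b : ℝ} (ha : a = log (w₁ / w₂)) (hb : b = log (q₁ / q₂)) (hc : |a| + 2 * b < c)
    {n k T l : ℕ} (k0 : 0 < k) (k1 : n ≤ k) (T0 : 0 < T) (hl : pc c k T * pR c k ≤ l) (E : EL)
    (hE : ∀ e ∈ E, e.1 < n ∧ e.2 < n) (hm : E.length ≤ pM k) :
    ∃ Y : List Bool → ℝ, (∀ y, 0 < (est₀ q₁ q₂ w₁ w₂ c k T E y).1 ∧
      0 < (est₀ q₁ q₂ w₁ w₂ c k T E y).2 ∧ ((est₀ q₁ q₂ w₁ w₂ c k T E y).1 : ℝ) /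
        (est₀ q₁ q₂ w₁ w₂ c k T E y).2 = exp (Y y)) ∧ ∀ s : ℝ, |s| = 1 →
      Ex l (fun y => exp (s * Y y)) ≤ exp (s * (log (ZL a b n E) - b * n) +
        ((2 * b + 3 + 8 * c * (exp b * b + 6)) * (n / T + 1) + 1)) := by
  obtain ⟨m, en, rfl⟩ : ∃ (m : ℕ) (en : Fin m → ℕ × ℕ), E = List.ofFn en := ⟨_, _, E.ofFn_get.symm⟩
  rw [List.length_ofFn] at hm
  have g0 : 0 < q₁ := g2.trans_le g1
  have b0 : 0 ≤ b := hb ▸ log_nonneg ((one_le_div (by positivity)).2 (Nat.cast_le.2 g1))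
  have a0 := abs_nonneg a
  have c0 : 0 < c := Nat.cast_pos.1 (lt_of_le_of_lt (by positivity) hc)
  have M0 : 0 < pM k := by unfold pM; positivity
  have L0 : 0 < pL k := by unfold pL; positivity
  have R0 : 0 < pR c k := by unfold pR; positivity
  have J0 : 0 < pJ c k T := by unfold pJ; positivity
  have Q0 : 0 < pQ c k T := by unfold pQ; positivity
  have N1 : 8 * k * (c * pL k) < 2 ^ pr c k := Nat.lt_size_self _
  have N2 : 2 ^ pr c k ≤ 16 * c * k * pL k := by
    have d := two_pow_size (8 * k * (c * pL k))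
    obtain ⟨i, hi⟩ := Nat.exists_eq_add_of_lt
      (Nat.size_pos.2 (show 0 < 8 * k * (c * pL k) by positivity))
    rw [pr, show 16 * c * k * pL k = 2 * (8 * k * (c * pL k)) by ring]
    rw [hi, pow_succ] at d ⊢
    omega
  set σ := log ((pQ c k T + 1) / pQ c k T : ℝ) with hσ
  set τ := pJ c k T * σ with hτ
  have L1 : (1 : ℝ) ≤ pL k := Nat.one_le_cast.2 L0
  have J1 : (1 : ℝ) ≤ pJ c k T := Nat.one_le_cast.2 J0
  have eQ : (pQ c k T : ℝ) = pJ c k T * pL k := Nat.cast_mul _ _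
  have t1 : τ * pL k ≤ 1 := by
    have := log_le_sub_one_of_pos (show (0 : ℝ) < (pQ c k T + 1) / pQ c k T by positivity)
    rw [add_div, div_self (by positivity), add_sub_cancel_left, le_div_iff₀ (by positivity)] at this
    rw [hτ, hσ, add_div, div_self (by positivity), mul_right_comm, ← eQ, mul_comm]
    exact this
  have t2 : 1 ≤ τ * (2 * pL k) := by
    have := one_sub_inv_le_log_of_pos (show (0 : ℝ) < (pQ c k T + 1) / pQ c k T by positivity)
    rw [inv_div, one_sub_div (by positivity), add_sub_cancel_left, div_le_iff₀ (by positivity),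
      ← hσ] at this
    have : 0 ≤ σ := by nlinarith
    rw [hτ]
    nlinarith [mul_nonneg this (show (0 : ℝ) ≤ pQ c k T - 1 by nlinarith)]
  have t0 : 0 < τ := by nlinarith
  have t3 : c + pr c k ≤ τ * pg c k := by
    rw [pg]
    push_cast
    nlinarith [show (0 : ℝ) ≤ c + pr c k by positivity]
  have e1 : τ = log (((pQ c k T + 1) ^ pJ c k T : ℕ) / (pQ c k T ^ pJ c k T : ℕ)) := by
    push_cast
    rw [← div_pow, log_pow]
  have r0 : (0 : ℝ) ≤ pr c k := Nat.cast_nonneg _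
  obtain ⟨b1, b2⟩ := flr_spec (G := pg c k) (by positivity) (by positivity) g0 g2 e1 hb t0 b0
    (by linarith)
  set bz := flr ((pQ c k T + 1) ^ pJ c k T) (pQ c k T ^ pJ c k T) q₁ q₂ (pg c k) with hbz
  have b3 : bz ≤ c * pL k := Nat.cast_le (α := ℝ).1 (by
    push_cast
    nlinarith [Nat.cast_nonneg (α := ℝ) bz, mul_le_mul_of_nonneg_right b1
      (show (0 : ℝ) ≤ 2 * pL k by positivity)])
  have key := run_real (a := a) (c₀ := c) (g := pg c k) (th := pth w₁ w₂ c k T) (en := en) b0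
    (fun e => hE _ (List.mem_ofFn.2 ⟨e, rfl⟩)) ((Nat.mul_le_mul_left _ b3).trans N1.le) k0 k1
    (Nat.mul_le_mul_right _ hm) T0 (le_refl (pc c k T)) M0 hm (by
      rw [show pM k ^ 4 = 1 * (1 * pL k) by rw [pL]; ring]
      exact le_trans (by gcongr <;> omega) N1.le) t0 (le_trans (mul_le_mul_of_nonneg_left
        (Nat.cast_le.2 (show pM k ≤ pL k from (Nat.le_mul_self _).trans (Nat.le_mul_self _)))
        t0.le) t1) (by
      have := mul_le_mul_of_nonneg_left (Nat.cast_le (α := ℝ).2 N2) t0.le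
      push_cast at this
      nlinarith [show (0 : ℝ) ≤ 16 * c * k by positivity]) b1 b2.le fun j => by
      have d1 := lg_bd j
      have d2 := mul_le_mul_of_nonneg_left (log_le_sub_one_of_pos two_pos) r0
      rw [Nat.cast_pow, log_pow, Nat.cast_ofNat, abs_le] at d1
      have d3 := Nat.sub_pos_of_lt j.2
      have := flr_spec (G := 2 * pg c k) (θ := a + lg _ j + τ * pg c k)
        (x₁ := w₁ * min (2 ^ pr c k - j.val) (2 ^ pr c k) * ((pQ c k T + 1) ^ pJ c k T) ^ pg c k)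
        (x₂ := w₂ * (j + 1) * (pQ c k T ^ pJ c k T) ^ pg c k) (by positivity) (by positivity)
        (by positivity) (by positivity) e1 (by
          have : (0 : ℝ) < (2 ^ pr c k : ℕ) - j := sub_pos.2 (Nat.cast_lt.2 j.2)
          rw [min_eq_left (Nat.sub_le _ _), Nat.cast_mul, Nat.cast_mul, Nat.cast_mul, Nat.cast_mul,
            Nat.cast_sub j.2.le, mul_div_mul_comm, mul_div_mul_comm,
            log_mul (by positivity) (by positivity), log_mul (by positivity) (by positivity),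
            Nat.cast_pow _ (pg c k), Nat.cast_pow _ (pg c k), ← div_pow, log_pow, ← e1, ha, lg,
            Nat.cast_succ, mul_comm τ]) t0 (by linarith [neg_abs_le a])
        (by push_cast; linarith [le_abs_self a])
      rw [← pth] at this
      constructor <;> linarith
  have x1 := runX_bd (en := en) (r := pr c k) (k := k) (c := pM k * pr c k) (g := pg c k) (bz := bz)
    (th := pth w₁ w₂ c k T) (fun j _ => (List.length_filter_le _ _).trans_eq List.length_range)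
    ((List.length_filter_le _ _).trans_eq List.length_range) T
  set X := runX en (pr c k) k (pM k * pr c k) (pg c k) bz (pth w₁ w₂ c k T) T with hX
  have x2 : ∀ x, |X x| ≤ T * 2 ^ pr c k * (pM k * (2 * pg c k)) := fun x => (x1 x).trans (by
    rw [mul_left_comm]
    gcongr)
  refine ⟨fun y => σ * ((blocks (pc c k T) (pR c k) y).map X).sum, fun y => ?_, fun s hs => ?_⟩
  · have e2 : ∀ L : List (List Bool), ((L.map fun x => (runl (pz q₁ q₂ w₁ w₂ c k T, List.ofFn en)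
        (pb c k) T x).1).sum : ℝ) - ((L.map fun x => (runl (pz q₁ q₂ w₁ w₂ c k T, List.ofFn en)
        (pb c k) T x).2).sum : ℕ) = (L.map X).sum ∧ |(L.map X).sum| ≤ L.length *
          (T * 2 ^ pr c k * (pM k * (2 * pg c k))) := fun L => by
      induction L with
      | nil => simp
      | cons x L ih =>
        simp only [List.map_cons, List.sum_cons, Nat.cast_add, List.length_cons, add_mul]
        refine ⟨by rw [← ih.1, hX, ← runl_spec rfl]; simp only [pb, pz]; ring, ?_⟩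
        exact (abs_add_le _ _).trans (by have := x2 x; push_cast; linarith [ih.2])
    have := e2 (blocks (pc c k T) (pR c k) y)
    simp only [← this.1]
    refine rat_spec Q0 (this.1 ▸ this.2.trans_eq ?_)
    simp [blocks, pU, pJ, mul_assoc]
  · have σ0 : 0 < σ := (mul_pos_iff_of_pos_left (by positivity)).1 t0
    have e3 : τ / (T * 2 ^ pr c k) = pR c k * σ := by
      rw [hτ, pJ]
      push_cast
      field_simp
    simp only [← mul_assoc, ← List.sum_map_mul_left]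
    refine (mgf hl (fun x => ?_) R0).trans (exp_le_exp.2 ?_)
    · have d1 : pR c k * σ * |X x| ≤ 4 * pM k * (c + pr c k) := by
        rw [← e3, div_mul_eq_mul_div, div_le_iff₀ (by positivity)]
        refine (mul_le_mul_of_nonneg_left (x2 x) t0.le).trans ?_
        rw [pg]
        push_cast
        linarith [mul_le_mul_of_nonneg_right t1 (show (0 : ℝ) ≤ 4 * pM k * (c + pr c k) *
          (T * 2 ^ pr c k) by positivity)]
      have d2 := mul_self_le_mul_self (by positivity) d1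
      rw [mul_pow, mul_pow, ← sq_abs s, hs, ← sq_abs (X x)]
      refine le_of_mul_le_mul_left (d2.trans_eq' (by ring) |>.trans_eq ?_) (Nat.cast_pos.2 R0)
      rw [pR]
      push_cast
      ring
    · rw [Ex_mul, ZL_ofFn]
      rw [e3] at key
      have := (le_abs_self (s * (pR c k * σ * Ex (pc c k T) X + b * n - log (Zf a b n en)))).trans_eq
        (by rw [abs_mul, hs, one_mul])
      linarith

end Pool.Agent.Lib.MP_9bdb70_lc
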