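import Pool.Agent.Lib.MP_9bdb70_lc.S2Boost
import Pool.Agent.Lib.MP_9bdb70_lc.Fin

/-! The approximation scheme, its running time, and the clock. -/

namespace Pool.Agent.Lib.MP_9bdb70_lc

open Real Pool.Agent.Lib.MP_b67cc8_lc Pool.Agent.Lib.helper82 PT

/-- the number of bits that one estimate reads -/
def pA (c n T : ℕ) : ℕ := pc c (n + c + 1) T * pR c (n + c + 1)

def cmpb (d W N : ℕ) (D E : EL) (x y : ℕ × ℕ) : Bool :=
  decide (W * N * (d ^ D.length * x.1) * y.2 ≤ d ^ E.length * y.1 * x.2)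

/-- the randomized test for a light particle -/
def subb₂ (q₁ q₂ w₁ w₂ c n T : ℕ) (E : EL) (N : ℕ) (y : List Bool) (p : EL × ℕ) : Bool :=
  cmpb (w₂ * q₁) p.2 N p.1 E (est q₁ q₂ w₁ w₂ c n T p.1 (y.take (pA c n T)))
    (est q₁ q₂ w₁ w₂ c n T E (y.drop (pA c n T)))

/-- the approximation scheme -/
def ras₂ (q₁ q₂ w₁ w₂ c n T : ℕ) (E : EL) (k N : ℕ) (r : List Bool) : ℕ × ℕ :=
  ((rit (2 + (pA c n T + pA c n T)) (bst₂ q₁ q₂ w₁ w₂ (subb₂ q₁ q₂ w₁ w₂ c n T E
    (24 * (E.length + 1) * (k * k) * N))) (steps E.length k N) ([(E, 1)], 0) r).2 * q₁ ^ n,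
    q₂ ^ n * (w₂ * q₁) ^ E.length)

lemma Ex_prod (a : ℕ) (F G : List Bool → ℝ) :
    Ex (a + a) (fun y => F (y.take a) * G (y.drop a)) = Ex a F * Ex a G := by
  rw [Ex_split (Nat.le_add_right a a) fun x y => F x * G y, Nat.add_sub_cancel, mul_comm, ← Ex_mul]
  exact Ex_congr fun x _ => by rw [Ex_mul, mul_comm]

theorem ras₂_spec {q₁ q₂ w₁ w₂ : ℕ} (g1 : q₂ ≤ q₁) (g2 : 0 < q₂) (h1 : 0 < w₁) (h2 : 0 < w₂) :
    ∃ c C : ℕ, ∀ (n T : ℕ) (E : EL), (∀ e ∈ E, e.1 < n ∧ e.2 < n) → ∀ k N l : ℕ, 0 < k → 0 < T →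
      exp (C * (n / T + 1)) ^ 2 ≤ N → (2 + (pA c n T + pA c n T)) * steps E.length k N ≤ l →
      3 / 4 ≤ Ex l fun r => if |((ras₂ q₁ q₂ w₁ w₂ c n T E k N r).1 : ℝ) /
        (ras₂ q₁ q₂ w₁ w₂ c n T E k N r).2 - ZL (log (w₁ / w₂)) (log (q₁ / q₂)) n E| ≤
        ZL (log (w₁ / w₂)) (log (q₁ / q₂)) n E / k then 1 else 0 := by
  have g0 : 0 < q₁ := g2.trans_le g1
  obtain ⟨c₀, C, H⟩ := est_spec g1 g2 h1 h2
  refine ⟨c₀, C, fun n T E hE k N l hk T0 hN hl => ?_⟩
  have N0 : (0 : ℝ) < N := lt_of_lt_of_le (by positivity) hN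
  set Y := ZL (log (w₁ / w₂)) (log (q₁ / q₂)) n with hY
  obtain ⟨A, a1, a2, a3⟩ := H n T (pA c₀ n T) E T0 le_rfl hE
  set c : ℝ := ((w₂ * q₁ : ℕ) : ℝ) with hc
  have c0 : 0 < c := by positivity
  have Y0 : 0 < Y E := Zf_pos
  set N' := 24 * (E.length + 1) * (k * k) * N with hN'
  have e0 : (N' : ℝ) = 24 * (E.length + 1) * (k * k) * N := by rw [hN']; push_cast; rfl
  have N1 : (0 : ℝ) < N' := by rw [e0]; positivity
  have hb := boost₂ g0 g2 h1 h2 E hE (sub := subb₂ q₁ q₂ w₁ w₂ c₀ n T E N')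
    (Z := c ^ E.length * Y E) (κ := 3 * N * (c ^ E.length * Y E) / N')
    (C := 3 * N' * N / (c ^ E.length * Y E)) (k := k) (c := pA c₀ n T + pA c₀ n T)
    (by simp [mass, hc, hY]) (by positivity) (by positivity) (Nat.cast_pos.2 hk) (fun p hp => by
      obtain ⟨B, b1, b2, b3⟩ := H n T (pA c₀ n T) p.1 T0 le_rfl hp
      have v0 : 0 ≤ mass q₁ q₂ w₁ w₂ n p := mass_nonneg p
      have d0 : ∀ y, subb₂ q₁ q₂ w₁ w₂ c₀ n T E N' y p = true ↔ N' * mass q₁ q₂ w₁ w₂ n p *
          B (y.take (pA c₀ n T)) ≤ c ^ E.length * Y E * A (y.drop (pA c₀ n T)) := fun y => by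
        obtain ⟨-, u1, u2⟩ := a1 (y.drop (pA c₀ n T))
        obtain ⟨-, u3, u4⟩ := b1 (y.take (pA c₀ n T))
        rw [subb₂]
        generalize est q₁ q₂ w₁ w₂ c₀ n T E _ = x at u1 u2 ⊢
        generalize est q₁ q₂ w₁ w₂ c₀ n T p.1 _ = x' at u3 u4 ⊢
        rw [cmpb, decide_eq_true_iff, ← Nat.cast_le (α := ℝ),
          ← mul_le_mul_iff_left₀ (mul_pos u1 u3) (c := c ^ E.length * _ * _), mass, ← hc, ← hY]
        simp only [Nat.cast_mul _ x.2, Nat.cast_mul _ x'.2, Nat.cast_mul _ (_ * _),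
          Nat.cast_mul _ x.1, Nat.cast_mul _ x'.1, Nat.cast_pow, u2, u4, ← hc]
        push_cast
        constructor <;> intro h <;> linarith
      have d1 : ∀ F : List Bool → ℝ, (∀ y, 0 < F y) → 0 ≤ Ex (pA c₀ n T) F := fun F h =>
        (Ex_const _ 0).ge.trans (Ex_mono fun y _ => (h y).le)
      have d2 := (mul_le_mul b3 a2 (d1 _ fun y => (a1 y).1) (exp_pos _).le).trans (sq (exp _) ▸ hN)
      have d3 := (mul_le_mul b2 a3 (d1 _ fun y => inv_pos.2 (a1 y).1) (exp_pos _).le).trans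
        (sq (exp _) ▸ hN)
      rw [← Ex_prod] at d2 d3
      rw [le_div_iff₀ N1, div_mul_eq_mul_div, le_div_iff₀ (by positivity)]
      constructor
      · have := Ex_mono (n := pA c₀ n T + pA c₀ n T) (f := fun y => N' * mass q₁ q₂ w₁ w₂ n p *
            (subb₂ q₁ q₂ w₁ w₂ c₀ n T E N' y p).toNat) (g := fun y => c ^ E.length * Y E *
            ((B (y.take (pA c₀ n T)))⁻¹ * A (y.drop (pA c₀ n T)))) fun y _ => by
          have u1 := (a1 (y.drop (pA c₀ n T))).1
          have u2 := (b1 (y.take (pA c₀ n T))).1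
          cases q : subb₂ q₁ q₂ w₁ w₂ c₀ n T E N' y p
          · simp only [Bool.toNat_false, Nat.cast_zero, mul_zero]
            positivity
          · rw [Bool.toNat_true, Nat.cast_one, mul_one, mul_left_comm, le_inv_mul_iff₀' u2]
            exact (d0 y).1 q
        rw [Ex_mul, Ex_mul] at this
        linarith [mul_le_mul_of_nonneg_left d2 (show 0 ≤ c ^ E.length * Y E by positivity)]
      · have := Ex_mono (n := pA c₀ n T + pA c₀ n T) (f := fun y => c ^ E.length * Y E *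
            (1 + -1 * (subb₂ q₁ q₂ w₁ w₂ c₀ n T E N' y p).toNat)) (g := fun y => N' *
            mass q₁ q₂ w₁ w₂ n p * (B (y.take (pA c₀ n T)) * (A (y.drop (pA c₀ n T)))⁻¹))
            fun y _ => by
          have u1 := (a1 (y.drop (pA c₀ n T))).1
          have u2 := (b1 (y.take (pA c₀ n T))).1
          cases q : subb₂ q₁ q₂ w₁ w₂ c₀ n T E N' y p
          · rw [Bool.toNat_false, Nat.cast_zero, mul_zero, add_zero, mul_one, ← mul_assoc,
              le_mul_inv_iff₀ u1]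
            exact (not_le.1 (mt (d0 y).2 (by simp [q]))).le
          · simp only [Bool.toNat_true, Nat.cast_one, mul_one, add_neg_cancel, mul_zero]
            positivity
        rw [Ex_mul, Ex_mul, Ex_add, Ex_mul, Ex_const] at this
        linarith [mul_le_mul_of_nonneg_left d3 (show 0 ≤ N' * mass q₁ q₂ w₁ w₂ n p by positivity)])
    (by
      rw [div_mul_eq_mul_div, ← mul_div_assoc, ← mul_div_assoc, div_le_iff₀ N1, e0]
      nlinarith [show 0 ≤ (k : ℝ) ^ 2 * (N * (c ^ E.length * Y E)) by positivity])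
    (S := steps E.length k N) (by
      rw [steps, ← mul_assoc (_ / _), div_mul_cancel₀ _ (by positivity), e0]
      push_cast
      nlinarith [show (0 : ℝ) ≤ (E.length + 1) * (k * k) * N * N * E.length by positivity]) hl
  refine hb.trans_eq (Ex_congr fun r _ => if_congr ?_ rfl rfl)
  simp only [ras₂, ← hN']
  generalize (rit _ _ _ _ r : St).2 = x
  rw [show ((x * q₁ ^ n : ℕ) : ℝ) / (q₂ ^ n * (w₂ * q₁) ^ E.length : ℕ) - Y E =
    (x * (q₁ / q₂) ^ n - c ^ E.length * Y E) / c ^ E.length by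
      rw [hc, div_pow]; push_cast; field_simp, abs_div, abs_of_pos (pow_pos c0 _),
    div_le_iff₀ (pow_pos c0 _), mul_div_assoc, mul_comm (Y E / k)]

variable {α : Type} [Enc α]

lemma pA_un (c : ℕ) {n T : α → ℕ} (hn : UN n) (hT : UN T) : UN fun a => pA c (n a) (T a) :=
  (pc_un c ((hn.add (UN.cst c)).add (UN.cst 1)) hT).mul (pR_un c ((hn.add (UN.cst c)).add (UN.cst 1)))

lemma cmpb_pt (d : ℕ) {W N : α → ℕ} {D E : α → EL} {x y : α → ℕ × ℕ} (h1 : PT W) (h2 : PT N)
    (h3 : PT D) (h4 : PT E) (h5 : PT x) (h6 : PT y) :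
    PT fun a => cmpb d (W a) (N a) (D a) (E a) (x a) (y a) :=
  le (mul (mul (mul h1 h2) (mul (pow_pt _ h3) (fst h5))) (snd h6))
    (mul (mul (pow_pt _ h4) (fst h6)) (snd h5))

lemma bst_pt (q₁ q₂ w₁ w₂ : ℕ) {sub : α → List Bool → EL × ℕ → Bool} {b S : α → ℕ}
    {r : α → List Bool} {E : α → EL} (k1 : PT fun p : α × List Bool × EL × ℕ => sub p.1 p.2.1 p.2.2)
    (hb : PT b) (hS : UN S) (h3 : PT E) (hr : PT r) :
    PT fun a => rit (b a) (bst₂ q₁ q₂ w₁ w₂ (sub a)) (S a) ([(E a, 1)], 0) (r a) := by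
  simp only [rit_eq]
  set d := 4 + w₂ * q₁ + w₁ * q₁ + w₁ * q₂ with hd
  have hW := (hS.add (UN.cst 1)).mul (UN.cst d)
  refine foldl_inv (blocks_pt hb hS hr) (by fun_prop) (cond (by fun_prop) (by fun_prop)
    (cond (by fun_prop) (by fun_prop) (pair (append (cond (k1.comp (F := fun p : α × St × List Bool =>
      (p.1, p.2.2.drop 2, p.2.1.1.headD ([], 0))) (by fun_prop)) (by unfold kids; fun_prop)
      (by unfold kids; fun_prop)) (by fun_prop)) (by fun_prop))))
    ((((Bd.const 2).mul ((hS.add (UN.cst 1)).bd.mul (((Bd.const 2).mul ((((Bd.const 2).mul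
      ((UN.len h3).bd.mul (((Bd.const 6).mul h3.sz_bd).add (Bd.const 3)))).add (Bd.const 1)).add
      hW.bd)).add (Bd.const 1)))).add (Bd.const 1)).add (hS.mul (hW.add (UN.cst 1))).bd)
    (fun a i s => s.1.length ≤ i + 1 ∧ sz s.2 ≤ i * ((i + 1) * d + 1) ∧ ∀ p ∈ s.1,
      Bnd (sz (E a)) p.1 ∧ p.1.length ≤ (E a).length ∧ sz p.2 ≤ (i + 1) * d)
    (fun a => ⟨le_rfl, by simp [sz_nat], List.forall_mem_singleton.2
      ⟨.self _, le_rfl, (sz_nat_le_self 1).trans (by omega)⟩⟩) ?_ ?_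
  · rintro a i ⟨_ | ⟨⟨D, W⟩, L⟩, c⟩ x - ⟨a1, a2, a3⟩
    · exact ⟨by simp [bst₂, bst], a2.trans (by gcongr <;> omega), by simp [bst₂, bst]⟩
    obtain ⟨⟨b1, b2, b3⟩, b4⟩ := List.forall_mem_cons.1 a3
    have b5 : ∀ p ∈ L, Bnd (sz (E a)) p.1 ∧ p.1.length ≤ (E a).length ∧ sz p.2 ≤ (i + 1 + 1) * d :=
      fun p hp => ⟨(b4 p hp).1, (b4 p hp).2.1, (b4 p hp).2.2.trans (by gcongr; omega)⟩
    simp only [List.length_cons] at a1 a2 b2 b3
    cases D with
    | nil =>
      refine ⟨by simp [bst₂, bst]; omega, (sz_add_le c W).trans ?_, b5⟩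
      nlinarith
    | cons e D =>
      have b6 : ∀ V, sz V ≤ sz W + 4 → (kids q₁ q₂ w₁ w₂ (e :: D) V).length ≤ 2 ∧
          ∀ p ∈ kids q₁ q₂ w₁ w₂ (e :: D) V, Bnd (sz (E a)) p.1 ∧ p.1.length ≤ (E a).length ∧
            sz p.2 ≤ (i + 1 + 1) * d := fun V hV => by
        have c1 : ∀ y, y + 4 ≤ d → sz (V * y) ≤ (i + 1 + 1) * d := fun y hy => by
          have := sz_mul_le V y
          have := sz_nat_le_self y
          rw [add_mul _ 1]
          omega
        rw [List.length_cons] at b2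
        refine ⟨le_rfl, List.forall_mem_cons.2 ⟨⟨b1.tail, by simp; omega, c1 _ (by omega)⟩,
          List.forall_mem_singleton.2 ⟨b1.tail.rl b1.headD.1 _, by simp; omega, c1 _ ?_⟩⟩⟩
        split_ifs <;> omega
      have b7 := b6 W (by omega)
      have b8 := b6 (4 * W) (by have := sz_mul_le 4 W; have := sz_nat_le_self 4; omega)
      simp only [bst₂, bst, List.isEmpty_cons, List.headD_cons, List.tail_cons, cond_false,
        List.length_append, List.forall_mem_append]
      refine and_left_comm.1 ⟨a2.trans (by gcongr <;> omega), ?_⟩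
      cases sub a _ (e :: D, W)
      · exact ⟨by have := b7.1; simp only [cond_false]; omega, b7.2, b5⟩
      · cases (x.take 2).headD false && (x.take 2).tail.headD false
        · exact ⟨by simp; omega, by simp, b5⟩
        · exact ⟨by have := b8.1; simp only [cond_true]; omega, b8.2, b5⟩
  · rintro a i ⟨L, c⟩ hi ⟨a1, a2, a3⟩
    rw [blocks, List.length_map, List.length_range] at hi
    rw [sz_prod]
    refine Nat.add_le_add (Nat.add_le_add_right (Nat.mul_le_mul_left 2 ((sz_list_le fun p hp =>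
      ?_).trans (Nat.mul_le_mul_right _ (a1.trans (Nat.succ_le_succ hi))))) 1)
      (a2.trans (by gcongr))
    obtain ⟨b1, b2, b3⟩ := a3 p hp
    rw [← Prod.mk.eta (p := p), sz_prod]
    exact Nat.add_le_add (Nat.add_le_add_right (Nat.mul_le_mul_left 2
      (b1.sz.trans (Nat.mul_le_mul_right _ b2))) 1) (b3.trans (by gcongr))

lemma ras₂_pt (q₁ q₂ w₁ w₂ c : ℕ) {r : α → List Bool} {E : α → EL} {n T k N : α → ℕ} (hn : UN n)
    (hT : UN T) (h3 : PT E) (hk : UN k) (hN : UN N) (hr : PT r)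
    (hB : Bd sz fun a => (1 + pM (n a + c + 1) * (n a + c + 1)) ^ T a) :
    PT fun a => ras₂ q₁ q₂ w₁ w₂ c (n a) (T a) (E a) (k a) (N a) (r a) := by
  have a0 := (pA_un c hn hT).pt
  have a1 := ((((UN.cst 24).mul ((UN.len h3).add (UN.cst 1))).mul (hk.mul hk)).mul hN).pt
  have a2 : Bd sz fun p : α × List Bool × EL × ℕ =>
    (1 + pM (n p.1 + c + 1) * (n p.1 + c + 1)) ^ T p.1 := hB.comp Prod.fst fst'.sz_bd
  exact pair (mul (snd (bst_pt q₁ q₂ w₁ w₂ (sub := fun a => subb₂ q₁ q₂ w₁ w₂ c (n a) (T a) (E a)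
    (24 * ((E a).length + 1) * (k a * k a) * N a)) (cmpb_pt _ (snd (snd snd')) (a1.comp fst')
      (fst (snd snd')) (h3.comp fst') (est_pt _ _ _ _ c (hn.comp fst') (hT.comp fst')
        (fst (snd snd')) (take_pt (fst snd') (a0.comp fst')) a2) (est_pt _ _ _ _ c (hn.comp fst')
        (hT.comp fst') (h3.comp fst') (drop_pt (fst snd') (a0.comp fst')) a2))
    (add (const 2) (add a0 a0)) (steps_un (UN.len h3) hk hN) h3 hr)) (hn.pow (const _)))
    (mul (hn.pow (const _)) (pow_pt _ h3))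

/-- the largest argument that the budget allows -/
def lim (f : ℕ → ℕ) (U l : ℕ) : ℕ := ((List.range U).filter fun j => decide (f (j + 1) ≤ l)).length

lemma lim_spec {f : ℕ → ℕ} (hf : Monotone f) (U l : ℕ) : lim f U l ≤ U ∧
    (lim f U l = 0 ∨ f (lim f U l) ≤ l) ∧ ∀ N ≤ U, f N ≤ l → N ≤ lim f U l := by
  have e : lim f U l = ((Finset.range U).filter fun j => f (j + 1) ≤ l).card := by
    rw [lim, ← List.toFinset_card_of_nodup (List.nodup_range.filter _)]
    congr 1
    ext j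
    simp
  refine ⟨(List.length_filter_le _ _).trans_eq List.length_range, or_iff_not_imp_right.2 fun q => ?_,
    fun N h1 h2 => ?_⟩
  · have := Finset.card_le_card (t := Finset.range (lim f U l - 1)) (s := (Finset.range U).filter
      fun j => f (j + 1) ≤ l) fun j hj => Finset.mem_range.2
        (by_contra fun z => q ((hf (by omega)).trans (Finset.mem_filter.1 hj).2))
    rw [← e, Finset.card_range] at this
    omega
  · rw [e, ← Finset.card_range N]
    exact Finset.card_le_card fun j hj => Finset.mem_filter.2 ⟨Finset.range_mono h1 hj,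
      (hf (Finset.mem_range.1 hj)).trans h2⟩

/-- the number of steps of a run -/
def pT (c n l : ℕ) : ℕ :=
  lim (fun j => (1 + pM (n + c + 1) * (n + c + 1)) ^ min j (n + c + 1)) (n + c + 1) l

lemma pT_spec (c n l : ℕ) : pT c n l ≤ n + c + 1 ∧
    (1 + pM (n + c + 1) * (n + c + 1)) ^ pT c n l ≤ l + 1 ∧
    (2 ^ ((8 * c + 10) * (2 * (n * Nat.log 2 n).sqrt + 2)) ≤ l →
      0 < pT c n l ∧ n ≤ (2 * (n * Nat.log 2 n).sqrt + 2) * pT c n l) := by
  obtain ⟨a1, a2, a3⟩ := lim_spec (f := fun j => (1 + pM (n + c + 1) * (n + c + 1)) ^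
    min j (n + c + 1)) (fun i j h => Nat.pow_le_pow_right (by omega) (min_le_min_right _ h))
    (n + c + 1) l
  rw [← pT] at a1 a2 a3
  refine ⟨a1, a2.elim (fun h => by simp [h]) fun h => ?_, fun h => ?_⟩
  · rw [min_eq_left a1] at h
    omega
  set y := 2 * (n * Nat.log 2 n).sqrt + 2 with hy
  set G := Nat.log 2 n + 1 with hG
  have b1 : n < 2 ^ G := Nat.lt_pow_succ_log_self one_lt_two n
  have b2 : G ≤ y := by
    have := Nat.le_sqrt.2 (Nat.mul_le_mul_right (Nat.log 2 n) (Nat.log_le_self 2 n))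
    omega
  have b3 : n * G ≤ y * y := by
    have := Nat.lt_succ_sqrt (n * Nat.log 2 n)
    rcases Nat.eq_zero_or_pos (Nat.log 2 n) with q | q
    · rw [hG, q] at b1 ⊢
      have := Nat.mul_le_mul (show 2 ≤ y by omega) (show 2 ≤ y by omega)
      omega
    · nlinarith
  have b4 : 1 + pM (n + c + 1) * (n + c + 1) ≤ 2 ^ ((4 * c + 5) * G) := by
    have d1 : n + c + 1 ≤ 2 ^ ((c + 1) * G) := by
      have := Nat.lt_two_pow_self (n := c)
      refine le_trans (show _ ≤ 2 ^ G * 2 ^ c by nlinarith) ?_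
      rw [← pow_add]
      exact Nat.pow_le_pow_right two_pos (by nlinarith)
    have d2 := Nat.pow_le_pow_left d1 4
    have d3 := Nat.one_le_two_pow (n := (c + 1) * G * 4)
    rw [← pow_mul] at d2
    refine le_trans (show _ ≤ 2 * 2 ^ ((c + 1) * G * 4) by rw [pM]; nlinarith) ?_
    rw [← pow_succ']
    exact Nat.pow_le_pow_right two_pos (by nlinarith)
  have b5 := Nat.div_mul_le_self y G
  have b6 := Nat.lt_div_mul_add (a := y) (show 0 < G by omega)
  have b7 := a3 (min (y / G + 1) (n + c + 1)) (min_le_right _ _) (le_trans (by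
    refine (Nat.pow_le_pow_left b4 _).trans ?_
    rw [← pow_mul]
    refine Nat.pow_le_pow_right two_pos ((Nat.mul_le_mul_left _
      ((min_le_left _ _).trans (min_le_left _ _))).trans ?_)
    nlinarith) h)
  refine ⟨(lt_min (Nat.succ_pos _) (Nat.succ_pos _)).trans_le b7, ?_⟩
  rcases min_le_iff.1 b7 with q | q
  · refine Nat.le_of_mul_le_mul_right (b3.trans ?_) (show 0 < G by omega)
    rw [mul_assoc]
    exact Nat.mul_le_mul_left _ (by nlinarith)
  · nlinarith

/-- the whole algorithm -/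
def scheme (q₁ q₂ w₁ w₂ c n : ℕ) (E : EL) (k : ℕ) (r : List Bool) : ℕ × ℕ :=
  ras₂ q₁ q₂ w₁ w₂ c n (pT c n r.length) E k (lim (fun j => (2 + (pA c n (pT c n r.length) +
    pA c n (pT c n r.length))) * steps E.length k j) r.length r.length) r

theorem sqrtexp {q₁ q₂ w₁ w₂ : ℕ} (g1 : q₂ ≤ q₁) (g2 : 0 < q₂) (h1 : 0 < w₁) (h2 : 0 < w₂) :
    ∃ (M : ((List Bool × EL) × List Bool) × List Bool → ℕ × ℕ) (p : Polynomial ℕ) (C : ℕ), PT M ∧
      (∀ x, 0 < (M x).2) ∧ ∀ (u : List Bool) (E : EL) (k : List Bool) (l : ℕ),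
      (∀ e ∈ E, e.1 < u.length ∧ e.2 < u.length) → 0 < k.length →
      p.eval (sz ((u, E), k)) * 2 ^ (C * (u.length * Nat.log 2 u.length).sqrt) ≤ l →
      3 / 4 ≤ Ex l fun r => if |((M (((u, E), k), r)).1 : ℝ) / (M (((u, E), k), r)).2 -
        ZL (log (w₁ / w₂)) (log (q₁ / q₂)) u.length E| ≤
        ZL (log (w₁ / w₂)) (log (q₁ / q₂)) u.length E / k.length then 1 else 0 := by
  have g0 : 0 < q₁ := g2.trans_le g1
  obtain ⟨c, C, H⟩ := ras₂_spec g1 g2 h1 h2
  have u0 : UN fun x : (List Bool × EL) × List Bool => x.1.1.length := UN.len (fst fst')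
  have u1 := pA_un c u0 ((u0.add (UN.cst c)).add (UN.cst 1))
  obtain ⟨p, hp⟩ := ((UN.cst (2 ^ ((16 * C + (8 * c + 10)) * 2))).mul (((UN.cst 2).add
    (u1.add u1)).mul (steps_un (UN.len (snd fst')) (UN.len snd') (UN.cst 1)))).bd
  refine ⟨fun x => scheme q₁ q₂ w₁ w₂ c x.1.1.1.length x.1.1.2 x.1.2.length x.2, p,
    (16 * C + (8 * c + 10)) * 2, ?_, fun x => by simp only [scheme, ras₂]; positivity,
    fun u E k l hE hk hl => ?_⟩
  · have v0 : UN fun x : ((List Bool × EL) × List Bool) × List Bool => x.1.1.1.length :=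
      u0.comp fst'
    have v1 := (v0.add (UN.cst c)).add (UN.cst 1)
    have v2 : UN fun x : ((List Bool × EL) × List Bool) × List Bool => x.2.length := UN.len snd'
    have v3 : UN fun x : ((List Bool × EL) × List Bool) × List Bool =>
        pT c x.1.1.1.length x.2.length := UN.len (PT.filter v1.range (le ((UN.min (succ snd')
      (v1.comp fst')).pow ((add (const 1) ((pM_un v1).mul v1).pt).comp fst')) (v2.pt.comp fst')))
    have v4 := (pA_un c v0 v3).pt
    exact ras₂_pt _ _ _ _ c v0 v3 (snd (fst fst')) (UN.len (snd fst')) (UN.len (PT.filter v2.range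
      (le (mul ((add (const 2) (add v4 v4)).comp fst') (by unfold steps; fun_prop))
        (v2.pt.comp fst')))) snd' ((v2.bd.add (Bd.const 1)).of_le fun a => (pT_spec _ _ _).2.1)
  · set y := 2 * (u.length * Nat.log 2 u.length).sqrt + 2 with hy
    obtain ⟨a1, -, a2⟩ := pT_spec c u.length l
    have b0 := (Nat.mul_le_mul_right _ (hp ((u, E), k))).trans hl
    rw [mul_right_comm, ← pow_add, show (16 * C + (8 * c + 10)) * 2 + (16 * C + (8 * c + 10)) * 2 *
      (u.length * Nat.log 2 u.length).sqrt = 8 * C * y + 8 * C * y + (8 * c + 10) * y by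
        rw [hy]; ring, pow_add, pow_add] at b0
    dsimp only at b0
    have b1 : 0 < steps E.length k.length 1 := by unfold steps; positivity
    have b2 : 2 ^ (8 * C * y) * 2 ^ (8 * C * y) * 2 ^ ((8 * c + 10) * y) ≤ l :=
      (Nat.le_mul_of_pos_right _ (Nat.mul_pos (by omega) b1)).trans b0
    obtain ⟨a3, a4⟩ := a2 ((Nat.le_mul_of_pos_left _ (by positivity)).trans b2)
    obtain ⟨-, c1, c2⟩ := lim_spec (f := fun j => (2 + (pA c u.length (pT c u.length l) +
      pA c u.length (pT c u.length l))) * steps E.length k.length j) (fun i j h => by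
        simp only [steps]
        gcongr) l l
    have c3 := c2 (2 ^ (8 * C * y)) (((Nat.le_mul_self _).trans
      (Nat.le_mul_of_pos_right _ (by positivity))).trans b2) (le_trans (by
        have : pA c u.length (pT c u.length l) ≤ pA c u.length (u.length + c + 1) := by
          unfold pA pc
          gcongr
        have d := Nat.one_le_two_pow (n := 8 * C * y)
        generalize 2 ^ (8 * C * y) = N at d
        rw [mul_left_comm]
        refine Nat.mul_le_mul (by omega) (le_trans ?_ (Nat.mul_le_mul_right _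
          (Nat.le_mul_of_pos_right _ (by positivity))))
        simp only [steps]
        nlinarith) b0)
    refine (H u.length _ E hE _ _ l hk a3 (le_trans ?_ (Nat.cast_le.2 c3)) (c1.resolve_left
      (c3.trans_lt' (by positivity)).ne')).trans_eq (Ex_congr fun r hr => by simp only [scheme, hr])
    have d1 : (u.length : ℝ) / pT c u.length l ≤ y := by
      rw [div_le_iff₀ (Nat.cast_pos.2 a3)]
      exact_mod_cast a4
    have d2 : (1 : ℝ) ≤ y := Nat.one_le_cast.2 (by omega)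
    have d3 := mul_le_mul_of_nonneg_left (show 1 / 2 ≤ log 2 by linarith [log_two_gt_d9])
      (show (0 : ℝ) ≤ 8 * C * y by positivity)
    rw [← exp_nat_mul, ← le_log_iff_exp_le (by positivity), Nat.cast_pow, log_pow]
    push_cast
    nlinarith [mul_le_mul_of_nonneg_left (show (u.length : ℝ) / pT c u.length l + 1 ≤ 2 * y by
      linarith) (Nat.cast_nonneg (α := ℝ) C)]

end Pool.Agent.Lib.MP_9bdb70_lc
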