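import Pool.Agent.Lib.MP_9bdb70_lc.Ogd

/-! Random shifts make the concave extension of a supermodular function smooth. -/

namespace Pool.Agent.Lib.MP_9bdb70_lc

open Finset
open scoped BigOperators

variable {m : ℕ}

lemma layer (x : Fin m → ℕ) {T : ℕ} (hT : ∀ e, x e ≤ T) (y : Fin m → ℝ) :
    ∑ e, x e * y e = ∑ t ∈ range T, ∑ e, if t < x e then y e else 0 := by
  rw [sum_comm]
  refine sum_congr rfl fun e _ => ?_
  rw [← sum_filter, sum_const, nsmul_eq_mul, show (range T).filter (fun j => j < x e) = range (x e) by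
    ext j
    have := hT e
    simp only [mem_range, mem_filter]
    omega, card_range]

lemma interp {h : (Fin m → ℕ) → Fin m → ℝ} {l c : ℝ} (hl : 0 ≤ l)
    (H1 : ∀ V V' e (r : ℕ), (∀ i, V' i + V e ≤ V i + V' e + r) → h V' e ≤ h V e + r * l)
    (H2 : ∀ V, ∑ e, h V e = c) (V V' : Fin m → ℕ) :
    -(2 * l * ∑ e, ((V' e : ℝ) - V e) ^ 2) ≤ ∑ e, (V' e - V e) * (h V' e - h V e) := by
  have k1 : ∀ X Y : Fin m → ℕ, (∀ e, X e ≤ Y e) →
      ∑ e, |h Y e - h X e| ≤ 2 * l * ∑ e, ((Y e - X e : ℕ) : ℝ) := fun X Y hX => by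
    have : ∑ e, (h Y e - h X e + 2 * l * (Y e - X e : ℕ)) = 2 * l * ∑ e, ((Y e - X e : ℕ) : ℝ) := by
      rw [sum_add_distrib, sum_sub_distrib, H2, H2, mul_sum, sub_self, zero_add]
    rw [← this]
    refine sum_le_sum fun e _ => ?_
    have := H1 Y X e (Y e - X e) fun i => by have := hX i; have := hX e; omega
    have := mul_nonneg hl (Nat.cast_nonneg (α := ℝ) (Y e - X e))
    rw [abs_le]
    constructor <;> linarith
  have k2 : ∀ X Y : Fin m → ℕ, ∑ e, |h Y e - h X e| ≤
      2 * l * ∑ e, ((Y e - X e + (X e - Y e) : ℕ) : ℝ) := fun X Y => by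
    have a := k1 (fun e => min (X e) (Y e)) X fun e => min_le_left _ _
    have b := k1 (fun e => min (X e) (Y e)) Y fun e => min_le_right _ _
    simp only [show ∀ x y : ℕ, x - min x y = x - y by omega,
      show ∀ x y : ℕ, y - min x y = y - x by omega] at a b
    simp only [Nat.cast_add, sum_add_distrib, mul_add]
    refine le_trans ?_ (add_le_add b a)
    rw [← sum_add_distrib]
    exact sum_le_sum fun e _ => (abs_sub_le _ (h (fun e => min (X e) (Y e)) e) _).trans_eq
      (by rw [abs_sub_comm (h X e)])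
  set D : Fin m → ℕ := fun e => V' e - V e + (V e - V' e) with hD
  have k3 : ∀ e, |(V' e : ℝ) - V e| = D e := fun e => by
    simp only [hD]
    rcases le_total (V e) (V' e) with q | q
    · rw [Nat.sub_eq_zero_of_le q, add_zero, Nat.cast_sub q, abs_of_nonneg (by simpa)]
    · rw [Nat.sub_eq_zero_of_le q, zero_add, Nat.cast_sub q, abs_sub_comm, abs_of_nonneg (by simpa)]
  have k4 : ∀ e, D e ≤ ∑ e, D e := fun e => single_le_sum (fun _ _ => Nat.zero_le _) (mem_univ e)
  refine (abs_le.1 ((abs_sum_le_sum_abs _ _).trans ?_)).1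
  simp only [abs_mul, ← sq_abs (_ - _ : ℝ), k3, sq]
  rw [layer D k4, layer D k4, mul_sum]
  refine sum_le_sum fun t _ => ?_
  set U : Fin m → ℕ := fun e => max (min (V' e) (V e + t)) (V e - t) with hU
  have a := k2 U V'
  have b : 2 * l * ∑ e, (if t < D e then (D e : ℝ) else 0) = 2 * l * ∑ e, ((V' e - U e +
      (U e - V' e) : ℕ) : ℝ) + ∑ e, if t < D e then (2 * t : ℕ) * l else 0 := by
    rw [mul_sum, mul_sum, ← sum_add_distrib]
    refine sum_congr rfl fun e _ => ?_
    split_ifs with q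
    · rw [show D e = V' e - U e + (U e - V' e) + t by simp only [hD, hU] at q ⊢; omega]
      push_cast
      ring
    · rw [show V' e - U e + (U e - V' e) = 0 by simp only [hD, hU] at q ⊢; omega]
      simp
  rw [b]
  refine le_trans ?_ (add_le_add a le_rfl)
  rw [← sum_add_distrib]
  refine sum_le_sum fun e _ => ?_
  split_ifs
  · refine (abs_sub_le _ (h U e) _).trans (add_le_add le_rfl (abs_le.2 ⟨?_, ?_⟩))
    · linarith [H1 U V e (2 * t) fun i => by simp only [hU]; omega]
    · linarith [H1 V U e (2 * t) fun i => by simp only [hU]; omega]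
  · simp

variable {f : Finset (Fin m) → ℝ} {β : ℝ} {N : ℕ} [NeZero N]

/-- the concave extension -/
def lov (f : Finset (Fin m) → ℝ) (x : Fin m → ℕ) : ℝ := ∑ e, x e * marg f x e

lemma le_marg (hf : Sup f β) (w : Fin m → ℕ) (S : Finset (Fin m)) :
    f S - f ∅ ≤ ∑ e ∈ S, marg f w e := (greedy hf (okey_inj w) S).1

lemma sum_marg (hf : Sup f β) (w : Fin m → ℕ) : ∑ e, marg f w e = f univ - f ∅ :=
  (greedy hf (okey_inj w) univ).2 fun _ _ _ _ => mem_univ _

lemma lov_le (hf : Sup f β) (x w : Fin m → ℕ) : lov f x ≤ ∑ e, x e * marg f w e := by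
  have k : ∀ e, x e ≤ ∑ e, x e := fun e => single_le_sum (fun _ _ => Nat.zero_le _) (mem_univ e)
  rw [lov, layer x k, layer x k]
  refine sum_le_sum fun t _ => ?_
  rw [← sum_filter, ← sum_filter]
  refine le_trans (le_of_eq ((greedy hf (okey_inj x) _).2 fun e he i hi => ?_)) (le_marg hf w _)
  have := okey_lt.1 hi
  simp only [mem_filter, mem_univ, true_and] at he ⊢
  omega

/-- the smoothed increments -/
noncomputable def hz (f : Finset (Fin m) → ℝ) (N : ℕ) (V : Fin m → ℕ) (e : Fin m) : ℝ :=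
  𝔼 Z : Fin m → Fin N, marg f (fun i => V i + Z i) e

/-- the smoothed extension -/
noncomputable def ph (f : Finset (Fin m) → ℝ) (N : ℕ) (V : Fin m → ℕ) : ℝ :=
  𝔼 Z : Fin m → Fin N, lov f fun i => V i + Z i

lemma marg_bd (hf : Sup f β) (h1 : ∀ A e, f (insert e A) ≤ f A) (w : Fin m → ℕ) (e : Fin m) :
    -β ≤ marg f w e ∧ marg f w e ≤ 0 :=
  ⟨(abs_le.1 (hf.bd _ _ (by simp [pre]))).1, sub_nonpos.2 (h1 _ _)⟩

lemma hz_shift (hf : Sup f β) (h1 : ∀ A e, f (insert e A) ≤ f A) (V V' : Fin m → ℕ) (e : Fin m)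
    (r : ℕ) (h : ∀ i, V' i + V e ≤ V i + V' e + r) : hz f N V' e ≤ hz f N V e + r * (β / N) := by
  have N0 : (0 : ℝ) < N := Nat.cast_pos.2 (NeZero.pos N)
  rw [hz, hz, ← expect_update e, ← expect_update e
    (fun Z : Fin m → Fin N => marg f (fun i => V i + Z i) e),
    ← Fintype.expect_const (ι := Fin m → Fin N) (r * (β / N)), ← expect_add_distrib]
  refine expect_ge fun Z => ?_
  set ψ : (Fin m → ℕ) → ℕ → ℝ := fun V j => marg f (fun i => V i + if i = e then j else Z i) e
    with hψ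
  have e1 : ∀ V : Fin m → ℕ, 𝔼 j, marg f (fun i => V i + Function.update Z e j i) e =
      (∑ j ∈ range N, ψ V j) / N := fun V => by
    rw [Fintype.expect_eq_sum_div_card, Fintype.card_fin, sum_range]
    simp only [hψ, Function.update_apply, apply_ite Fin.val]
  have e2 : ∑ j ∈ range N, ψ V' (r + j) ≤ ∑ j ∈ range N, ψ V j := sum_le_sum fun j _ =>
    hf.mono _ _ e (fun i hi => by
      have := h i
      simp only [pre, mem_filter, mem_univ, true_and, okey_lt, if_true] at hi ⊢
      split_ifs at hi ⊢ with q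
      · subst q
        omega
      · omega) (by simp [pre])
  have e3 := sum_range_add (ψ V') N r
  rw [add_comm N, sum_range_add] at e3
  have e4 := sum_nonpos fun j (_ : j ∈ range r) => show ψ V' j ≤ 0 from (marg_bd hf h1 _ _).2
  have e5 := card_nsmul_le_sum (range r) (fun j => ψ V' (N + j)) (-β) fun j _ => (marg_bd hf h1 _ _).1
  rw [card_range, nsmul_eq_mul] at e5
  rw [e1, e1, ← mul_div_assoc, ← add_div, div_le_div_iff_of_pos_right N0]
  linarith

lemma ph_step (hf : Sup f β) (h1 : ∀ A e, f (insert e A) ≤ f A) (hβ : 0 ≤ β) (W z z' : Fin m → ℕ) :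
    ph f N W + ∑ e, z' e * hz f N (fun i => W i + z i) e - 2 * (β / N) * ∑ e, ((z' e : ℝ) - z e) ^ 2 ≤
      ph f N fun i => W i + z' i := by
  have k : ∀ U y x : Fin m → ℕ, ph f N (fun i => U i + y i) + ∑ e, ((x e : ℝ) - y e) *
      hz f N (fun i => U i + x i) e ≤ ph f N fun i => U i + x i := fun U y x => by
    simp only [ph, hz, mul_expect]
    rw [← expect_sum_comm, ← expect_add_distrib]
    refine expect_ge fun Z => ?_
    refine (add_le_add (lov_le hf _ fun i => U i + x i + Z i) le_rfl).trans_eq ?_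
    rw [lov, ← sum_add_distrib]
    exact sum_congr rfl fun e _ => by push_cast; ring
  have a := k W z z'
  have b := k W (fun _ => 0) z
  have c := interp (h := hz f N) (c := f univ - f ∅) (by positivity) (hz_shift hf h1) (fun V => by
    simp only [hz]
    rw [← expect_sum_comm]
    simp only [sum_marg hf, Fintype.expect_const]) (fun i => W i + z i) fun i => W i + z' i
  simp only [Nat.cast_add, add_sub_add_left_eq_sub, mul_sub, sum_sub_distrib, add_zero,
    Nat.cast_zero, sub_zero, sub_mul] at a b c ⊢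
  linarith

lemma ph_zero (hf : Sup f β) (h1 : ∀ A e, f (insert e A) ≤ f A) :
    N * (f univ - f ∅) ≤ ph f N fun _ => 0 := le_expect univ_nonempty fun Z _ => by
  rw [← sum_marg hf fun i => 0 + Z i, mul_sum]
  refine sum_le_sum fun e _ => mul_le_mul_of_nonpos_right ?_ (marg_bd hf h1 _ _).2
  simp

lemma ph_le (hf : Sup f β) (h1 : ∀ A e, f (insert e A) ≤ f A) (W : Fin m → ℕ) :
    ph f N W ≤ lov f W := expect_le univ_nonempty fun Z _ => (lov_le hf _ W).trans
  (sum_le_sum fun e _ => mul_le_mul_of_nonpos_right (by simp) (marg_bd hf h1 _ _).2)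

end Pool.Agent.Lib.MP_9bdb70_lc
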