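import Pool.Agent.Lib.MP_9bdb70_lc.S2Ras

/-! Components of simple graphs, the rank of an edge list, and rescaling of the scheme. -/

namespace Pool.Agent.Lib.MP_9bdb70_lc

open Finset Real Pool.Agent.Lib.MP_b67cc8_lc Pool.Agent.Lib.helper82 PT

lemma card_comp {n : ℕ} (r : Fin n → Fin n → Prop) {R : Set (ℕ × ℕ)}
    (h : ∀ p, p ∈ R ↔ ∃ u v, r u v ∧ p = (u.val, v.val)) :
    (Nat.card (SimpleGraph.fromRel r).ConnectedComponent : ℝ) = kk n R := by
  classical
  set G := SimpleGraph.fromRel r with hG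
  have k : ∀ u v : Fin n, Conn R u v ↔ G.Reachable u v := fun u v => by
    refine ⟨fun q => ?_, fun q => ?_⟩
    · obtain ⟨_, a⟩ := (q (fun w => ∃ hw : w < n, G.Reachable u ⟨w, hw⟩) fun p hp => by
        obtain ⟨a, b, c, rfl⟩ := (h p).1 hp
        have : G.Reachable a b := by
          by_cases d : a = b
          · exact d ▸ .refl _
          · exact SimpleGraph.Adj.reachable ⟨d, .inl c⟩
        exact ⟨fun ⟨_, z⟩ => ⟨b.2, z.trans this⟩, fun ⟨_, z⟩ => ⟨a.2, z.trans this.symm⟩⟩).1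
          ⟨u.2, .refl _⟩
      exact a
    · induction (SimpleGraph.reachable_iff_reflTransGen u v).1 q with
      | refl => exact .refl _ _
      | tail a b ih =>
        refine (ih ((SimpleGraph.reachable_iff_reflTransGen _ _).2 a)).trans ?_
        rcases b.2 with c | c
        · exact Conn.of_mem ((h _).2 ⟨_, _, c, rfl⟩)
        · exact (Conn.of_mem ((h _).2 ⟨_, _, c, rfl⟩)).symm
  have : Fintype G.ConnectedComponent := Fintype.ofFinite _
  rw [kk, sum_range, ← sum_fiberwise univ G.connectedComponentMk, Nat.card_eq_fintype_card,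
    ← card_univ, card_eq_sum_ones, Nat.cast_sum]
  refine sum_congr rfl fun c _ => ?_
  obtain ⟨u, rfl⟩ := c.exists_rep
  rw [Nat.cast_one, ← sum_cl (R := R) u.2]
  refine (sum_bij (fun v _ => v.val) (fun v hv => mem_cl.2 ⟨v.2, (k u v).2
    (SimpleGraph.ConnectedComponent.exact (mem_filter.1 hv).2).symm⟩) (fun _ _ _ _ => Fin.ext)
    (fun v hv => ⟨⟨v, (mem_cl.1 hv).1⟩, mem_filter.2 ⟨mem_univ _, SimpleGraph.ConnectedComponent.sound
      ((k u ⟨v, _⟩).1 (mem_cl.1 hv).2).symm⟩, rfl⟩) fun _ _ => rfl).symm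

/-- the rank of an edge list -/
def rkl (E : EL) : ℕ :=
  ((List.range E.length).filter fun i => !cn (E.getD i (0, 0)) (E.drop (i + 1))).length

lemma kk_rkl {n : ℕ} (E : EL) (h : ∀ e ∈ E, e.1 < n ∧ e.2 < n) : kk n {x | x ∈ E} + rkl E = n := by
  induction E with
  | nil => simpa [rkl] using kk_empty
  | cons e E ih =>
    obtain ⟨a, b⟩ := List.forall_mem_cons.1 h
    have h1 : {x | x ∈ e :: E} = insert (e.1, e.2) {x | x ∈ E} := Set.ext fun x => List.mem_cons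
    rw [h1, kk_insert a.1 a.2, ← ih b, rkl, rkl, List.length_cons, List.range_succ_eq_map,
      List.filter_cons, List.filter_map]
    simp only [← cn_iff]
    cases q : cn e E <;> simp [q, Function.comp_def]

theorem sqrtexp_rk {x₁ x₂ w₁ w₂ : ℕ} (g1 : x₂ * w₂ ≤ x₁ * w₁) (g2 : 0 < x₂) (h1 : 0 < w₁)
    (h2 : 0 < w₂) :
    ∃ (M : ((List Bool × EL) × List Bool) × List Bool → ℕ × ℕ) (p : Polynomial ℕ) (C : ℕ), PT M ∧
      (∀ x, 0 < (M x).2) ∧ ∀ (u : List Bool) (E : EL) (k : List Bool) (l : ℕ) (T : ℝ),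
      (∀ e ∈ E, e.1 < u.length ∧ e.2 < u.length) → 0 < k.length →
      p.eval (sz ((u, E), k)) * 2 ^ (C * (u.length * Nat.log 2 u.length).sqrt) ≤ l →
      T * (x₁ / x₂ * (w₁ / w₂)) ^ u.length = (x₁ / x₂) ^ rkl E *
        ZL (log (w₁ / w₂)) (log (x₁ / x₂ * (w₁ / w₂))) u.length E →
      3 / 4 ≤ Ex l fun r => if |((M (((u, E), k), r)).1 : ℝ) / (M (((u, E), k), r)).2 - T| ≤
        T / k.length then 1 else 0 := by
  have g3 := mul_pos g2 h2
  have g0 : 0 < x₁ := Nat.pos_of_mul_pos_right (g3.trans_le g1)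
  obtain ⟨M, p, C, hM, h4, H⟩ := sqrtexp g1 g3 h1 h2
  have a1 : PT fun x : ((List Bool × EL) × List Bool) × List Bool => (List.range
    x.1.1.2.length).filter fun i => !cn (x.1.1.2.getD i (0, 0)) (x.1.1.2.drop (i + 1)) := by fun_prop
  refine ⟨fun x => ((M x).1 * (x₁ ^ rkl x.1.1.2 * (x₂ * w₂) ^ x.1.1.1.length),
    (M x).2 * (x₂ ^ rkl x.1.1.2 * (x₁ * w₁) ^ x.1.1.1.length)), p, C,
    pair (mul (fst hM) (mul (pow_pt _ a1) (pow_pt _ (fst (fst fst')))))
      (mul (snd hM) (mul (pow_pt _ a1) (pow_pt _ (fst (fst fst'))))),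
    fun x => by have := h4 x; positivity, fun u E k l T hE hk hl hT => ?_⟩
  refine (H u E k l hE hk hl).trans_eq (Ex_congr fun r _ => if_congr ?_ rfl rfl)
  push_cast
  rw [mul_div_mul_comm (x₁ : ℝ)]
  generalize ZL _ _ _ E = Z at hT ⊢
  have c0 : (0 : ℝ) < (x₁ / x₂) ^ rkl E / (x₁ / x₂ * (w₁ / w₂)) ^ u.length := by positivity
  rw [eq_div_of_mul_eq (by positivity) hT, mul_div_right_comm _ Z, mul_div_mul_comm,
    show ((x₁ : ℝ) ^ rkl E * (x₂ * w₂) ^ u.length / (x₂ ^ rkl E * (x₁ * w₁) ^ u.length)) =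
      (x₁ / x₂) ^ rkl E / (x₁ / x₂ * (w₁ / w₂)) ^ u.length by
        rw [div_mul_div_comm, div_pow, div_pow]; field_simp, mul_comm ((M _).1 / _ : ℝ), ← mul_sub, abs_mul,
    abs_of_pos c0, mul_div_assoc, mul_le_mul_iff_right₀ c0]

end Pool.Agent.Lib.MP_9bdb70_lc
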