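import Pool.Agent.Lib.MP_9bdb70_lc.Avg

/-! The logarithm of a partition function as the value of a sequential game against noise. -/

namespace Pool.Agent.Lib.MP_9bdb70_lc

open Finset Real
open scoped BigOperators FinsetFamily

/-- supermodular, with increments bounded by `B` -/
structure Sup {ι : Type} [DecidableEq ι] (F : Finset ι → ℝ) (B : ℝ) : Prop where
  mono : ∀ A A' e, A ⊆ A' → e ∉ A' → F (insert e A) - F A ≤ F (insert e A') - F A'
  bd : ∀ A e, e ∉ A → |F (insert e A) - F A| ≤ B

lemma Sup.union {ι : Type} [DecidableEq ι] {F : Finset ι → ℝ} {B : ℝ} (h : Sup F B) {Y Y' : Finset ι}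
    (hY : Y ⊆ Y') (C : Finset ι) (hC : Disjoint Y' C) :
    F (Y ∪ C) - F Y ≤ F (Y' ∪ C) - F Y' := by
  induction C using Finset.induction_on with
  | empty => simp
  | insert e C he ih =>
    rw [disjoint_insert_right] at hC
    have h1 := h.mono (Y ∪ C) (Y' ∪ C) e (union_subset_union_left hY) (by simp [hC.1, he])
    have h2 := ih hC.2
    rw [union_insert, union_insert]
    linarith

lemma Sup.full {ι : Type} [DecidableEq ι] {F : Finset ι → ℝ} {B : ℝ} (h : Sup F B) (X Y : Finset ι) :
    F X + F Y ≤ F (X ∩ Y) + F (X ∪ Y) := by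
  have := h.union (inter_subset_right (s₁ := X) (s₂ := Y)) (X \ Y) disjoint_sdiff
  rw [union_comm, sdiff_union_inter, union_sdiff_self_eq_union, union_comm] at this
  linarith

variable {m : ℕ} {X : Type} [Fintype X] [Nonempty X] {F : Finset (Fin m) → ℝ} {B δ : ℝ}
  {lam : X → ℝ}

/-- the elements with index at least `t` -/
noncomputable def up (m t : ℕ) : Finset (Fin m) := univ.filter fun i => t ≤ i.val

/-- the elements with index less than `t` -/
noncomputable def cut (t : ℕ) (A : Finset (Fin m)) : Finset (Fin m) := A.filter fun i => i.val < t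

/-- the partition function with the elements below `t` fixed -/
noncomputable def Zs (F : Finset (Fin m) → ℝ) (t : ℕ) (A : Finset (Fin m)) : ℝ :=
  ∑ C ∈ (up m t).powerset, exp (F (A ∪ C))

/-- the conditional log-odds of `e` -/
noncomputable def dd (F : Finset (Fin m) → ℝ) (e : Fin m) (A : Finset (Fin m)) : ℝ :=
  log (Zs F (e + 1) (insert e A)) - log (Zs F (e + 1) A)

noncomputable def sp (d : ℝ) : ℝ := log (1 + exp d)

lemma Zs_pos (t : ℕ) (A : Finset (Fin m)) : 0 < Zs F t A :=
  sum_pos (fun _ _ => exp_pos _) (powerset_nonempty _)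

lemma Zs_top (A : Finset (Fin m)) : Zs F m A = exp (F A) := by
  have : up m m = ∅ := filter_eq_empty_iff.2 fun i _ => not_le.2 i.2
  simp [Zs, this]

lemma Zs_zero : Zs F 0 ∅ = ∑ A, exp (F A) := by
  have : up m 0 = univ := filter_true_of_mem fun _ _ => Nat.zero_le _
  simp [Zs, this]

lemma log_Zs (e : Fin m) (A : Finset (Fin m)) :
    log (Zs F e A) = log (Zs F (e + 1) A) + sp (dd F e A) := by
  have h1 : up m e = insert e (up m (e + 1)) := by
    ext i
    simp only [up, mem_filter, mem_univ, true_and, mem_insert, Fin.ext_iff]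
    omega
  have h2 : Zs F e A = Zs F (e + 1) A + Zs F (e + 1) (insert e A) := by
    rw [Zs, h1, sum_powerset_insert (by simp [up])]
    simp only [Zs, union_insert, insert_union]
  have p1 := Zs_pos (F := F) (e + 1) A
  have p2 := Zs_pos (F := F) (e + 1) (insert e A)
  rw [h2, sp, dd, exp_sub, exp_log p1, exp_log p2, ← log_mul p1.ne' (by positivity)]
  congr 1
  field_simp

lemma dd_mono (h : Sup F B) {e : Fin m} {A A' : Finset (Fin m)} (hA : A ⊆ A')
    (h' : ∀ i ∈ A', i < e) : dd F e A ≤ dd F e A' := by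
  have key := (up m (e + 1)).four_functions_theorem (f₁ := fun C => exp (F (insert e A ∪ C)))
    (f₂ := fun C => exp (F (A' ∪ C))) (f₃ := fun C => exp (F (A ∪ C)))
    (f₄ := fun C => exp (F (insert e A' ∪ C))) (fun _ => (exp_pos _).le) (fun _ => (exp_pos _).le)
    (fun _ => (exp_pos _).le) (fun _ => (exp_pos _).le) (fun s hs t ht => by
      rw [← exp_add, ← exp_add, exp_le_exp]
      convert h.full (insert e A ∪ s) (A' ∪ t) using 3
      · ext i
        have a1 := @hA i
        have a2 := h' i
        have a3 : i ∈ s → e < i := fun q => (mem_filter.1 (hs q)).2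
        have a4 : i ∈ t → e < i := fun q => (mem_filter.1 (ht q)).2
        simp only [mem_union, mem_inter, mem_insert]
        grind
      · ext i
        have a1 := @hA i
        simp only [mem_union, mem_insert]
        grind) Subset.rfl Subset.rfl
  rw [powerset_infs_powerset_self, powerset_sups_powerset_self] at key
  have := log_le_log (mul_pos (Zs_pos _ _) (Zs_pos _ _)) key
  rw [log_mul (Zs_pos _ _).ne' (Zs_pos _ _).ne'] at this
  change _ ≤ log (Zs F (e + 1) A * Zs F (e + 1) (insert e A')) at this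
  rw [log_mul (Zs_pos _ _).ne' (Zs_pos _ _).ne'] at this
  unfold dd
  linarith

lemma dd_bd (h : Sup F B) {e : Fin m} {A : Finset (Fin m)} (h' : ∀ i ∈ A, i < e) :
    |dd F e A| ≤ B := by
  have k : ∀ C ∈ (up m (e + 1)).powerset, |F (insert e A ∪ C) - F (A ∪ C)| ≤ B := fun C hC => by
    rw [insert_union]
    refine h.bd _ _ fun q => (mem_union.1 q).elim (fun q => lt_irrefl _ (h' e q)) fun q => ?_
    simpa [up] using mem_powerset.1 hC q
  have k1 : Zs F (e + 1) (insert e A) ≤ Zs F (e + 1) A * exp B := by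
    rw [Zs, Zs, sum_mul]
    refine sum_le_sum fun C hC => ?_
    rw [← exp_add, exp_le_exp]
    linarith [(abs_le.1 (k C hC)).2]
  have k2 : Zs F (e + 1) A ≤ Zs F (e + 1) (insert e A) * exp B := by
    rw [Zs, Zs, sum_mul]
    refine sum_le_sum fun C hC => ?_
    rw [← exp_add, exp_le_exp]
    linarith [(abs_le.1 (k C hC)).1]
  have l1 := log_le_log (Zs_pos _ _) k1
  have l2 := log_le_log (Zs_pos _ _) k2
  rw [log_mul (Zs_pos _ _).ne' (exp_pos _).ne', log_exp] at l1 l2
  rw [dd, abs_le]
  constructor <;> linarith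

/-- the decision on `e` depends only on the noise up to `e` -/
def Adapted (S : (Fin m → X) → Finset (Fin m)) : Prop :=
  ∀ e u u', (∀ i ≤ e, u i = u' i) → (e ∈ S u ↔ e ∈ S u')

/-- the value of a strategy -/
noncomputable def val (F : Finset (Fin m) → ℝ) (lam : X → ℝ) (S : (Fin m → X) → Finset (Fin m)) :
    ℝ := 𝔼 u, (F (S u) + ∑ e ∈ S u, lam (u e))

lemma cut_lt {e : Fin m} {A : Finset (Fin m)} : ∀ i ∈ cut e A, i < e := fun _ h =>
  (mem_filter.1 h).2

lemma tele {S : (Fin m → X) → Finset (Fin m)} (hS : Adapted S) :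
    val F lam S = log (∑ A, exp (F A)) + ∑ e : Fin m, 𝔼 u : Fin m → X,
      (𝔼 j, (if e ∈ S (Function.update u e j) then dd F e (cut e (S u)) + lam j else 0) -
        sp (dd F e (cut e (S u)))) := by
  set V : ℕ → ℝ := fun t => 𝔼 u : Fin m → X,
    (log (Zs F t (cut t (S u))) + ∑ e ∈ cut t (S u), lam (u e)) with hV
  have h0 : V 0 = log (∑ A, exp (F A)) := by
    simp [hV, cut, Zs_zero]
  have h1 : V m = val F lam S := by
    have : ∀ A : Finset (Fin m), cut m A = A := fun A => filter_true_of_mem fun i _ => i.2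
    simp only [hV, this, Zs_top, log_exp, val]
  rw [← h0, ← h1, ← sub_eq_iff_eq_add', ← sum_range_sub V, ← Fin.sum_univ_eq_sum_range
    fun t => V (t + 1) - V t]
  refine sum_congr rfl fun e _ => ?_
  have h2 : V (e + 1) - V e = 𝔼 u : Fin m → X,
      ((if e ∈ S u then dd F e (cut e (S u)) + lam (u e) else 0) - sp (dd F e (cut e (S u)))) := by
    rw [hV, ← expect_sub_distrib]
    refine expect_congr rfl fun u _ => ?_
    rw [log_Zs]
    split_ifs with he
    · have : cut (e + 1) (S u) = insert e (cut e (S u)) := by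
        ext i
        simp only [cut, mem_filter, mem_insert]
        constructor
        · rintro ⟨a, b⟩
          by_cases q : i = e
          · exact Or.inl q
          · exact Or.inr ⟨a, by have := Fin.val_ne_of_ne q; omega⟩
        · rintro (rfl | ⟨a, b⟩)
          · exact ⟨he, by omega⟩
          · exact ⟨a, by omega⟩
      rw [this, sum_insert (by simp [cut]), dd]
      ring
    · have : cut (e + 1) (S u) = cut e (S u) := filter_congr fun i hi => by
        have : i ≠ e := fun q => he (q ▸ hi)
        have := Fin.val_ne_of_ne this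
        omega
      rw [this]
      ring
  rw [h2, ← expect_update e]
  refine expect_congr rfl fun u _ => ?_
  have h3 : ∀ j, cut e (S (Function.update u e j)) = cut e (S u) := fun j => by
    ext i
    simp only [cut, mem_filter]
    refine and_congr_left fun hi => hS i _ _ fun k hk => Function.update_of_ne ?_ _ _
    exact (lt_of_le_of_lt hk hi).ne
  simp only [h3, Function.update_self, expect_sub_distrib, Fintype.expect_const]

/-- the noise approximates logistic noise -/
def Soft (lam : X → ℝ) (B δ : ℝ) : Prop := ∀ d, |d| ≤ B → |𝔼 j, max 0 (d + lam j) - sp d| ≤ δ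

theorem val_le (h : Sup F B) (hl : Soft lam B δ) {S : (Fin m → X) → Finset (Fin m)}
    (hS : Adapted S) : val F lam S ≤ log (∑ A, exp (F A)) + m * δ := by
  rw [tele hS]
  refine add_le_add le_rfl ((sum_le_card_nsmul _ _ δ fun e _ => ?_).trans (by simp))
  refine expect_le univ_nonempty fun u _ => ?_
  refine le_trans (sub_le_sub_right (expect_ge fun j => ?_) _)
    (abs_le.1 (hl _ (dd_bd h (e := e) (A := cut e (S u)) cut_lt))).2
  split_ifs
  · exact le_max_right _ _
  · exact le_max_left _ _

/-- the greedy strategy with the elements of `T` forced -/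
noncomputable def gr (F : Finset (Fin m) → ℝ) (lam : X → ℝ) (T : Finset (Fin m)) (u : Fin m → X) :
    ℕ → Finset (Fin m)
  | 0 => ∅
  | t + 1 => gr F lam T u t ∪ univ.filter fun e =>
      e.val = t ∧ (e ∈ T ∨ 0 < dd F e (gr F lam T u t) + lam (u e))

omit [Fintype X] [Nonempty X]

lemma gr_lt (T : Finset (Fin m)) (u : Fin m → X) : ∀ t, ∀ i ∈ gr F lam T u t, i.val < t
  | 0 => by simp [gr]
  | t + 1 => fun i hi => by
    rcases mem_union.1 hi with h | h
    · exact (gr_lt T u t i h).trans (Nat.lt_succ_self t)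
    · have := (mem_filter.1 h).2.1
      omega

lemma gr_cut (T : Finset (Fin m)) (u : Fin m → X) (s : ℕ) :
    ∀ t, s ≤ t → cut s (gr F lam T u t) = gr F lam T u s := by
  intro t ht
  induction ht with
  | refl => exact filter_true_of_mem (gr_lt T u s)
  | step hle ih =>
    rw [gr, cut, filter_union, ← cut, ih, union_eq_left]
    intro i hi
    have h1 := (mem_filter.1 hi).2
    have h2 := (mem_filter.1 (mem_filter.1 hi).1).2.1
    have h3 : s ≤ _ := hle
    omega

lemma mem_gr (T : Finset (Fin m)) (u : Fin m → X) (e : Fin m) :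
    e ∈ gr F lam T u m ↔ e ∈ T ∨ 0 < dd F e (gr F lam T u e) + lam (u e) := by
  have h1 : e ∈ gr F lam T u m ↔ e ∈ gr F lam T u (e + 1) := by
    rw [← gr_cut T u (e + 1) m e.2]
    simp [cut]
  have h2 : e ∉ gr F lam T u e := fun h => lt_irrefl _ (gr_lt T u e e h)
  simp [h1, gr, h2]

lemma gr_mono (h : Sup F B) {T T' : Finset (Fin m)} {u u' : Fin m → X} :
    ∀ t, (∀ e : Fin m, e.val < t → e ∈ T' ∨ (e ∉ T ∧ u e = u' e)) →
      gr F lam T u t ⊆ gr F lam T' u' t
  | 0 => fun _ => Subset.rfl
  | t + 1 => fun hu => by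
    have ih := gr_mono h t fun e he => hu e (by omega)
    refine union_subset_union ih fun e he => ?_
    obtain ⟨-, rfl, h2⟩ := mem_filter.1 he
    refine mem_filter.2 ⟨mem_univ _, rfl, (hu e (by omega)).imp_right fun q => ?_⟩
    have := dd_mono h ih (gr_lt T' u' e)
    have := h2.resolve_left q.1
    rw [← q.2]
    linarith

lemma gr_adapted (h : Sup F B) (T : Finset (Fin m)) : Adapted fun u => gr F lam T u m := by
  intro e u u' hu
  have k : ∀ i : Fin m, i.val < e → u i = u' i := fun i hi => hu i hi.le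
  have : gr F lam T u e = gr F lam T u' e := Subset.antisymm
    (gr_mono h e fun i hi => (em (i ∈ T)).imp_right fun q => ⟨q, k i hi⟩)
    (gr_mono h e fun i hi => (em (i ∈ T)).imp_right fun q => ⟨q, (k i hi).symm⟩)
  simp only [mem_gr, this, hu e le_rfl]

lemma sp_le {d B : ℝ} (h : |d| ≤ B) : sp d ≤ B + 1 := by
  have h1 := exp_le_exp.2 (abs_le.1 h).2
  have h2 := one_le_exp ((abs_nonneg d).trans h)
  have h3 := add_one_le_exp (1 : ℝ)
  rw [sp, log_le_iff_le_exp (by positivity), exp_add]
  nlinarith

theorem le_val [Fintype X] [Nonempty X] (h : Sup F B) (hl : Soft lam B δ) {Λ : ℝ}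
    (hΛ : ∀ j, |lam j| ≤ Λ) (hδ : 0 ≤ δ) (T : Finset (Fin m)) :
    log (∑ A, exp (F A)) - m * δ - T.card * (2 * B + Λ + 1) ≤ val F lam fun u => gr F lam T u m := by
  rw [tele (gr_adapted h T)]
  have : ∑ e : Fin m, (-δ - if e ∈ T then 2 * B + Λ + 1 else 0) =
      -(m * δ) - T.card * (2 * B + Λ + 1) := by
    simp [sum_sub_distrib]
    ring
  rw [sub_sub, sub_eq_add_neg, neg_add', ← this]
  refine add_le_add le_rfl (sum_le_sum fun e _ => le_expect univ_nonempty fun u _ => ?_)
  have h1 : ∀ j, gr F lam T (Function.update u e j) e = gr F lam T u e := fun j => by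
    have k : ∀ i : Fin m, i.val < e → Function.update u e j i = u i := fun i hi =>
      Function.update_of_ne (Fin.ne_of_lt hi) _ _
    exact Subset.antisymm
      (gr_mono h e fun i hi => (em (i ∈ T)).imp_right fun q => ⟨q, k i hi⟩)
      (gr_mono h e fun i hi => (em (i ∈ T)).imp_right fun q => ⟨q, (k i hi).symm⟩)
  have h2 := dd_bd h (e := e) (gr_lt (F := F) (lam := lam) T u e)
  simp only [mem_gr, h1, Function.update_self, gr_cut T u e m e.2.le]
  generalize dd F e (gr F lam T u e) = d at h2 ⊢
  by_cases he : e ∈ T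
  · simp only [he, true_or, if_true]
    have := le_expect (f := fun j => d + lam j) (a := -B - Λ) univ_nonempty fun j _ => by
      linarith [(abs_le.1 h2).1, (abs_le.1 (hΛ j)).1]
    linarith [sp_le h2]
  · simp only [he, false_or, if_false, sub_zero]
    refine (abs_le.1 (hl d h2)).1.trans (sub_le_sub_right (expect_ge fun j => ?_) _)
    split_ifs with q
    · exact max_le q.le le_rfl
    · exact max_le le_rfl (not_lt.1 q)

end Pool.Agent.Lib.MP_9bdb70_lc
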