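import Pool.Agent.Lib.MP_9bdb70_lc.Alg
import Pool.Agent.Lib.MP_9bdb70_lc.Core

/-! The list algorithm computes the iteration. -/

namespace Pool.Agent.Lib.MP_9bdb70_lc

open Finset Real
open scoped BigOperators Classical

lemma cn_iff (E : EL) (p : ℕ × ℕ) : cn p E = true ↔ Conn {x | x ∈ E} p.1 p.2 := by
  rw [cn, decide_eq_true_iff]
  generalize h : E.length = k
  induction k generalizing E p with
  | zero =>
    rw [List.length_eq_zero_iff.1 h]
    exact ⟨fun q => (show p.1 = p.2 from q) ▸ .refl _ _, fun q => (q.iso (by simp)).symm⟩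
  | succ k ih =>
    obtain ⟨e, E, rfl⟩ := List.exists_cons_of_length_eq_add_one h
    have h1 : {x | x ∈ e :: E} = insert (e.1, e.2) {x | x ∈ E} := Set.ext fun x => List.mem_cons
    have h2 : rl e.1 e.2 '' {x | x ∈ E} = {x | x ∈ E.map (rl e.1 e.2)} :=
      Set.ext fun x => List.mem_map.symm
    rw [Function.iterate_succ_apply, h1, conn_rel, h2]
    exact ih _ (rl e.1 e.2 p) (by simpa using h)

lemma len_filter {β : Type} {m : ℕ} (f : Fin m → β) (P : β → Bool) :
    ((List.ofFn f).filter P).length = (univ.filter fun i => P (f i) = true).card := by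
  rw [card_filter]
  induction m with
  | zero => rfl
  | succ m ih =>
    rw [List.ofFn_succ, Fin.sum_univ_succ, ← ih, List.filter_cons]
    split_ifs <;> simp [add_comm]

lemma lk_map {l : List (List ℕ × ℕ)} (f : List ℕ × ℕ → ℕ) {k : List ℕ × ℕ} (h : k ∈ l) :
    lk (l.map fun k => (k, f k)) k = f k := by
  induction l with
  | nil => simp at h
  | cons b l ih =>
    by_cases q : b = k
    · simp [lk, q]
    · rw [← ih ((List.mem_cons.1 h).resolve_left (Ne.symm q)), lk, lk, List.map_cons,
        List.filter_cons_of_neg (by simpa using q)]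

lemma sum_range_fin {m : ℕ} (f : ℕ → ℕ) : ((List.range m).map f).sum = ∑ i : Fin m, f i :=
  sum_range f

variable {m D r r' : ℕ} {en : Fin m → ℕ × ℕ} {ad : List (List ℕ)}

lemma ed_eq (e : Fin m) : ed (ad, List.ofFn en) e = en e := by simp [ed]

lemma idx_eq : idx (ad, List.ofFn en) = List.range m := by simp [idx]

lemma mem_bl (h : num (ad, List.ofFn en) 0 = D) (e : Fin m) (t : ℕ) : ∀ j,
    j ∈ (bstep (ad, List.ofFn en))^[t] [e.val] ↔ ∃ i ∈ ball en D t e, i.val = j := by
  have k : ∀ i j : Fin m, nearb (ad, List.ofFn en) i j = true ↔ Near en D i j := fun i j => by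
    simp [nearb, Near, ed_eq, h, len_filter, inc, Inc, deg, Fin.ext_iff, and_or_left, or_and_right,
      exists_or]
    grind
  induction t with
  | zero => simp [ball, eq_comm]
  | succ t ih =>
    intro j
    rw [Function.iterate_succ_apply', bstep, idx_eq]
    simp only [List.mem_filter, List.mem_range, List.any_eq_true, ih, ball, mem_filter, mem_univ,
      true_and]
    constructor
    · rintro ⟨hj, _, ⟨i, hi, rfl⟩, q⟩
      exact ⟨⟨j, hj⟩, ⟨i, hi, (k i ⟨j, hj⟩).1 q⟩, rfl⟩
    · rintro ⟨j, ⟨i, hi, q⟩, rfl⟩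
      exact ⟨j.2, i, ⟨i, hi, rfl⟩, (k i j).2 q⟩

lemma exists_col (h : num (ad, List.ofFn en) 0 = D) (h2 : (par (ad, List.ofFn en) 2).length = r')
    (h3 : par (ad, List.ofFn en) 3 = List.range ((2 * D + 1) ^ r')) :
    ∃ c : Fin m → Fin ((2 * D + 1) ^ r'), (∀ e : Fin m, col (ad, List.ofFn en) e = c e) ∧
      ∀ e, ∀ i ∈ ball en D r' e, c i = c e → i = e := by
  set z : Inp := (ad, List.ofFn en) with hz
  set f : ℕ → ℕ := fun t => fresh z ((fun st => st ++ [fresh z st])^[t] []) with hf
  have k1 : ∀ t, (fun st => st ++ [fresh z st])^[t] [] = (List.range t).map f := fun t => by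
    induction t with
    | zero => rfl
    | succ t ih =>
      rw [Function.iterate_succ_apply', List.range_succ, List.map_append, ← ih]
      rfl
  have k2 : ∀ e : Fin m, f e < (2 * D + 1) ^ r' ∧ ∀ i ∈ ball en D r' e, i < e → f i ≠ f e := by
    intro e
    obtain ⟨k, a, b⟩ := exists_mem_notMem_of_card_lt_card (s := ((ball en D r' e).erase e).image
      fun i : Fin m => f i) (t := range ((2 * D + 1) ^ r')) (card_image_le.trans_lt
        ((card_erase_lt_of_mem (ball_self _ e)).trans_le
          ((ball_card e r').trans_eq (card_range _).symm)))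
    have k3 : ∀ k, k ∈ (par z 3).filter (fun k => (bl z 2 ((List.range e).map f).length).all
        fun j => decide (((List.range e).map f).length ≤ j) ||
          !decide (((List.range e).map f).getD j 0 = k)) ↔
        k < (2 * D + 1) ^ r' ∧ ∀ i ∈ ball en D r' e, i < e → f i ≠ k := fun k => by
      rw [h3, bl, h2]
      simp only [List.length_map, List.length_range, List.mem_filter, List.mem_range,
        List.all_eq_true, hz, mem_bl h, forall_exists_index, and_imp, forall_apply_eq_imp_iff₂]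
      refine and_congr_right fun _ => forall₂_congr fun i _ => ?_
      by_cases q : i < e
      · simp [q, show i.val < e.val from q]
      · simp [q, show e.val ≤ i.val from not_lt.1 q]
    have k4 := (k3 k).2 ⟨mem_range.1 a, fun i hi q z =>
      b (mem_image.2 ⟨i, mem_erase.2 ⟨q.ne, hi⟩, z⟩)⟩
    rw [← k3, show f e = fresh z ((List.range e).map f) by rw [← k1], fresh]
    generalize List.filter _ _ = l at k4 ⊢
    cases l with
    | nil => simp at k4
    | cons b l => exact List.mem_cons_self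
  refine ⟨fun e => ⟨f e, (k2 e).1⟩, fun e => by
    rw [col, cols, k1]; simp [hz], fun e i hi q => ?_⟩
  have q' : f i = f e := congrArg Fin.val q
  rcases lt_trichotomy i e with a | a | a
  · exact absurd q' ((k2 e).2 i hi a)
  · exact a
  · exact absurd q'.symm ((k2 i).2 e (ball_symm hi) a)

theorem apx_spec (a : ℝ) {b ε : ℝ} (hb : 0 ≤ b) (hε : 0 < ε) : ∃ ad : List (List ℕ),
    ∀ (n : ℕ) (E : EL), (∀ e ∈ E, e.1 < n ∧ e.2 < n) → 0 < (apx (ad, E)).1 ∧ 0 < (apx (ad, E)).2 ∧
      |log ((apx (ad, E)).1 / (apx (ad, E)).2) + b * n - log (ZL a b n E)| ≤ ε * E.length := by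
  obtain ⟨D, r, r', L, s, g, bz, P₁, P₂, th, p1, p2, p3, H⟩ := core a hb hε
  let ec : (Fin ((2 * D + 1) ^ r') → Fin (L + 1)) → List ℕ := fun η => List.ofFn fun j => (η j).val
  refine ⟨[D, g, bz, P₁, P₂] :: List.range r :: List.range r' :: List.range ((2 * D + 1) ^ r') ::
    List.range s :: List.range (2 * g) :: List.ofFn th :: univ.toList.map ec, fun n E hE => ?_⟩
  obtain ⟨m, en, rfl⟩ : ∃ (m : ℕ) (en : Fin m → ℕ × ℕ), E = List.ofFn en := ⟨_, _, E.ofFn_get.symm⟩
  generalize hz : (_, List.ofFn en) = z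
  have h0 : num z 0 = D := hz ▸ rfl
  have h1 : (par z 1).length = r := hz ▸ List.length_range
  have h3 : par z 3 = List.range ((2 * D + 1) ^ r') := hz ▸ rfl
  have h4 : par z 4 = List.range s := hz ▸ rfl
  have h5 : (par z 5).length = 2 * g := hz ▸ List.length_range
  have h6 : par z 6 = List.ofFn th := hz ▸ rfl
  have h7 : etas z = univ.toList.map ec := hz ▸ rfl
  have n1 : num z 1 = g := hz ▸ rfl
  have n2 : num z 2 = bz := hz ▸ rfl
  have n3 : num z 3 = P₁ := hz ▸ rfl
  have n4 : num z 4 = P₂ := hz ▸ rfl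
  have e1 : idx z = List.range m := hz ▸ idx_eq
  have e2 : ∀ e : Fin m, ed z e = en e := hz ▸ ed_eq
  have e3 : ∀ (e : Fin m) j, j ∈ bl z 1 e ↔ ∃ i ∈ ball en D r e, i.val = j := fun e => by
    rw [bl, h1, ← hz]
    exact mem_bl rfl e r
  obtain ⟨c, c1, c2⟩ : ∃ c : Fin m → Fin ((2 * D + 1) ^ r'), (∀ e : Fin m, col z e = c e) ∧
      ∀ e, ∀ i ∈ ball en D r' e, c i = c e → i = e := hz ▸ exists_col rfl List.length_range rfl
  have e4 : ∀ η j, (ec η).getD (j : Fin _) 0 = η j := fun η j => by simp [ec]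
  have e5 : ∀ (e : Fin m) η η', mixl z (pall z e) (ec η) (ec η') =
      ec (mix (pal c (ball en D r) e) η η') := fun e η η' => by
    refine List.ext_getElem (by simp [mixl, h3, ec]) fun j a b => ?_
    have hj : j < (2 * D + 1) ^ r' := by simpa [ec] using b
    have : j ∈ pall z e ↔ ⟨j, hj⟩ ∈ pal c (ball en D r) e := by
      simp only [pall, pal, List.mem_map, List.mem_filter, e3, mem_image, mem_filter,
        decide_eq_true_iff, Fin.ext_iff]
      constructor
      · rintro ⟨_, ⟨⟨i, a, rfl⟩, b⟩, q⟩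
        exact ⟨i, ⟨a, b⟩, c1 i ▸ q⟩
      · rintro ⟨i, ⟨a, b⟩, q⟩
        exact ⟨i, ⟨⟨i, a, rfl⟩, b⟩, c1 i ▸ q⟩
    simp only [mixl, h3, List.getElem_map, List.getElem_range, e4 η ⟨j, hj⟩, e4 η' ⟨j, hj⟩, this]
    simp only [ec, List.getElem_ofFn, mix]
    split_ifs with q <;> simp [q]
  have e6 : ∀ T η (e : Fin m), mpl z T (ec η) e =
      mp en bz (th (η (c e))) (fun i => lk T (ec η, i)) e := fun T η e => by
    have : {x | x ∈ prel z T (ec η) e} = en '' pre (okey fun i => lk T (ec η, i)) e := by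
      ext x
      simp only [prel, e1, Set.mem_ofPred_eq, List.mem_map, List.mem_filter, List.mem_range, pre,
        Set.mem_image, mem_coe, mem_filter, mem_univ, true_and, okey_lt, Bool.or_eq_true,
        Bool.and_eq_true, decide_eq_true_iff]
      exact ⟨fun ⟨i, ⟨a, b⟩, q⟩ => ⟨⟨i, a⟩, b, e2 ⟨i, a⟩ ▸ q⟩,
        fun ⟨i, b, q⟩ => ⟨i, ⟨i.2, b⟩, e2 i ▸ q⟩⟩
    rw [mpl, mp, c1, e4, h6, n2, e2, ← this, cond_eq_ite]
    simp [cn_iff, -List.ofFn_succ, Fin.is_le]
  have e7 : ∀ f : List ℕ → ℕ, ((etas z).map f).sum = ∑ η, f (ec η) := fun f => by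
    rw [h7, List.map_map, sum_map_toList]
    rfl
  have e8 : ∀ f : List ℕ × ℕ → ℕ, ((keys z).map f).sum = ∑ η, ∑ e : Fin m, f (ec η, e) := by
    intro f
    rw [keys, List.map_flatMap, List.flatMap_def, List.sum_flatten, List.map_map, e7]
    simp only [Function.comp, List.map_map, e1, sum_range_fin]
  have e9 : ∀ η (e : Fin m), (ec η, e.val) ∈ keys z := fun η e => by
    simp only [keys, h7, e1, List.mem_flatMap, List.mem_map, mem_toList, mem_univ, true_and]
    exact ⟨_, ⟨η, rfl⟩, e, List.mem_range.2 e.2, rfl⟩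
  set tb : ℕ → Tb := fun t => (fun T => (keys z).map fun k => (k, upd z T k))^[t]
    ((keys z).map fun k => (k, 0)) with htb
  have x1 : ∀ t η (e : Fin m), lk (tb (t + 1)) (ec η, e) = min s (lk (tb t) (ec η, e) + ∑ η',
      mp en bz (th (mix (pal c (ball en D r) e) η η' (c e)))
        (fun i => lk (tb t) (ec (mix (pal c (ball en D r) e) η η'), i)) e -
        Fintype.card (Fin ((2 * D + 1) ^ r') → Fin (L + 1)) * g) := fun t η e => by
    simp only [htb, Function.iterate_succ_apply']
    rw [lk_map _ (e9 η e), upd, h4, min_comm, ← UN.length_lt, e7, h7, n1]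
    simp only [e5, e6, List.length_map, length_toList, card_univ, Nat.lt_sub_iff_add_lt]
  have x2 : ∀ t η (e : Fin m), lk (tb t) (ec η, e) ≤ s := fun t η e => by
    cases t with
    | zero => exact (lk_map _ (e9 η e)).trans_le s.zero_le
    | succ t => exact x1 t η e ▸ min_le_left _ _
  have H1 := H m n en (fun e => hE _ (List.mem_ofFn.2 ⟨e, rfl⟩)) c c2
    (fun t η i => lk (tb t) (ec η, i)) (fun η e => lk_map _ (e9 η e)) x1
  have o1 : ∀ F : Tb → List ℕ × ℕ → ℕ, ((par z 4).map fun t => ((keys z).map fun k =>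
      min (lk (tbl z t) k) (par z 4).length * F (tbl z t) k).sum).sum =
      ∑ t ∈ range s, ∑ η, ∑ e : Fin m, lk (tb t) (ec η, e) * F (tb t) (ec η, e) := fun F => by
    rw [h4, sum_range_fin, sum_range]
    refine sum_congr rfl fun t _ => ?_
    have : tbl z t = tb t := by rw [tbl, h4, List.length_range, min_eq_left t.2.le]
    simp only [e8, this, List.length_range, min_eq_left (x2 _ _ _)]
  have o2 : ∀ T η (e : Fin m), min (mpl z T (ec η) e) (2 * g) =
      mp en bz (th (η (c e))) (fun i => lk T (ec η, i)) e := fun T η e => by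
    rw [e6, min_eq_left]
    have := p3 (η (c e))
    unfold mp
    split_ifs <;> omega
  have o3 : (outp z : ℝ) - outm z = ∑ t ∈ range s, ∑ η, ∑ e : Fin m, (lk (tb t) (ec η, e) : ℝ) *
      (mp en bz (th (η (c e))) (fun i => lk (tb t) (ec η, i)) e - g) := by
    rw [outp, outm, o1 fun T k => min (mpl z T k.1 k.2) (par z 5).length,
      o1 fun _ _ => min (num z 1) (par z 5).length]
    simp only [h5, o2, n1, min_eq_left (show g ≤ 2 * g by omega), mul_sub, sum_sub_distrib]
    push_cast
    rfl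
  simp only [apx, n3, n4]
  refine ⟨by positivity, by positivity, ?_⟩
  have q1 : (P₁ : ℝ) ≠ 0 := by positivity
  have q2 : (P₂ : ℝ) ≠ 0 := by positivity
  rw [← o3, log_div q1 q2] at H1
  rw [ZL_ofFn, List.length_ofFn]
  push_cast
  rw [log_div (by positivity) (by positivity), log_mul (by positivity) (by positivity),
    log_mul (by positivity) (by positivity), log_pow, log_pow, log_pow, log_pow]
  convert H1 using 4
  ring

end Pool.Agent.Lib.MP_9bdb70_lc
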